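import Pool.Agent.Gen.F5.X12CD13m4.S000
import Pool.Agent.Gen.F5.X12CD13m4.S001
import Pool.Agent.Gen.F5.X12CD13m4.S002
import Pool.Agent.Gen.F5.X12CD13m4.S003
import Pool.Agent.Gen.F5.X12CD13m4.S004
import Pool.Agent.Gen.F5.X12CD13m4.S005
import Pool.Agent.Gen.F5.X12CD13m4.S006
import Pool.Agent.Gen.F5.X12CD13m4.S007
import Pool.Agent.Gen.F5.X12CD13m4.S008
import Pool.Agent.Gen.F5.X12CD13m4.S009

set_option autoImplicit false
set_option maxRecDepth 100000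

namespace Pool.Agent.Gen.F5.X12CD13m4

open Pool.Agent.Helper72.F5

def n0 : Cl (O (nat_lit 4)) (R (nat_lit 104465))
    (p (nat_lit 0xc1) (nat_lit 0) (p (nat_lit 0xc9) (nat_lit 0) (p (nat_lit 0x10c0b8d0b0c9a) (nat_lit 0) (p (nat_lit 0x10b8b0c8a8a1a) (nat_lit 0) (p (nat_lit 0x2680d00000000000b0c0a0b8a) (nat_lit 0) (p (nat_lit 0x2680d00000000000a8b89890a) (nat_lit 0) (p (nat_lit 0x100014) (nat_lit 0) (p (nat_lit 0x5800c) (nat_lit 0) (p (nat_lit 0xb000c) (nat_lit 0) (p (nat_lit 0xb0004) (nat_lit 1) (p (nat_lit 0x101) (nat_lit 0) (p (nat_lit 0x200014) (nat_lit 0) (p (nat_lit 0x380c2) (nat_lit 1) (p (nat_lit 0x3c4aa) (nat_lit 8) (p (nat_lit 0xd1) (nat_lit 1) (p (nat_lit 0xc9) (nat_lit 0) (p (nat_lit 0x101) (nat_lit 1) (p (nat_lit 0x119) (nat_lit 0) (p (nat_lit 0xc1) (nat_lit 0) (p (nat_lit 0x81) (nat_lit 1) (p (nat_lit 0x41) (nat_lit 1) (p (nat_lit 0x108078907089a) (nat_lit 0) (p (nat_lit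 0x107870886861a) (nat_lit 0) (p (nat_lit 0x8000000000000070806078a) (nat_lit 0) (p (nat_lit 0x8000000000000068785850a) (nat_lit 0) (p (nat_lit 0x10587050682) (nat_lit 0) (p (nat_lit 0x10506848402) (nat_lit 0) (p (nat_lit 0x16000c) (nat_lit 0) (p (nat_lit 0x160004) (nat_lit 0) (p (nat_lit 0x50612) (nat_lit 0) (p (nat_lit 0x40592) (nat_lit 0) (p (nat_lit 0x40492) (nat_lit 0) (p (nat_lit 0x30412) (nat_lit 0) (p (nat_lit 0x30212) (nat_lit 0) (p (nat_lit 0x20192) (nat_lit 0) (p (nat_lit 0x20092) (nat_lit 0) (p (nat_lit 0x10012) (nat_lit 0) pn))))))))))))))))))))))))))))))))))))) :=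
  Cl.node (nat_lit 0x43caa) (nat_lit 12) (by decide +kernel) (ClAll.succ (ClAll.succ (ClAll.succ (ClAll.succ (ClAll.succ (ClAll.succ (ClAll.succ (ClAll.succ (ClAll.succ (ClAll.succ (ClAll.succ (ClAll.succ ClAll.zero s615) s616) s617) s618) s619) s620) s621) s622) s623) s624) s625) s626)

def n1 : Cl (O (nat_lit 4)) (R (nat_lit 104465))
    (p (nat_lit 0x58004) (nat_lit 0) (p (nat_lit 0x10800c) (nat_lit 0) (p (nat_lit 0x109) (nat_lit 0) (p (nat_lit 0x10c0b8d0b0c9a) (nat_lit 0) (p (nat_lit 0x10b8b0c8a8a1a) (nat_lit 0) (p (nat_lit 0x2a82580000000000b0c0a0b8a) (nat_lit 0) (p (nat_lit 0x2a82580000000000a8b89890a) (nat_lit 0) (p (nat_lit 0x1fc014) (nat_lit 0) (p (nat_lit 0xb0004) (nat_lit 0) (p (nat_lit 0xb000c) (nat_lit 1) (p (nat_lit 0xc1) (nat_lit 0) (p (nat_lit 0x380c2) (nat_lit 1) (p (nat_lit 0x444aa) (nat_lit 7) (p (nat_lit 0xd1) (nat_lit 1) (p (nat_lit 0x109) (nat_lit 1) (p (nat_lit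 0x101) (nat_lit 0) (p (nat_lit 0x119) (nat_lit 0) (p (nat_lit 0xc9) (nat_lit 0) (p (nat_lit 0x89) (nat_lit 1) (p (nat_lit 0x41) (nat_lit 0) (p (nat_lit 0x108078907089a) (nat_lit 0) (p (nat_lit 0x107870886861a) (nat_lit 0) (p (nat_lit 0x8000000000000070806078a) (nat_lit 0) (p (nat_lit 0x8000000000000068785850a) (nat_lit 0) (p (nat_lit 0x10587050682) (nat_lit 0) (p (nat_lit 0x10506848402) (nat_lit 0) (p (nat_lit 0x16000c) (nat_lit 0) (p (nat_lit 0x160004) (nat_lit 0) (p (nat_lit 0x50612) (nat_lit 0) (p (nat_lit 0x40592) (nat_lit 0) (p (nat_lit 0x40492) (nat_lit 0) (p (nat_lit 0x30412) (nat_lit 0) (p (nat_lit 0x30212) (nat_lit 0) (p (nat_lit 0x20192) (nat_lit 0) (p (nat_lit 0x20092) (nat_lit 0) (p (nat_lit 0x10012) (nat_lit 0) pn)))))))))))))))))))))))))))))))))))) :=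
  Cl.node (nat_lit 0x119) (nat_lit 2) (by decide +kernel) (ClAll.succ (ClAll.succ ClAll.zero s279) s280)

def n2 : Cl (O (nat_lit 4)) (R (nat_lit 104465))
    (p (nat_lit 0xc9) (nat_lit 0) (p (nat_lit 0x10c0b8d0b0c9a) (nat_lit 0) (p (nat_lit 0x10b8b0c8a8a1a) (nat_lit 0) (p (nat_lit 0x2680d00000000000b0c0a0b8a) (nat_lit 0) (p (nat_lit 0x2680d00000000000a8b89890a) (nat_lit 0) (p (nat_lit 0x100014) (nat_lit 0) (p (nat_lit 0x5800c) (nat_lit 0) (p (nat_lit 0xb000c) (nat_lit 0) (p (nat_lit 0xb0004) (nat_lit 1) (p (nat_lit 0x101) (nat_lit 0) (p (nat_lit 0x200014) (nat_lit 0) (p (nat_lit 0x380c2) (nat_lit 1) (p (nat_lit 0x3c4aa) (nat_lit 8) (p (nat_lit 0xd1) (nat_lit 1) (p (nat_lit 0xc9) (nat_lit 0) (p (nat_lit 0x101) (nat_lit 1) (p (nat_lit 0x119) (nat_lit 0) (p (nat_lit 0xc1) (nat_lit 0) (p (nat_lit 0x81) (nat_lit 1) (p (nat_lit 0x41) (nat_lit 1) (p (nat_lit 0x108078907089a) (nat_lit 0) (p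 (nat_lit 0x107870886861a) (nat_lit 0) (p (nat_lit 0x8000000000000070806078a) (nat_lit 0) (p (nat_lit 0x8000000000000068785850a) (nat_lit 0) (p (nat_lit 0x10587050682) (nat_lit 0) (p (nat_lit 0x10506848402) (nat_lit 0) (p (nat_lit 0x16000c) (nat_lit 0) (p (nat_lit 0x160004) (nat_lit 0) (p (nat_lit 0x50612) (nat_lit 0) (p (nat_lit 0x40592) (nat_lit 0) (p (nat_lit 0x40492) (nat_lit 0) (p (nat_lit 0x30412) (nat_lit 0) (p (nat_lit 0x30212) (nat_lit 0) (p (nat_lit 0x20192) (nat_lit 0) (p (nat_lit 0x20092) (nat_lit 0) (p (nat_lit 0x10012) (nat_lit 0) pn)))))))))))))))))))))))))))))))))))) :=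
  Cl.node (nat_lit 0xc1) (nat_lit 2) (by decide +kernel) (ClAll.succ (ClAll.succ ClAll.zero n0) s627)

def n3 : Cl (O (nat_lit 4)) (R (nat_lit 104465))
    (p (nat_lit 0x10800c) (nat_lit 0) (p (nat_lit 0x109) (nat_lit 0) (p (nat_lit 0x10c0b8d0b0c9a) (nat_lit 0) (p (nat_lit 0x10b8b0c8a8a1a) (nat_lit 0) (p (nat_lit 0x2a82580000000000b0c0a0b8a) (nat_lit 0) (p (nat_lit 0x2a82580000000000a8b89890a) (nat_lit 0) (p (nat_lit 0x1fc014) (nat_lit 0) (p (nat_lit 0xb0004) (nat_lit 0) (p (nat_lit 0xb000c) (nat_lit 1) (p (nat_lit 0xc1) (nat_lit 0) (p (nat_lit 0x380c2) (nat_lit 1) (p (nat_lit 0x444aa) (nat_lit 7) (p (nat_lit 0xd1) (nat_lit 1) (p (nat_lit 0x109) (nat_lit 1) (p (nat_lit 0x101) (nat_lit 0) (p (nat_lit 0x119) (nat_lit 0) (p (nat_lit 0xc9) (nat_lit 0) (p (nat_lit 0x89) (nat_lit 1) (p (nat_lit 0x41) (nat_lit 0) (p (nat_lit 0x108078907089a) (nat_lit 0) (p (nat_lit 0x107870886861a) (nat_lit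 0) (p (nat_lit 0x8000000000000070806078a) (nat_lit 0) (p (nat_lit 0x8000000000000068785850a) (nat_lit 0) (p (nat_lit 0x10587050682) (nat_lit 0) (p (nat_lit 0x10506848402) (nat_lit 0) (p (nat_lit 0x16000c) (nat_lit 0) (p (nat_lit 0x160004) (nat_lit 0) (p (nat_lit 0x50612) (nat_lit 0) (p (nat_lit 0x40592) (nat_lit 0) (p (nat_lit 0x40492) (nat_lit 0) (p (nat_lit 0x30412) (nat_lit 0) (p (nat_lit 0x30212) (nat_lit 0) (p (nat_lit 0x20192) (nat_lit 0) (p (nat_lit 0x20092) (nat_lit 0) (p (nat_lit 0x10012) (nat_lit 0) pn))))))))))))))))))))))))))))))))))) :=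
  Cl.node (nat_lit 0x58004) (nat_lit 2) (by decide +kernel) (ClAll.succ (ClAll.succ ClAll.zero n1) s281)

def n4 : Cl (O (nat_lit 4)) (R (nat_lit 104465))
    (p (nat_lit 0x10c0b8d0b0c9a) (nat_lit 0) (p (nat_lit 0x10b8b0c8a8a1a) (nat_lit 0) (p (nat_lit 0x2680d00000000000b0c0a0b8a) (nat_lit 0) (p (nat_lit 0x2680d00000000000a8b89890a) (nat_lit 0) (p (nat_lit 0x100014) (nat_lit 0) (p (nat_lit 0x5800c) (nat_lit 0) (p (nat_lit 0xb000c) (nat_lit 0) (p (nat_lit 0xb0004) (nat_lit 1) (p (nat_lit 0x101) (nat_lit 0) (p (nat_lit 0x200014) (nat_lit 0) (p (nat_lit 0x380c2) (nat_lit 1) (p (nat_lit 0x3c4aa) (nat_lit 8) (p (nat_lit 0xd1) (nat_lit 1) (p (nat_lit 0xc9) (nat_lit 0) (p (nat_lit 0x101) (nat_lit 1) (p (nat_lit 0x119) (nat_lit 0) (p (nat_lit 0xc1) (nat_lit 0) (p (nat_lit 0x81) (nat_lit 1) (p (nat_lit 0x41) (nat_lit 1) (p (nat_lit 0x108078907089a) (nat_lit 0) (p (nat_lit 0x107870886861a) (nat_lit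 0) (p (nat_lit 0x8000000000000070806078a) (nat_lit 0) (p (nat_lit 0x8000000000000068785850a) (nat_lit 0) (p (nat_lit 0x10587050682) (nat_lit 0) (p (nat_lit 0x10506848402) (nat_lit 0) (p (nat_lit 0x16000c) (nat_lit 0) (p (nat_lit 0x160004) (nat_lit 0) (p (nat_lit 0x50612) (nat_lit 0) (p (nat_lit 0x40592) (nat_lit 0) (p (nat_lit 0x40492) (nat_lit 0) (p (nat_lit 0x30412) (nat_lit 0) (p (nat_lit 0x30212) (nat_lit 0) (p (nat_lit 0x20192) (nat_lit 0) (p (nat_lit 0x20092) (nat_lit 0) (p (nat_lit 0x10012) (nat_lit 0) pn))))))))))))))))))))))))))))))))))) :=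
  Cl.node (nat_lit 0xc9) (nat_lit 2) (by decide +kernel) (ClAll.succ (ClAll.succ ClAll.zero n2) s628)

def n5 : Cl (O (nat_lit 4)) (R (nat_lit 104465))
    (p (nat_lit 0x109) (nat_lit 0) (p (nat_lit 0x10c0b8d0b0c9a) (nat_lit 0) (p (nat_lit 0x10b8b0c8a8a1a) (nat_lit 0) (p (nat_lit 0x2a82580000000000b0c0a0b8a) (nat_lit 0) (p (nat_lit 0x2a82580000000000a8b89890a) (nat_lit 0) (p (nat_lit 0x1fc014) (nat_lit 0) (p (nat_lit 0xb0004) (nat_lit 0) (p (nat_lit 0xb000c) (nat_lit 1) (p (nat_lit 0xc1) (nat_lit 0) (p (nat_lit 0x380c2) (nat_lit 1) (p (nat_lit 0x444aa) (nat_lit 7) (p (nat_lit 0xd1) (nat_lit 1) (p (nat_lit 0x109) (nat_lit 1) (p (nat_lit 0x101) (nat_lit 0) (p (nat_lit 0x119) (nat_lit 0) (p (nat_lit 0xc9) (nat_lit 0) (p (nat_lit 0x89) (nat_lit 1) (p (nat_lit 0x41) (nat_lit 0) (p (nat_lit 0x108078907089a) (nat_lit 0) (p (nat_lit 0x107870886861a) (nat_lit 0) (p (nat_lit 0x8000000000000070806078a)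 (nat_lit 0) (p (nat_lit 0x8000000000000068785850a) (nat_lit 0) (p (nat_lit 0x10587050682) (nat_lit 0) (p (nat_lit 0x10506848402) (nat_lit 0) (p (nat_lit 0x16000c) (nat_lit 0) (p (nat_lit 0x160004) (nat_lit 0) (p (nat_lit 0x50612) (nat_lit 0) (p (nat_lit 0x40592) (nat_lit 0) (p (nat_lit 0x40492) (nat_lit 0) (p (nat_lit 0x30412) (nat_lit 0) (p (nat_lit 0x30212) (nat_lit 0) (p (nat_lit 0x20192) (nat_lit 0) (p (nat_lit 0x20092) (nat_lit 0) (p (nat_lit 0x10012) (nat_lit 0) pn)))))))))))))))))))))))))))))))))) :=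
  Cl.node (nat_lit 0x10800c) (nat_lit 2) (by decide +kernel) (ClAll.succ (ClAll.succ ClAll.zero n3) s282)

def n6 : Cl (O (nat_lit 4)) (R (nat_lit 104465))
    (p (nat_lit 0x10b8b0c8a8a1a) (nat_lit 0) (p (nat_lit 0x2680d00000000000b0c0a0b8a) (nat_lit 0) (p (nat_lit 0x2680d00000000000a8b89890a) (nat_lit 0) (p (nat_lit 0x100014) (nat_lit 0) (p (nat_lit 0x5800c) (nat_lit 0) (p (nat_lit 0xb000c) (nat_lit 0) (p (nat_lit 0xb0004) (nat_lit 1) (p (nat_lit 0x101) (nat_lit 0) (p (nat_lit 0x200014) (nat_lit 0) (p (nat_lit 0x380c2) (nat_lit 1) (p (nat_lit 0x3c4aa) (nat_lit 8) (p (nat_lit 0xd1) (nat_lit 1) (p (nat_lit 0xc9) (nat_lit 0) (p (nat_lit 0x101) (nat_lit 1) (p (nat_lit 0x119) (nat_lit 0) (p (nat_lit 0xc1) (nat_lit 0) (p (nat_lit 0x81) (nat_lit 1) (p (nat_lit 0x41) (nat_lit 1) (p (nat_lit 0x108078907089a) (nat_lit 0) (p (nat_lit 0x107870886861a) (nat_lit 0) (p (nat_lit 0x8000000000000070806078a)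 (nat_lit 0) (p (nat_lit 0x8000000000000068785850a) (nat_lit 0) (p (nat_lit 0x10587050682) (nat_lit 0) (p (nat_lit 0x10506848402) (nat_lit 0) (p (nat_lit 0x16000c) (nat_lit 0) (p (nat_lit 0x160004) (nat_lit 0) (p (nat_lit 0x50612) (nat_lit 0) (p (nat_lit 0x40592) (nat_lit 0) (p (nat_lit 0x40492) (nat_lit 0) (p (nat_lit 0x30412) (nat_lit 0) (p (nat_lit 0x30212) (nat_lit 0) (p (nat_lit 0x20192) (nat_lit 0) (p (nat_lit 0x20092) (nat_lit 0) (p (nat_lit 0x10012) (nat_lit 0) pn)))))))))))))))))))))))))))))))))) :=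
  Cl.node (nat_lit 0x10c0b8d0b0c9a) (nat_lit 1) (by decide +kernel) (ClAll.succ ClAll.zero n4)

def n7 : Cl (O (nat_lit 4)) (R (nat_lit 104465))
    (p (nat_lit 0x10c0b8d0b0c9a) (nat_lit 0) (p (nat_lit 0x10b8b0c8a8a1a) (nat_lit 0) (p (nat_lit 0x2a82580000000000b0c0a0b8a) (nat_lit 0) (p (nat_lit 0x2a82580000000000a8b89890a) (nat_lit 0) (p (nat_lit 0x1fc014) (nat_lit 0) (p (nat_lit 0xb0004) (nat_lit 0) (p (nat_lit 0xb000c) (nat_lit 1) (p (nat_lit 0xc1) (nat_lit 0) (p (nat_lit 0x380c2) (nat_lit 1) (p (nat_lit 0x444aa) (nat_lit 7) (p (nat_lit 0xd1) (nat_lit 1) (p (nat_lit 0x109) (nat_lit 1) (p (nat_lit 0x101) (nat_lit 0) (p (nat_lit 0x119) (nat_lit 0) (p (nat_lit 0xc9) (nat_lit 0) (p (nat_lit 0x89) (nat_lit 1) (p (nat_lit 0x41) (nat_lit 0) (p (nat_lit 0x108078907089a) (nat_lit 0) (p (nat_lit 0x107870886861a) (nat_lit 0) (p (nat_lit 0x8000000000000070806078a) (nat_lit 0) (p (nat_lit 0x8000000000000068785850a)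 (nat_lit 0) (p (nat_lit 0x10587050682) (nat_lit 0) (p (nat_lit 0x10506848402) (nat_lit 0) (p (nat_lit 0x16000c) (nat_lit 0) (p (nat_lit 0x160004) (nat_lit 0) (p (nat_lit 0x50612) (nat_lit 0) (p (nat_lit 0x40592) (nat_lit 0) (p (nat_lit 0x40492) (nat_lit 0) (p (nat_lit 0x30412) (nat_lit 0) (p (nat_lit 0x30212) (nat_lit 0) (p (nat_lit 0x20192) (nat_lit 0) (p (nat_lit 0x20092) (nat_lit 0) (p (nat_lit 0x10012) (nat_lit 0) pn))))))))))))))))))))))))))))))))) :=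
  Cl.node (nat_lit 0x109) (nat_lit 2) (by decide +kernel) (ClAll.succ (ClAll.succ ClAll.zero n5) s283)

def n8 : Cl (O (nat_lit 4)) (R (nat_lit 104465))
    (p (nat_lit 0x2680d00000000000b0c0a0b8a) (nat_lit 0) (p (nat_lit 0x2680d00000000000a8b89890a) (nat_lit 0) (p (nat_lit 0x100014) (nat_lit 0) (p (nat_lit 0x5800c) (nat_lit 0) (p (nat_lit 0xb000c) (nat_lit 0) (p (nat_lit 0xb0004) (nat_lit 1) (p (nat_lit 0x101) (nat_lit 0) (p (nat_lit 0x200014) (nat_lit 0) (p (nat_lit 0x380c2) (nat_lit 1) (p (nat_lit 0x3c4aa) (nat_lit 8) (p (nat_lit 0xd1) (nat_lit 1) (p (nat_lit 0xc9) (nat_lit 0) (p (nat_lit 0x101) (nat_lit 1) (p (nat_lit 0x119) (nat_lit 0) (p (nat_lit 0xc1) (nat_lit 0) (p (nat_lit 0x81) (nat_lit 1) (p (nat_lit 0x41) (nat_lit 1) (p (nat_lit 0x108078907089a) (nat_lit 0) (p (nat_lit 0x107870886861a) (nat_lit 0) (p (nat_lit 0x8000000000000070806078a) (nat_lit 0) (p (nat_lit 0x8000000000000068785850a)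 (nat_lit 0) (p (nat_lit 0x10587050682) (nat_lit 0) (p (nat_lit 0x10506848402) (nat_lit 0) (p (nat_lit 0x16000c) (nat_lit 0) (p (nat_lit 0x160004) (nat_lit 0) (p (nat_lit 0x50612) (nat_lit 0) (p (nat_lit 0x40592) (nat_lit 0) (p (nat_lit 0x40492) (nat_lit 0) (p (nat_lit 0x30412) (nat_lit 0) (p (nat_lit 0x30212) (nat_lit 0) (p (nat_lit 0x20192) (nat_lit 0) (p (nat_lit 0x20092) (nat_lit 0) (p (nat_lit 0x10012) (nat_lit 0) pn))))))))))))))))))))))))))))))))) :=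
  Cl.node (nat_lit 0x10b8b0c8a8a1a) (nat_lit 1) (by decide +kernel) (ClAll.succ ClAll.zero n6)

def n9 : Cl (O (nat_lit 4)) (R (nat_lit 104465))
    (p (nat_lit 0x10b8b0c8a8a1a) (nat_lit 0) (p (nat_lit 0x2a82580000000000b0c0a0b8a) (nat_lit 0) (p (nat_lit 0x2a82580000000000a8b89890a) (nat_lit 0) (p (nat_lit 0x1fc014) (nat_lit 0) (p (nat_lit 0xb0004) (nat_lit 0) (p (nat_lit 0xb000c) (nat_lit 1) (p (nat_lit 0xc1) (nat_lit 0) (p (nat_lit 0x380c2) (nat_lit 1) (p (nat_lit 0x444aa) (nat_lit 7) (p (nat_lit 0xd1) (nat_lit 1) (p (nat_lit 0x109) (nat_lit 1) (p (nat_lit 0x101) (nat_lit 0) (p (nat_lit 0x119) (nat_lit 0) (p (nat_lit 0xc9) (nat_lit 0) (p (nat_lit 0x89) (nat_lit 1) (p (nat_lit 0x41) (nat_lit 0) (p (nat_lit 0x108078907089a) (nat_lit 0) (p (nat_lit 0x107870886861a) (nat_lit 0) (p (nat_lit 0x8000000000000070806078a) (nat_lit 0) (p (nat_lit 0x8000000000000068785850a) (nat_lit 0) (p (nat_lit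 0x10587050682) (nat_lit 0) (p (nat_lit 0x10506848402) (nat_lit 0) (p (nat_lit 0x16000c) (nat_lit 0) (p (nat_lit 0x160004) (nat_lit 0) (p (nat_lit 0x50612) (nat_lit 0) (p (nat_lit 0x40592) (nat_lit 0) (p (nat_lit 0x40492) (nat_lit 0) (p (nat_lit 0x30412) (nat_lit 0) (p (nat_lit 0x30212) (nat_lit 0) (p (nat_lit 0x20192) (nat_lit 0) (p (nat_lit 0x20092) (nat_lit 0) (p (nat_lit 0x10012) (nat_lit 0) pn)))))))))))))))))))))))))))))))) :=
  Cl.node (nat_lit 0x10c0b8d0b0c9a) (nat_lit 1) (by decide +kernel) (ClAll.succ ClAll.zero n7)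

def n10 : Cl (O (nat_lit 4)) (R (nat_lit 104465))
    (p (nat_lit 0x2680d00000000000a8b89890a) (nat_lit 0) (p (nat_lit 0x100014) (nat_lit 0) (p (nat_lit 0x5800c) (nat_lit 0) (p (nat_lit 0xb000c) (nat_lit 0) (p (nat_lit 0xb0004) (nat_lit 1) (p (nat_lit 0x101) (nat_lit 0) (p (nat_lit 0x200014) (nat_lit 0) (p (nat_lit 0x380c2) (nat_lit 1) (p (nat_lit 0x3c4aa) (nat_lit 8) (p (nat_lit 0xd1) (nat_lit 1) (p (nat_lit 0xc9) (nat_lit 0) (p (nat_lit 0x101) (nat_lit 1) (p (nat_lit 0x119) (nat_lit 0) (p (nat_lit 0xc1) (nat_lit 0) (p (nat_lit 0x81) (nat_lit 1) (p (nat_lit 0x41) (nat_lit 1) (p (nat_lit 0x108078907089a) (nat_lit 0) (p (nat_lit 0x107870886861a) (nat_lit 0) (p (nat_lit 0x8000000000000070806078a) (nat_lit 0) (p (nat_lit 0x8000000000000068785850a) (nat_lit 0) (p (nat_lit 0x10587050682) (nat_lit 0) (p (nat_lit 0x10506848402) (nat_lit 0) (p (nat_lit 0x16000c) (nat_lit 0) (p (nat_lit 0x160004)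 (nat_lit 0) (p (nat_lit 0x50612) (nat_lit 0) (p (nat_lit 0x40592) (nat_lit 0) (p (nat_lit 0x40492) (nat_lit 0) (p (nat_lit 0x30412) (nat_lit 0) (p (nat_lit 0x30212) (nat_lit 0) (p (nat_lit 0x20192) (nat_lit 0) (p (nat_lit 0x20092) (nat_lit 0) (p (nat_lit 0x10012) (nat_lit 0) pn)))))))))))))))))))))))))))))))) :=
  Cl.node (nat_lit 0x2680d00000000000b0c0a0b8a) (nat_lit 1) (by decide +kernel) (ClAll.succ ClAll.zero n8)

def n11 : Cl (O (nat_lit 4)) (R (nat_lit 104465))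
    (p (nat_lit 0x2a82580000000000b0c0a0b8a) (nat_lit 0) (p (nat_lit 0x2a82580000000000a8b89890a) (nat_lit 0) (p (nat_lit 0x1fc014) (nat_lit 0) (p (nat_lit 0xb0004) (nat_lit 0) (p (nat_lit 0xb000c) (nat_lit 1) (p (nat_lit 0xc1) (nat_lit 0) (p (nat_lit 0x380c2) (nat_lit 1) (p (nat_lit 0x444aa) (nat_lit 7) (p (nat_lit 0xd1) (nat_lit 1) (p (nat_lit 0x109) (nat_lit 1) (p (nat_lit 0x101) (nat_lit 0) (p (nat_lit 0x119) (nat_lit 0) (p (nat_lit 0xc9) (nat_lit 0) (p (nat_lit 0x89) (nat_lit 1) (p (nat_lit 0x41) (nat_lit 0) (p (nat_lit 0x108078907089a) (nat_lit 0) (p (nat_lit 0x107870886861a) (nat_lit 0) (p (nat_lit 0x8000000000000070806078a) (nat_lit 0) (p (nat_lit 0x8000000000000068785850a) (nat_lit 0) (p (nat_lit 0x10587050682) (nat_lit 0) (p (nat_lit 0x10506848402) (nat_lit 0) (p (nat_lit 0x16000c) (nat_lit 0) (p (nat_lit 0x160004) (nat_lit 0) (p (nat_lit 0x50612) (nat_lit 0) (p (nat_lit 0x40592)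 (nat_lit 0) (p (nat_lit 0x40492) (nat_lit 0) (p (nat_lit 0x30412) (nat_lit 0) (p (nat_lit 0x30212) (nat_lit 0) (p (nat_lit 0x20192) (nat_lit 0) (p (nat_lit 0x20092) (nat_lit 0) (p (nat_lit 0x10012) (nat_lit 0) pn))))))))))))))))))))))))))))))) :=
  Cl.node (nat_lit 0x10b8b0c8a8a1a) (nat_lit 1) (by decide +kernel) (ClAll.succ ClAll.zero n9)

def n12 : Cl (O (nat_lit 4)) (R (nat_lit 104465))
    (p (nat_lit 0x100014) (nat_lit 0) (p (nat_lit 0x5800c) (nat_lit 0) (p (nat_lit 0xb000c) (nat_lit 0) (p (nat_lit 0xb0004) (nat_lit 1) (p (nat_lit 0x101) (nat_lit 0) (p (nat_lit 0x200014) (nat_lit 0) (p (nat_lit 0x380c2) (nat_lit 1) (p (nat_lit 0x3c4aa) (nat_lit 8) (p (nat_lit 0xd1) (nat_lit 1) (p (nat_lit 0xc9) (nat_lit 0) (p (nat_lit 0x101) (nat_lit 1) (p (nat_lit 0x119) (nat_lit 0) (p (nat_lit 0xc1) (nat_lit 0) (p (nat_lit 0x81) (nat_lit 1) (p (nat_lit 0x41) (nat_lit 1) (p (nat_lit 0x108078907089a)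 (nat_lit 0) (p (nat_lit 0x107870886861a) (nat_lit 0) (p (nat_lit 0x8000000000000070806078a) (nat_lit 0) (p (nat_lit 0x8000000000000068785850a) (nat_lit 0) (p (nat_lit 0x10587050682) (nat_lit 0) (p (nat_lit 0x10506848402) (nat_lit 0) (p (nat_lit 0x16000c) (nat_lit 0) (p (nat_lit 0x160004) (nat_lit 0) (p (nat_lit 0x50612) (nat_lit 0) (p (nat_lit 0x40592) (nat_lit 0) (p (nat_lit 0x40492) (nat_lit 0) (p (nat_lit 0x30412) (nat_lit 0) (p (nat_lit 0x30212) (nat_lit 0) (p (nat_lit 0x20192) (nat_lit 0) (p (nat_lit 0x20092) (nat_lit 0) (p (nat_lit 0x10012) (nat_lit 0) pn))))))))))))))))))))))))))))))) :=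
  Cl.node (nat_lit 0x2680d00000000000a8b89890a) (nat_lit 1) (by decide +kernel) (ClAll.succ ClAll.zero n10)

def n13 : Cl (O (nat_lit 4)) (R (nat_lit 104465))
    (p (nat_lit 0xb0004) (nat_lit 0) (p (nat_lit 0xc9) (nat_lit 1) (p (nat_lit 0xb000c) (nat_lit 0) (p (nat_lit 0xc1) (nat_lit 0) (p (nat_lit 0x380c2) (nat_lit 0) (p (nat_lit 0x444aa) (nat_lit 7) (p (nat_lit 0xd1) (nat_lit 1) (p (nat_lit 0x111) (nat_lit 1) (p (nat_lit 0x109) (nat_lit 0) (p (nat_lit 0x101) (nat_lit 0) (p (nat_lit 0x119) (nat_lit 0) (p (nat_lit 0xc9) (nat_lit 0) (p (nat_lit 0x89) (nat_lit 1) (p (nat_lit 0x41) (nat_lit 0) (p (nat_lit 0x108078907089a) (nat_lit 0) (p (nat_lit 0x107870886861a) (nat_lit 0) (p (nat_lit 0x8000000000000070806078a) (nat_lit 0) (p (nat_lit 0x8000000000000068785850a) (nat_lit 0) (p (nat_lit 0x10587050682) (nat_lit 0) (p (nat_lit 0x10506848402) (nat_lit 0) (p (nat_lit 0x16000c) (nat_lit 0) (p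 (nat_lit 0x160004) (nat_lit 0) (p (nat_lit 0x50612) (nat_lit 0) (p (nat_lit 0x40592) (nat_lit 0) (p (nat_lit 0x40492) (nat_lit 0) (p (nat_lit 0x30412) (nat_lit 0) (p (nat_lit 0x30212) (nat_lit 0) (p (nat_lit 0x20192) (nat_lit 0) (p (nat_lit 0x20092) (nat_lit 0) (p (nat_lit 0x10012) (nat_lit 0) pn)))))))))))))))))))))))))))))) :=
  Cl.node (nat_lit 0x119) (nat_lit 2) (by decide +kernel) (ClAll.succ (ClAll.succ ClAll.zero s240) s241)

def n14 : Cl (O (nat_lit 4)) (R (nat_lit 104465))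
    (p (nat_lit 0x2a82580000000000a8b89890a) (nat_lit 0) (p (nat_lit 0x1fc014) (nat_lit 0) (p (nat_lit 0xb0004) (nat_lit 0) (p (nat_lit 0xb000c) (nat_lit 1) (p (nat_lit 0xc1) (nat_lit 0) (p (nat_lit 0x380c2) (nat_lit 1) (p (nat_lit 0x444aa) (nat_lit 7) (p (nat_lit 0xd1) (nat_lit 1) (p (nat_lit 0x109) (nat_lit 1) (p (nat_lit 0x101) (nat_lit 0) (p (nat_lit 0x119) (nat_lit 0) (p (nat_lit 0xc9) (nat_lit 0) (p (nat_lit 0x89) (nat_lit 1) (p (nat_lit 0x41) (nat_lit 0) (p (nat_lit 0x108078907089a) (nat_lit 0) (p (nat_lit 0x107870886861a) (nat_lit 0) (p (nat_lit 0x8000000000000070806078a) (nat_lit 0) (p (nat_lit 0x8000000000000068785850a) (nat_lit 0) (p (nat_lit 0x10587050682) (nat_lit 0) (p (nat_lit 0x10506848402) (nat_lit 0) (p (nat_lit 0x16000c) (nat_lit 0) (p (nat_lit 0x160004) (nat_lit 0) (p (nat_lit 0x50612) (nat_lit 0) (p (nat_lit 0x40592) (nat_lit 0) (p (nat_lit 0x40492) (nat_lit 0) (p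 (nat_lit 0x30412) (nat_lit 0) (p (nat_lit 0x30212) (nat_lit 0) (p (nat_lit 0x20192) (nat_lit 0) (p (nat_lit 0x20092) (nat_lit 0) (p (nat_lit 0x10012) (nat_lit 0) pn)))))))))))))))))))))))))))))) :=
  Cl.node (nat_lit 0x2a82580000000000b0c0a0b8a) (nat_lit 1) (by decide +kernel) (ClAll.succ ClAll.zero n11)

def n15 : Cl (O (nat_lit 4)) (R (nat_lit 104465))
    (p (nat_lit 0x5800c) (nat_lit 0) (p (nat_lit 0xb000c) (nat_lit 0) (p (nat_lit 0xb0004) (nat_lit 1) (p (nat_lit 0x101) (nat_lit 0) (p (nat_lit 0x200014) (nat_lit 0) (p (nat_lit 0x380c2) (nat_lit 1) (p (nat_lit 0x3c4aa) (nat_lit 8) (p (nat_lit 0xd1) (nat_lit 1) (p (nat_lit 0xc9) (nat_lit 0) (p (nat_lit 0x101) (nat_lit 1) (p (nat_lit 0x119) (nat_lit 0) (p (nat_lit 0xc1) (nat_lit 0) (p (nat_lit 0x81) (nat_lit 1) (p (nat_lit 0x41) (nat_lit 1) (p (nat_lit 0x108078907089a) (nat_lit 0) (p (nat_lit 0x107870886861a) (nat_lit 0) (p (nat_lit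 0x8000000000000070806078a) (nat_lit 0) (p (nat_lit 0x8000000000000068785850a) (nat_lit 0) (p (nat_lit 0x10587050682) (nat_lit 0) (p (nat_lit 0x10506848402) (nat_lit 0) (p (nat_lit 0x16000c) (nat_lit 0) (p (nat_lit 0x160004) (nat_lit 0) (p (nat_lit 0x50612) (nat_lit 0) (p (nat_lit 0x40592) (nat_lit 0) (p (nat_lit 0x40492) (nat_lit 0) (p (nat_lit 0x30412) (nat_lit 0) (p (nat_lit 0x30212) (nat_lit 0) (p (nat_lit 0x20192) (nat_lit 0) (p (nat_lit 0x20092) (nat_lit 0) (p (nat_lit 0x10012) (nat_lit 0) pn)))))))))))))))))))))))))))))) :=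
  Cl.node (nat_lit 0x100014) (nat_lit 2) (by decide +kernel) (ClAll.succ (ClAll.succ ClAll.zero n12) s629)

def n16 : Cl (O (nat_lit 4)) (R (nat_lit 104465))
    (p (nat_lit 0xd1) (nat_lit 0) (p (nat_lit 0xc1) (nat_lit 0) (p (nat_lit 0x81) (nat_lit 1) (p (nat_lit 0x380c2) (nat_lit 1) (p (nat_lit 0x444aa) (nat_lit 7) (p (nat_lit 0x81) (nat_lit 1) (p (nat_lit 0xc9) (nat_lit 1) (p (nat_lit 0x109) (nat_lit 1) (p (nat_lit 0x101) (nat_lit 0) (p (nat_lit 0x119) (nat_lit 0) (p (nat_lit 0xd1) (nat_lit 0) (p (nat_lit 0x89) (nat_lit 0) (p (nat_lit 0x41) (nat_lit 0) (p (nat_lit 0x108078907089a) (nat_lit 0) (p (nat_lit 0x107870886861a) (nat_lit 0) (p (nat_lit 0x8000000000000070806078a) (nat_lit 0) (p (nat_lit 0x8000000000000068785850a) (nat_lit 0) (p (nat_lit 0x10587050682) (nat_lit 0) (p (nat_lit 0x10506848402) (nat_lit 0) (p (nat_lit 0x16000c) (nat_lit 0) (p (nat_lit 0x160004) (nat_lit 0) (p (nat_lit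 0x50612) (nat_lit 0) (p (nat_lit 0x40592) (nat_lit 0) (p (nat_lit 0x40492) (nat_lit 0) (p (nat_lit 0x30412) (nat_lit 0) (p (nat_lit 0x30212) (nat_lit 0) (p (nat_lit 0x20192) (nat_lit 0) (p (nat_lit 0x20092) (nat_lit 0) (p (nat_lit 0x10012) (nat_lit 0) pn))))))))))))))))))))))))))))) :=
  Cl.node (nat_lit 0x3cc2a) (nat_lit 12) (by decide +kernel) (ClAll.succ (ClAll.succ (ClAll.succ (ClAll.succ (ClAll.succ (ClAll.succ (ClAll.succ (ClAll.succ (ClAll.succ (ClAll.succ (ClAll.succ (ClAll.succ ClAll.zero s13) s14) s15) s16) s17) s18) s19) s20) s21) s22) s23) s24)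

def n17 : Cl (O (nat_lit 4)) (R (nat_lit 104465))
    (p (nat_lit 0x119) (nat_lit 1) (p (nat_lit 0xc9) (nat_lit 0) (p (nat_lit 0xb000c) (nat_lit 0) (p (nat_lit 0x380c2) (nat_lit 1) (p (nat_lit 0x444aa) (nat_lit 7) (p (nat_lit 0xc9) (nat_lit 1) (p (nat_lit 0xc1) (nat_lit 0) (p (nat_lit 0x81) (nat_lit 1) (p (nat_lit 0x101) (nat_lit 1) (p (nat_lit 0x119) (nat_lit 0) (p (nat_lit 0xd1) (nat_lit 0) (p (nat_lit 0x89) (nat_lit 0) (p (nat_lit 0x41) (nat_lit 0) (p (nat_lit 0x108078907089a) (nat_lit 0) (p (nat_lit 0x107870886861a) (nat_lit 0) (p (nat_lit 0x8000000000000070806078a) (nat_lit 0) (p (nat_lit 0x8000000000000068785850a) (nat_lit 0) (p (nat_lit 0x10587050682) (nat_lit 0) (p (nat_lit 0x10506848402) (nat_lit 0) (p (nat_lit 0x16000c) (nat_lit 0) (p (nat_lit 0x160004) (nat_lit 0) (p (nat_lit 0x50612) (nat_lit 0) (p (nat_lit 0x40592) (nat_lit 0) (p (nat_lit 0x40492) (nat_lit 0) (p (nat_lit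 0x30412) (nat_lit 0) (p (nat_lit 0x30212) (nat_lit 0) (p (nat_lit 0x20192) (nat_lit 0) (p (nat_lit 0x20092) (nat_lit 0) (p (nat_lit 0x10012) (nat_lit 0) pn))))))))))))))))))))))))))))) :=
  Cl.node (nat_lit 0xc1) (nat_lit 2) (by decide +kernel) (ClAll.succ (ClAll.succ ClAll.zero s71) s72)

def n18 : Cl (O (nat_lit 4)) (R (nat_lit 104465))
    (p (nat_lit 0x200014) (nat_lit 0) (p (nat_lit 0x41) (nat_lit 0) (p (nat_lit 0x81) (nat_lit 1) (p (nat_lit 0x101) (nat_lit 1) (p (nat_lit 0x380c2) (nat_lit 1) (p (nat_lit 0x3cc2a) (nat_lit 2) (p (nat_lit 0x109) (nat_lit 1) (p (nat_lit 0xc9) (nat_lit 1) (p (nat_lit 0xc1) (nat_lit 0) (p (nat_lit 0x119) (nat_lit 1) (p (nat_lit 0xd1) (nat_lit 0) (p (nat_lit 0x89) (nat_lit 0) (p (nat_lit 0x41) (nat_lit 0) (p (nat_lit 0x108078907089a) (nat_lit 0) (p (nat_lit 0x107870886861a) (nat_lit 0) (p (nat_lit 0x8000000000000070806078a) (nat_lit 0) (p (nat_lit 0x8000000000000068785850a)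 (nat_lit 0) (p (nat_lit 0x10587050682) (nat_lit 0) (p (nat_lit 0x10506848402) (nat_lit 0) (p (nat_lit 0x16000c) (nat_lit 0) (p (nat_lit 0x160004) (nat_lit 0) (p (nat_lit 0x50612) (nat_lit 0) (p (nat_lit 0x40592) (nat_lit 0) (p (nat_lit 0x40492) (nat_lit 0) (p (nat_lit 0x30412) (nat_lit 0) (p (nat_lit 0x30212) (nat_lit 0) (p (nat_lit 0x20192) (nat_lit 0) (p (nat_lit 0x20092) (nat_lit 0) (p (nat_lit 0x10012) (nat_lit 0) pn))))))))))))))))))))))))))))) :=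
  Cl.node (nat_lit 0xc1) (nat_lit 2) (by decide +kernel) (ClAll.succ (ClAll.succ ClAll.zero s88) s89)

def n19 : Cl (O (nat_lit 4)) (R (nat_lit 104465))
    (p (nat_lit 0x4c42a) (nat_lit 10) (p (nat_lit 0xc9) (nat_lit 0) (p (nat_lit 0x119) (nat_lit 1) (p (nat_lit 0x380c2) (nat_lit 1) (p (nat_lit 0x444aa) (nat_lit 7) (p (nat_lit 0x119) (nat_lit 0) (p (nat_lit 0xc1) (nat_lit 0) (p (nat_lit 0x81) (nat_lit 1) (p (nat_lit 0x101) (nat_lit 1) (p (nat_lit 0x111) (nat_lit 0) (p (nat_lit 0xd1) (nat_lit 1) (p (nat_lit 0x89) (nat_lit 0) (p (nat_lit 0x41) (nat_lit 0) (p (nat_lit 0x108078907089a) (nat_lit 0) (p (nat_lit 0x107870886861a) (nat_lit 0) (p (nat_lit 0x8000000000000070806078a) (nat_lit 0) (p (nat_lit 0x8000000000000068785850a) (nat_lit 0) (p (nat_lit 0x10587050682) (nat_lit 0) (p (nat_lit 0x10506848402) (nat_lit 0) (p (nat_lit 0x16000c) (nat_lit 0) (p (nat_lit 0x160004) (nat_lit 0) (p (nat_lit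 0x50612) (nat_lit 0) (p (nat_lit 0x40592) (nat_lit 0) (p (nat_lit 0x40492) (nat_lit 0) (p (nat_lit 0x30412) (nat_lit 0) (p (nat_lit 0x30212) (nat_lit 0) (p (nat_lit 0x20192) (nat_lit 0) (p (nat_lit 0x20092) (nat_lit 0) (p (nat_lit 0x10012) (nat_lit 0) pn))))))))))))))))))))))))))))) :=
  Cl.node (nat_lit 0x380c2) (nat_lit 2) (by decide +kernel) (ClAll.succ (ClAll.succ ClAll.zero s192) s193)

def n20 : Cl (O (nat_lit 4)) (R (nat_lit 104465))
    (p (nat_lit 0xc9) (nat_lit 1) (p (nat_lit 0xb000c) (nat_lit 0) (p (nat_lit 0xc1) (nat_lit 0) (p (nat_lit 0x380c2) (nat_lit 0) (p (nat_lit 0x444aa) (nat_lit 7) (p (nat_lit 0xd1) (nat_lit 1) (p (nat_lit 0x111) (nat_lit 1) (p (nat_lit 0x109) (nat_lit 0) (p (nat_lit 0x101) (nat_lit 0) (p (nat_lit 0x119) (nat_lit 0) (p (nat_lit 0xc9) (nat_lit 0) (p (nat_lit 0x89) (nat_lit 1) (p (nat_lit 0x41) (nat_lit 0) (p (nat_lit 0x108078907089a) (nat_lit 0) (p (nat_lit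 0x107870886861a) (nat_lit 0) (p (nat_lit 0x8000000000000070806078a) (nat_lit 0) (p (nat_lit 0x8000000000000068785850a) (nat_lit 0) (p (nat_lit 0x10587050682) (nat_lit 0) (p (nat_lit 0x10506848402) (nat_lit 0) (p (nat_lit 0x16000c) (nat_lit 0) (p (nat_lit 0x160004) (nat_lit 0) (p (nat_lit 0x50612) (nat_lit 0) (p (nat_lit 0x40592) (nat_lit 0) (p (nat_lit 0x40492) (nat_lit 0) (p (nat_lit 0x30412) (nat_lit 0) (p (nat_lit 0x30212) (nat_lit 0) (p (nat_lit 0x20192) (nat_lit 0) (p (nat_lit 0x20092) (nat_lit 0) (p (nat_lit 0x10012) (nat_lit 0) pn))))))))))))))))))))))))))))) :=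
  Cl.node (nat_lit 0xb0004) (nat_lit 2) (by decide +kernel) (ClAll.succ (ClAll.succ ClAll.zero n13) s242)

def n21 : Cl (O (nat_lit 4)) (R (nat_lit 104465))
    (p (nat_lit 0x1fc014) (nat_lit 0) (p (nat_lit 0xb0004) (nat_lit 0) (p (nat_lit 0xb000c) (nat_lit 1) (p (nat_lit 0xc1) (nat_lit 0) (p (nat_lit 0x380c2) (nat_lit 1) (p (nat_lit 0x444aa) (nat_lit 7) (p (nat_lit 0xd1) (nat_lit 1) (p (nat_lit 0x109) (nat_lit 1) (p (nat_lit 0x101) (nat_lit 0) (p (nat_lit 0x119) (nat_lit 0) (p (nat_lit 0xc9) (nat_lit 0) (p (nat_lit 0x89) (nat_lit 1) (p (nat_lit 0x41) (nat_lit 0) (p (nat_lit 0x108078907089a) (nat_lit 0) (p (nat_lit 0x107870886861a) (nat_lit 0) (p (nat_lit 0x8000000000000070806078a) (nat_lit 0) (p (nat_lit 0x8000000000000068785850a) (nat_lit 0) (p (nat_lit 0x10587050682) (nat_lit 0) (p (nat_lit 0x10506848402) (nat_lit 0) (p (nat_lit 0x16000c) (nat_lit 0) (p (nat_lit 0x160004) (nat_lit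 0) (p (nat_lit 0x50612) (nat_lit 0) (p (nat_lit 0x40592) (nat_lit 0) (p (nat_lit 0x40492) (nat_lit 0) (p (nat_lit 0x30412) (nat_lit 0) (p (nat_lit 0x30212) (nat_lit 0) (p (nat_lit 0x20192) (nat_lit 0) (p (nat_lit 0x20092) (nat_lit 0) (p (nat_lit 0x10012) (nat_lit 0) pn))))))))))))))))))))))))))))) :=
  Cl.node (nat_lit 0x2a82580000000000a8b89890a) (nat_lit 1) (by decide +kernel) (ClAll.succ ClAll.zero n14)

def n22 : Cl (O (nat_lit 4)) (R (nat_lit 104465))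
    (p (nat_lit 0xb000c) (nat_lit 0) (p (nat_lit 0xb0004) (nat_lit 1) (p (nat_lit 0x101) (nat_lit 0) (p (nat_lit 0x200014) (nat_lit 0) (p (nat_lit 0x380c2) (nat_lit 1) (p (nat_lit 0x3c4aa) (nat_lit 8) (p (nat_lit 0xd1) (nat_lit 1) (p (nat_lit 0xc9) (nat_lit 0) (p (nat_lit 0x101) (nat_lit 1) (p (nat_lit 0x119) (nat_lit 0) (p (nat_lit 0xc1) (nat_lit 0) (p (nat_lit 0x81) (nat_lit 1) (p (nat_lit 0x41) (nat_lit 1) (p (nat_lit 0x108078907089a) (nat_lit 0) (p (nat_lit 0x107870886861a) (nat_lit 0) (p (nat_lit 0x8000000000000070806078a) (nat_lit 0) (p (nat_lit 0x8000000000000068785850a) (nat_lit 0) (p (nat_lit 0x10587050682) (nat_lit 0) (p (nat_lit 0x10506848402) (nat_lit 0) (p (nat_lit 0x16000c) (nat_lit 0) (p (nat_lit 0x160004) (nat_lit 0) (p (nat_lit 0x50612) (nat_lit 0) (p (nat_lit 0x40592) (nat_lit 0) (p (nat_lit 0x40492) (nat_lit 0) (p (nat_lit 0x30412) (nat_lit 0) (p (nat_lit 0x30212) (nat_lit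 0) (p (nat_lit 0x20192) (nat_lit 0) (p (nat_lit 0x20092) (nat_lit 0) (p (nat_lit 0x10012) (nat_lit 0) pn))))))))))))))))))))))))))))) :=
  Cl.node (nat_lit 0x5800c) (nat_lit 2) (by decide +kernel) (ClAll.succ (ClAll.succ ClAll.zero n15) s630)

def n23 : Cl (O (nat_lit 4)) (R (nat_lit 104465))
    (p (nat_lit 0xc1) (nat_lit 0) (p (nat_lit 0x81) (nat_lit 1) (p (nat_lit 0x380c2) (nat_lit 1) (p (nat_lit 0x444aa) (nat_lit 7) (p (nat_lit 0x81) (nat_lit 1) (p (nat_lit 0xc9) (nat_lit 1) (p (nat_lit 0x109) (nat_lit 1) (p (nat_lit 0x101) (nat_lit 0) (p (nat_lit 0x119) (nat_lit 0) (p (nat_lit 0xd1) (nat_lit 0) (p (nat_lit 0x89) (nat_lit 0) (p (nat_lit 0x41) (nat_lit 0) (p (nat_lit 0x108078907089a) (nat_lit 0) (p (nat_lit 0x107870886861a) (nat_lit 0) (p (nat_lit 0x8000000000000070806078a) (nat_lit 0) (p (nat_lit 0x8000000000000068785850a) (nat_lit 0) (p (nat_lit 0x10587050682) (nat_lit 0) (p (nat_lit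 0x10506848402) (nat_lit 0) (p (nat_lit 0x16000c) (nat_lit 0) (p (nat_lit 0x160004) (nat_lit 0) (p (nat_lit 0x50612) (nat_lit 0) (p (nat_lit 0x40592) (nat_lit 0) (p (nat_lit 0x40492) (nat_lit 0) (p (nat_lit 0x30412) (nat_lit 0) (p (nat_lit 0x30212) (nat_lit 0) (p (nat_lit 0x20192) (nat_lit 0) (p (nat_lit 0x20092) (nat_lit 0) (p (nat_lit 0x10012) (nat_lit 0) pn)))))))))))))))))))))))))))) :=
  Cl.node (nat_lit 0xd1) (nat_lit 2) (by decide +kernel) (ClAll.succ (ClAll.succ ClAll.zero n16) s25)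

def n24 : Cl (O (nat_lit 4)) (R (nat_lit 104465))
    (p (nat_lit 0x4c42a) (nat_lit 10) (p (nat_lit 0x89) (nat_lit 0) (p (nat_lit 0x380c2) (nat_lit 1) (p (nat_lit 0x444aa) (nat_lit 7) (p (nat_lit 0x111) (nat_lit 0) (p (nat_lit 0xc9) (nat_lit 1) (p (nat_lit 0x81) (nat_lit 0) (p (nat_lit 0x101) (nat_lit 1) (p (nat_lit 0x119) (nat_lit 0) (p (nat_lit 0xd1) (nat_lit 0) (p (nat_lit 0x89) (nat_lit 0) (p (nat_lit 0x41) (nat_lit 0) (p (nat_lit 0x108078907089a) (nat_lit 0) (p (nat_lit 0x107870886861a) (nat_lit 0) (p (nat_lit 0x8000000000000070806078a) (nat_lit 0) (p (nat_lit 0x8000000000000068785850a) (nat_lit 0) (p (nat_lit 0x10587050682) (nat_lit 0) (p (nat_lit 0x10506848402) (nat_lit 0) (p (nat_lit 0x16000c) (nat_lit 0) (p (nat_lit 0x160004) (nat_lit 0) (p (nat_lit 0x50612) (nat_lit 0) (p (nat_lit 0x40592) (nat_lit 0) (p (nat_lit 0x40492) (nat_lit 0) (p (nat_lit 0x30412) (nat_lit 0) (p (nat_lit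 0x30212) (nat_lit 0) (p (nat_lit 0x20192) (nat_lit 0) (p (nat_lit 0x20092) (nat_lit 0) (p (nat_lit 0x10012) (nat_lit 0) pn)))))))))))))))))))))))))))) :=
  Cl.node (nat_lit 0x380c2) (nat_lit 2) (by decide +kernel) (ClAll.succ (ClAll.succ ClAll.zero s51) s52)

def n25 : Cl (O (nat_lit 4)) (R (nat_lit 104465))
    (p (nat_lit 0xc9) (nat_lit 0) (p (nat_lit 0xb000c) (nat_lit 0) (p (nat_lit 0x380c2) (nat_lit 1) (p (nat_lit 0x444aa) (nat_lit 7) (p (nat_lit 0xc9) (nat_lit 1) (p (nat_lit 0xc1) (nat_lit 0) (p (nat_lit 0x81) (nat_lit 1) (p (nat_lit 0x101) (nat_lit 1) (p (nat_lit 0x119) (nat_lit 0) (p (nat_lit 0xd1) (nat_lit 0) (p (nat_lit 0x89) (nat_lit 0) (p (nat_lit 0x41) (nat_lit 0) (p (nat_lit 0x108078907089a) (nat_lit 0) (p (nat_lit 0x107870886861a) (nat_lit 0) (p (nat_lit 0x8000000000000070806078a) (nat_lit 0) (p (nat_lit 0x8000000000000068785850a) (nat_lit 0) (p (nat_lit 0x10587050682) (nat_lit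 0) (p (nat_lit 0x10506848402) (nat_lit 0) (p (nat_lit 0x16000c) (nat_lit 0) (p (nat_lit 0x160004) (nat_lit 0) (p (nat_lit 0x50612) (nat_lit 0) (p (nat_lit 0x40592) (nat_lit 0) (p (nat_lit 0x40492) (nat_lit 0) (p (nat_lit 0x30412) (nat_lit 0) (p (nat_lit 0x30212) (nat_lit 0) (p (nat_lit 0x20192) (nat_lit 0) (p (nat_lit 0x20092) (nat_lit 0) (p (nat_lit 0x10012) (nat_lit 0) pn)))))))))))))))))))))))))))) :=
  Cl.node (nat_lit 0x119) (nat_lit 2) (by decide +kernel) (ClAll.succ (ClAll.succ ClAll.zero s70) n17)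

def n26 : Cl (O (nat_lit 4)) (R (nat_lit 104465))
    (p (nat_lit 0x41) (nat_lit 0) (p (nat_lit 0x81) (nat_lit 1) (p (nat_lit 0x101) (nat_lit 1) (p (nat_lit 0x380c2) (nat_lit 1) (p (nat_lit 0x3cc2a) (nat_lit 2) (p (nat_lit 0x109) (nat_lit 1) (p (nat_lit 0xc9) (nat_lit 1) (p (nat_lit 0xc1) (nat_lit 0) (p (nat_lit 0x119) (nat_lit 1) (p (nat_lit 0xd1) (nat_lit 0) (p (nat_lit 0x89) (nat_lit 0) (p (nat_lit 0x41) (nat_lit 0) (p (nat_lit 0x108078907089a) (nat_lit 0) (p (nat_lit 0x107870886861a) (nat_lit 0) (p (nat_lit 0x8000000000000070806078a) (nat_lit 0) (p (nat_lit 0x8000000000000068785850a) (nat_lit 0) (p (nat_lit 0x10587050682) (nat_lit 0) (p (nat_lit 0x10506848402) (nat_lit 0) (p (nat_lit 0x16000c) (nat_lit 0) (p (nat_lit 0x160004) (nat_lit 0) (p (nat_lit 0x50612) (nat_lit 0) (p (nat_lit 0x40592) (nat_lit 0) (p (nat_lit 0x40492) (nat_lit 0) (p (nat_lit 0x30412) (nat_lit 0) (p (nat_lit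 0x30212) (nat_lit 0) (p (nat_lit 0x20192) (nat_lit 0) (p (nat_lit 0x20092) (nat_lit 0) (p (nat_lit 0x10012) (nat_lit 0) pn)))))))))))))))))))))))))))) :=
  Cl.node (nat_lit 0x200014) (nat_lit 2) (by decide +kernel) (ClAll.succ (ClAll.succ ClAll.zero n18) s90)

def n27 : Cl (O (nat_lit 4)) (R (nat_lit 104465))
    (p (nat_lit 0x4c42a) (nat_lit 10) (p (nat_lit 0xc9) (nat_lit 0) (p (nat_lit 0x380c2) (nat_lit 0) (p (nat_lit 0x444aa) (nat_lit 7) (p (nat_lit 0x119) (nat_lit 0) (p (nat_lit 0xc1) (nat_lit 0) (p (nat_lit 0x81) (nat_lit 1) (p (nat_lit 0x101) (nat_lit 1) (p (nat_lit 0x111) (nat_lit 0) (p (nat_lit 0xd1) (nat_lit 1) (p (nat_lit 0x89) (nat_lit 0) (p (nat_lit 0x41) (nat_lit 0) (p (nat_lit 0x108078907089a) (nat_lit 0) (p (nat_lit 0x107870886861a) (nat_lit 0) (p (nat_lit 0x8000000000000070806078a) (nat_lit 0) (p (nat_lit 0x8000000000000068785850a) (nat_lit 0) (p (nat_lit 0x10587050682)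 (nat_lit 0) (p (nat_lit 0x10506848402) (nat_lit 0) (p (nat_lit 0x16000c) (nat_lit 0) (p (nat_lit 0x160004) (nat_lit 0) (p (nat_lit 0x50612) (nat_lit 0) (p (nat_lit 0x40592) (nat_lit 0) (p (nat_lit 0x40492) (nat_lit 0) (p (nat_lit 0x30412) (nat_lit 0) (p (nat_lit 0x30212) (nat_lit 0) (p (nat_lit 0x20192) (nat_lit 0) (p (nat_lit 0x20092) (nat_lit 0) (p (nat_lit 0x10012) (nat_lit 0) pn)))))))))))))))))))))))))))) :=
  Cl.node (nat_lit 0x380c2) (nat_lit 2) (by decide +kernel) (ClAll.succ (ClAll.succ ClAll.zero s177) s178)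

def n28 : Cl (O (nat_lit 4)) (R (nat_lit 104465))
    (p (nat_lit 0xc9) (nat_lit 0) (p (nat_lit 0x119) (nat_lit 1) (p (nat_lit 0x380c2) (nat_lit 1) (p (nat_lit 0x444aa) (nat_lit 7) (p (nat_lit 0x119) (nat_lit 0) (p (nat_lit 0xc1) (nat_lit 0) (p (nat_lit 0x81) (nat_lit 1) (p (nat_lit 0x101) (nat_lit 1) (p (nat_lit 0x111) (nat_lit 0) (p (nat_lit 0xd1) (nat_lit 1) (p (nat_lit 0x89) (nat_lit 0) (p (nat_lit 0x41) (nat_lit 0) (p (nat_lit 0x108078907089a) (nat_lit 0) (p (nat_lit 0x107870886861a) (nat_lit 0) (p (nat_lit 0x8000000000000070806078a) (nat_lit 0) (p (nat_lit 0x8000000000000068785850a) (nat_lit 0) (p (nat_lit 0x10587050682) (nat_lit 0) (p (nat_lit 0x10506848402) (nat_lit 0) (p (nat_lit 0x16000c) (nat_lit 0) (p (nat_lit 0x160004) (nat_lit 0) (p (nat_lit 0x50612) (nat_lit 0) (p (nat_lit 0x40592) (nat_lit 0) (p (nat_lit 0x40492) (nat_lit 0) (p (nat_lit 0x30412) (nat_lit 0) (p (nat_lit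 0x30212) (nat_lit 0) (p (nat_lit 0x20192) (nat_lit 0) (p (nat_lit 0x20092) (nat_lit 0) (p (nat_lit 0x10012) (nat_lit 0) pn)))))))))))))))))))))))))))) :=
  Cl.node (nat_lit 0x4c42a) (nat_lit 12) (by decide +kernel) (ClAll.succ (ClAll.succ (ClAll.succ (ClAll.succ (ClAll.succ (ClAll.succ (ClAll.succ (ClAll.succ (ClAll.succ (ClAll.succ (ClAll.succ (ClAll.succ ClAll.zero s182) s183) s184) s185) s186) s187) s188) s189) s190) s191) n19) s194)

def n29 : Cl (O (nat_lit 4)) (R (nat_lit 104465))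
    (p (nat_lit 0xb000c) (nat_lit 0) (p (nat_lit 0xc1) (nat_lit 0) (p (nat_lit 0x380c2) (nat_lit 0) (p (nat_lit 0x444aa) (nat_lit 7) (p (nat_lit 0xd1) (nat_lit 1) (p (nat_lit 0x111) (nat_lit 1) (p (nat_lit 0x109) (nat_lit 0) (p (nat_lit 0x101) (nat_lit 0) (p (nat_lit 0x119) (nat_lit 0) (p (nat_lit 0xc9) (nat_lit 0) (p (nat_lit 0x89) (nat_lit 1) (p (nat_lit 0x41) (nat_lit 0) (p (nat_lit 0x108078907089a) (nat_lit 0) (p (nat_lit 0x107870886861a) (nat_lit 0) (p (nat_lit 0x8000000000000070806078a) (nat_lit 0) (p (nat_lit 0x8000000000000068785850a) (nat_lit 0) (p (nat_lit 0x10587050682) (nat_lit 0) (p (nat_lit 0x10506848402) (nat_lit 0) (p (nat_lit 0x16000c) (nat_lit 0) (p (nat_lit 0x160004) (nat_lit 0) (p (nat_lit 0x50612) (nat_lit 0) (p (nat_lit 0x40592) (nat_lit 0) (p (nat_lit 0x40492) (nat_lit 0) (p (nat_lit 0x30412) (nat_lit 0) (p (nat_lit 0x30212) (nat_lit 0) (p (nat_lit 0x20192) (nat_lit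 0) (p (nat_lit 0x20092) (nat_lit 0) (p (nat_lit 0x10012) (nat_lit 0) pn)))))))))))))))))))))))))))) :=
  Cl.node (nat_lit 0xc9) (nat_lit 2) (by decide +kernel) (ClAll.succ (ClAll.succ ClAll.zero s239) n20)

def n30 : Cl (O (nat_lit 4)) (R (nat_lit 104465))
    (p (nat_lit 0xb000c) (nat_lit 0) (p (nat_lit 0xc1) (nat_lit 0) (p (nat_lit 0x380c2) (nat_lit 1) (p (nat_lit 0x444aa) (nat_lit 7) (p (nat_lit 0xd1) (nat_lit 1) (p (nat_lit 0x111) (nat_lit 1) (p (nat_lit 0x109) (nat_lit 0) (p (nat_lit 0x101) (nat_lit 0) (p (nat_lit 0x119) (nat_lit 0) (p (nat_lit 0xc9) (nat_lit 0) (p (nat_lit 0x89) (nat_lit 1) (p (nat_lit 0x41) (nat_lit 0) (p (nat_lit 0x108078907089a) (nat_lit 0) (p (nat_lit 0x107870886861a) (nat_lit 0) (p (nat_lit 0x8000000000000070806078a) (nat_lit 0) (p (nat_lit 0x8000000000000068785850a) (nat_lit 0) (p (nat_lit 0x10587050682) (nat_lit 0) (p (nat_lit 0x10506848402) (nat_lit 0) (p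 (nat_lit 0x16000c) (nat_lit 0) (p (nat_lit 0x160004) (nat_lit 0) (p (nat_lit 0x50612) (nat_lit 0) (p (nat_lit 0x40592) (nat_lit 0) (p (nat_lit 0x40492) (nat_lit 0) (p (nat_lit 0x30412) (nat_lit 0) (p (nat_lit 0x30212) (nat_lit 0) (p (nat_lit 0x20192) (nat_lit 0) (p (nat_lit 0x20092) (nat_lit 0) (p (nat_lit 0x10012) (nat_lit 0) pn)))))))))))))))))))))))))))) :=
  Cl.node (nat_lit 0x109) (nat_lit 2) (by decide +kernel) (ClAll.succ (ClAll.succ ClAll.zero s245) s246)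

def n31 : Cl (O (nat_lit 4)) (R (nat_lit 104465))
    (p (nat_lit 0xb0004) (nat_lit 0) (p (nat_lit 0xb000c) (nat_lit 1) (p (nat_lit 0xc1) (nat_lit 0) (p (nat_lit 0x380c2) (nat_lit 1) (p (nat_lit 0x444aa) (nat_lit 7) (p (nat_lit 0xd1) (nat_lit 1) (p (nat_lit 0x109) (nat_lit 1) (p (nat_lit 0x101) (nat_lit 0) (p (nat_lit 0x119) (nat_lit 0) (p (nat_lit 0xc9) (nat_lit 0) (p (nat_lit 0x89) (nat_lit 1) (p (nat_lit 0x41) (nat_lit 0) (p (nat_lit 0x108078907089a) (nat_lit 0) (p (nat_lit 0x107870886861a) (nat_lit 0) (p (nat_lit 0x8000000000000070806078a) (nat_lit 0) (p (nat_lit 0x8000000000000068785850a) (nat_lit 0) (p (nat_lit 0x10587050682) (nat_lit 0) (p (nat_lit 0x10506848402) (nat_lit 0) (p (nat_lit 0x16000c) (nat_lit 0) (p (nat_lit 0x160004) (nat_lit 0) (p (nat_lit 0x50612) (nat_lit 0) (p (nat_lit 0x40592) (nat_lit 0) (p (nat_lit 0x40492) (nat_lit 0) (p (nat_lit 0x30412) (nat_lit 0) (p (nat_lit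 0x30212) (nat_lit 0) (p (nat_lit 0x20192) (nat_lit 0) (p (nat_lit 0x20092) (nat_lit 0) (p (nat_lit 0x10012) (nat_lit 0) pn)))))))))))))))))))))))))))) :=
  Cl.node (nat_lit 0x1fc014) (nat_lit 2) (by decide +kernel) (ClAll.succ (ClAll.succ ClAll.zero n21) s284)

def n32 : Cl (O (nat_lit 4)) (R (nat_lit 104465))
    (p (nat_lit 0xb0004) (nat_lit 1) (p (nat_lit 0x101) (nat_lit 0) (p (nat_lit 0x200014) (nat_lit 0) (p (nat_lit 0x380c2) (nat_lit 1) (p (nat_lit 0x3c4aa) (nat_lit 8) (p (nat_lit 0xd1) (nat_lit 1) (p (nat_lit 0xc9) (nat_lit 0) (p (nat_lit 0x101) (nat_lit 1) (p (nat_lit 0x119) (nat_lit 0) (p (nat_lit 0xc1) (nat_lit 0) (p (nat_lit 0x81) (nat_lit 1) (p (nat_lit 0x41) (nat_lit 1) (p (nat_lit 0x108078907089a) (nat_lit 0) (p (nat_lit 0x107870886861a) (nat_lit 0) (p (nat_lit 0x8000000000000070806078a) (nat_lit 0) (p (nat_lit 0x8000000000000068785850a) (nat_lit 0) (p (nat_lit 0x10587050682)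 (nat_lit 0) (p (nat_lit 0x10506848402) (nat_lit 0) (p (nat_lit 0x16000c) (nat_lit 0) (p (nat_lit 0x160004) (nat_lit 0) (p (nat_lit 0x50612) (nat_lit 0) (p (nat_lit 0x40592) (nat_lit 0) (p (nat_lit 0x40492) (nat_lit 0) (p (nat_lit 0x30412) (nat_lit 0) (p (nat_lit 0x30212) (nat_lit 0) (p (nat_lit 0x20192) (nat_lit 0) (p (nat_lit 0x20092) (nat_lit 0) (p (nat_lit 0x10012) (nat_lit 0) pn)))))))))))))))))))))))))))) :=
  Cl.node (nat_lit 0xb000c) (nat_lit 2) (by decide +kernel) (ClAll.succ (ClAll.succ ClAll.zero n22) s631)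

def n33 : Cl (O (nat_lit 4)) (R (nat_lit 104465))
    (p (nat_lit 0x81) (nat_lit 1) (p (nat_lit 0x380c2) (nat_lit 1) (p (nat_lit 0x444aa) (nat_lit 7) (p (nat_lit 0x81) (nat_lit 1) (p (nat_lit 0xc9) (nat_lit 1) (p (nat_lit 0x109) (nat_lit 1) (p (nat_lit 0x101) (nat_lit 0) (p (nat_lit 0x119) (nat_lit 0) (p (nat_lit 0xd1) (nat_lit 0) (p (nat_lit 0x89) (nat_lit 0) (p (nat_lit 0x41) (nat_lit 0) (p (nat_lit 0x108078907089a) (nat_lit 0) (p (nat_lit 0x107870886861a) (nat_lit 0) (p (nat_lit 0x8000000000000070806078a) (nat_lit 0) (p (nat_lit 0x8000000000000068785850a) (nat_lit 0) (p (nat_lit 0x10587050682) (nat_lit 0) (p (nat_lit 0x10506848402) (nat_lit 0) (p (nat_lit 0x16000c) (nat_lit 0) (p (nat_lit 0x160004) (nat_lit 0) (p (nat_lit 0x50612) (nat_lit 0) (p (nat_lit 0x40592) (nat_lit 0) (p (nat_lit 0x40492) (nat_lit 0) (p (nat_lit 0x30412) (nat_lit 0) (p (nat_lit 0x30212) (nat_lit 0) (p (nat_lit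 0x20192) (nat_lit 0) (p (nat_lit 0x20092) (nat_lit 0) (p (nat_lit 0x10012) (nat_lit 0) pn))))))))))))))))))))))))))) :=
  Cl.node (nat_lit 0xc1) (nat_lit 2) (by decide +kernel) (ClAll.succ (ClAll.succ ClAll.zero n23) s26)

def n34 : Cl (O (nat_lit 4)) (R (nat_lit 104465))
    (p (nat_lit 0x89) (nat_lit 0) (p (nat_lit 0x380c2) (nat_lit 1) (p (nat_lit 0x444aa) (nat_lit 7) (p (nat_lit 0x111) (nat_lit 0) (p (nat_lit 0xc9) (nat_lit 1) (p (nat_lit 0x81) (nat_lit 0) (p (nat_lit 0x101) (nat_lit 1) (p (nat_lit 0x119) (nat_lit 0) (p (nat_lit 0xd1) (nat_lit 0) (p (nat_lit 0x89) (nat_lit 0) (p (nat_lit 0x41) (nat_lit 0) (p (nat_lit 0x108078907089a) (nat_lit 0) (p (nat_lit 0x107870886861a) (nat_lit 0) (p (nat_lit 0x8000000000000070806078a) (nat_lit 0) (p (nat_lit 0x8000000000000068785850a) (nat_lit 0) (p (nat_lit 0x10587050682) (nat_lit 0) (p (nat_lit 0x10506848402) (nat_lit 0) (p (nat_lit 0x16000c)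 (nat_lit 0) (p (nat_lit 0x160004) (nat_lit 0) (p (nat_lit 0x50612) (nat_lit 0) (p (nat_lit 0x40592) (nat_lit 0) (p (nat_lit 0x40492) (nat_lit 0) (p (nat_lit 0x30412) (nat_lit 0) (p (nat_lit 0x30212) (nat_lit 0) (p (nat_lit 0x20192) (nat_lit 0) (p (nat_lit 0x20092) (nat_lit 0) (p (nat_lit 0x10012) (nat_lit 0) pn))))))))))))))))))))))))))) :=
  Cl.node (nat_lit 0x4c42a) (nat_lit 12) (by decide +kernel) (ClAll.succ (ClAll.succ (ClAll.succ (ClAll.succ (ClAll.succ (ClAll.succ (ClAll.succ (ClAll.succ (ClAll.succ (ClAll.succ (ClAll.succ (ClAll.succ ClAll.zero s41) s42) s43) s44) s45) s46) s47) s48) s49) s50) n24) s53)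

def n35 : Cl (O (nat_lit 4)) (R (nat_lit 104465))
    (p (nat_lit 0x89) (nat_lit 1) (p (nat_lit 0x380c2) (nat_lit 1) (p (nat_lit 0x444aa) (nat_lit 7) (p (nat_lit 0x111) (nat_lit 0) (p (nat_lit 0xc9) (nat_lit 1) (p (nat_lit 0x81) (nat_lit 0) (p (nat_lit 0x101) (nat_lit 1) (p (nat_lit 0x119) (nat_lit 0) (p (nat_lit 0xd1) (nat_lit 0) (p (nat_lit 0x89) (nat_lit 0) (p (nat_lit 0x41) (nat_lit 0) (p (nat_lit 0x108078907089a) (nat_lit 0) (p (nat_lit 0x107870886861a) (nat_lit 0) (p (nat_lit 0x8000000000000070806078a) (nat_lit 0) (p (nat_lit 0x8000000000000068785850a) (nat_lit 0) (p (nat_lit 0x10587050682) (nat_lit 0) (p (nat_lit 0x10506848402) (nat_lit 0) (p (nat_lit 0x16000c) (nat_lit 0) (p (nat_lit 0x160004) (nat_lit 0) (p (nat_lit 0x50612) (nat_lit 0) (p (nat_lit 0x40592) (nat_lit 0) (p (nat_lit 0x40492) (nat_lit 0) (p (nat_lit 0x30412) (nat_lit 0) (p (nat_lit 0x30212) (nat_lit 0) (p (nat_lit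 0x20192) (nat_lit 0) (p (nat_lit 0x20092) (nat_lit 0) (p (nat_lit 0x10012) (nat_lit 0) pn))))))))))))))))))))))))))) :=
  Cl.node (nat_lit 0x119) (nat_lit 2) (by decide +kernel) (ClAll.succ (ClAll.succ ClAll.zero s54) s55)

def n36 : Cl (O (nat_lit 4)) (R (nat_lit 104465))
    (p (nat_lit 0xb000c) (nat_lit 0) (p (nat_lit 0x380c2) (nat_lit 1) (p (nat_lit 0x444aa) (nat_lit 7) (p (nat_lit 0xc9) (nat_lit 1) (p (nat_lit 0xc1) (nat_lit 0) (p (nat_lit 0x81) (nat_lit 1) (p (nat_lit 0x101) (nat_lit 1) (p (nat_lit 0x119) (nat_lit 0) (p (nat_lit 0xd1) (nat_lit 0) (p (nat_lit 0x89) (nat_lit 0) (p (nat_lit 0x41) (nat_lit 0) (p (nat_lit 0x108078907089a) (nat_lit 0) (p (nat_lit 0x107870886861a) (nat_lit 0) (p (nat_lit 0x8000000000000070806078a) (nat_lit 0) (p (nat_lit 0x8000000000000068785850a) (nat_lit 0) (p (nat_lit 0x10587050682) (nat_lit 0) (p (nat_lit 0x10506848402) (nat_lit 0) (p (nat_lit 0x16000c)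 (nat_lit 0) (p (nat_lit 0x160004) (nat_lit 0) (p (nat_lit 0x50612) (nat_lit 0) (p (nat_lit 0x40592) (nat_lit 0) (p (nat_lit 0x40492) (nat_lit 0) (p (nat_lit 0x30412) (nat_lit 0) (p (nat_lit 0x30212) (nat_lit 0) (p (nat_lit 0x20192) (nat_lit 0) (p (nat_lit 0x20092) (nat_lit 0) (p (nat_lit 0x10012) (nat_lit 0) pn))))))))))))))))))))))))))) :=
  Cl.node (nat_lit 0xc9) (nat_lit 2) (by decide +kernel) (ClAll.succ (ClAll.succ ClAll.zero n25) s73)

def n37 : Cl (O (nat_lit 4)) (R (nat_lit 104465))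
    (p (nat_lit 0x81) (nat_lit 0) (p (nat_lit 0x101) (nat_lit 1) (p (nat_lit 0x380c2) (nat_lit 1) (p (nat_lit 0x3cc2a) (nat_lit 2) (p (nat_lit 0x109) (nat_lit 1) (p (nat_lit 0xc9) (nat_lit 1) (p (nat_lit 0xc1) (nat_lit 0) (p (nat_lit 0x119) (nat_lit 1) (p (nat_lit 0xd1) (nat_lit 0) (p (nat_lit 0x89) (nat_lit 0) (p (nat_lit 0x41) (nat_lit 0) (p (nat_lit 0x108078907089a) (nat_lit 0) (p (nat_lit 0x107870886861a) (nat_lit 0) (p (nat_lit 0x8000000000000070806078a) (nat_lit 0) (p (nat_lit 0x8000000000000068785850a) (nat_lit 0) (p (nat_lit 0x10587050682) (nat_lit 0) (p (nat_lit 0x10506848402) (nat_lit 0) (p (nat_lit 0x16000c) (nat_lit 0) (p (nat_lit 0x160004) (nat_lit 0) (p (nat_lit 0x50612) (nat_lit 0) (p (nat_lit 0x40592) (nat_lit 0) (p (nat_lit 0x40492) (nat_lit 0) (p (nat_lit 0x30412) (nat_lit 0) (p (nat_lit 0x30212) (nat_lit 0) (p (nat_lit 0x20192) (nat_lit 0) (p (nat_lit 0x20092) (nat_lit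 0) (p (nat_lit 0x10012) (nat_lit 0) pn))))))))))))))))))))))))))) :=
  Cl.node (nat_lit 0x200014) (nat_lit 2) (by decide +kernel) (ClAll.succ (ClAll.succ ClAll.zero s86) s87)

def n38 : Cl (O (nat_lit 4)) (R (nat_lit 104465))
    (p (nat_lit 0x81) (nat_lit 1) (p (nat_lit 0x101) (nat_lit 1) (p (nat_lit 0x380c2) (nat_lit 1) (p (nat_lit 0x3cc2a) (nat_lit 2) (p (nat_lit 0x109) (nat_lit 1) (p (nat_lit 0xc9) (nat_lit 1) (p (nat_lit 0xc1) (nat_lit 0) (p (nat_lit 0x119) (nat_lit 1) (p (nat_lit 0xd1) (nat_lit 0) (p (nat_lit 0x89) (nat_lit 0) (p (nat_lit 0x41) (nat_lit 0) (p (nat_lit 0x108078907089a) (nat_lit 0) (p (nat_lit 0x107870886861a) (nat_lit 0) (p (nat_lit 0x8000000000000070806078a) (nat_lit 0) (p (nat_lit 0x8000000000000068785850a) (nat_lit 0) (p (nat_lit 0x10587050682) (nat_lit 0) (p (nat_lit 0x10506848402) (nat_lit 0) (p (nat_lit 0x16000c) (nat_lit 0) (p (nat_lit 0x160004) (nat_lit 0)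 (p (nat_lit 0x50612) (nat_lit 0) (p (nat_lit 0x40592) (nat_lit 0) (p (nat_lit 0x40492) (nat_lit 0) (p (nat_lit 0x30412) (nat_lit 0) (p (nat_lit 0x30212) (nat_lit 0) (p (nat_lit 0x20192) (nat_lit 0) (p (nat_lit 0x20092) (nat_lit 0) (p (nat_lit 0x10012) (nat_lit 0) pn))))))))))))))))))))))))))) :=
  Cl.node (nat_lit 0x41) (nat_lit 2) (by decide +kernel) (ClAll.succ (ClAll.succ ClAll.zero n26) s91)

def n39 : Cl (O (nat_lit 4)) (R (nat_lit 104465))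
    (p (nat_lit 0xc9) (nat_lit 0) (p (nat_lit 0x380c2) (nat_lit 0) (p (nat_lit 0x444aa) (nat_lit 7) (p (nat_lit 0x119) (nat_lit 0) (p (nat_lit 0xc1) (nat_lit 0) (p (nat_lit 0x81) (nat_lit 1) (p (nat_lit 0x101) (nat_lit 1) (p (nat_lit 0x111) (nat_lit 0) (p (nat_lit 0xd1) (nat_lit 1) (p (nat_lit 0x89) (nat_lit 0) (p (nat_lit 0x41) (nat_lit 0) (p (nat_lit 0x108078907089a) (nat_lit 0) (p (nat_lit 0x107870886861a) (nat_lit 0) (p (nat_lit 0x8000000000000070806078a) (nat_lit 0) (p (nat_lit 0x8000000000000068785850a) (nat_lit 0) (p (nat_lit 0x10587050682) (nat_lit 0) (p (nat_lit 0x10506848402) (nat_lit 0) (p (nat_lit 0x16000c) (nat_lit 0) (p (nat_lit 0x160004) (nat_lit 0) (p (nat_lit 0x50612) (nat_lit 0) (p (nat_lit 0x40592) (nat_lit 0) (p (nat_lit 0x40492) (nat_lit 0) (p (nat_lit 0x30412) (nat_lit 0) (p (nat_lit 0x30212) (nat_lit 0) (p (nat_lit 0x20192) (nat_lit 0) (p (nat_lit 0x20092) (nat_lit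 0) (p (nat_lit 0x10012) (nat_lit 0) pn))))))))))))))))))))))))))) :=
  Cl.node (nat_lit 0x4c42a) (nat_lit 12) (by decide +kernel) (ClAll.succ (ClAll.succ (ClAll.succ (ClAll.succ (ClAll.succ (ClAll.succ (ClAll.succ (ClAll.succ (ClAll.succ (ClAll.succ (ClAll.succ (ClAll.succ ClAll.zero s167) s168) s169) s170) s171) s172) s173) s174) s175) s176) n27) s179)

def n40 : Cl (O (nat_lit 4)) (R (nat_lit 104465))
    (p (nat_lit 0x119) (nat_lit 1) (p (nat_lit 0x380c2) (nat_lit 1) (p (nat_lit 0x444aa) (nat_lit 7) (p (nat_lit 0x119) (nat_lit 0) (p (nat_lit 0xc1) (nat_lit 0) (p (nat_lit 0x81) (nat_lit 1) (p (nat_lit 0x101) (nat_lit 1) (p (nat_lit 0x111) (nat_lit 0) (p (nat_lit 0xd1) (nat_lit 1) (p (nat_lit 0x89) (nat_lit 0) (p (nat_lit 0x41) (nat_lit 0) (p (nat_lit 0x108078907089a) (nat_lit 0) (p (nat_lit 0x107870886861a) (nat_lit 0) (p (nat_lit 0x8000000000000070806078a) (nat_lit 0) (p (nat_lit 0x8000000000000068785850a)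 (nat_lit 0) (p (nat_lit 0x10587050682) (nat_lit 0) (p (nat_lit 0x10506848402) (nat_lit 0) (p (nat_lit 0x16000c) (nat_lit 0) (p (nat_lit 0x160004) (nat_lit 0) (p (nat_lit 0x50612) (nat_lit 0) (p (nat_lit 0x40592) (nat_lit 0) (p (nat_lit 0x40492) (nat_lit 0) (p (nat_lit 0x30412) (nat_lit 0) (p (nat_lit 0x30212) (nat_lit 0) (p (nat_lit 0x20192) (nat_lit 0) (p (nat_lit 0x20092) (nat_lit 0) (p (nat_lit 0x10012) (nat_lit 0) pn))))))))))))))))))))))))))) :=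
  Cl.node (nat_lit 0xc9) (nat_lit 2) (by decide +kernel) (ClAll.succ (ClAll.succ ClAll.zero n28) s195)

def n41 : Cl (O (nat_lit 4)) (R (nat_lit 104465))
    (p (nat_lit 0xc1) (nat_lit 0) (p (nat_lit 0x380c2) (nat_lit 0) (p (nat_lit 0x444aa) (nat_lit 7) (p (nat_lit 0xd1) (nat_lit 1) (p (nat_lit 0x111) (nat_lit 1) (p (nat_lit 0x109) (nat_lit 0) (p (nat_lit 0x101) (nat_lit 0) (p (nat_lit 0x119) (nat_lit 0) (p (nat_lit 0xc9) (nat_lit 0) (p (nat_lit 0x89) (nat_lit 1) (p (nat_lit 0x41) (nat_lit 0) (p (nat_lit 0x108078907089a) (nat_lit 0) (p (nat_lit 0x107870886861a) (nat_lit 0) (p (nat_lit 0x8000000000000070806078a) (nat_lit 0) (p (nat_lit 0x8000000000000068785850a) (nat_lit 0) (p (nat_lit 0x10587050682) (nat_lit 0) (p (nat_lit 0x10506848402) (nat_lit 0) (p (nat_lit 0x16000c) (nat_lit 0) (p (nat_lit 0x160004) (nat_lit 0) (p (nat_lit 0x50612) (nat_lit 0) (p (nat_lit 0x40592) (nat_lit 0) (p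 (nat_lit 0x40492) (nat_lit 0) (p (nat_lit 0x30412) (nat_lit 0) (p (nat_lit 0x30212) (nat_lit 0) (p (nat_lit 0x20192) (nat_lit 0) (p (nat_lit 0x20092) (nat_lit 0) (p (nat_lit 0x10012) (nat_lit 0) pn))))))))))))))))))))))))))) :=
  Cl.node (nat_lit 0xb000c) (nat_lit 2) (by decide +kernel) (ClAll.succ (ClAll.succ ClAll.zero n29) s243)

def n42 : Cl (O (nat_lit 4)) (R (nat_lit 104465))
    (p (nat_lit 0xc1) (nat_lit 0) (p (nat_lit 0x380c2) (nat_lit 1) (p (nat_lit 0x444aa) (nat_lit 7) (p (nat_lit 0xd1) (nat_lit 1) (p (nat_lit 0x111) (nat_lit 1) (p (nat_lit 0x109) (nat_lit 0) (p (nat_lit 0x101) (nat_lit 0) (p (nat_lit 0x119) (nat_lit 0) (p (nat_lit 0xc9) (nat_lit 0) (p (nat_lit 0x89) (nat_lit 1) (p (nat_lit 0x41) (nat_lit 0) (p (nat_lit 0x108078907089a) (nat_lit 0) (p (nat_lit 0x107870886861a) (nat_lit 0) (p (nat_lit 0x8000000000000070806078a) (nat_lit 0) (p (nat_lit 0x8000000000000068785850a)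 (nat_lit 0) (p (nat_lit 0x10587050682) (nat_lit 0) (p (nat_lit 0x10506848402) (nat_lit 0) (p (nat_lit 0x16000c) (nat_lit 0) (p (nat_lit 0x160004) (nat_lit 0) (p (nat_lit 0x50612) (nat_lit 0) (p (nat_lit 0x40592) (nat_lit 0) (p (nat_lit 0x40492) (nat_lit 0) (p (nat_lit 0x30412) (nat_lit 0) (p (nat_lit 0x30212) (nat_lit 0) (p (nat_lit 0x20192) (nat_lit 0) (p (nat_lit 0x20092) (nat_lit 0) (p (nat_lit 0x10012) (nat_lit 0) pn))))))))))))))))))))))))))) :=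
  Cl.node (nat_lit 0xb000c) (nat_lit 2) (by decide +kernel) (ClAll.succ (ClAll.succ ClAll.zero n30) s247)

def n43 : Cl (O (nat_lit 4)) (R (nat_lit 104465))
    (p (nat_lit 0xb000c) (nat_lit 0) (p (nat_lit 0xc1) (nat_lit 0) (p (nat_lit 0x380c2) (nat_lit 1) (p (nat_lit 0x444aa) (nat_lit 7) (p (nat_lit 0xd1) (nat_lit 1) (p (nat_lit 0x109) (nat_lit 1) (p (nat_lit 0x101) (nat_lit 0) (p (nat_lit 0x119) (nat_lit 0) (p (nat_lit 0xc9) (nat_lit 0) (p (nat_lit 0x89) (nat_lit 1) (p (nat_lit 0x41) (nat_lit 0) (p (nat_lit 0x108078907089a) (nat_lit 0) (p (nat_lit 0x107870886861a) (nat_lit 0) (p (nat_lit 0x8000000000000070806078a) (nat_lit 0) (p (nat_lit 0x8000000000000068785850a) (nat_lit 0) (p (nat_lit 0x10587050682) (nat_lit 0) (p (nat_lit 0x10506848402) (nat_lit 0) (p (nat_lit 0x16000c) (nat_lit 0) (p (nat_lit 0x160004) (nat_lit 0) (p (nat_lit 0x50612) (nat_lit 0) (p (nat_lit 0x40592) (nat_lit 0)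 (p (nat_lit 0x40492) (nat_lit 0) (p (nat_lit 0x30412) (nat_lit 0) (p (nat_lit 0x30212) (nat_lit 0) (p (nat_lit 0x20192) (nat_lit 0) (p (nat_lit 0x20092) (nat_lit 0) (p (nat_lit 0x10012) (nat_lit 0) pn))))))))))))))))))))))))))) :=
  Cl.node (nat_lit 0x111) (nat_lit 2) (by decide +kernel) (ClAll.succ (ClAll.succ ClAll.zero s277) s278)

def n44 : Cl (O (nat_lit 4)) (R (nat_lit 104465))
    (p (nat_lit 0xb000c) (nat_lit 1) (p (nat_lit 0xc1) (nat_lit 0) (p (nat_lit 0x380c2) (nat_lit 1) (p (nat_lit 0x444aa) (nat_lit 7) (p (nat_lit 0xd1) (nat_lit 1) (p (nat_lit 0x109) (nat_lit 1) (p (nat_lit 0x101) (nat_lit 0) (p (nat_lit 0x119) (nat_lit 0) (p (nat_lit 0xc9) (nat_lit 0) (p (nat_lit 0x89) (nat_lit 1) (p (nat_lit 0x41) (nat_lit 0) (p (nat_lit 0x108078907089a) (nat_lit 0) (p (nat_lit 0x107870886861a) (nat_lit 0) (p (nat_lit 0x8000000000000070806078a) (nat_lit 0) (p (nat_lit 0x8000000000000068785850a)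 (nat_lit 0) (p (nat_lit 0x10587050682) (nat_lit 0) (p (nat_lit 0x10506848402) (nat_lit 0) (p (nat_lit 0x16000c) (nat_lit 0) (p (nat_lit 0x160004) (nat_lit 0) (p (nat_lit 0x50612) (nat_lit 0) (p (nat_lit 0x40592) (nat_lit 0) (p (nat_lit 0x40492) (nat_lit 0) (p (nat_lit 0x30412) (nat_lit 0) (p (nat_lit 0x30212) (nat_lit 0) (p (nat_lit 0x20192) (nat_lit 0) (p (nat_lit 0x20092) (nat_lit 0) (p (nat_lit 0x10012) (nat_lit 0) pn))))))))))))))))))))))))))) :=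
  Cl.node (nat_lit 0xb0004) (nat_lit 2) (by decide +kernel) (ClAll.succ (ClAll.succ ClAll.zero n31) s285)

def n45 : Cl (O (nat_lit 4)) (R (nat_lit 104465))
    (p (nat_lit 0x200014) (nat_lit 0) (p (nat_lit 0x380c2) (nat_lit 1) (p (nat_lit 0x3c4aa) (nat_lit 8) (p (nat_lit 0x109) (nat_lit 1) (p (nat_lit 0x89) (nat_lit 1) (p (nat_lit 0x101) (nat_lit 0) (p (nat_lit 0xc1) (nat_lit 1) (p (nat_lit 0x119) (nat_lit 1) (p (nat_lit 0xd1) (nat_lit 0) (p (nat_lit 0x81) (nat_lit 0) (p (nat_lit 0x41) (nat_lit 1) (p (nat_lit 0x108078907089a) (nat_lit 0) (p (nat_lit 0x107870886861a) (nat_lit 0) (p (nat_lit 0x8000000000000070806078a) (nat_lit 0) (p (nat_lit 0x8000000000000068785850a) (nat_lit 0) (p (nat_lit 0x10587050682) (nat_lit 0) (p (nat_lit 0x10506848402) (nat_lit 0) (p (nat_lit 0x16000c) (nat_lit 0) (p (nat_lit 0x160004) (nat_lit 0) (p (nat_lit 0x50612) (nat_lit 0) (p (nat_lit 0x40592) (nat_lit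 0) (p (nat_lit 0x40492) (nat_lit 0) (p (nat_lit 0x30412) (nat_lit 0) (p (nat_lit 0x30212) (nat_lit 0) (p (nat_lit 0x20192) (nat_lit 0) (p (nat_lit 0x20092) (nat_lit 0) (p (nat_lit 0x10012) (nat_lit 0) pn))))))))))))))))))))))))))) :=
  Cl.node (nat_lit 0x81) (nat_lit 2) (by decide +kernel) (ClAll.succ (ClAll.succ ClAll.zero s467) s468)

def n46 : Cl (O (nat_lit 4)) (R (nat_lit 104465))
    (p (nat_lit 0x100014) (nat_lit 0) (p (nat_lit 0x200014) (nat_lit 0) (p (nat_lit 0x380c2) (nat_lit 1) (p (nat_lit 0x3cc2a) (nat_lit 2) (p (nat_lit 0xc9) (nat_lit 0) (p (nat_lit 0x89) (nat_lit 1) (p (nat_lit 0x101) (nat_lit 1) (p (nat_lit 0x111) (nat_lit 0) (p (nat_lit 0xd1) (nat_lit 1) (p (nat_lit 0x81) (nat_lit 0) (p (nat_lit 0x41) (nat_lit 1) (p (nat_lit 0x108078907089a) (nat_lit 0) (p (nat_lit 0x107870886861a) (nat_lit 0) (p (nat_lit 0x8000000000000070806078a) (nat_lit 0) (p (nat_lit 0x8000000000000068785850a)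 (nat_lit 0) (p (nat_lit 0x10587050682) (nat_lit 0) (p (nat_lit 0x10506848402) (nat_lit 0) (p (nat_lit 0x16000c) (nat_lit 0) (p (nat_lit 0x160004) (nat_lit 0) (p (nat_lit 0x50612) (nat_lit 0) (p (nat_lit 0x40592) (nat_lit 0) (p (nat_lit 0x40492) (nat_lit 0) (p (nat_lit 0x30412) (nat_lit 0) (p (nat_lit 0x30212) (nat_lit 0) (p (nat_lit 0x20192) (nat_lit 0) (p (nat_lit 0x20092) (nat_lit 0) (p (nat_lit 0x10012) (nat_lit 0) pn))))))))))))))))))))))))))) :=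
  Cl.node (nat_lit 0x101) (nat_lit 2) (by decide +kernel) (ClAll.succ (ClAll.succ ClAll.zero s530) s531)

def n47 : Cl (O (nat_lit 4)) (R (nat_lit 104465))
    (p (nat_lit 0x119) (nat_lit 1) (p (nat_lit 0x380c2) (nat_lit 0) (p (nat_lit 0x3c4aa) (nat_lit 7) (p (nat_lit 0xd1) (nat_lit 1) (p (nat_lit 0xc9) (nat_lit 0) (p (nat_lit 0x109) (nat_lit 1) (p (nat_lit 0x101) (nat_lit 0) (p (nat_lit 0x119) (nat_lit 0) (p (nat_lit 0xc1) (nat_lit 0) (p (nat_lit 0x81) (nat_lit 1) (p (nat_lit 0x41) (nat_lit 1) (p (nat_lit 0x108078907089a) (nat_lit 0) (p (nat_lit 0x107870886861a) (nat_lit 0) (p (nat_lit 0x8000000000000070806078a) (nat_lit 0) (p (nat_lit 0x8000000000000068785850a) (nat_lit 0) (p (nat_lit 0x10587050682) (nat_lit 0) (p (nat_lit 0x10506848402) (nat_lit 0) (p (nat_lit 0x16000c) (nat_lit 0) (p (nat_lit 0x160004) (nat_lit 0) (p (nat_lit 0x50612) (nat_lit 0) (p (nat_lit 0x40592) (nat_lit 0) (p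 (nat_lit 0x40492) (nat_lit 0) (p (nat_lit 0x30412) (nat_lit 0) (p (nat_lit 0x30212) (nat_lit 0) (p (nat_lit 0x20192) (nat_lit 0) (p (nat_lit 0x20092) (nat_lit 0) (p (nat_lit 0x10012) (nat_lit 0) pn))))))))))))))))))))))))))) :=
  Cl.node (nat_lit 0xc1) (nat_lit 2) (by decide +kernel) (ClAll.succ (ClAll.succ ClAll.zero s583) s584)

def n48 : Cl (O (nat_lit 4)) (R (nat_lit 104465))
    (p (nat_lit 0x101) (nat_lit 0) (p (nat_lit 0x200014) (nat_lit 0) (p (nat_lit 0x380c2) (nat_lit 1) (p (nat_lit 0x3c4aa) (nat_lit 8) (p (nat_lit 0xd1) (nat_lit 1) (p (nat_lit 0xc9) (nat_lit 0) (p (nat_lit 0x101) (nat_lit 1) (p (nat_lit 0x119) (nat_lit 0) (p (nat_lit 0xc1) (nat_lit 0) (p (nat_lit 0x81) (nat_lit 1) (p (nat_lit 0x41) (nat_lit 1) (p (nat_lit 0x108078907089a) (nat_lit 0) (p (nat_lit 0x107870886861a) (nat_lit 0) (p (nat_lit 0x8000000000000070806078a) (nat_lit 0) (p (nat_lit 0x8000000000000068785850a)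 (nat_lit 0) (p (nat_lit 0x10587050682) (nat_lit 0) (p (nat_lit 0x10506848402) (nat_lit 0) (p (nat_lit 0x16000c) (nat_lit 0) (p (nat_lit 0x160004) (nat_lit 0) (p (nat_lit 0x50612) (nat_lit 0) (p (nat_lit 0x40592) (nat_lit 0) (p (nat_lit 0x40492) (nat_lit 0) (p (nat_lit 0x30412) (nat_lit 0) (p (nat_lit 0x30212) (nat_lit 0) (p (nat_lit 0x20192) (nat_lit 0) (p (nat_lit 0x20092) (nat_lit 0) (p (nat_lit 0x10012) (nat_lit 0) pn))))))))))))))))))))))))))) :=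
  Cl.node (nat_lit 0xb0004) (nat_lit 2) (by decide +kernel) (ClAll.succ (ClAll.succ ClAll.zero s614) n32)

def n49 : Cl (O (nat_lit 4)) (R (nat_lit 104465))
    (p (nat_lit 0x380c2) (nat_lit 0) (p (nat_lit 0x444aa) (nat_lit 7) (p (nat_lit 0x81) (nat_lit 1) (p (nat_lit 0xc9) (nat_lit 1) (p (nat_lit 0x109) (nat_lit 1) (p (nat_lit 0x101) (nat_lit 0) (p (nat_lit 0x119) (nat_lit 0) (p (nat_lit 0xd1) (nat_lit 0) (p (nat_lit 0x89) (nat_lit 0) (p (nat_lit 0x41) (nat_lit 0) (p (nat_lit 0x108078907089a) (nat_lit 0) (p (nat_lit 0x107870886861a) (nat_lit 0) (p (nat_lit 0x8000000000000070806078a) (nat_lit 0) (p (nat_lit 0x8000000000000068785850a) (nat_lit 0) (p (nat_lit 0x10587050682) (nat_lit 0) (p (nat_lit 0x10506848402) (nat_lit 0) (p (nat_lit 0x16000c) (nat_lit 0) (p (nat_lit 0x160004) (nat_lit 0) (p (nat_lit 0x50612) (nat_lit 0) (p (nat_lit 0x40592) (nat_lit 0) (p (nat_lit 0x40492) (nat_lit 0)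 (p (nat_lit 0x30412) (nat_lit 0) (p (nat_lit 0x30212) (nat_lit 0) (p (nat_lit 0x20192) (nat_lit 0) (p (nat_lit 0x20092) (nat_lit 0) (p (nat_lit 0x10012) (nat_lit 0) pn)))))))))))))))))))))))))) :=
  Cl.node (nat_lit 0xb000c) (nat_lit 2) (by decide +kernel) (ClAll.succ (ClAll.succ ClAll.zero s10) s11)

def n50 : Cl (O (nat_lit 4)) (R (nat_lit 104465))
    (p (nat_lit 0x380c2) (nat_lit 1) (p (nat_lit 0x444aa) (nat_lit 7) (p (nat_lit 0x81) (nat_lit 1) (p (nat_lit 0xc9) (nat_lit 1) (p (nat_lit 0x109) (nat_lit 1) (p (nat_lit 0x101) (nat_lit 0) (p (nat_lit 0x119) (nat_lit 0) (p (nat_lit 0xd1) (nat_lit 0) (p (nat_lit 0x89) (nat_lit 0) (p (nat_lit 0x41) (nat_lit 0) (p (nat_lit 0x108078907089a) (nat_lit 0) (p (nat_lit 0x107870886861a) (nat_lit 0) (p (nat_lit 0x8000000000000070806078a) (nat_lit 0) (p (nat_lit 0x8000000000000068785850a) (nat_lit 0) (p (nat_lit 0x10587050682) (nat_lit 0) (p (nat_lit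 0x10506848402) (nat_lit 0) (p (nat_lit 0x16000c) (nat_lit 0) (p (nat_lit 0x160004) (nat_lit 0) (p (nat_lit 0x50612) (nat_lit 0) (p (nat_lit 0x40592) (nat_lit 0) (p (nat_lit 0x40492) (nat_lit 0) (p (nat_lit 0x30412) (nat_lit 0) (p (nat_lit 0x30212) (nat_lit 0) (p (nat_lit 0x20192) (nat_lit 0) (p (nat_lit 0x20092) (nat_lit 0) (p (nat_lit 0x10012) (nat_lit 0) pn)))))))))))))))))))))))))) :=
  Cl.node (nat_lit 0x81) (nat_lit 2) (by decide +kernel) (ClAll.succ (ClAll.succ ClAll.zero s12) n33)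

def n51 : Cl (O (nat_lit 4)) (R (nat_lit 104465))
    (p (nat_lit 0x380c2) (nat_lit 0) (p (nat_lit 0x444aa) (nat_lit 7) (p (nat_lit 0x111) (nat_lit 0) (p (nat_lit 0xc9) (nat_lit 1) (p (nat_lit 0x81) (nat_lit 0) (p (nat_lit 0x101) (nat_lit 1) (p (nat_lit 0x119) (nat_lit 0) (p (nat_lit 0xd1) (nat_lit 0) (p (nat_lit 0x89) (nat_lit 0) (p (nat_lit 0x41) (nat_lit 0) (p (nat_lit 0x108078907089a) (nat_lit 0) (p (nat_lit 0x107870886861a) (nat_lit 0) (p (nat_lit 0x8000000000000070806078a) (nat_lit 0) (p (nat_lit 0x8000000000000068785850a) (nat_lit 0) (p (nat_lit 0x10587050682) (nat_lit 0) (p (nat_lit 0x10506848402) (nat_lit 0) (p (nat_lit 0x16000c) (nat_lit 0) (p (nat_lit 0x160004) (nat_lit 0) (p (nat_lit 0x50612) (nat_lit 0) (p (nat_lit 0x40592) (nat_lit 0) (p (nat_lit 0x40492) (nat_lit 0) (p (nat_lit 0x30412) (nat_lit 0) (p (nat_lit 0x30212) (nat_lit 0) (p (nat_lit 0x20192) (nat_lit 0) (p (nat_lit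 0x20092) (nat_lit 0) (p (nat_lit 0x10012) (nat_lit 0) pn)))))))))))))))))))))))))) :=
  Cl.node (nat_lit 0xb000c) (nat_lit 2) (by decide +kernel) (ClAll.succ (ClAll.succ ClAll.zero s39) s40)

def n52 : Cl (O (nat_lit 4)) (R (nat_lit 104465))
    (p (nat_lit 0x380c2) (nat_lit 1) (p (nat_lit 0x444aa) (nat_lit 7) (p (nat_lit 0x111) (nat_lit 0) (p (nat_lit 0xc9) (nat_lit 1) (p (nat_lit 0x81) (nat_lit 0) (p (nat_lit 0x101) (nat_lit 1) (p (nat_lit 0x119) (nat_lit 0) (p (nat_lit 0xd1) (nat_lit 0) (p (nat_lit 0x89) (nat_lit 0) (p (nat_lit 0x41) (nat_lit 0) (p (nat_lit 0x108078907089a) (nat_lit 0) (p (nat_lit 0x107870886861a) (nat_lit 0) (p (nat_lit 0x8000000000000070806078a) (nat_lit 0) (p (nat_lit 0x8000000000000068785850a) (nat_lit 0) (p (nat_lit 0x10587050682) (nat_lit 0) (p (nat_lit 0x10506848402) (nat_lit 0) (p (nat_lit 0x16000c) (nat_lit 0) (p (nat_lit 0x160004) (nat_lit 0) (p (nat_lit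 0x50612) (nat_lit 0) (p (nat_lit 0x40592) (nat_lit 0) (p (nat_lit 0x40492) (nat_lit 0) (p (nat_lit 0x30412) (nat_lit 0) (p (nat_lit 0x30212) (nat_lit 0) (p (nat_lit 0x20192) (nat_lit 0) (p (nat_lit 0x20092) (nat_lit 0) (p (nat_lit 0x10012) (nat_lit 0) pn)))))))))))))))))))))))))) :=
  Cl.node (nat_lit 0x89) (nat_lit 2) (by decide +kernel) (ClAll.succ (ClAll.succ ClAll.zero n34) n35)

def n53 : Cl (O (nat_lit 4)) (R (nat_lit 104465))
    (p (nat_lit 0x380c2) (nat_lit 1) (p (nat_lit 0x444aa) (nat_lit 7) (p (nat_lit 0xc9) (nat_lit 1) (p (nat_lit 0xc1) (nat_lit 0) (p (nat_lit 0x81) (nat_lit 1) (p (nat_lit 0x101) (nat_lit 1) (p (nat_lit 0x119) (nat_lit 0) (p (nat_lit 0xd1) (nat_lit 0) (p (nat_lit 0x89) (nat_lit 0) (p (nat_lit 0x41) (nat_lit 0) (p (nat_lit 0x108078907089a) (nat_lit 0) (p (nat_lit 0x107870886861a) (nat_lit 0) (p (nat_lit 0x8000000000000070806078a) (nat_lit 0) (p (nat_lit 0x8000000000000068785850a)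 (nat_lit 0) (p (nat_lit 0x10587050682) (nat_lit 0) (p (nat_lit 0x10506848402) (nat_lit 0) (p (nat_lit 0x16000c) (nat_lit 0) (p (nat_lit 0x160004) (nat_lit 0) (p (nat_lit 0x50612) (nat_lit 0) (p (nat_lit 0x40592) (nat_lit 0) (p (nat_lit 0x40492) (nat_lit 0) (p (nat_lit 0x30412) (nat_lit 0) (p (nat_lit 0x30212) (nat_lit 0) (p (nat_lit 0x20192) (nat_lit 0) (p (nat_lit 0x20092) (nat_lit 0) (p (nat_lit 0x10012) (nat_lit 0) pn)))))))))))))))))))))))))) :=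
  Cl.node (nat_lit 0xb000c) (nat_lit 2) (by decide +kernel) (ClAll.succ (ClAll.succ ClAll.zero n36) s74)

def n54 : Cl (O (nat_lit 4)) (R (nat_lit 104465))
    (p (nat_lit 0x101) (nat_lit 1) (p (nat_lit 0x380c2) (nat_lit 1) (p (nat_lit 0x3cc2a) (nat_lit 2) (p (nat_lit 0x109) (nat_lit 1) (p (nat_lit 0xc9) (nat_lit 1) (p (nat_lit 0xc1) (nat_lit 0) (p (nat_lit 0x119) (nat_lit 1) (p (nat_lit 0xd1) (nat_lit 0) (p (nat_lit 0x89) (nat_lit 0) (p (nat_lit 0x41) (nat_lit 0) (p (nat_lit 0x108078907089a) (nat_lit 0) (p (nat_lit 0x107870886861a) (nat_lit 0) (p (nat_lit 0x8000000000000070806078a) (nat_lit 0) (p (nat_lit 0x8000000000000068785850a) (nat_lit 0) (p (nat_lit 0x10587050682) (nat_lit 0) (p (nat_lit 0x10506848402) (nat_lit 0) (p (nat_lit 0x16000c) (nat_lit 0) (p (nat_lit 0x160004) (nat_lit 0) (p (nat_lit 0x50612) (nat_lit 0) (p (nat_lit 0x40592) (nat_lit 0) (p (nat_lit 0x40492) (nat_lit 0)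 (p (nat_lit 0x30412) (nat_lit 0) (p (nat_lit 0x30212) (nat_lit 0) (p (nat_lit 0x20192) (nat_lit 0) (p (nat_lit 0x20092) (nat_lit 0) (p (nat_lit 0x10012) (nat_lit 0) pn)))))))))))))))))))))))))) :=
  Cl.node (nat_lit 0x81) (nat_lit 2) (by decide +kernel) (ClAll.succ (ClAll.succ ClAll.zero n37) n38)

def n55 : Cl (O (nat_lit 4)) (R (nat_lit 104465))
    (p (nat_lit 0x380c2) (nat_lit 1) (p (nat_lit 0x444aa) (nat_lit 7) (p (nat_lit 0x109) (nat_lit 1) (p (nat_lit 0x101) (nat_lit 0) (p (nat_lit 0x81) (nat_lit 1) (p (nat_lit 0xc1) (nat_lit 1) (p (nat_lit 0x119) (nat_lit 1) (p (nat_lit 0xd1) (nat_lit 0) (p (nat_lit 0x89) (nat_lit 0) (p (nat_lit 0x41) (nat_lit 0) (p (nat_lit 0x108078907089a) (nat_lit 0) (p (nat_lit 0x107870886861a) (nat_lit 0) (p (nat_lit 0x8000000000000070806078a) (nat_lit 0) (p (nat_lit 0x8000000000000068785850a) (nat_lit 0) (p (nat_lit 0x10587050682) (nat_lit 0) (p (nat_lit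 0x10506848402) (nat_lit 0) (p (nat_lit 0x16000c) (nat_lit 0) (p (nat_lit 0x160004) (nat_lit 0) (p (nat_lit 0x50612) (nat_lit 0) (p (nat_lit 0x40592) (nat_lit 0) (p (nat_lit 0x40492) (nat_lit 0) (p (nat_lit 0x30412) (nat_lit 0) (p (nat_lit 0x30212) (nat_lit 0) (p (nat_lit 0x20192) (nat_lit 0) (p (nat_lit 0x20092) (nat_lit 0) (p (nat_lit 0x10012) (nat_lit 0) pn)))))))))))))))))))))))))) :=
  Cl.node (nat_lit 0xb000c) (nat_lit 2) (by decide +kernel) (ClAll.succ (ClAll.succ ClAll.zero s134) s135)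

def n56 : Cl (O (nat_lit 4)) (R (nat_lit 104465))
    (p (nat_lit 0x380c2) (nat_lit 0) (p (nat_lit 0x444aa) (nat_lit 7) (p (nat_lit 0x119) (nat_lit 0) (p (nat_lit 0xc1) (nat_lit 0) (p (nat_lit 0x81) (nat_lit 1) (p (nat_lit 0x101) (nat_lit 1) (p (nat_lit 0x111) (nat_lit 0) (p (nat_lit 0xd1) (nat_lit 1) (p (nat_lit 0x89) (nat_lit 0) (p (nat_lit 0x41) (nat_lit 0) (p (nat_lit 0x108078907089a) (nat_lit 0) (p (nat_lit 0x107870886861a) (nat_lit 0) (p (nat_lit 0x8000000000000070806078a) (nat_lit 0) (p (nat_lit 0x8000000000000068785850a) (nat_lit 0) (p (nat_lit 0x10587050682) (nat_lit 0) (p (nat_lit 0x10506848402) (nat_lit 0) (p (nat_lit 0x16000c) (nat_lit 0) (p (nat_lit 0x160004) (nat_lit 0) (p (nat_lit 0x50612) (nat_lit 0) (p (nat_lit 0x40592) (nat_lit 0) (p (nat_lit 0x40492) (nat_lit 0) (p (nat_lit 0x30412) (nat_lit 0) (p (nat_lit 0x30212) (nat_lit 0) (p (nat_lit 0x20192) (nat_lit 0) (p (nat_lit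 0x20092) (nat_lit 0) (p (nat_lit 0x10012) (nat_lit 0) pn)))))))))))))))))))))))))) :=
  Cl.node (nat_lit 0xc9) (nat_lit 2) (by decide +kernel) (ClAll.succ (ClAll.succ ClAll.zero n39) s180)

def n57 : Cl (O (nat_lit 4)) (R (nat_lit 104465))
    (p (nat_lit 0x380c2) (nat_lit 1) (p (nat_lit 0x444aa) (nat_lit 7) (p (nat_lit 0x119) (nat_lit 0) (p (nat_lit 0xc1) (nat_lit 0) (p (nat_lit 0x81) (nat_lit 1) (p (nat_lit 0x101) (nat_lit 1) (p (nat_lit 0x111) (nat_lit 0) (p (nat_lit 0xd1) (nat_lit 1) (p (nat_lit 0x89) (nat_lit 0) (p (nat_lit 0x41) (nat_lit 0) (p (nat_lit 0x108078907089a) (nat_lit 0) (p (nat_lit 0x107870886861a) (nat_lit 0) (p (nat_lit 0x8000000000000070806078a) (nat_lit 0) (p (nat_lit 0x8000000000000068785850a) (nat_lit 0) (p (nat_lit 0x10587050682) (nat_lit 0) (p (nat_lit 0x10506848402) (nat_lit 0) (p (nat_lit 0x16000c) (nat_lit 0) (p (nat_lit 0x160004) (nat_lit 0) (p (nat_lit 0x50612)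 (nat_lit 0) (p (nat_lit 0x40592) (nat_lit 0) (p (nat_lit 0x40492) (nat_lit 0) (p (nat_lit 0x30412) (nat_lit 0) (p (nat_lit 0x30212) (nat_lit 0) (p (nat_lit 0x20192) (nat_lit 0) (p (nat_lit 0x20092) (nat_lit 0) (p (nat_lit 0x10012) (nat_lit 0) pn)))))))))))))))))))))))))) :=
  Cl.node (nat_lit 0x119) (nat_lit 2) (by decide +kernel) (ClAll.succ (ClAll.succ ClAll.zero s181) n40)

def n58 : Cl (O (nat_lit 4)) (R (nat_lit 104465))
    (p (nat_lit 0x380c2) (nat_lit 0) (p (nat_lit 0x444aa) (nat_lit 7) (p (nat_lit 0xd1) (nat_lit 1) (p (nat_lit 0x111) (nat_lit 1) (p (nat_lit 0x109) (nat_lit 0) (p (nat_lit 0x101) (nat_lit 0) (p (nat_lit 0x119) (nat_lit 0) (p (nat_lit 0xc9) (nat_lit 0) (p (nat_lit 0x89) (nat_lit 1) (p (nat_lit 0x41) (nat_lit 0) (p (nat_lit 0x108078907089a) (nat_lit 0) (p (nat_lit 0x107870886861a) (nat_lit 0) (p (nat_lit 0x8000000000000070806078a) (nat_lit 0) (p (nat_lit 0x8000000000000068785850a)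 (nat_lit 0) (p (nat_lit 0x10587050682) (nat_lit 0) (p (nat_lit 0x10506848402) (nat_lit 0) (p (nat_lit 0x16000c) (nat_lit 0) (p (nat_lit 0x160004) (nat_lit 0) (p (nat_lit 0x50612) (nat_lit 0) (p (nat_lit 0x40592) (nat_lit 0) (p (nat_lit 0x40492) (nat_lit 0) (p (nat_lit 0x30412) (nat_lit 0) (p (nat_lit 0x30212) (nat_lit 0) (p (nat_lit 0x20192) (nat_lit 0) (p (nat_lit 0x20092) (nat_lit 0) (p (nat_lit 0x10012) (nat_lit 0) pn)))))))))))))))))))))))))) :=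
  Cl.node (nat_lit 0xc1) (nat_lit 2) (by decide +kernel) (ClAll.succ (ClAll.succ ClAll.zero n41) s244)

def n59 : Cl (O (nat_lit 4)) (R (nat_lit 104465))
    (p (nat_lit 0x380c2) (nat_lit 1) (p (nat_lit 0x444aa) (nat_lit 7) (p (nat_lit 0xd1) (nat_lit 1) (p (nat_lit 0x111) (nat_lit 1) (p (nat_lit 0x109) (nat_lit 0) (p (nat_lit 0x101) (nat_lit 0) (p (nat_lit 0x119) (nat_lit 0) (p (nat_lit 0xc9) (nat_lit 0) (p (nat_lit 0x89) (nat_lit 1) (p (nat_lit 0x41) (nat_lit 0) (p (nat_lit 0x108078907089a) (nat_lit 0) (p (nat_lit 0x107870886861a) (nat_lit 0) (p (nat_lit 0x8000000000000070806078a) (nat_lit 0) (p (nat_lit 0x8000000000000068785850a) (nat_lit 0) (p (nat_lit 0x10587050682) (nat_lit 0) (p (nat_lit 0x10506848402) (nat_lit 0) (p (nat_lit 0x16000c) (nat_lit 0) (p (nat_lit 0x160004) (nat_lit 0) (p (nat_lit 0x50612) (nat_lit 0) (p (nat_lit 0x40592) (nat_lit 0) (p (nat_lit 0x40492) (nat_lit 0)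 (p (nat_lit 0x30412) (nat_lit 0) (p (nat_lit 0x30212) (nat_lit 0) (p (nat_lit 0x20192) (nat_lit 0) (p (nat_lit 0x20092) (nat_lit 0) (p (nat_lit 0x10012) (nat_lit 0) pn)))))))))))))))))))))))))) :=
  Cl.node (nat_lit 0xc1) (nat_lit 2) (by decide +kernel) (ClAll.succ (ClAll.succ ClAll.zero n42) s248)

def n60 : Cl (O (nat_lit 4)) (R (nat_lit 104465))
    (p (nat_lit 0xb000c) (nat_lit 0) (p (nat_lit 0x380c2) (nat_lit 0) (p (nat_lit 0x444aa) (nat_lit 7) (p (nat_lit 0xd1) (nat_lit 1) (p (nat_lit 0x109) (nat_lit 1) (p (nat_lit 0x101) (nat_lit 0) (p (nat_lit 0x119) (nat_lit 0) (p (nat_lit 0xc9) (nat_lit 0) (p (nat_lit 0x89) (nat_lit 1) (p (nat_lit 0x41) (nat_lit 0) (p (nat_lit 0x108078907089a) (nat_lit 0) (p (nat_lit 0x107870886861a) (nat_lit 0) (p (nat_lit 0x8000000000000070806078a) (nat_lit 0) (p (nat_lit 0x8000000000000068785850a) (nat_lit 0) (p (nat_lit 0x10587050682) (nat_lit 0) (p (nat_lit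 0x10506848402) (nat_lit 0) (p (nat_lit 0x16000c) (nat_lit 0) (p (nat_lit 0x160004) (nat_lit 0) (p (nat_lit 0x50612) (nat_lit 0) (p (nat_lit 0x40592) (nat_lit 0) (p (nat_lit 0x40492) (nat_lit 0) (p (nat_lit 0x30412) (nat_lit 0) (p (nat_lit 0x30212) (nat_lit 0) (p (nat_lit 0x20192) (nat_lit 0) (p (nat_lit 0x20092) (nat_lit 0) (p (nat_lit 0x10012) (nat_lit 0) pn)))))))))))))))))))))))))) :=
  Cl.node (nat_lit 0xc1) (nat_lit 2) (by decide +kernel) (ClAll.succ (ClAll.succ ClAll.zero s274) s275)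

def n61 : Cl (O (nat_lit 4)) (R (nat_lit 104465))
    (p (nat_lit 0xc1) (nat_lit 0) (p (nat_lit 0x380c2) (nat_lit 1) (p (nat_lit 0x444aa) (nat_lit 7) (p (nat_lit 0xd1) (nat_lit 1) (p (nat_lit 0x109) (nat_lit 1) (p (nat_lit 0x101) (nat_lit 0) (p (nat_lit 0x119) (nat_lit 0) (p (nat_lit 0xc9) (nat_lit 0) (p (nat_lit 0x89) (nat_lit 1) (p (nat_lit 0x41) (nat_lit 0) (p (nat_lit 0x108078907089a) (nat_lit 0) (p (nat_lit 0x107870886861a) (nat_lit 0) (p (nat_lit 0x8000000000000070806078a) (nat_lit 0) (p (nat_lit 0x8000000000000068785850a) (nat_lit 0) (p (nat_lit 0x10587050682) (nat_lit 0) (p (nat_lit 0x10506848402) (nat_lit 0) (p (nat_lit 0x16000c) (nat_lit 0) (p (nat_lit 0x160004) (nat_lit 0) (p (nat_lit 0x50612) (nat_lit 0) (p (nat_lit 0x40592) (nat_lit 0) (p (nat_lit 0x40492) (nat_lit 0) (p (nat_lit 0x30412) (nat_lit 0) (p (nat_lit 0x30212) (nat_lit 0) (p (nat_lit 0x20192) (nat_lit 0) (p (nat_lit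 0x20092) (nat_lit 0) (p (nat_lit 0x10012) (nat_lit 0) pn)))))))))))))))))))))))))) :=
  Cl.node (nat_lit 0xb000c) (nat_lit 2) (by decide +kernel) (ClAll.succ (ClAll.succ ClAll.zero n43) n44)

def n62 : Cl (O (nat_lit 4)) (R (nat_lit 104465))
    (p (nat_lit 0xc9) (nat_lit 0) (p (nat_lit 0x380c2) (nat_lit 1) (p (nat_lit 0x444aa) (nat_lit 7) (p (nat_lit 0xd1) (nat_lit 1) (p (nat_lit 0xc1) (nat_lit 0) (p (nat_lit 0x101) (nat_lit 1) (p (nat_lit 0x119) (nat_lit 0) (p (nat_lit 0xc9) (nat_lit 0) (p (nat_lit 0x89) (nat_lit 1) (p (nat_lit 0x41) (nat_lit 0) (p (nat_lit 0x108078907089a) (nat_lit 0) (p (nat_lit 0x107870886861a) (nat_lit 0) (p (nat_lit 0x8000000000000070806078a) (nat_lit 0) (p (nat_lit 0x8000000000000068785850a) (nat_lit 0) (p (nat_lit 0x10587050682) (nat_lit 0) (p (nat_lit 0x10506848402) (nat_lit 0) (p (nat_lit 0x16000c) (nat_lit 0) (p (nat_lit 0x160004) (nat_lit 0) (p (nat_lit 0x50612)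 (nat_lit 0) (p (nat_lit 0x40592) (nat_lit 0) (p (nat_lit 0x40492) (nat_lit 0) (p (nat_lit 0x30412) (nat_lit 0) (p (nat_lit 0x30212) (nat_lit 0) (p (nat_lit 0x20192) (nat_lit 0) (p (nat_lit 0x20092) (nat_lit 0) (p (nat_lit 0x10012) (nat_lit 0) pn)))))))))))))))))))))))))) :=
  Cl.node (nat_lit 0x119) (nat_lit 2) (by decide +kernel) (ClAll.succ (ClAll.succ ClAll.zero s313) s314)

def n63 : Cl (O (nat_lit 4)) (R (nat_lit 104465))
    (p (nat_lit 0xb0004) (nat_lit 0) (p (nat_lit 0x380c2) (nat_lit 0) (p (nat_lit 0x444aa) (nat_lit 7) (p (nat_lit 0x111) (nat_lit 1) (p (nat_lit 0xd1) (nat_lit 1) (p (nat_lit 0xc1) (nat_lit 0) (p (nat_lit 0x119) (nat_lit 1) (p (nat_lit 0xc9) (nat_lit 0) (p (nat_lit 0x89) (nat_lit 1) (p (nat_lit 0x41) (nat_lit 0) (p (nat_lit 0x108078907089a) (nat_lit 0) (p (nat_lit 0x107870886861a) (nat_lit 0) (p (nat_lit 0x8000000000000070806078a) (nat_lit 0) (p (nat_lit 0x8000000000000068785850a)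 (nat_lit 0) (p (nat_lit 0x10587050682) (nat_lit 0) (p (nat_lit 0x10506848402) (nat_lit 0) (p (nat_lit 0x16000c) (nat_lit 0) (p (nat_lit 0x160004) (nat_lit 0) (p (nat_lit 0x50612) (nat_lit 0) (p (nat_lit 0x40592) (nat_lit 0) (p (nat_lit 0x40492) (nat_lit 0) (p (nat_lit 0x30412) (nat_lit 0) (p (nat_lit 0x30212) (nat_lit 0) (p (nat_lit 0x20192) (nat_lit 0) (p (nat_lit 0x20092) (nat_lit 0) (p (nat_lit 0x10012) (nat_lit 0) pn)))))))))))))))))))))))))) :=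
  Cl.node (nat_lit 0x109) (nat_lit 2) (by decide +kernel) (ClAll.succ (ClAll.succ ClAll.zero s330) s331)

def n64 : Cl (O (nat_lit 4)) (R (nat_lit 104465))
    (p (nat_lit 0xb000c) (nat_lit 0) (p (nat_lit 0x380c2) (nat_lit 1) (p (nat_lit 0x444aa) (nat_lit 7) (p (nat_lit 0x111) (nat_lit 1) (p (nat_lit 0xd1) (nat_lit 1) (p (nat_lit 0xc1) (nat_lit 0) (p (nat_lit 0x119) (nat_lit 1) (p (nat_lit 0xc9) (nat_lit 0) (p (nat_lit 0x89) (nat_lit 1) (p (nat_lit 0x41) (nat_lit 0) (p (nat_lit 0x108078907089a) (nat_lit 0) (p (nat_lit 0x107870886861a) (nat_lit 0) (p (nat_lit 0x8000000000000070806078a) (nat_lit 0) (p (nat_lit 0x8000000000000068785850a) (nat_lit 0) (p (nat_lit 0x10587050682) (nat_lit 0) (p (nat_lit 0x10506848402) (nat_lit 0) (p (nat_lit 0x16000c) (nat_lit 0) (p (nat_lit 0x160004) (nat_lit 0) (p (nat_lit 0x50612) (nat_lit 0) (p (nat_lit 0x40592) (nat_lit 0) (p (nat_lit 0x40492) (nat_lit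 0) (p (nat_lit 0x30412) (nat_lit 0) (p (nat_lit 0x30212) (nat_lit 0) (p (nat_lit 0x20192) (nat_lit 0) (p (nat_lit 0x20092) (nat_lit 0) (p (nat_lit 0x10012) (nat_lit 0) pn)))))))))))))))))))))))))) :=
  Cl.node (nat_lit 0x109) (nat_lit 2) (by decide +kernel) (ClAll.succ (ClAll.succ ClAll.zero s333) s334)

def n65 : Cl (O (nat_lit 4)) (R (nat_lit 104465))
    (p (nat_lit 0x380c2) (nat_lit 1) (p (nat_lit 0x3c4aa) (nat_lit 8) (p (nat_lit 0x109) (nat_lit 1) (p (nat_lit 0x89) (nat_lit 1) (p (nat_lit 0x101) (nat_lit 0) (p (nat_lit 0xc1) (nat_lit 1) (p (nat_lit 0x119) (nat_lit 1) (p (nat_lit 0xd1) (nat_lit 0) (p (nat_lit 0x81) (nat_lit 0) (p (nat_lit 0x41) (nat_lit 1) (p (nat_lit 0x108078907089a) (nat_lit 0) (p (nat_lit 0x107870886861a) (nat_lit 0) (p (nat_lit 0x8000000000000070806078a) (nat_lit 0) (p (nat_lit 0x8000000000000068785850a) (nat_lit 0) (p (nat_lit 0x10587050682) (nat_lit 0) (p (nat_lit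 0x10506848402) (nat_lit 0) (p (nat_lit 0x16000c) (nat_lit 0) (p (nat_lit 0x160004) (nat_lit 0) (p (nat_lit 0x50612) (nat_lit 0) (p (nat_lit 0x40592) (nat_lit 0) (p (nat_lit 0x40492) (nat_lit 0) (p (nat_lit 0x30412) (nat_lit 0) (p (nat_lit 0x30212) (nat_lit 0) (p (nat_lit 0x20192) (nat_lit 0) (p (nat_lit 0x20092) (nat_lit 0) (p (nat_lit 0x10012) (nat_lit 0) pn)))))))))))))))))))))))))) :=
  Cl.node (nat_lit 0x200014) (nat_lit 2) (by decide +kernel) (ClAll.succ (ClAll.succ ClAll.zero n45) s469)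

def n66 : Cl (O (nat_lit 4)) (R (nat_lit 104465))
    (p (nat_lit 0x3cc2a) (nat_lit 2) (p (nat_lit 0x119) (nat_lit 1) (p (nat_lit 0xc9) (nat_lit 0) (p (nat_lit 0x89) (nat_lit 1) (p (nat_lit 0x109) (nat_lit 1) (p (nat_lit 0x101) (nat_lit 0) (p (nat_lit 0x111) (nat_lit 0) (p (nat_lit 0xd1) (nat_lit 1) (p (nat_lit 0x81) (nat_lit 0) (p (nat_lit 0x41) (nat_lit 1) (p (nat_lit 0x108078907089a) (nat_lit 0) (p (nat_lit 0x107870886861a) (nat_lit 0) (p (nat_lit 0x8000000000000070806078a) (nat_lit 0) (p (nat_lit 0x8000000000000068785850a) (nat_lit 0) (p (nat_lit 0x10587050682) (nat_lit 0) (p (nat_lit 0x10506848402) (nat_lit 0) (p (nat_lit 0x16000c) (nat_lit 0) (p (nat_lit 0x160004) (nat_lit 0) (p (nat_lit 0x50612) (nat_lit 0) (p (nat_lit 0x40592) (nat_lit 0) (p (nat_lit 0x40492) (nat_lit 0) (p (nat_lit 0x30412) (nat_lit 0) (p (nat_lit 0x30212) (nat_lit 0) (p (nat_lit 0x20192) (nat_lit 0) (p (nat_lit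 0x20092) (nat_lit 0) (p (nat_lit 0x10012) (nat_lit 0) pn)))))))))))))))))))))))))) :=
  Cl.node (nat_lit 0x380c2) (nat_lit 2) (by decide +kernel) (ClAll.succ (ClAll.succ ClAll.zero s503) s504)

def n67 : Cl (O (nat_lit 4)) (R (nat_lit 104465))
    (p (nat_lit 0x200014) (nat_lit 0) (p (nat_lit 0x380c2) (nat_lit 1) (p (nat_lit 0x3cc2a) (nat_lit 2) (p (nat_lit 0xc9) (nat_lit 0) (p (nat_lit 0x89) (nat_lit 1) (p (nat_lit 0x101) (nat_lit 1) (p (nat_lit 0x111) (nat_lit 0) (p (nat_lit 0xd1) (nat_lit 1) (p (nat_lit 0x81) (nat_lit 0) (p (nat_lit 0x41) (nat_lit 1) (p (nat_lit 0x108078907089a) (nat_lit 0) (p (nat_lit 0x107870886861a) (nat_lit 0) (p (nat_lit 0x8000000000000070806078a) (nat_lit 0) (p (nat_lit 0x8000000000000068785850a) (nat_lit 0) (p (nat_lit 0x10587050682) (nat_lit 0) (p (nat_lit 0x10506848402) (nat_lit 0) (p (nat_lit 0x16000c) (nat_lit 0) (p (nat_lit 0x160004) (nat_lit 0) (p (nat_lit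 0x50612) (nat_lit 0) (p (nat_lit 0x40592) (nat_lit 0) (p (nat_lit 0x40492) (nat_lit 0) (p (nat_lit 0x30412) (nat_lit 0) (p (nat_lit 0x30212) (nat_lit 0) (p (nat_lit 0x20192) (nat_lit 0) (p (nat_lit 0x20092) (nat_lit 0) (p (nat_lit 0x10012) (nat_lit 0) pn)))))))))))))))))))))))))) :=
  Cl.node (nat_lit 0x100014) (nat_lit 2) (by decide +kernel) (ClAll.succ (ClAll.succ ClAll.zero n46) s532)

def n68 : Cl (O (nat_lit 4)) (R (nat_lit 104465))
    (p (nat_lit 0x380c2) (nat_lit 0) (p (nat_lit 0x3c4aa) (nat_lit 7) (p (nat_lit 0xd1) (nat_lit 1) (p (nat_lit 0xc9) (nat_lit 0) (p (nat_lit 0x109) (nat_lit 1) (p (nat_lit 0x101) (nat_lit 0) (p (nat_lit 0x119) (nat_lit 0) (p (nat_lit 0xc1) (nat_lit 0) (p (nat_lit 0x81) (nat_lit 1) (p (nat_lit 0x41) (nat_lit 1) (p (nat_lit 0x108078907089a) (nat_lit 0) (p (nat_lit 0x107870886861a) (nat_lit 0) (p (nat_lit 0x8000000000000070806078a) (nat_lit 0) (p (nat_lit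 0x8000000000000068785850a) (nat_lit 0) (p (nat_lit 0x10587050682) (nat_lit 0) (p (nat_lit 0x10506848402) (nat_lit 0) (p (nat_lit 0x16000c) (nat_lit 0) (p (nat_lit 0x160004) (nat_lit 0) (p (nat_lit 0x50612) (nat_lit 0) (p (nat_lit 0x40592) (nat_lit 0) (p (nat_lit 0x40492) (nat_lit 0) (p (nat_lit 0x30412) (nat_lit 0) (p (nat_lit 0x30212) (nat_lit 0) (p (nat_lit 0x20192) (nat_lit 0) (p (nat_lit 0x20092) (nat_lit 0) (p (nat_lit 0x10012) (nat_lit 0) pn)))))))))))))))))))))))))) :=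
  Cl.node (nat_lit 0x119) (nat_lit 2) (by decide +kernel) (ClAll.succ (ClAll.succ ClAll.zero s582) n47)

def n69 : Cl (O (nat_lit 4)) (R (nat_lit 104465))
    (p (nat_lit 0xb000c) (nat_lit 0) (p (nat_lit 0x380c2) (nat_lit 0) (p (nat_lit 0x44c2a) (nat_lit 0) (p (nat_lit 0xd1) (nat_lit 0) (p (nat_lit 0xc9) (nat_lit 0) (p (nat_lit 0x101) (nat_lit 1) (p (nat_lit 0x119) (nat_lit 0) (p (nat_lit 0xc1) (nat_lit 0) (p (nat_lit 0x81) (nat_lit 1) (p (nat_lit 0x41) (nat_lit 1) (p (nat_lit 0x108078907089a) (nat_lit 0) (p (nat_lit 0x107870886861a) (nat_lit 0) (p (nat_lit 0x8000000000000070806078a) (nat_lit 0) (p (nat_lit 0x8000000000000068785850a) (nat_lit 0) (p (nat_lit 0x10587050682) (nat_lit 0) (p (nat_lit 0x10506848402) (nat_lit 0) (p (nat_lit 0x16000c) (nat_lit 0) (p (nat_lit 0x160004) (nat_lit 0) (p (nat_lit 0x50612) (nat_lit 0) (p (nat_lit 0x40592) (nat_lit 0) (p (nat_lit 0x40492) (nat_lit 0)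 (p (nat_lit 0x30412) (nat_lit 0) (p (nat_lit 0x30212) (nat_lit 0) (p (nat_lit 0x20192) (nat_lit 0) (p (nat_lit 0x20092) (nat_lit 0) (p (nat_lit 0x10012) (nat_lit 0) pn)))))))))))))))))))))))))) :=
  Cl.node (nat_lit 0xc9) (nat_lit 2) (by decide +kernel) (ClAll.succ (ClAll.succ ClAll.zero s591) s592)

def n70 : Cl (O (nat_lit 4)) (R (nat_lit 104465))
    (p (nat_lit 0x200014) (nat_lit 0) (p (nat_lit 0x380c2) (nat_lit 1) (p (nat_lit 0x3c4aa) (nat_lit 8) (p (nat_lit 0xd1) (nat_lit 1) (p (nat_lit 0xc9) (nat_lit 0) (p (nat_lit 0x101) (nat_lit 1) (p (nat_lit 0x119) (nat_lit 0) (p (nat_lit 0xc1) (nat_lit 0) (p (nat_lit 0x81) (nat_lit 1) (p (nat_lit 0x41) (nat_lit 1) (p (nat_lit 0x108078907089a) (nat_lit 0) (p (nat_lit 0x107870886861a) (nat_lit 0) (p (nat_lit 0x8000000000000070806078a) (nat_lit 0) (p (nat_lit 0x8000000000000068785850a) (nat_lit 0) (p (nat_lit 0x10587050682) (nat_lit 0) (p (nat_lit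 0x10506848402) (nat_lit 0) (p (nat_lit 0x16000c) (nat_lit 0) (p (nat_lit 0x160004) (nat_lit 0) (p (nat_lit 0x50612) (nat_lit 0) (p (nat_lit 0x40592) (nat_lit 0) (p (nat_lit 0x40492) (nat_lit 0) (p (nat_lit 0x30412) (nat_lit 0) (p (nat_lit 0x30212) (nat_lit 0) (p (nat_lit 0x20192) (nat_lit 0) (p (nat_lit 0x20092) (nat_lit 0) (p (nat_lit 0x10012) (nat_lit 0) pn)))))))))))))))))))))))))) :=
  Cl.node (nat_lit 0x101) (nat_lit 2) (by decide +kernel) (ClAll.succ (ClAll.succ ClAll.zero n48) s632)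

def n71 : Cl (O (nat_lit 4)) (R (nat_lit 104465))
    (p (nat_lit 0x444aa) (nat_lit 7) (p (nat_lit 0x81) (nat_lit 1) (p (nat_lit 0xc9) (nat_lit 1) (p (nat_lit 0x109) (nat_lit 1) (p (nat_lit 0x101) (nat_lit 0) (p (nat_lit 0x119) (nat_lit 0) (p (nat_lit 0xd1) (nat_lit 0) (p (nat_lit 0x89) (nat_lit 0) (p (nat_lit 0x41) (nat_lit 0) (p (nat_lit 0x108078907089a) (nat_lit 0) (p (nat_lit 0x107870886861a) (nat_lit 0) (p (nat_lit 0x8000000000000070806078a) (nat_lit 0) (p (nat_lit 0x8000000000000068785850a) (nat_lit 0) (p (nat_lit 0x10587050682) (nat_lit 0) (p (nat_lit 0x10506848402) (nat_lit 0) (p (nat_lit 0x16000c) (nat_lit 0) (p (nat_lit 0x160004) (nat_lit 0) (p (nat_lit 0x50612) (nat_lit 0) (p (nat_lit 0x40592) (nat_lit 0) (p (nat_lit 0x40492) (nat_lit 0) (p (nat_lit 0x30412) (nat_lit 0) (p (nat_lit 0x30212) (nat_lit 0) (p (nat_lit 0x20192) (nat_lit 0) (p (nat_lit 0x20092) (nat_lit 0) (p (nat_lit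 0x10012) (nat_lit 0) pn))))))))))))))))))))))))) :=
  Cl.node (nat_lit 0x380c2) (nat_lit 2) (by decide +kernel) (ClAll.succ (ClAll.succ ClAll.zero n49) n50)

def n72 : Cl (O (nat_lit 4)) (R (nat_lit 104465))
    (p (nat_lit 0x444aa) (nat_lit 7) (p (nat_lit 0x111) (nat_lit 0) (p (nat_lit 0xc9) (nat_lit 1) (p (nat_lit 0x81) (nat_lit 0) (p (nat_lit 0x101) (nat_lit 1) (p (nat_lit 0x119) (nat_lit 0) (p (nat_lit 0xd1) (nat_lit 0) (p (nat_lit 0x89) (nat_lit 0) (p (nat_lit 0x41) (nat_lit 0) (p (nat_lit 0x108078907089a) (nat_lit 0) (p (nat_lit 0x107870886861a) (nat_lit 0) (p (nat_lit 0x8000000000000070806078a) (nat_lit 0) (p (nat_lit 0x8000000000000068785850a) (nat_lit 0) (p (nat_lit 0x10587050682) (nat_lit 0) (p (nat_lit 0x10506848402) (nat_lit 0) (p (nat_lit 0x16000c) (nat_lit 0) (p (nat_lit 0x160004) (nat_lit 0) (p (nat_lit 0x50612) (nat_lit 0) (p (nat_lit 0x40592) (nat_lit 0) (p (nat_lit 0x40492)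 (nat_lit 0) (p (nat_lit 0x30412) (nat_lit 0) (p (nat_lit 0x30212) (nat_lit 0) (p (nat_lit 0x20192) (nat_lit 0) (p (nat_lit 0x20092) (nat_lit 0) (p (nat_lit 0x10012) (nat_lit 0) pn))))))))))))))))))))))))) :=
  Cl.node (nat_lit 0x380c2) (nat_lit 2) (by decide +kernel) (ClAll.succ (ClAll.succ ClAll.zero n51) n52)

def n73 : Cl (O (nat_lit 4)) (R (nat_lit 104465))
    (p (nat_lit 0x444aa) (nat_lit 7) (p (nat_lit 0xc9) (nat_lit 1) (p (nat_lit 0xc1) (nat_lit 0) (p (nat_lit 0x81) (nat_lit 1) (p (nat_lit 0x101) (nat_lit 1) (p (nat_lit 0x119) (nat_lit 0) (p (nat_lit 0xd1) (nat_lit 0) (p (nat_lit 0x89) (nat_lit 0) (p (nat_lit 0x41) (nat_lit 0) (p (nat_lit 0x108078907089a) (nat_lit 0) (p (nat_lit 0x107870886861a) (nat_lit 0) (p (nat_lit 0x8000000000000070806078a) (nat_lit 0) (p (nat_lit 0x8000000000000068785850a) (nat_lit 0) (p (nat_lit 0x10587050682) (nat_lit 0) (p (nat_lit 0x10506848402) (nat_lit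 0) (p (nat_lit 0x16000c) (nat_lit 0) (p (nat_lit 0x160004) (nat_lit 0) (p (nat_lit 0x50612) (nat_lit 0) (p (nat_lit 0x40592) (nat_lit 0) (p (nat_lit 0x40492) (nat_lit 0) (p (nat_lit 0x30412) (nat_lit 0) (p (nat_lit 0x30212) (nat_lit 0) (p (nat_lit 0x20192) (nat_lit 0) (p (nat_lit 0x20092) (nat_lit 0) (p (nat_lit 0x10012) (nat_lit 0) pn))))))))))))))))))))))))) :=
  Cl.node (nat_lit 0x380c2) (nat_lit 2) (by decide +kernel) (ClAll.succ (ClAll.succ ClAll.zero s69) n53)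

def n74 : Cl (O (nat_lit 4)) (R (nat_lit 104465))
    (p (nat_lit 0x380c2) (nat_lit 1) (p (nat_lit 0x3cc2a) (nat_lit 2) (p (nat_lit 0x109) (nat_lit 1) (p (nat_lit 0xc9) (nat_lit 1) (p (nat_lit 0xc1) (nat_lit 0) (p (nat_lit 0x119) (nat_lit 1) (p (nat_lit 0xd1) (nat_lit 0) (p (nat_lit 0x89) (nat_lit 0) (p (nat_lit 0x41) (nat_lit 0) (p (nat_lit 0x108078907089a) (nat_lit 0) (p (nat_lit 0x107870886861a) (nat_lit 0) (p (nat_lit 0x8000000000000070806078a) (nat_lit 0) (p (nat_lit 0x8000000000000068785850a) (nat_lit 0) (p (nat_lit 0x10587050682) (nat_lit 0) (p (nat_lit 0x10506848402) (nat_lit 0) (p (nat_lit 0x16000c) (nat_lit 0) (p (nat_lit 0x160004) (nat_lit 0) (p (nat_lit 0x50612) (nat_lit 0) (p (nat_lit 0x40592) (nat_lit 0) (p (nat_lit 0x40492) (nat_lit 0) (p (nat_lit 0x30412) (nat_lit 0) (p (nat_lit 0x30212) (nat_lit 0) (p (nat_lit 0x20192) (nat_lit 0) (p (nat_lit 0x20092) (nat_lit 0) (p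 (nat_lit 0x10012) (nat_lit 0) pn))))))))))))))))))))))))) :=
  Cl.node (nat_lit 0x101) (nat_lit 2) (by decide +kernel) (ClAll.succ (ClAll.succ ClAll.zero s85) n54)

def n75 : Cl (O (nat_lit 4)) (R (nat_lit 104465))
    (p (nat_lit 0x444aa) (nat_lit 7) (p (nat_lit 0x109) (nat_lit 1) (p (nat_lit 0x101) (nat_lit 0) (p (nat_lit 0x81) (nat_lit 1) (p (nat_lit 0xc1) (nat_lit 1) (p (nat_lit 0x119) (nat_lit 1) (p (nat_lit 0xd1) (nat_lit 0) (p (nat_lit 0x89) (nat_lit 0) (p (nat_lit 0x41) (nat_lit 0) (p (nat_lit 0x108078907089a) (nat_lit 0) (p (nat_lit 0x107870886861a) (nat_lit 0) (p (nat_lit 0x8000000000000070806078a) (nat_lit 0) (p (nat_lit 0x8000000000000068785850a) (nat_lit 0) (p (nat_lit 0x10587050682) (nat_lit 0) (p (nat_lit 0x10506848402) (nat_lit 0) (p (nat_lit 0x16000c) (nat_lit 0) (p (nat_lit 0x160004) (nat_lit 0) (p (nat_lit 0x50612) (nat_lit 0) (p (nat_lit 0x40592) (nat_lit 0) (p (nat_lit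 0x40492) (nat_lit 0) (p (nat_lit 0x30412) (nat_lit 0) (p (nat_lit 0x30212) (nat_lit 0) (p (nat_lit 0x20192) (nat_lit 0) (p (nat_lit 0x20092) (nat_lit 0) (p (nat_lit 0x10012) (nat_lit 0) pn))))))))))))))))))))))))) :=
  Cl.node (nat_lit 0x380c2) (nat_lit 2) (by decide +kernel) (ClAll.succ (ClAll.succ ClAll.zero s133) n55)

def n76 : Cl (O (nat_lit 4)) (R (nat_lit 104465))
    (p (nat_lit 0x109) (nat_lit 1) (p (nat_lit 0x200014) (nat_lit 0) (p (nat_lit 0x119) (nat_lit 0) (p (nat_lit 0x81) (nat_lit 0) (p (nat_lit 0x101) (nat_lit 1) (p (nat_lit 0x111) (nat_lit 0) (p (nat_lit 0xd1) (nat_lit 1) (p (nat_lit 0x89) (nat_lit 0) (p (nat_lit 0x41) (nat_lit 0) (p (nat_lit 0x108078907089a) (nat_lit 0) (p (nat_lit 0x107870886861a) (nat_lit 0) (p (nat_lit 0x8000000000000070806078a) (nat_lit 0) (p (nat_lit 0x8000000000000068785850a) (nat_lit 0) (p (nat_lit 0x10587050682) (nat_lit 0) (p (nat_lit 0x10506848402)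 (nat_lit 0) (p (nat_lit 0x16000c) (nat_lit 0) (p (nat_lit 0x160004) (nat_lit 0) (p (nat_lit 0x50612) (nat_lit 0) (p (nat_lit 0x40592) (nat_lit 0) (p (nat_lit 0x40492) (nat_lit 0) (p (nat_lit 0x30412) (nat_lit 0) (p (nat_lit 0x30212) (nat_lit 0) (p (nat_lit 0x20192) (nat_lit 0) (p (nat_lit 0x20092) (nat_lit 0) (p (nat_lit 0x10012) (nat_lit 0) pn))))))))))))))))))))))))) :=
  Cl.node (nat_lit 0x3cc2a) (nat_lit 12) (by decide +kernel) (ClAll.succ (ClAll.succ (ClAll.succ (ClAll.succ (ClAll.succ (ClAll.succ (ClAll.succ (ClAll.succ (ClAll.succ (ClAll.succ (ClAll.succ (ClAll.succ ClAll.zero s146) s147) s148) s149) s150) s151) s152) s153) s154) s155) s156) s157)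

def n77 : Cl (O (nat_lit 4)) (R (nat_lit 104465))
    (p (nat_lit 0x444aa) (nat_lit 7) (p (nat_lit 0x119) (nat_lit 0) (p (nat_lit 0xc1) (nat_lit 0) (p (nat_lit 0x81) (nat_lit 1) (p (nat_lit 0x101) (nat_lit 1) (p (nat_lit 0x111) (nat_lit 0) (p (nat_lit 0xd1) (nat_lit 1) (p (nat_lit 0x89) (nat_lit 0) (p (nat_lit 0x41) (nat_lit 0) (p (nat_lit 0x108078907089a) (nat_lit 0) (p (nat_lit 0x107870886861a) (nat_lit 0) (p (nat_lit 0x8000000000000070806078a) (nat_lit 0) (p (nat_lit 0x8000000000000068785850a) (nat_lit 0) (p (nat_lit 0x10587050682) (nat_lit 0) (p (nat_lit 0x10506848402) (nat_lit 0) (p (nat_lit 0x16000c) (nat_lit 0) (p (nat_lit 0x160004) (nat_lit 0) (p (nat_lit 0x50612) (nat_lit 0) (p (nat_lit 0x40592) (nat_lit 0) (p (nat_lit 0x40492) (nat_lit 0) (p (nat_lit 0x30412) (nat_lit 0) (p (nat_lit 0x30212) (nat_lit 0) (p (nat_lit 0x20192) (nat_lit 0) (p (nat_lit 0x20092) (nat_lit 0) (p (nat_lit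 0x10012) (nat_lit 0) pn))))))))))))))))))))))))) :=
  Cl.node (nat_lit 0x380c2) (nat_lit 2) (by decide +kernel) (ClAll.succ (ClAll.succ ClAll.zero n56) n57)

def n78 : Cl (O (nat_lit 4)) (R (nat_lit 104465))
    (p (nat_lit 0x3cc2a) (nat_lit 2) (p (nat_lit 0x119) (nat_lit 1) (p (nat_lit 0xc1) (nat_lit 0) (p (nat_lit 0x81) (nat_lit 1) (p (nat_lit 0x101) (nat_lit 1) (p (nat_lit 0x111) (nat_lit 0) (p (nat_lit 0xd1) (nat_lit 1) (p (nat_lit 0x89) (nat_lit 0) (p (nat_lit 0x41) (nat_lit 0) (p (nat_lit 0x108078907089a) (nat_lit 0) (p (nat_lit 0x107870886861a) (nat_lit 0) (p (nat_lit 0x8000000000000070806078a) (nat_lit 0) (p (nat_lit 0x8000000000000068785850a) (nat_lit 0) (p (nat_lit 0x10587050682) (nat_lit 0) (p (nat_lit 0x10506848402) (nat_lit 0) (p (nat_lit 0x16000c) (nat_lit 0) (p (nat_lit 0x160004) (nat_lit 0) (p (nat_lit 0x50612) (nat_lit 0) (p (nat_lit 0x40592) (nat_lit 0) (p (nat_lit 0x40492)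 (nat_lit 0) (p (nat_lit 0x30412) (nat_lit 0) (p (nat_lit 0x30212) (nat_lit 0) (p (nat_lit 0x20192) (nat_lit 0) (p (nat_lit 0x20092) (nat_lit 0) (p (nat_lit 0x10012) (nat_lit 0) pn))))))))))))))))))))))))) :=
  Cl.node (nat_lit 0x380c2) (nat_lit 2) (by decide +kernel) (ClAll.succ (ClAll.succ ClAll.zero s202) s203)

def n79 : Cl (O (nat_lit 4)) (R (nat_lit 104465))
    (p (nat_lit 0x444aa) (nat_lit 7) (p (nat_lit 0xd1) (nat_lit 1) (p (nat_lit 0x111) (nat_lit 1) (p (nat_lit 0x109) (nat_lit 0) (p (nat_lit 0x101) (nat_lit 0) (p (nat_lit 0x119) (nat_lit 0) (p (nat_lit 0xc9) (nat_lit 0) (p (nat_lit 0x89) (nat_lit 1) (p (nat_lit 0x41) (nat_lit 0) (p (nat_lit 0x108078907089a) (nat_lit 0) (p (nat_lit 0x107870886861a) (nat_lit 0) (p (nat_lit 0x8000000000000070806078a) (nat_lit 0) (p (nat_lit 0x8000000000000068785850a) (nat_lit 0) (p (nat_lit 0x10587050682) (nat_lit 0) (p (nat_lit 0x10506848402)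 (nat_lit 0) (p (nat_lit 0x16000c) (nat_lit 0) (p (nat_lit 0x160004) (nat_lit 0) (p (nat_lit 0x50612) (nat_lit 0) (p (nat_lit 0x40592) (nat_lit 0) (p (nat_lit 0x40492) (nat_lit 0) (p (nat_lit 0x30412) (nat_lit 0) (p (nat_lit 0x30212) (nat_lit 0) (p (nat_lit 0x20192) (nat_lit 0) (p (nat_lit 0x20092) (nat_lit 0) (p (nat_lit 0x10012) (nat_lit 0) pn))))))))))))))))))))))))) :=
  Cl.node (nat_lit 0x380c2) (nat_lit 2) (by decide +kernel) (ClAll.succ (ClAll.succ ClAll.zero n58) n59)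

def n80 : Cl (O (nat_lit 4)) (R (nat_lit 104465))
    (p (nat_lit 0x41) (nat_lit 0) (p (nat_lit 0x200014) (nat_lit 0) (p (nat_lit 0xd1) (nat_lit 0) (p (nat_lit 0x109) (nat_lit 1) (p (nat_lit 0x101) (nat_lit 0) (p (nat_lit 0x119) (nat_lit 0) (p (nat_lit 0xc9) (nat_lit 0) (p (nat_lit 0x89) (nat_lit 1) (p (nat_lit 0x41) (nat_lit 0) (p (nat_lit 0x108078907089a) (nat_lit 0) (p (nat_lit 0x107870886861a) (nat_lit 0) (p (nat_lit 0x8000000000000070806078a) (nat_lit 0) (p (nat_lit 0x8000000000000068785850a) (nat_lit 0) (p (nat_lit 0x10587050682) (nat_lit 0) (p (nat_lit 0x10506848402) (nat_lit 0) (p (nat_lit 0x16000c) (nat_lit 0) (p (nat_lit 0x160004) (nat_lit 0) (p (nat_lit 0x50612) (nat_lit 0) (p (nat_lit 0x40592) (nat_lit 0) (p (nat_lit 0x40492) (nat_lit 0) (p (nat_lit 0x30412) (nat_lit 0) (p (nat_lit 0x30212) (nat_lit 0) (p (nat_lit 0x20192) (nat_lit 0) (p (nat_lit 0x20092) (nat_lit 0) (p (nat_lit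 0x10012) (nat_lit 0) pn))))))))))))))))))))))))) :=
  Cl.node (nat_lit 0x44c2a) (nat_lit 12) (by decide +kernel) (ClAll.succ (ClAll.succ (ClAll.succ (ClAll.succ (ClAll.succ (ClAll.succ (ClAll.succ (ClAll.succ (ClAll.succ (ClAll.succ (ClAll.succ (ClAll.succ ClAll.zero s253) s254) s255) s256) s257) s258) s259) s260) s261) s262) s263) s264)

def n81 : Cl (O (nat_lit 4)) (R (nat_lit 104465))
    (p (nat_lit 0x380c2) (nat_lit 0) (p (nat_lit 0x444aa) (nat_lit 7) (p (nat_lit 0xd1) (nat_lit 1) (p (nat_lit 0x109) (nat_lit 1) (p (nat_lit 0x101) (nat_lit 0) (p (nat_lit 0x119) (nat_lit 0) (p (nat_lit 0xc9) (nat_lit 0) (p (nat_lit 0x89) (nat_lit 1) (p (nat_lit 0x41) (nat_lit 0) (p (nat_lit 0x108078907089a) (nat_lit 0) (p (nat_lit 0x107870886861a) (nat_lit 0) (p (nat_lit 0x8000000000000070806078a) (nat_lit 0) (p (nat_lit 0x8000000000000068785850a) (nat_lit 0) (p (nat_lit 0x10587050682) (nat_lit 0)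 (p (nat_lit 0x10506848402) (nat_lit 0) (p (nat_lit 0x16000c) (nat_lit 0) (p (nat_lit 0x160004) (nat_lit 0) (p (nat_lit 0x50612) (nat_lit 0) (p (nat_lit 0x40592) (nat_lit 0) (p (nat_lit 0x40492) (nat_lit 0) (p (nat_lit 0x30412) (nat_lit 0) (p (nat_lit 0x30212) (nat_lit 0) (p (nat_lit 0x20192) (nat_lit 0) (p (nat_lit 0x20092) (nat_lit 0) (p (nat_lit 0x10012) (nat_lit 0) pn))))))))))))))))))))))))) :=
  Cl.node (nat_lit 0xb000c) (nat_lit 2) (by decide +kernel) (ClAll.succ (ClAll.succ ClAll.zero n60) s276)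

def n82 : Cl (O (nat_lit 4)) (R (nat_lit 104465))
    (p (nat_lit 0x380c2) (nat_lit 1) (p (nat_lit 0x444aa) (nat_lit 7) (p (nat_lit 0xd1) (nat_lit 1) (p (nat_lit 0x109) (nat_lit 1) (p (nat_lit 0x101) (nat_lit 0) (p (nat_lit 0x119) (nat_lit 0) (p (nat_lit 0xc9) (nat_lit 0) (p (nat_lit 0x89) (nat_lit 1) (p (nat_lit 0x41) (nat_lit 0) (p (nat_lit 0x108078907089a) (nat_lit 0) (p (nat_lit 0x107870886861a) (nat_lit 0) (p (nat_lit 0x8000000000000070806078a) (nat_lit 0) (p (nat_lit 0x8000000000000068785850a) (nat_lit 0) (p (nat_lit 0x10587050682) (nat_lit 0) (p (nat_lit 0x10506848402) (nat_lit 0) (p (nat_lit 0x16000c) (nat_lit 0) (p (nat_lit 0x160004) (nat_lit 0) (p (nat_lit 0x50612) (nat_lit 0) (p (nat_lit 0x40592) (nat_lit 0) (p (nat_lit 0x40492) (nat_lit 0) (p (nat_lit 0x30412) (nat_lit 0) (p (nat_lit 0x30212) (nat_lit 0) (p (nat_lit 0x20192) (nat_lit 0) (p (nat_lit 0x20092) (nat_lit 0) (p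 (nat_lit 0x10012) (nat_lit 0) pn))))))))))))))))))))))))) :=
  Cl.node (nat_lit 0xc1) (nat_lit 2) (by decide +kernel) (ClAll.succ (ClAll.succ ClAll.zero n61) s286)

def n83 : Cl (O (nat_lit 4)) (R (nat_lit 104465))
    (p (nat_lit 0x109) (nat_lit 1) (p (nat_lit 0x200014) (nat_lit 0) (p (nat_lit 0xd1) (nat_lit 0) (p (nat_lit 0xc1) (nat_lit 0) (p (nat_lit 0x101) (nat_lit 1) (p (nat_lit 0x119) (nat_lit 0) (p (nat_lit 0xc9) (nat_lit 0) (p (nat_lit 0x89) (nat_lit 1) (p (nat_lit 0x41) (nat_lit 0) (p (nat_lit 0x108078907089a) (nat_lit 0) (p (nat_lit 0x107870886861a) (nat_lit 0) (p (nat_lit 0x8000000000000070806078a) (nat_lit 0) (p (nat_lit 0x8000000000000068785850a) (nat_lit 0) (p (nat_lit 0x10587050682) (nat_lit 0) (p (nat_lit 0x10506848402) (nat_lit 0) (p (nat_lit 0x16000c) (nat_lit 0) (p (nat_lit 0x160004) (nat_lit 0) (p (nat_lit 0x50612) (nat_lit 0) (p (nat_lit 0x40592) (nat_lit 0) (p (nat_lit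 0x40492) (nat_lit 0) (p (nat_lit 0x30412) (nat_lit 0) (p (nat_lit 0x30212) (nat_lit 0) (p (nat_lit 0x20192) (nat_lit 0) (p (nat_lit 0x20092) (nat_lit 0) (p (nat_lit 0x10012) (nat_lit 0) pn))))))))))))))))))))))))) :=
  Cl.node (nat_lit 0x44c2a) (nat_lit 12) (by decide +kernel) (ClAll.succ (ClAll.succ (ClAll.succ (ClAll.succ (ClAll.succ (ClAll.succ (ClAll.succ (ClAll.succ (ClAll.succ (ClAll.succ (ClAll.succ (ClAll.succ ClAll.zero s292) s293) s294) s295) s296) s297) s298) s299) s300) s301) s302) s303)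

def n84 : Cl (O (nat_lit 4)) (R (nat_lit 104465))
    (p (nat_lit 0x380c2) (nat_lit 1) (p (nat_lit 0x444aa) (nat_lit 7) (p (nat_lit 0xd1) (nat_lit 1) (p (nat_lit 0xc1) (nat_lit 0) (p (nat_lit 0x101) (nat_lit 1) (p (nat_lit 0x119) (nat_lit 0) (p (nat_lit 0xc9) (nat_lit 0) (p (nat_lit 0x89) (nat_lit 1) (p (nat_lit 0x41) (nat_lit 0) (p (nat_lit 0x108078907089a) (nat_lit 0) (p (nat_lit 0x107870886861a) (nat_lit 0) (p (nat_lit 0x8000000000000070806078a) (nat_lit 0) (p (nat_lit 0x8000000000000068785850a) (nat_lit 0) (p (nat_lit 0x10587050682) (nat_lit 0) (p (nat_lit 0x10506848402) (nat_lit 0) (p (nat_lit 0x16000c) (nat_lit 0) (p (nat_lit 0x160004) (nat_lit 0) (p (nat_lit 0x50612) (nat_lit 0) (p (nat_lit 0x40592) (nat_lit 0) (p (nat_lit 0x40492) (nat_lit 0) (p (nat_lit 0x30412) (nat_lit 0) (p (nat_lit 0x30212) (nat_lit 0) (p (nat_lit 0x20192) (nat_lit 0) (p (nat_lit 0x20092) (nat_lit 0) (p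 (nat_lit 0x10012) (nat_lit 0) pn))))))))))))))))))))))))) :=
  Cl.node (nat_lit 0xc9) (nat_lit 2) (by decide +kernel) (ClAll.succ (ClAll.succ ClAll.zero n62) s315)

def n85 : Cl (O (nat_lit 4)) (R (nat_lit 104465))
    (p (nat_lit 0x380c2) (nat_lit 0) (p (nat_lit 0x444aa) (nat_lit 7) (p (nat_lit 0x111) (nat_lit 1) (p (nat_lit 0xd1) (nat_lit 1) (p (nat_lit 0xc1) (nat_lit 0) (p (nat_lit 0x119) (nat_lit 1) (p (nat_lit 0xc9) (nat_lit 0) (p (nat_lit 0x89) (nat_lit 1) (p (nat_lit 0x41) (nat_lit 0) (p (nat_lit 0x108078907089a) (nat_lit 0) (p (nat_lit 0x107870886861a) (nat_lit 0) (p (nat_lit 0x8000000000000070806078a) (nat_lit 0) (p (nat_lit 0x8000000000000068785850a) (nat_lit 0) (p (nat_lit 0x10587050682) (nat_lit 0) (p (nat_lit 0x10506848402) (nat_lit 0) (p (nat_lit 0x16000c) (nat_lit 0) (p (nat_lit 0x160004) (nat_lit 0) (p (nat_lit 0x50612) (nat_lit 0) (p (nat_lit 0x40592) (nat_lit 0) (p (nat_lit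 0x40492) (nat_lit 0) (p (nat_lit 0x30412) (nat_lit 0) (p (nat_lit 0x30212) (nat_lit 0) (p (nat_lit 0x20192) (nat_lit 0) (p (nat_lit 0x20092) (nat_lit 0) (p (nat_lit 0x10012) (nat_lit 0) pn))))))))))))))))))))))))) :=
  Cl.node (nat_lit 0xb0004) (nat_lit 2) (by decide +kernel) (ClAll.succ (ClAll.succ ClAll.zero n63) s332)

def n86 : Cl (O (nat_lit 4)) (R (nat_lit 104465))
    (p (nat_lit 0x380c2) (nat_lit 1) (p (nat_lit 0x444aa) (nat_lit 7) (p (nat_lit 0x111) (nat_lit 1) (p (nat_lit 0xd1) (nat_lit 1) (p (nat_lit 0xc1) (nat_lit 0) (p (nat_lit 0x119) (nat_lit 1) (p (nat_lit 0xc9) (nat_lit 0) (p (nat_lit 0x89) (nat_lit 1) (p (nat_lit 0x41) (nat_lit 0) (p (nat_lit 0x108078907089a) (nat_lit 0) (p (nat_lit 0x107870886861a) (nat_lit 0) (p (nat_lit 0x8000000000000070806078a) (nat_lit 0) (p (nat_lit 0x8000000000000068785850a) (nat_lit 0) (p (nat_lit 0x10587050682) (nat_lit 0) (p (nat_lit 0x10506848402)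 (nat_lit 0) (p (nat_lit 0x16000c) (nat_lit 0) (p (nat_lit 0x160004) (nat_lit 0) (p (nat_lit 0x50612) (nat_lit 0) (p (nat_lit 0x40592) (nat_lit 0) (p (nat_lit 0x40492) (nat_lit 0) (p (nat_lit 0x30412) (nat_lit 0) (p (nat_lit 0x30212) (nat_lit 0) (p (nat_lit 0x20192) (nat_lit 0) (p (nat_lit 0x20092) (nat_lit 0) (p (nat_lit 0x10012) (nat_lit 0) pn))))))))))))))))))))))))) :=
  Cl.node (nat_lit 0xb000c) (nat_lit 2) (by decide +kernel) (ClAll.succ (ClAll.succ ClAll.zero n64) s335)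

def n87 : Cl (O (nat_lit 4)) (R (nat_lit 104465))
    (p (nat_lit 0x380c2) (nat_lit 0) (p (nat_lit 0x444aa) (nat_lit 7) (p (nat_lit 0x111) (nat_lit 1) (p (nat_lit 0x101) (nat_lit 0) (p (nat_lit 0xc1) (nat_lit 1) (p (nat_lit 0x119) (nat_lit 1) (p (nat_lit 0xc9) (nat_lit 0) (p (nat_lit 0x89) (nat_lit 1) (p (nat_lit 0x41) (nat_lit 0) (p (nat_lit 0x108078907089a) (nat_lit 0) (p (nat_lit 0x107870886861a) (nat_lit 0) (p (nat_lit 0x8000000000000070806078a) (nat_lit 0) (p (nat_lit 0x8000000000000068785850a) (nat_lit 0) (p (nat_lit 0x10587050682) (nat_lit 0) (p (nat_lit 0x10506848402) (nat_lit 0) (p (nat_lit 0x16000c) (nat_lit 0) (p (nat_lit 0x160004) (nat_lit 0) (p (nat_lit 0x50612) (nat_lit 0) (p (nat_lit 0x40592) (nat_lit 0) (p (nat_lit 0x40492) (nat_lit 0) (p (nat_lit 0x30412) (nat_lit 0) (p (nat_lit 0x30212) (nat_lit 0) (p (nat_lit 0x20192) (nat_lit 0) (p (nat_lit 0x20092) (nat_lit 0) (p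 (nat_lit 0x10012) (nat_lit 0) pn))))))))))))))))))))))))) :=
  Cl.node (nat_lit 0x109) (nat_lit 2) (by decide +kernel) (ClAll.succ (ClAll.succ ClAll.zero s359) s360)

def n88 : Cl (O (nat_lit 4)) (R (nat_lit 104465))
    (p (nat_lit 0x380c2) (nat_lit 1) (p (nat_lit 0x444aa) (nat_lit 7) (p (nat_lit 0x111) (nat_lit 1) (p (nat_lit 0x101) (nat_lit 0) (p (nat_lit 0xc1) (nat_lit 1) (p (nat_lit 0x119) (nat_lit 1) (p (nat_lit 0xc9) (nat_lit 0) (p (nat_lit 0x89) (nat_lit 1) (p (nat_lit 0x41) (nat_lit 0) (p (nat_lit 0x108078907089a) (nat_lit 0) (p (nat_lit 0x107870886861a) (nat_lit 0) (p (nat_lit 0x8000000000000070806078a) (nat_lit 0) (p (nat_lit 0x8000000000000068785850a) (nat_lit 0) (p (nat_lit 0x10587050682) (nat_lit 0) (p (nat_lit 0x10506848402) (nat_lit 0) (p (nat_lit 0x16000c) (nat_lit 0) (p (nat_lit 0x160004) (nat_lit 0) (p (nat_lit 0x50612) (nat_lit 0) (p (nat_lit 0x40592) (nat_lit 0) (p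 (nat_lit 0x40492) (nat_lit 0) (p (nat_lit 0x30412) (nat_lit 0) (p (nat_lit 0x30212) (nat_lit 0) (p (nat_lit 0x20192) (nat_lit 0) (p (nat_lit 0x20092) (nat_lit 0) (p (nat_lit 0x10012) (nat_lit 0) pn))))))))))))))))))))))))) :=
  Cl.node (nat_lit 0x109) (nat_lit 2) (by decide +kernel) (ClAll.succ (ClAll.succ ClAll.zero s361) s362)

def n89 : Cl (O (nat_lit 4)) (R (nat_lit 104465))
    (p (nat_lit 0x3c4aa) (nat_lit 8) (p (nat_lit 0x109) (nat_lit 1) (p (nat_lit 0x89) (nat_lit 1) (p (nat_lit 0xc9) (nat_lit 1) (p (nat_lit 0xc1) (nat_lit 0) (p (nat_lit 0x119) (nat_lit 1) (p (nat_lit 0xd1) (nat_lit 0) (p (nat_lit 0x81) (nat_lit 0) (p (nat_lit 0x41) (nat_lit 1) (p (nat_lit 0x108078907089a) (nat_lit 0) (p (nat_lit 0x107870886861a) (nat_lit 0) (p (nat_lit 0x8000000000000070806078a) (nat_lit 0) (p (nat_lit 0x8000000000000068785850a) (nat_lit 0) (p (nat_lit 0x10587050682) (nat_lit 0) (p (nat_lit 0x10506848402)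 (nat_lit 0) (p (nat_lit 0x16000c) (nat_lit 0) (p (nat_lit 0x160004) (nat_lit 0) (p (nat_lit 0x50612) (nat_lit 0) (p (nat_lit 0x40592) (nat_lit 0) (p (nat_lit 0x40492) (nat_lit 0) (p (nat_lit 0x30412) (nat_lit 0) (p (nat_lit 0x30212) (nat_lit 0) (p (nat_lit 0x20192) (nat_lit 0) (p (nat_lit 0x20092) (nat_lit 0) (p (nat_lit 0x10012) (nat_lit 0) pn))))))))))))))))))))))))) :=
  Cl.node (nat_lit 0x380c2) (nat_lit 2) (by decide +kernel) (ClAll.succ (ClAll.succ ClAll.zero s451) s452)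

def n90 : Cl (O (nat_lit 4)) (R (nat_lit 104465))
    (p (nat_lit 0x3c4aa) (nat_lit 8) (p (nat_lit 0x109) (nat_lit 1) (p (nat_lit 0x89) (nat_lit 1) (p (nat_lit 0x101) (nat_lit 0) (p (nat_lit 0xc1) (nat_lit 1) (p (nat_lit 0x119) (nat_lit 1) (p (nat_lit 0xd1) (nat_lit 0) (p (nat_lit 0x81) (nat_lit 0) (p (nat_lit 0x41) (nat_lit 1) (p (nat_lit 0x108078907089a) (nat_lit 0) (p (nat_lit 0x107870886861a) (nat_lit 0) (p (nat_lit 0x8000000000000070806078a) (nat_lit 0) (p (nat_lit 0x8000000000000068785850a) (nat_lit 0) (p (nat_lit 0x10587050682) (nat_lit 0) (p (nat_lit 0x10506848402) (nat_lit 0) (p (nat_lit 0x16000c) (nat_lit 0) (p (nat_lit 0x160004) (nat_lit 0) (p (nat_lit 0x50612) (nat_lit 0) (p (nat_lit 0x40592) (nat_lit 0) (p (nat_lit 0x40492) (nat_lit 0) (p (nat_lit 0x30412) (nat_lit 0) (p (nat_lit 0x30212) (nat_lit 0) (p (nat_lit 0x20192) (nat_lit 0) (p (nat_lit 0x20092) (nat_lit 0) (p (nat_lit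 0x10012) (nat_lit 0) pn))))))))))))))))))))))))) :=
  Cl.node (nat_lit 0x380c2) (nat_lit 2) (by decide +kernel) (ClAll.succ (ClAll.succ ClAll.zero s466) n65)

def n91 : Cl (O (nat_lit 4)) (R (nat_lit 104465))
    (p (nat_lit 0x119) (nat_lit 0) (p (nat_lit 0xc9) (nat_lit 0) (p (nat_lit 0x89) (nat_lit 1) (p (nat_lit 0x109) (nat_lit 1) (p (nat_lit 0x101) (nat_lit 0) (p (nat_lit 0x111) (nat_lit 0) (p (nat_lit 0xd1) (nat_lit 1) (p (nat_lit 0x81) (nat_lit 0) (p (nat_lit 0x41) (nat_lit 1) (p (nat_lit 0x108078907089a) (nat_lit 0) (p (nat_lit 0x107870886861a) (nat_lit 0) (p (nat_lit 0x8000000000000070806078a) (nat_lit 0) (p (nat_lit 0x8000000000000068785850a) (nat_lit 0) (p (nat_lit 0x10587050682) (nat_lit 0) (p (nat_lit 0x10506848402) (nat_lit 0) (p (nat_lit 0x16000c) (nat_lit 0) (p (nat_lit 0x160004) (nat_lit 0) (p (nat_lit 0x50612) (nat_lit 0) (p (nat_lit 0x40592) (nat_lit 0) (p (nat_lit 0x40492)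 (nat_lit 0) (p (nat_lit 0x30412) (nat_lit 0) (p (nat_lit 0x30212) (nat_lit 0) (p (nat_lit 0x20192) (nat_lit 0) (p (nat_lit 0x20092) (nat_lit 0) (p (nat_lit 0x10012) (nat_lit 0) pn))))))))))))))))))))))))) :=
  Cl.node (nat_lit 0x4c42a) (nat_lit 12) (by decide +kernel) (ClAll.succ (ClAll.succ (ClAll.succ (ClAll.succ (ClAll.succ (ClAll.succ (ClAll.succ (ClAll.succ (ClAll.succ (ClAll.succ (ClAll.succ (ClAll.succ ClAll.zero s489) s490) s491) s492) s493) s494) s495) s496) s497) s498) s499) s500)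

def n92 : Cl (O (nat_lit 4)) (R (nat_lit 104465))
    (p (nat_lit 0x119) (nat_lit 1) (p (nat_lit 0xc9) (nat_lit 0) (p (nat_lit 0x89) (nat_lit 1) (p (nat_lit 0x109) (nat_lit 1) (p (nat_lit 0x101) (nat_lit 0) (p (nat_lit 0x111) (nat_lit 0) (p (nat_lit 0xd1) (nat_lit 1) (p (nat_lit 0x81) (nat_lit 0) (p (nat_lit 0x41) (nat_lit 1) (p (nat_lit 0x108078907089a) (nat_lit 0) (p (nat_lit 0x107870886861a) (nat_lit 0) (p (nat_lit 0x8000000000000070806078a) (nat_lit 0) (p (nat_lit 0x8000000000000068785850a) (nat_lit 0) (p (nat_lit 0x10587050682) (nat_lit 0) (p (nat_lit 0x10506848402) (nat_lit 0) (p (nat_lit 0x16000c) (nat_lit 0) (p (nat_lit 0x160004) (nat_lit 0) (p (nat_lit 0x50612) (nat_lit 0) (p (nat_lit 0x40592) (nat_lit 0) (p (nat_lit 0x40492) (nat_lit 0) (p (nat_lit 0x30412) (nat_lit 0) (p (nat_lit 0x30212) (nat_lit 0) (p (nat_lit 0x20192) (nat_lit 0) (p (nat_lit 0x20092) (nat_lit 0) (p (nat_lit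 0x10012) (nat_lit 0) pn))))))))))))))))))))))))) :=
  Cl.node (nat_lit 0x3cc2a) (nat_lit 12) (by decide +kernel) (ClAll.succ (ClAll.succ (ClAll.succ (ClAll.succ (ClAll.succ (ClAll.succ (ClAll.succ (ClAll.succ (ClAll.succ (ClAll.succ (ClAll.succ (ClAll.succ ClAll.zero s501) s502) n66) s505) s506) s507) s508) s509) s510) s511) s512) s513)

def n93 : Cl (O (nat_lit 4)) (R (nat_lit 104465))
    (p (nat_lit 0x380c2) (nat_lit 1) (p (nat_lit 0x3cc2a) (nat_lit 2) (p (nat_lit 0xc9) (nat_lit 0) (p (nat_lit 0x89) (nat_lit 1) (p (nat_lit 0x101) (nat_lit 1) (p (nat_lit 0x111) (nat_lit 0) (p (nat_lit 0xd1) (nat_lit 1) (p (nat_lit 0x81) (nat_lit 0) (p (nat_lit 0x41) (nat_lit 1) (p (nat_lit 0x108078907089a) (nat_lit 0) (p (nat_lit 0x107870886861a) (nat_lit 0) (p (nat_lit 0x8000000000000070806078a) (nat_lit 0) (p (nat_lit 0x8000000000000068785850a) (nat_lit 0) (p (nat_lit 0x10587050682) (nat_lit 0) (p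 (nat_lit 0x10506848402) (nat_lit 0) (p (nat_lit 0x16000c) (nat_lit 0) (p (nat_lit 0x160004) (nat_lit 0) (p (nat_lit 0x50612) (nat_lit 0) (p (nat_lit 0x40592) (nat_lit 0) (p (nat_lit 0x40492) (nat_lit 0) (p (nat_lit 0x30412) (nat_lit 0) (p (nat_lit 0x30212) (nat_lit 0) (p (nat_lit 0x20192) (nat_lit 0) (p (nat_lit 0x20092) (nat_lit 0) (p (nat_lit 0x10012) (nat_lit 0) pn))))))))))))))))))))))))) :=
  Cl.node (nat_lit 0x200014) (nat_lit 2) (by decide +kernel) (ClAll.succ (ClAll.succ ClAll.zero n67) s533)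

def n94 : Cl (O (nat_lit 4)) (R (nat_lit 104465))
    (p (nat_lit 0x3c4aa) (nat_lit 7) (p (nat_lit 0xd1) (nat_lit 1) (p (nat_lit 0xc9) (nat_lit 0) (p (nat_lit 0x109) (nat_lit 1) (p (nat_lit 0x101) (nat_lit 0) (p (nat_lit 0x119) (nat_lit 0) (p (nat_lit 0xc1) (nat_lit 0) (p (nat_lit 0x81) (nat_lit 1) (p (nat_lit 0x41) (nat_lit 1) (p (nat_lit 0x108078907089a) (nat_lit 0) (p (nat_lit 0x107870886861a) (nat_lit 0) (p (nat_lit 0x8000000000000070806078a) (nat_lit 0) (p (nat_lit 0x8000000000000068785850a) (nat_lit 0) (p (nat_lit 0x10587050682) (nat_lit 0) (p (nat_lit 0x10506848402) (nat_lit 0) (p (nat_lit 0x16000c) (nat_lit 0) (p (nat_lit 0x160004) (nat_lit 0) (p (nat_lit 0x50612) (nat_lit 0) (p (nat_lit 0x40592) (nat_lit 0) (p (nat_lit 0x40492) (nat_lit 0) (p (nat_lit 0x30412) (nat_lit 0) (p (nat_lit 0x30212) (nat_lit 0) (p (nat_lit 0x20192) (nat_lit 0) (p (nat_lit 0x20092) (nat_lit 0) (p (nat_lit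 0x10012) (nat_lit 0) pn))))))))))))))))))))))))) :=
  Cl.node (nat_lit 0x380c2) (nat_lit 2) (by decide +kernel) (ClAll.succ (ClAll.succ ClAll.zero n68) s585)

def n95 : Cl (O (nat_lit 4)) (R (nat_lit 104465))
    (p (nat_lit 0x380c2) (nat_lit 0) (p (nat_lit 0x44c2a) (nat_lit 0) (p (nat_lit 0xd1) (nat_lit 0) (p (nat_lit 0xc9) (nat_lit 0) (p (nat_lit 0x101) (nat_lit 1) (p (nat_lit 0x119) (nat_lit 0) (p (nat_lit 0xc1) (nat_lit 0) (p (nat_lit 0x81) (nat_lit 1) (p (nat_lit 0x41) (nat_lit 1) (p (nat_lit 0x108078907089a) (nat_lit 0) (p (nat_lit 0x107870886861a) (nat_lit 0) (p (nat_lit 0x8000000000000070806078a) (nat_lit 0) (p (nat_lit 0x8000000000000068785850a) (nat_lit 0) (p (nat_lit 0x10587050682) (nat_lit 0) (p (nat_lit 0x10506848402) (nat_lit 0) (p (nat_lit 0x16000c) (nat_lit 0) (p (nat_lit 0x160004) (nat_lit 0) (p (nat_lit 0x50612) (nat_lit 0) (p (nat_lit 0x40592) (nat_lit 0) (p (nat_lit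 0x40492) (nat_lit 0) (p (nat_lit 0x30412) (nat_lit 0) (p (nat_lit 0x30212) (nat_lit 0) (p (nat_lit 0x20192) (nat_lit 0) (p (nat_lit 0x20092) (nat_lit 0) (p (nat_lit 0x10012) (nat_lit 0) pn))))))))))))))))))))))))) :=
  Cl.node (nat_lit 0xb000c) (nat_lit 2) (by decide +kernel) (ClAll.succ (ClAll.succ ClAll.zero n69) s593)

def n96 : Cl (O (nat_lit 4)) (R (nat_lit 104465))
    (p (nat_lit 0x380c2) (nat_lit 1) (p (nat_lit 0x3c4aa) (nat_lit 8) (p (nat_lit 0xd1) (nat_lit 1) (p (nat_lit 0xc9) (nat_lit 0) (p (nat_lit 0x101) (nat_lit 1) (p (nat_lit 0x119) (nat_lit 0) (p (nat_lit 0xc1) (nat_lit 0) (p (nat_lit 0x81) (nat_lit 1) (p (nat_lit 0x41) (nat_lit 1) (p (nat_lit 0x108078907089a) (nat_lit 0) (p (nat_lit 0x107870886861a) (nat_lit 0) (p (nat_lit 0x8000000000000070806078a) (nat_lit 0) (p (nat_lit 0x8000000000000068785850a) (nat_lit 0) (p (nat_lit 0x10587050682) (nat_lit 0) (p (nat_lit 0x10506848402)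 (nat_lit 0) (p (nat_lit 0x16000c) (nat_lit 0) (p (nat_lit 0x160004) (nat_lit 0) (p (nat_lit 0x50612) (nat_lit 0) (p (nat_lit 0x40592) (nat_lit 0) (p (nat_lit 0x40492) (nat_lit 0) (p (nat_lit 0x30412) (nat_lit 0) (p (nat_lit 0x30212) (nat_lit 0) (p (nat_lit 0x20192) (nat_lit 0) (p (nat_lit 0x20092) (nat_lit 0) (p (nat_lit 0x10012) (nat_lit 0) pn))))))))))))))))))))))))) :=
  Cl.node (nat_lit 0x200014) (nat_lit 2) (by decide +kernel) (ClAll.succ (ClAll.succ ClAll.zero n70) s633)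

def n97 : Cl (O (nat_lit 4)) (R (nat_lit 104465))
    (p (nat_lit 0x81) (nat_lit 1) (p (nat_lit 0xc9) (nat_lit 1) (p (nat_lit 0x109) (nat_lit 1) (p (nat_lit 0x101) (nat_lit 0) (p (nat_lit 0x119) (nat_lit 0) (p (nat_lit 0xd1) (nat_lit 0) (p (nat_lit 0x89) (nat_lit 0) (p (nat_lit 0x41) (nat_lit 0) (p (nat_lit 0x108078907089a) (nat_lit 0) (p (nat_lit 0x107870886861a) (nat_lit 0) (p (nat_lit 0x8000000000000070806078a) (nat_lit 0) (p (nat_lit 0x8000000000000068785850a) (nat_lit 0) (p (nat_lit 0x10587050682) (nat_lit 0) (p (nat_lit 0x10506848402) (nat_lit 0) (p (nat_lit 0x16000c) (nat_lit 0) (p (nat_lit 0x160004) (nat_lit 0) (p (nat_lit 0x50612) (nat_lit 0) (p (nat_lit 0x40592) (nat_lit 0) (p (nat_lit 0x40492) (nat_lit 0) (p (nat_lit 0x30412) (nat_lit 0) (p (nat_lit 0x30212) (nat_lit 0) (p (nat_lit 0x20192) (nat_lit 0) (p (nat_lit 0x20092) (nat_lit 0) (p (nat_lit 0x10012) (nat_lit 0) pn))))))))))))))))))))))))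 :=
  Cl.node (nat_lit 0x444aa) (nat_lit 12) (by decide +kernel) (ClAll.succ (ClAll.succ (ClAll.succ (ClAll.succ (ClAll.succ (ClAll.succ (ClAll.succ (ClAll.succ (ClAll.succ (ClAll.succ (ClAll.succ (ClAll.succ ClAll.zero s3) s4) s5) s6) s7) s8) s9) n71) s27) s28) s29) s30)

def n98 : Cl (O (nat_lit 4)) (R (nat_lit 104465))
    (p (nat_lit 0x111) (nat_lit 0) (p (nat_lit 0xc9) (nat_lit 1) (p (nat_lit 0x81) (nat_lit 0) (p (nat_lit 0x101) (nat_lit 1) (p (nat_lit 0x119) (nat_lit 0) (p (nat_lit 0xd1) (nat_lit 0) (p (nat_lit 0x89) (nat_lit 0) (p (nat_lit 0x41) (nat_lit 0) (p (nat_lit 0x108078907089a) (nat_lit 0) (p (nat_lit 0x107870886861a) (nat_lit 0) (p (nat_lit 0x8000000000000070806078a) (nat_lit 0) (p (nat_lit 0x8000000000000068785850a) (nat_lit 0) (p (nat_lit 0x10587050682) (nat_lit 0) (p (nat_lit 0x10506848402) (nat_lit 0) (p (nat_lit 0x16000c) (nat_lit 0) (p (nat_lit 0x160004) (nat_lit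 0) (p (nat_lit 0x50612) (nat_lit 0) (p (nat_lit 0x40592) (nat_lit 0) (p (nat_lit 0x40492) (nat_lit 0) (p (nat_lit 0x30412) (nat_lit 0) (p (nat_lit 0x30212) (nat_lit 0) (p (nat_lit 0x20192) (nat_lit 0) (p (nat_lit 0x20092) (nat_lit 0) (p (nat_lit 0x10012) (nat_lit 0) pn)))))))))))))))))))))))) :=
  Cl.node (nat_lit 0x444aa) (nat_lit 12) (by decide +kernel) (ClAll.succ (ClAll.succ (ClAll.succ (ClAll.succ (ClAll.succ (ClAll.succ (ClAll.succ (ClAll.succ (ClAll.succ (ClAll.succ (ClAll.succ (ClAll.succ ClAll.zero s32) s33) s34) s35) s36) s37) s38) n72) s56) s57) s58) s59)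

def n99 : Cl (O (nat_lit 4)) (R (nat_lit 104465))
    (p (nat_lit 0xc9) (nat_lit 1) (p (nat_lit 0xc1) (nat_lit 0) (p (nat_lit 0x81) (nat_lit 1) (p (nat_lit 0x101) (nat_lit 1) (p (nat_lit 0x119) (nat_lit 0) (p (nat_lit 0xd1) (nat_lit 0) (p (nat_lit 0x89) (nat_lit 0) (p (nat_lit 0x41) (nat_lit 0) (p (nat_lit 0x108078907089a) (nat_lit 0) (p (nat_lit 0x107870886861a) (nat_lit 0) (p (nat_lit 0x8000000000000070806078a) (nat_lit 0) (p (nat_lit 0x8000000000000068785850a) (nat_lit 0) (p (nat_lit 0x10587050682) (nat_lit 0) (p (nat_lit 0x10506848402) (nat_lit 0) (p (nat_lit 0x16000c) (nat_lit 0) (p (nat_lit 0x160004) (nat_lit 0) (p (nat_lit 0x50612) (nat_lit 0) (p (nat_lit 0x40592) (nat_lit 0) (p (nat_lit 0x40492) (nat_lit 0) (p (nat_lit 0x30412) (nat_lit 0) (p (nat_lit 0x30212) (nat_lit 0) (p (nat_lit 0x20192) (nat_lit 0) (p (nat_lit 0x20092) (nat_lit 0) (p (nat_lit 0x10012) (nat_lit 0) pn))))))))))))))))))))))))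 :=
  Cl.node (nat_lit 0x444aa) (nat_lit 12) (by decide +kernel) (ClAll.succ (ClAll.succ (ClAll.succ (ClAll.succ (ClAll.succ (ClAll.succ (ClAll.succ (ClAll.succ (ClAll.succ (ClAll.succ (ClAll.succ (ClAll.succ ClAll.zero s62) s63) s64) s65) s66) s67) s68) n73) s75) s76) s77) s78)

def n100 : Cl (O (nat_lit 4)) (R (nat_lit 104465))
    (p (nat_lit 0x3cc2a) (nat_lit 2) (p (nat_lit 0x109) (nat_lit 1) (p (nat_lit 0xc9) (nat_lit 1) (p (nat_lit 0xc1) (nat_lit 0) (p (nat_lit 0x119) (nat_lit 1) (p (nat_lit 0xd1) (nat_lit 0) (p (nat_lit 0x89) (nat_lit 0) (p (nat_lit 0x41) (nat_lit 0) (p (nat_lit 0x108078907089a) (nat_lit 0) (p (nat_lit 0x107870886861a) (nat_lit 0) (p (nat_lit 0x8000000000000070806078a) (nat_lit 0) (p (nat_lit 0x8000000000000068785850a) (nat_lit 0) (p (nat_lit 0x10587050682) (nat_lit 0) (p (nat_lit 0x10506848402) (nat_lit 0) (p (nat_lit 0x16000c) (nat_lit 0) (p (nat_lit 0x160004)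 (nat_lit 0) (p (nat_lit 0x50612) (nat_lit 0) (p (nat_lit 0x40592) (nat_lit 0) (p (nat_lit 0x40492) (nat_lit 0) (p (nat_lit 0x30412) (nat_lit 0) (p (nat_lit 0x30212) (nat_lit 0) (p (nat_lit 0x20192) (nat_lit 0) (p (nat_lit 0x20092) (nat_lit 0) (p (nat_lit 0x10012) (nat_lit 0) pn)))))))))))))))))))))))) :=
  Cl.node (nat_lit 0x380c2) (nat_lit 2) (by decide +kernel) (ClAll.succ (ClAll.succ ClAll.zero s84) n74)

def n101 : Cl (O (nat_lit 4)) (R (nat_lit 104465))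
    (p (nat_lit 0x109) (nat_lit 0) (p (nat_lit 0x101) (nat_lit 0) (p (nat_lit 0x81) (nat_lit 1) (p (nat_lit 0xc1) (nat_lit 1) (p (nat_lit 0x119) (nat_lit 1) (p (nat_lit 0xd1) (nat_lit 0) (p (nat_lit 0x89) (nat_lit 0) (p (nat_lit 0x41) (nat_lit 0) (p (nat_lit 0x108078907089a) (nat_lit 0) (p (nat_lit 0x107870886861a) (nat_lit 0) (p (nat_lit 0x8000000000000070806078a) (nat_lit 0) (p (nat_lit 0x8000000000000068785850a) (nat_lit 0) (p (nat_lit 0x10587050682) (nat_lit 0) (p (nat_lit 0x10506848402) (nat_lit 0) (p (nat_lit 0x16000c) (nat_lit 0) (p (nat_lit 0x160004) (nat_lit 0) (p (nat_lit 0x50612) (nat_lit 0) (p (nat_lit 0x40592) (nat_lit 0) (p (nat_lit 0x40492) (nat_lit 0) (p (nat_lit 0x30412) (nat_lit 0) (p (nat_lit 0x30212) (nat_lit 0) (p (nat_lit 0x20192) (nat_lit 0) (p (nat_lit 0x20092) (nat_lit 0) (p (nat_lit 0x10012) (nat_lit 0) pn)))))))))))))))))))))))) :=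
  Cl.node (nat_lit 0x44c2a) (nat_lit 12) (by decide +kernel) (ClAll.succ (ClAll.succ (ClAll.succ (ClAll.succ (ClAll.succ (ClAll.succ (ClAll.succ (ClAll.succ (ClAll.succ (ClAll.succ (ClAll.succ (ClAll.succ ClAll.zero s114) s115) s116) s117) s118) s119) s120) s121) s122) s123) s124) s125)

def n102 : Cl (O (nat_lit 4)) (R (nat_lit 104465))
    (p (nat_lit 0x109) (nat_lit 1) (p (nat_lit 0x101) (nat_lit 0) (p (nat_lit 0x81) (nat_lit 1) (p (nat_lit 0xc1) (nat_lit 1) (p (nat_lit 0x119) (nat_lit 1) (p (nat_lit 0xd1) (nat_lit 0) (p (nat_lit 0x89) (nat_lit 0) (p (nat_lit 0x41) (nat_lit 0) (p (nat_lit 0x108078907089a) (nat_lit 0) (p (nat_lit 0x107870886861a) (nat_lit 0) (p (nat_lit 0x8000000000000070806078a) (nat_lit 0) (p (nat_lit 0x8000000000000068785850a) (nat_lit 0) (p (nat_lit 0x10587050682) (nat_lit 0) (p (nat_lit 0x10506848402) (nat_lit 0) (p (nat_lit 0x16000c) (nat_lit 0) (p (nat_lit 0x160004)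 (nat_lit 0) (p (nat_lit 0x50612) (nat_lit 0) (p (nat_lit 0x40592) (nat_lit 0) (p (nat_lit 0x40492) (nat_lit 0) (p (nat_lit 0x30412) (nat_lit 0) (p (nat_lit 0x30212) (nat_lit 0) (p (nat_lit 0x20192) (nat_lit 0) (p (nat_lit 0x20092) (nat_lit 0) (p (nat_lit 0x10012) (nat_lit 0) pn)))))))))))))))))))))))) :=
  Cl.node (nat_lit 0x444aa) (nat_lit 12) (by decide +kernel) (ClAll.succ (ClAll.succ (ClAll.succ (ClAll.succ (ClAll.succ (ClAll.succ (ClAll.succ (ClAll.succ (ClAll.succ (ClAll.succ (ClAll.succ (ClAll.succ ClAll.zero s126) s127) s128) s129) s130) s131) s132) n75) s136) s137) s138) s139)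

def n103 : Cl (O (nat_lit 4)) (R (nat_lit 104465))
    (p (nat_lit 0x200014) (nat_lit 0) (p (nat_lit 0x119) (nat_lit 0) (p (nat_lit 0x81) (nat_lit 0) (p (nat_lit 0x101) (nat_lit 1) (p (nat_lit 0x111) (nat_lit 0) (p (nat_lit 0xd1) (nat_lit 1) (p (nat_lit 0x89) (nat_lit 0) (p (nat_lit 0x41) (nat_lit 0) (p (nat_lit 0x108078907089a) (nat_lit 0) (p (nat_lit 0x107870886861a) (nat_lit 0) (p (nat_lit 0x8000000000000070806078a) (nat_lit 0) (p (nat_lit 0x8000000000000068785850a) (nat_lit 0) (p (nat_lit 0x10587050682) (nat_lit 0) (p (nat_lit 0x10506848402) (nat_lit 0) (p (nat_lit 0x16000c) (nat_lit 0) (p (nat_lit 0x160004) (nat_lit 0) (p (nat_lit 0x50612) (nat_lit 0) (p (nat_lit 0x40592) (nat_lit 0) (p (nat_lit 0x40492) (nat_lit 0) (p (nat_lit 0x30412) (nat_lit 0) (p (nat_lit 0x30212) (nat_lit 0) (p (nat_lit 0x20192) (nat_lit 0) (p (nat_lit 0x20092) (nat_lit 0) (p (nat_lit 0x10012) (nat_lit 0)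 pn)))))))))))))))))))))))) :=
  Cl.node (nat_lit 0x109) (nat_lit 2) (by decide +kernel) (ClAll.succ (ClAll.succ ClAll.zero s145) n76)

def n104 : Cl (O (nat_lit 4)) (R (nat_lit 104465))
    (p (nat_lit 0x119) (nat_lit 0) (p (nat_lit 0xc1) (nat_lit 0) (p (nat_lit 0x81) (nat_lit 1) (p (nat_lit 0x101) (nat_lit 1) (p (nat_lit 0x111) (nat_lit 0) (p (nat_lit 0xd1) (nat_lit 1) (p (nat_lit 0x89) (nat_lit 0) (p (nat_lit 0x41) (nat_lit 0) (p (nat_lit 0x108078907089a) (nat_lit 0) (p (nat_lit 0x107870886861a) (nat_lit 0) (p (nat_lit 0x8000000000000070806078a) (nat_lit 0) (p (nat_lit 0x8000000000000068785850a) (nat_lit 0) (p (nat_lit 0x10587050682) (nat_lit 0) (p (nat_lit 0x10506848402) (nat_lit 0) (p (nat_lit 0x16000c) (nat_lit 0) (p (nat_lit 0x160004) (nat_lit 0) (p (nat_lit 0x50612) (nat_lit 0) (p (nat_lit 0x40592) (nat_lit 0) (p (nat_lit 0x40492) (nat_lit 0) (p (nat_lit 0x30412) (nat_lit 0) (p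 (nat_lit 0x30212) (nat_lit 0) (p (nat_lit 0x20192) (nat_lit 0) (p (nat_lit 0x20092) (nat_lit 0) (p (nat_lit 0x10012) (nat_lit 0) pn)))))))))))))))))))))))) :=
  Cl.node (nat_lit 0x444aa) (nat_lit 12) (by decide +kernel) (ClAll.succ (ClAll.succ (ClAll.succ (ClAll.succ (ClAll.succ (ClAll.succ (ClAll.succ (ClAll.succ (ClAll.succ (ClAll.succ (ClAll.succ (ClAll.succ ClAll.zero s160) s161) s162) s163) s164) s165) s166) n77) s196) s197) s198) s199)

def n105 : Cl (O (nat_lit 4)) (R (nat_lit 104465))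
    (p (nat_lit 0x119) (nat_lit 1) (p (nat_lit 0xc1) (nat_lit 0) (p (nat_lit 0x81) (nat_lit 1) (p (nat_lit 0x101) (nat_lit 1) (p (nat_lit 0x111) (nat_lit 0) (p (nat_lit 0xd1) (nat_lit 1) (p (nat_lit 0x89) (nat_lit 0) (p (nat_lit 0x41) (nat_lit 0) (p (nat_lit 0x108078907089a) (nat_lit 0) (p (nat_lit 0x107870886861a) (nat_lit 0) (p (nat_lit 0x8000000000000070806078a) (nat_lit 0) (p (nat_lit 0x8000000000000068785850a) (nat_lit 0) (p (nat_lit 0x10587050682) (nat_lit 0) (p (nat_lit 0x10506848402) (nat_lit 0) (p (nat_lit 0x16000c) (nat_lit 0) (p (nat_lit 0x160004) (nat_lit 0) (p (nat_lit 0x50612) (nat_lit 0) (p (nat_lit 0x40592) (nat_lit 0) (p (nat_lit 0x40492) (nat_lit 0) (p (nat_lit 0x30412) (nat_lit 0) (p (nat_lit 0x30212) (nat_lit 0) (p (nat_lit 0x20192) (nat_lit 0) (p (nat_lit 0x20092) (nat_lit 0) (p (nat_lit 0x10012) (nat_lit 0) pn)))))))))))))))))))))))) :=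
  Cl.node (nat_lit 0x3cc2a) (nat_lit 12) (by decide +kernel) (ClAll.succ (ClAll.succ (ClAll.succ (ClAll.succ (ClAll.succ (ClAll.succ (ClAll.succ (ClAll.succ (ClAll.succ (ClAll.succ (ClAll.succ (ClAll.succ ClAll.zero s200) s201) n78) s204) s205) s206) s207) s208) s209) s210) s211) s212)

def n106 : Cl (O (nat_lit 4)) (R (nat_lit 104465))
    (p (nat_lit 0x3cc2a) (nat_lit 2) (p (nat_lit 0x101) (nat_lit 0) (p (nat_lit 0xc1) (nat_lit 1) (p (nat_lit 0x81) (nat_lit 1) (p (nat_lit 0x111) (nat_lit 1) (p (nat_lit 0xd1) (nat_lit 1) (p (nat_lit 0x89) (nat_lit 0) (p (nat_lit 0x41) (nat_lit 0) (p (nat_lit 0x108078907089a) (nat_lit 0) (p (nat_lit 0x107870886861a) (nat_lit 0) (p (nat_lit 0x8000000000000070806078a) (nat_lit 0) (p (nat_lit 0x8000000000000068785850a) (nat_lit 0) (p (nat_lit 0x10587050682) (nat_lit 0) (p (nat_lit 0x10506848402) (nat_lit 0) (p (nat_lit 0x16000c) (nat_lit 0) (p (nat_lit 0x160004)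 (nat_lit 0) (p (nat_lit 0x50612) (nat_lit 0) (p (nat_lit 0x40592) (nat_lit 0) (p (nat_lit 0x40492) (nat_lit 0) (p (nat_lit 0x30412) (nat_lit 0) (p (nat_lit 0x30212) (nat_lit 0) (p (nat_lit 0x20192) (nat_lit 0) (p (nat_lit 0x20092) (nat_lit 0) (p (nat_lit 0x10012) (nat_lit 0) pn)))))))))))))))))))))))) :=
  Cl.node (nat_lit 0x380c2) (nat_lit 2) (by decide +kernel) (ClAll.succ (ClAll.succ ClAll.zero s218) s219)

def n107 : Cl (O (nat_lit 4)) (R (nat_lit 104465))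
    (p (nat_lit 0xd1) (nat_lit 1) (p (nat_lit 0x111) (nat_lit 1) (p (nat_lit 0x109) (nat_lit 0) (p (nat_lit 0x101) (nat_lit 0) (p (nat_lit 0x119) (nat_lit 0) (p (nat_lit 0xc9) (nat_lit 0) (p (nat_lit 0x89) (nat_lit 1) (p (nat_lit 0x41) (nat_lit 0) (p (nat_lit 0x108078907089a) (nat_lit 0) (p (nat_lit 0x107870886861a) (nat_lit 0) (p (nat_lit 0x8000000000000070806078a) (nat_lit 0) (p (nat_lit 0x8000000000000068785850a) (nat_lit 0) (p (nat_lit 0x10587050682) (nat_lit 0) (p (nat_lit 0x10506848402) (nat_lit 0) (p (nat_lit 0x16000c) (nat_lit 0) (p (nat_lit 0x160004) (nat_lit 0) (p (nat_lit 0x50612) (nat_lit 0) (p (nat_lit 0x40592) (nat_lit 0) (p (nat_lit 0x40492) (nat_lit 0) (p (nat_lit 0x30412) (nat_lit 0) (p (nat_lit 0x30212) (nat_lit 0) (p (nat_lit 0x20192) (nat_lit 0) (p (nat_lit 0x20092) (nat_lit 0) (p (nat_lit 0x10012) (nat_lit 0) pn)))))))))))))))))))))))) :=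
  Cl.node (nat_lit 0x444aa) (nat_lit 12) (by decide +kernel) (ClAll.succ (ClAll.succ (ClAll.succ (ClAll.succ (ClAll.succ (ClAll.succ (ClAll.succ (ClAll.succ (ClAll.succ (ClAll.succ (ClAll.succ (ClAll.succ ClAll.zero s232) s233) s234) s235) s236) s237) s238) n79) s249) s250) s251) s252)

def n108 : Cl (O (nat_lit 4)) (R (nat_lit 104465))
    (p (nat_lit 0x200014) (nat_lit 0) (p (nat_lit 0xd1) (nat_lit 0) (p (nat_lit 0x109) (nat_lit 1) (p (nat_lit 0x101) (nat_lit 0) (p (nat_lit 0x119) (nat_lit 0) (p (nat_lit 0xc9) (nat_lit 0) (p (nat_lit 0x89) (nat_lit 1) (p (nat_lit 0x41) (nat_lit 0) (p (nat_lit 0x108078907089a) (nat_lit 0) (p (nat_lit 0x107870886861a) (nat_lit 0) (p (nat_lit 0x8000000000000070806078a) (nat_lit 0) (p (nat_lit 0x8000000000000068785850a) (nat_lit 0) (p (nat_lit 0x10587050682) (nat_lit 0) (p (nat_lit 0x10506848402) (nat_lit 0) (p (nat_lit 0x16000c) (nat_lit 0) (p (nat_lit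 0x160004) (nat_lit 0) (p (nat_lit 0x50612) (nat_lit 0) (p (nat_lit 0x40592) (nat_lit 0) (p (nat_lit 0x40492) (nat_lit 0) (p (nat_lit 0x30412) (nat_lit 0) (p (nat_lit 0x30212) (nat_lit 0) (p (nat_lit 0x20192) (nat_lit 0) (p (nat_lit 0x20092) (nat_lit 0) (p (nat_lit 0x10012) (nat_lit 0) pn)))))))))))))))))))))))) :=
  Cl.node (nat_lit 0x41) (nat_lit 2) (by decide +kernel) (ClAll.succ (ClAll.succ ClAll.zero n80) s265)

def n109 : Cl (O (nat_lit 4)) (R (nat_lit 104465))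
    (p (nat_lit 0x444aa) (nat_lit 7) (p (nat_lit 0xd1) (nat_lit 1) (p (nat_lit 0x109) (nat_lit 1) (p (nat_lit 0x101) (nat_lit 0) (p (nat_lit 0x119) (nat_lit 0) (p (nat_lit 0xc9) (nat_lit 0) (p (nat_lit 0x89) (nat_lit 1) (p (nat_lit 0x41) (nat_lit 0) (p (nat_lit 0x108078907089a) (nat_lit 0) (p (nat_lit 0x107870886861a) (nat_lit 0) (p (nat_lit 0x8000000000000070806078a) (nat_lit 0) (p (nat_lit 0x8000000000000068785850a) (nat_lit 0) (p (nat_lit 0x10587050682) (nat_lit 0) (p (nat_lit 0x10506848402) (nat_lit 0) (p (nat_lit 0x16000c) (nat_lit 0) (p (nat_lit 0x160004) (nat_lit 0) (p (nat_lit 0x50612) (nat_lit 0) (p (nat_lit 0x40592) (nat_lit 0) (p (nat_lit 0x40492) (nat_lit 0) (p (nat_lit 0x30412) (nat_lit 0) (p (nat_lit 0x30212) (nat_lit 0) (p (nat_lit 0x20192) (nat_lit 0) (p (nat_lit 0x20092) (nat_lit 0) (p (nat_lit 0x10012) (nat_lit 0) pn)))))))))))))))))))))))) :=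
  Cl.node (nat_lit 0x380c2) (nat_lit 2) (by decide +kernel) (ClAll.succ (ClAll.succ ClAll.zero n81) n82)

def n110 : Cl (O (nat_lit 4)) (R (nat_lit 104465))
    (p (nat_lit 0x200014) (nat_lit 0) (p (nat_lit 0xd1) (nat_lit 0) (p (nat_lit 0xc1) (nat_lit 0) (p (nat_lit 0x101) (nat_lit 1) (p (nat_lit 0x119) (nat_lit 0) (p (nat_lit 0xc9) (nat_lit 0) (p (nat_lit 0x89) (nat_lit 1) (p (nat_lit 0x41) (nat_lit 0) (p (nat_lit 0x108078907089a) (nat_lit 0) (p (nat_lit 0x107870886861a) (nat_lit 0) (p (nat_lit 0x8000000000000070806078a) (nat_lit 0) (p (nat_lit 0x8000000000000068785850a) (nat_lit 0) (p (nat_lit 0x10587050682) (nat_lit 0) (p (nat_lit 0x10506848402) (nat_lit 0) (p (nat_lit 0x16000c) (nat_lit 0) (p (nat_lit 0x160004) (nat_lit 0) (p (nat_lit 0x50612) (nat_lit 0) (p (nat_lit 0x40592) (nat_lit 0) (p (nat_lit 0x40492) (nat_lit 0) (p (nat_lit 0x30412) (nat_lit 0) (p (nat_lit 0x30212) (nat_lit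 0) (p (nat_lit 0x20192) (nat_lit 0) (p (nat_lit 0x20092) (nat_lit 0) (p (nat_lit 0x10012) (nat_lit 0) pn)))))))))))))))))))))))) :=
  Cl.node (nat_lit 0x109) (nat_lit 2) (by decide +kernel) (ClAll.succ (ClAll.succ ClAll.zero s291) n83)

def n111 : Cl (O (nat_lit 4)) (R (nat_lit 104465))
    (p (nat_lit 0x444aa) (nat_lit 7) (p (nat_lit 0xd1) (nat_lit 1) (p (nat_lit 0xc1) (nat_lit 0) (p (nat_lit 0x101) (nat_lit 1) (p (nat_lit 0x119) (nat_lit 0) (p (nat_lit 0xc9) (nat_lit 0) (p (nat_lit 0x89) (nat_lit 1) (p (nat_lit 0x41) (nat_lit 0) (p (nat_lit 0x108078907089a) (nat_lit 0) (p (nat_lit 0x107870886861a) (nat_lit 0) (p (nat_lit 0x8000000000000070806078a) (nat_lit 0) (p (nat_lit 0x8000000000000068785850a) (nat_lit 0) (p (nat_lit 0x10587050682) (nat_lit 0) (p (nat_lit 0x10506848402) (nat_lit 0) (p (nat_lit 0x16000c) (nat_lit 0) (p (nat_lit 0x160004) (nat_lit 0) (p (nat_lit 0x50612) (nat_lit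 0) (p (nat_lit 0x40592) (nat_lit 0) (p (nat_lit 0x40492) (nat_lit 0) (p (nat_lit 0x30412) (nat_lit 0) (p (nat_lit 0x30212) (nat_lit 0) (p (nat_lit 0x20192) (nat_lit 0) (p (nat_lit 0x20092) (nat_lit 0) (p (nat_lit 0x10012) (nat_lit 0) pn)))))))))))))))))))))))) :=
  Cl.node (nat_lit 0x380c2) (nat_lit 2) (by decide +kernel) (ClAll.succ (ClAll.succ ClAll.zero s312) n84)

def n112 : Cl (O (nat_lit 4)) (R (nat_lit 104465))
    (p (nat_lit 0x444aa) (nat_lit 7) (p (nat_lit 0x111) (nat_lit 1) (p (nat_lit 0xd1) (nat_lit 1) (p (nat_lit 0xc1) (nat_lit 0) (p (nat_lit 0x119) (nat_lit 1) (p (nat_lit 0xc9) (nat_lit 0) (p (nat_lit 0x89) (nat_lit 1) (p (nat_lit 0x41) (nat_lit 0) (p (nat_lit 0x108078907089a) (nat_lit 0) (p (nat_lit 0x107870886861a) (nat_lit 0) (p (nat_lit 0x8000000000000070806078a) (nat_lit 0) (p (nat_lit 0x8000000000000068785850a) (nat_lit 0) (p (nat_lit 0x10587050682) (nat_lit 0) (p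 (nat_lit 0x10506848402) (nat_lit 0) (p (nat_lit 0x16000c) (nat_lit 0) (p (nat_lit 0x160004) (nat_lit 0) (p (nat_lit 0x50612) (nat_lit 0) (p (nat_lit 0x40592) (nat_lit 0) (p (nat_lit 0x40492) (nat_lit 0) (p (nat_lit 0x30412) (nat_lit 0) (p (nat_lit 0x30212) (nat_lit 0) (p (nat_lit 0x20192) (nat_lit 0) (p (nat_lit 0x20092) (nat_lit 0) (p (nat_lit 0x10012) (nat_lit 0) pn)))))))))))))))))))))))) :=
  Cl.node (nat_lit 0x380c2) (nat_lit 2) (by decide +kernel) (ClAll.succ (ClAll.succ ClAll.zero n85) n86)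

def n113 : Cl (O (nat_lit 4)) (R (nat_lit 104465))
    (p (nat_lit 0x444aa) (nat_lit 7) (p (nat_lit 0x111) (nat_lit 1) (p (nat_lit 0x101) (nat_lit 0) (p (nat_lit 0xc1) (nat_lit 1) (p (nat_lit 0x119) (nat_lit 1) (p (nat_lit 0xc9) (nat_lit 0) (p (nat_lit 0x89) (nat_lit 1) (p (nat_lit 0x41) (nat_lit 0) (p (nat_lit 0x108078907089a) (nat_lit 0) (p (nat_lit 0x107870886861a) (nat_lit 0) (p (nat_lit 0x8000000000000070806078a) (nat_lit 0) (p (nat_lit 0x8000000000000068785850a) (nat_lit 0) (p (nat_lit 0x10587050682) (nat_lit 0) (p (nat_lit 0x10506848402) (nat_lit 0) (p (nat_lit 0x16000c) (nat_lit 0) (p (nat_lit 0x160004) (nat_lit 0) (p (nat_lit 0x50612) (nat_lit 0) (p (nat_lit 0x40592) (nat_lit 0) (p (nat_lit 0x40492) (nat_lit 0) (p (nat_lit 0x30412) (nat_lit 0) (p (nat_lit 0x30212) (nat_lit 0) (p (nat_lit 0x20192) (nat_lit 0) (p (nat_lit 0x20092) (nat_lit 0) (p (nat_lit 0x10012) (nat_lit 0) pn))))))))))))))))))))))))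 :=
  Cl.node (nat_lit 0x380c2) (nat_lit 2) (by decide +kernel) (ClAll.succ (ClAll.succ ClAll.zero n87) n88)

def n114 : Cl (O (nat_lit 4)) (R (nat_lit 104465))
    (p (nat_lit 0x444aa) (nat_lit 7) (p (nat_lit 0x119) (nat_lit 1) (p (nat_lit 0x111) (nat_lit 0) (p (nat_lit 0x101) (nat_lit 0) (p (nat_lit 0x109) (nat_lit 0) (p (nat_lit 0xc9) (nat_lit 1) (p (nat_lit 0x89) (nat_lit 1) (p (nat_lit 0x41) (nat_lit 0) (p (nat_lit 0x108078907089a) (nat_lit 0) (p (nat_lit 0x107870886861a) (nat_lit 0) (p (nat_lit 0x8000000000000070806078a) (nat_lit 0) (p (nat_lit 0x8000000000000068785850a) (nat_lit 0) (p (nat_lit 0x10587050682) (nat_lit 0) (p (nat_lit 0x10506848402) (nat_lit 0) (p (nat_lit 0x16000c) (nat_lit 0) (p (nat_lit 0x160004) (nat_lit 0) (p (nat_lit 0x50612) (nat_lit 0) (p (nat_lit 0x40592) (nat_lit 0) (p (nat_lit 0x40492) (nat_lit 0) (p (nat_lit 0x30412) (nat_lit 0) (p (nat_lit 0x30212) (nat_lit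 0) (p (nat_lit 0x20192) (nat_lit 0) (p (nat_lit 0x20092) (nat_lit 0) (p (nat_lit 0x10012) (nat_lit 0) pn)))))))))))))))))))))))) :=
  Cl.node (nat_lit 0x380c2) (nat_lit 2) (by decide +kernel) (ClAll.succ (ClAll.succ ClAll.zero s376) s377)

def n115 : Cl (O (nat_lit 4)) (R (nat_lit 104465))
    (p (nat_lit 0x3c4aa) (nat_lit 8) (p (nat_lit 0x89) (nat_lit 1) (p (nat_lit 0xc1) (nat_lit 1) (p (nat_lit 0x101) (nat_lit 1) (p (nat_lit 0x119) (nat_lit 0) (p (nat_lit 0xd1) (nat_lit 0) (p (nat_lit 0x81) (nat_lit 0) (p (nat_lit 0x41) (nat_lit 1) (p (nat_lit 0x108078907089a) (nat_lit 0) (p (nat_lit 0x107870886861a) (nat_lit 0) (p (nat_lit 0x8000000000000070806078a) (nat_lit 0) (p (nat_lit 0x8000000000000068785850a) (nat_lit 0) (p (nat_lit 0x10587050682) (nat_lit 0) (p (nat_lit 0x10506848402) (nat_lit 0) (p (nat_lit 0x16000c) (nat_lit 0) (p (nat_lit 0x160004) (nat_lit 0) (p (nat_lit 0x50612) (nat_lit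 0) (p (nat_lit 0x40592) (nat_lit 0) (p (nat_lit 0x40492) (nat_lit 0) (p (nat_lit 0x30412) (nat_lit 0) (p (nat_lit 0x30212) (nat_lit 0) (p (nat_lit 0x20192) (nat_lit 0) (p (nat_lit 0x20092) (nat_lit 0) (p (nat_lit 0x10012) (nat_lit 0) pn)))))))))))))))))))))))) :=
  Cl.node (nat_lit 0x380c2) (nat_lit 2) (by decide +kernel) (ClAll.succ (ClAll.succ ClAll.zero s424) s425)

def n116 : Cl (O (nat_lit 4)) (R (nat_lit 104465))
    (p (nat_lit 0x109) (nat_lit 0) (p (nat_lit 0x89) (nat_lit 1) (p (nat_lit 0xc9) (nat_lit 1) (p (nat_lit 0xc1) (nat_lit 0) (p (nat_lit 0x119) (nat_lit 1) (p (nat_lit 0xd1) (nat_lit 0) (p (nat_lit 0x81) (nat_lit 0) (p (nat_lit 0x41) (nat_lit 1) (p (nat_lit 0x108078907089a) (nat_lit 0) (p (nat_lit 0x107870886861a) (nat_lit 0) (p (nat_lit 0x8000000000000070806078a) (nat_lit 0) (p (nat_lit 0x8000000000000068785850a) (nat_lit 0) (p (nat_lit 0x10587050682) (nat_lit 0) (p (nat_lit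 0x10506848402) (nat_lit 0) (p (nat_lit 0x16000c) (nat_lit 0) (p (nat_lit 0x160004) (nat_lit 0) (p (nat_lit 0x50612) (nat_lit 0) (p (nat_lit 0x40592) (nat_lit 0) (p (nat_lit 0x40492) (nat_lit 0) (p (nat_lit 0x30412) (nat_lit 0) (p (nat_lit 0x30212) (nat_lit 0) (p (nat_lit 0x20192) (nat_lit 0) (p (nat_lit 0x20092) (nat_lit 0) (p (nat_lit 0x10012) (nat_lit 0) pn)))))))))))))))))))))))) :=
  Cl.node (nat_lit 0x44c2a) (nat_lit 12) (by decide +kernel) (ClAll.succ (ClAll.succ (ClAll.succ (ClAll.succ (ClAll.succ (ClAll.succ (ClAll.succ (ClAll.succ (ClAll.succ (ClAll.succ (ClAll.succ (ClAll.succ ClAll.zero s431) s432) s433) s434) s435) s436) s437) s438) s439) s440) s441) s442)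

def n117 : Cl (O (nat_lit 4)) (R (nat_lit 104465))
    (p (nat_lit 0x109) (nat_lit 1) (p (nat_lit 0x89) (nat_lit 1) (p (nat_lit 0xc9) (nat_lit 1) (p (nat_lit 0xc1) (nat_lit 0) (p (nat_lit 0x119) (nat_lit 1) (p (nat_lit 0xd1) (nat_lit 0) (p (nat_lit 0x81) (nat_lit 0) (p (nat_lit 0x41) (nat_lit 1) (p (nat_lit 0x108078907089a) (nat_lit 0) (p (nat_lit 0x107870886861a) (nat_lit 0) (p (nat_lit 0x8000000000000070806078a) (nat_lit 0) (p (nat_lit 0x8000000000000068785850a) (nat_lit 0) (p (nat_lit 0x10587050682) (nat_lit 0) (p (nat_lit 0x10506848402) (nat_lit 0) (p (nat_lit 0x16000c) (nat_lit 0) (p (nat_lit 0x160004) (nat_lit 0) (p (nat_lit 0x50612) (nat_lit 0) (p (nat_lit 0x40592) (nat_lit 0) (p (nat_lit 0x40492) (nat_lit 0) (p (nat_lit 0x30412) (nat_lit 0) (p (nat_lit 0x30212) (nat_lit 0) (p (nat_lit 0x20192) (nat_lit 0) (p (nat_lit 0x20092) (nat_lit 0) (p (nat_lit 0x10012) (nat_lit 0) pn))))))))))))))))))))))))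 :=
  Cl.node (nat_lit 0x3c4aa) (nat_lit 12) (by decide +kernel) (ClAll.succ (ClAll.succ (ClAll.succ (ClAll.succ (ClAll.succ (ClAll.succ (ClAll.succ (ClAll.succ (ClAll.succ (ClAll.succ (ClAll.succ (ClAll.succ ClAll.zero s443) s444) s445) s446) s447) s448) s449) s450) n89) s453) s454) s455)

def n118 : Cl (O (nat_lit 4)) (R (nat_lit 104465))
    (p (nat_lit 0x109) (nat_lit 1) (p (nat_lit 0x89) (nat_lit 1) (p (nat_lit 0x101) (nat_lit 0) (p (nat_lit 0xc1) (nat_lit 1) (p (nat_lit 0x119) (nat_lit 1) (p (nat_lit 0xd1) (nat_lit 0) (p (nat_lit 0x81) (nat_lit 0) (p (nat_lit 0x41) (nat_lit 1) (p (nat_lit 0x108078907089a) (nat_lit 0) (p (nat_lit 0x107870886861a) (nat_lit 0) (p (nat_lit 0x8000000000000070806078a) (nat_lit 0) (p (nat_lit 0x8000000000000068785850a) (nat_lit 0) (p (nat_lit 0x10587050682) (nat_lit 0) (p (nat_lit 0x10506848402) (nat_lit 0) (p (nat_lit 0x16000c) (nat_lit 0) (p (nat_lit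 0x160004) (nat_lit 0) (p (nat_lit 0x50612) (nat_lit 0) (p (nat_lit 0x40592) (nat_lit 0) (p (nat_lit 0x40492) (nat_lit 0) (p (nat_lit 0x30412) (nat_lit 0) (p (nat_lit 0x30212) (nat_lit 0) (p (nat_lit 0x20192) (nat_lit 0) (p (nat_lit 0x20092) (nat_lit 0) (p (nat_lit 0x10012) (nat_lit 0) pn)))))))))))))))))))))))) :=
  Cl.node (nat_lit 0x3c4aa) (nat_lit 12) (by decide +kernel) (ClAll.succ (ClAll.succ (ClAll.succ (ClAll.succ (ClAll.succ (ClAll.succ (ClAll.succ (ClAll.succ (ClAll.succ (ClAll.succ (ClAll.succ (ClAll.succ ClAll.zero s458) s459) s460) s461) s462) s463) s464) s465) n90) s470) s471) s472)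

def n119 : Cl (O (nat_lit 4)) (R (nat_lit 104465))
    (p (nat_lit 0x3c4aa) (nat_lit 8) (p (nat_lit 0x89) (nat_lit 1) (p (nat_lit 0x101) (nat_lit 1) (p (nat_lit 0xc1) (nat_lit 1) (p (nat_lit 0x119) (nat_lit 1) (p (nat_lit 0xd1) (nat_lit 0) (p (nat_lit 0x81) (nat_lit 0) (p (nat_lit 0x41) (nat_lit 1) (p (nat_lit 0x108078907089a) (nat_lit 0) (p (nat_lit 0x107870886861a) (nat_lit 0) (p (nat_lit 0x8000000000000070806078a) (nat_lit 0) (p (nat_lit 0x8000000000000068785850a) (nat_lit 0) (p (nat_lit 0x10587050682) (nat_lit 0) (p (nat_lit 0x10506848402) (nat_lit 0) (p (nat_lit 0x16000c) (nat_lit 0) (p (nat_lit 0x160004) (nat_lit 0) (p (nat_lit 0x50612) (nat_lit 0) (p (nat_lit 0x40592) (nat_lit 0) (p (nat_lit 0x40492) (nat_lit 0) (p (nat_lit 0x30412) (nat_lit 0) (p (nat_lit 0x30212) (nat_lit 0) (p (nat_lit 0x20192) (nat_lit 0) (p (nat_lit 0x20092) (nat_lit 0) (p (nat_lit 0x10012) (nat_lit 0) pn))))))))))))))))))))))))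 :=
  Cl.node (nat_lit 0x380c2) (nat_lit 2) (by decide +kernel) (ClAll.succ (ClAll.succ ClAll.zero s482) s483)

def n120 : Cl (O (nat_lit 4)) (R (nat_lit 104465))
    (p (nat_lit 0xc9) (nat_lit 0) (p (nat_lit 0x89) (nat_lit 1) (p (nat_lit 0x109) (nat_lit 1) (p (nat_lit 0x101) (nat_lit 0) (p (nat_lit 0x111) (nat_lit 0) (p (nat_lit 0xd1) (nat_lit 1) (p (nat_lit 0x81) (nat_lit 0) (p (nat_lit 0x41) (nat_lit 1) (p (nat_lit 0x108078907089a) (nat_lit 0) (p (nat_lit 0x107870886861a) (nat_lit 0) (p (nat_lit 0x8000000000000070806078a) (nat_lit 0) (p (nat_lit 0x8000000000000068785850a) (nat_lit 0) (p (nat_lit 0x10587050682) (nat_lit 0) (p (nat_lit 0x10506848402) (nat_lit 0) (p (nat_lit 0x16000c) (nat_lit 0) (p (nat_lit 0x160004) (nat_lit 0) (p (nat_lit 0x50612) (nat_lit 0) (p (nat_lit 0x40592) (nat_lit 0) (p (nat_lit 0x40492) (nat_lit 0) (p (nat_lit 0x30412) (nat_lit 0) (p (nat_lit 0x30212) (nat_lit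 0) (p (nat_lit 0x20192) (nat_lit 0) (p (nat_lit 0x20092) (nat_lit 0) (p (nat_lit 0x10012) (nat_lit 0) pn)))))))))))))))))))))))) :=
  Cl.node (nat_lit 0x119) (nat_lit 2) (by decide +kernel) (ClAll.succ (ClAll.succ ClAll.zero n91) n92)

def n121 : Cl (O (nat_lit 4)) (R (nat_lit 104465))
    (p (nat_lit 0x3cc2a) (nat_lit 2) (p (nat_lit 0xc9) (nat_lit 0) (p (nat_lit 0x89) (nat_lit 1) (p (nat_lit 0x101) (nat_lit 1) (p (nat_lit 0x111) (nat_lit 0) (p (nat_lit 0xd1) (nat_lit 1) (p (nat_lit 0x81) (nat_lit 0) (p (nat_lit 0x41) (nat_lit 1) (p (nat_lit 0x108078907089a) (nat_lit 0) (p (nat_lit 0x107870886861a) (nat_lit 0) (p (nat_lit 0x8000000000000070806078a) (nat_lit 0) (p (nat_lit 0x8000000000000068785850a) (nat_lit 0) (p (nat_lit 0x10587050682) (nat_lit 0) (p (nat_lit 0x10506848402) (nat_lit 0) (p (nat_lit 0x16000c) (nat_lit 0) (p (nat_lit 0x160004) (nat_lit 0) (p (nat_lit 0x50612) (nat_lit 0)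 (p (nat_lit 0x40592) (nat_lit 0) (p (nat_lit 0x40492) (nat_lit 0) (p (nat_lit 0x30412) (nat_lit 0) (p (nat_lit 0x30212) (nat_lit 0) (p (nat_lit 0x20192) (nat_lit 0) (p (nat_lit 0x20092) (nat_lit 0) (p (nat_lit 0x10012) (nat_lit 0) pn)))))))))))))))))))))))) :=
  Cl.node (nat_lit 0x380c2) (nat_lit 2) (by decide +kernel) (ClAll.succ (ClAll.succ ClAll.zero s529) n93)

def n122 : Cl (O (nat_lit 4)) (R (nat_lit 104465))
    (p (nat_lit 0x3cc2a) (nat_lit 2) (p (nat_lit 0x109) (nat_lit 0) (p (nat_lit 0xc9) (nat_lit 1) (p (nat_lit 0x89) (nat_lit 1) (p (nat_lit 0x111) (nat_lit 1) (p (nat_lit 0xd1) (nat_lit 1) (p (nat_lit 0x81) (nat_lit 0) (p (nat_lit 0x41) (nat_lit 1) (p (nat_lit 0x108078907089a) (nat_lit 0) (p (nat_lit 0x107870886861a) (nat_lit 0) (p (nat_lit 0x8000000000000070806078a) (nat_lit 0) (p (nat_lit 0x8000000000000068785850a) (nat_lit 0) (p (nat_lit 0x10587050682) (nat_lit 0) (p (nat_lit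 0x10506848402) (nat_lit 0) (p (nat_lit 0x16000c) (nat_lit 0) (p (nat_lit 0x160004) (nat_lit 0) (p (nat_lit 0x50612) (nat_lit 0) (p (nat_lit 0x40592) (nat_lit 0) (p (nat_lit 0x40492) (nat_lit 0) (p (nat_lit 0x30412) (nat_lit 0) (p (nat_lit 0x30212) (nat_lit 0) (p (nat_lit 0x20192) (nat_lit 0) (p (nat_lit 0x20092) (nat_lit 0) (p (nat_lit 0x10012) (nat_lit 0) pn)))))))))))))))))))))))) :=
  Cl.node (nat_lit 0x380c2) (nat_lit 2) (by decide +kernel) (ClAll.succ (ClAll.succ ClAll.zero s548) s549)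

def n123 : Cl (O (nat_lit 4)) (R (nat_lit 104465))
    (p (nat_lit 0xd1) (nat_lit 1) (p (nat_lit 0x111) (nat_lit 1) (p (nat_lit 0x109) (nat_lit 0) (p (nat_lit 0x101) (nat_lit 0) (p (nat_lit 0x119) (nat_lit 0) (p (nat_lit 0xc1) (nat_lit 0) (p (nat_lit 0x81) (nat_lit 1) (p (nat_lit 0x41) (nat_lit 1) (p (nat_lit 0x108078907089a) (nat_lit 0) (p (nat_lit 0x107870886861a) (nat_lit 0) (p (nat_lit 0x8000000000000070806078a) (nat_lit 0) (p (nat_lit 0x8000000000000068785850a) (nat_lit 0) (p (nat_lit 0x10587050682) (nat_lit 0) (p (nat_lit 0x10506848402) (nat_lit 0) (p (nat_lit 0x16000c) (nat_lit 0) (p (nat_lit 0x160004) (nat_lit 0) (p (nat_lit 0x50612) (nat_lit 0) (p (nat_lit 0x40592) (nat_lit 0) (p (nat_lit 0x40492) (nat_lit 0) (p (nat_lit 0x30412) (nat_lit 0) (p (nat_lit 0x30212) (nat_lit 0) (p (nat_lit 0x20192) (nat_lit 0) (p (nat_lit 0x20092) (nat_lit 0) (p (nat_lit 0x10012) (nat_lit 0) pn))))))))))))))))))))))))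 :=
  Cl.node (nat_lit 0x3c4aa) (nat_lit 12) (by decide +kernel) (ClAll.succ (ClAll.succ (ClAll.succ (ClAll.succ (ClAll.succ (ClAll.succ (ClAll.succ (ClAll.succ (ClAll.succ (ClAll.succ (ClAll.succ (ClAll.succ ClAll.zero s562) s563) s564) s565) s566) s567) s568) s569) s570) s571) s572) s573)

def n124 : Cl (O (nat_lit 4)) (R (nat_lit 104465))
    (p (nat_lit 0xd1) (nat_lit 1) (p (nat_lit 0xc9) (nat_lit 0) (p (nat_lit 0x109) (nat_lit 1) (p (nat_lit 0x101) (nat_lit 0) (p (nat_lit 0x119) (nat_lit 0) (p (nat_lit 0xc1) (nat_lit 0) (p (nat_lit 0x81) (nat_lit 1) (p (nat_lit 0x41) (nat_lit 1) (p (nat_lit 0x108078907089a) (nat_lit 0) (p (nat_lit 0x107870886861a) (nat_lit 0) (p (nat_lit 0x8000000000000070806078a) (nat_lit 0) (p (nat_lit 0x8000000000000068785850a) (nat_lit 0) (p (nat_lit 0x10587050682) (nat_lit 0) (p (nat_lit 0x10506848402) (nat_lit 0) (p (nat_lit 0x16000c) (nat_lit 0) (p (nat_lit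 0x160004) (nat_lit 0) (p (nat_lit 0x50612) (nat_lit 0) (p (nat_lit 0x40592) (nat_lit 0) (p (nat_lit 0x40492) (nat_lit 0) (p (nat_lit 0x30412) (nat_lit 0) (p (nat_lit 0x30212) (nat_lit 0) (p (nat_lit 0x20192) (nat_lit 0) (p (nat_lit 0x20092) (nat_lit 0) (p (nat_lit 0x10012) (nat_lit 0) pn)))))))))))))))))))))))) :=
  Cl.node (nat_lit 0x3c4aa) (nat_lit 12) (by decide +kernel) (ClAll.succ (ClAll.succ (ClAll.succ (ClAll.succ (ClAll.succ (ClAll.succ (ClAll.succ (ClAll.succ (ClAll.succ (ClAll.succ (ClAll.succ (ClAll.succ ClAll.zero s575) s576) s577) s578) s579) s580) s581) n94) s586) s587) s588) s589)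

def n125 : Cl (O (nat_lit 4)) (R (nat_lit 104465))
    (p (nat_lit 0x44c2a) (nat_lit 0) (p (nat_lit 0xd1) (nat_lit 0) (p (nat_lit 0xc9) (nat_lit 0) (p (nat_lit 0x101) (nat_lit 1) (p (nat_lit 0x119) (nat_lit 0) (p (nat_lit 0xc1) (nat_lit 0) (p (nat_lit 0x81) (nat_lit 1) (p (nat_lit 0x41) (nat_lit 1) (p (nat_lit 0x108078907089a) (nat_lit 0) (p (nat_lit 0x107870886861a) (nat_lit 0) (p (nat_lit 0x8000000000000070806078a) (nat_lit 0) (p (nat_lit 0x8000000000000068785850a) (nat_lit 0) (p (nat_lit 0x10587050682) (nat_lit 0) (p (nat_lit 0x10506848402) (nat_lit 0) (p (nat_lit 0x16000c) (nat_lit 0) (p (nat_lit 0x160004) (nat_lit 0) (p (nat_lit 0x50612) (nat_lit 0) (p (nat_lit 0x40592) (nat_lit 0) (p (nat_lit 0x40492) (nat_lit 0) (p (nat_lit 0x30412) (nat_lit 0) (p (nat_lit 0x30212) (nat_lit 0) (p (nat_lit 0x20192) (nat_lit 0) (p (nat_lit 0x20092) (nat_lit 0) (p (nat_lit 0x10012) (nat_lit 0) pn))))))))))))))))))))))))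 :=
  Cl.node (nat_lit 0x380c2) (nat_lit 1) (by decide +kernel) (ClAll.succ ClAll.zero n95)

def n126 : Cl (O (nat_lit 4)) (R (nat_lit 104465))
    (p (nat_lit 0x3c4aa) (nat_lit 8) (p (nat_lit 0xd1) (nat_lit 1) (p (nat_lit 0xc9) (nat_lit 0) (p (nat_lit 0x101) (nat_lit 1) (p (nat_lit 0x119) (nat_lit 0) (p (nat_lit 0xc1) (nat_lit 0) (p (nat_lit 0x81) (nat_lit 1) (p (nat_lit 0x41) (nat_lit 1) (p (nat_lit 0x108078907089a) (nat_lit 0) (p (nat_lit 0x107870886861a) (nat_lit 0) (p (nat_lit 0x8000000000000070806078a) (nat_lit 0) (p (nat_lit 0x8000000000000068785850a) (nat_lit 0) (p (nat_lit 0x10587050682) (nat_lit 0) (p (nat_lit 0x10506848402) (nat_lit 0) (p (nat_lit 0x16000c) (nat_lit 0) (p (nat_lit 0x160004) (nat_lit 0) (p (nat_lit 0x50612) (nat_lit 0) (p (nat_lit 0x40592) (nat_lit 0) (p (nat_lit 0x40492) (nat_lit 0) (p (nat_lit 0x30412) (nat_lit 0) (p (nat_lit 0x30212) (nat_lit 0) (p (nat_lit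 0x20192) (nat_lit 0) (p (nat_lit 0x20092) (nat_lit 0) (p (nat_lit 0x10012) (nat_lit 0) pn)))))))))))))))))))))))) :=
  Cl.node (nat_lit 0x380c2) (nat_lit 2) (by decide +kernel) (ClAll.succ (ClAll.succ ClAll.zero s613) n96)

def n127 : Cl (O (nat_lit 4)) (R (nat_lit 104465))
    (p (nat_lit 0x3c4aa) (nat_lit 8) (p (nat_lit 0x111) (nat_lit 1) (p (nat_lit 0xd1) (nat_lit 1) (p (nat_lit 0xc9) (nat_lit 0) (p (nat_lit 0x119) (nat_lit 1) (p (nat_lit 0xc1) (nat_lit 0) (p (nat_lit 0x81) (nat_lit 1) (p (nat_lit 0x41) (nat_lit 1) (p (nat_lit 0x108078907089a) (nat_lit 0) (p (nat_lit 0x107870886861a) (nat_lit 0) (p (nat_lit 0x8000000000000070806078a) (nat_lit 0) (p (nat_lit 0x8000000000000068785850a) (nat_lit 0) (p (nat_lit 0x10587050682) (nat_lit 0) (p (nat_lit 0x10506848402) (nat_lit 0) (p (nat_lit 0x16000c) (nat_lit 0) (p (nat_lit 0x160004) (nat_lit 0) (p (nat_lit 0x50612) (nat_lit 0) (p (nat_lit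 0x40592) (nat_lit 0) (p (nat_lit 0x40492) (nat_lit 0) (p (nat_lit 0x30412) (nat_lit 0) (p (nat_lit 0x30212) (nat_lit 0) (p (nat_lit 0x20192) (nat_lit 0) (p (nat_lit 0x20092) (nat_lit 0) (p (nat_lit 0x10012) (nat_lit 0) pn)))))))))))))))))))))))) :=
  Cl.node (nat_lit 0x380c2) (nat_lit 2) (by decide +kernel) (ClAll.succ (ClAll.succ ClAll.zero s648) s649)

def n128 : Cl (O (nat_lit 4)) (R (nat_lit 104465))
    (p (nat_lit 0xc9) (nat_lit 1) (p (nat_lit 0x109) (nat_lit 1) (p (nat_lit 0x101) (nat_lit 0) (p (nat_lit 0x119) (nat_lit 0) (p (nat_lit 0xd1) (nat_lit 0) (p (nat_lit 0x89) (nat_lit 0) (p (nat_lit 0x41) (nat_lit 0) (p (nat_lit 0x108078907089a) (nat_lit 0) (p (nat_lit 0x107870886861a) (nat_lit 0) (p (nat_lit 0x8000000000000070806078a) (nat_lit 0) (p (nat_lit 0x8000000000000068785850a) (nat_lit 0) (p (nat_lit 0x10587050682) (nat_lit 0) (p (nat_lit 0x10506848402) (nat_lit 0) (p (nat_lit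 0x16000c) (nat_lit 0) (p (nat_lit 0x160004) (nat_lit 0) (p (nat_lit 0x50612) (nat_lit 0) (p (nat_lit 0x40592) (nat_lit 0) (p (nat_lit 0x40492) (nat_lit 0) (p (nat_lit 0x30412) (nat_lit 0) (p (nat_lit 0x30212) (nat_lit 0) (p (nat_lit 0x20192) (nat_lit 0) (p (nat_lit 0x20092) (nat_lit 0) (p (nat_lit 0x10012) (nat_lit 0) pn))))))))))))))))))))))) :=
  Cl.node (nat_lit 0x81) (nat_lit 2) (by decide +kernel) (ClAll.succ (ClAll.succ ClAll.zero s2) n97)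

def n129 : Cl (O (nat_lit 4)) (R (nat_lit 104465))
    (p (nat_lit 0xc9) (nat_lit 1) (p (nat_lit 0x81) (nat_lit 0) (p (nat_lit 0x101) (nat_lit 1) (p (nat_lit 0x119) (nat_lit 0) (p (nat_lit 0xd1) (nat_lit 0) (p (nat_lit 0x89) (nat_lit 0) (p (nat_lit 0x41) (nat_lit 0) (p (nat_lit 0x108078907089a) (nat_lit 0) (p (nat_lit 0x107870886861a) (nat_lit 0) (p (nat_lit 0x8000000000000070806078a) (nat_lit 0) (p (nat_lit 0x8000000000000068785850a) (nat_lit 0) (p (nat_lit 0x10587050682) (nat_lit 0) (p (nat_lit 0x10506848402) (nat_lit 0) (p (nat_lit 0x16000c) (nat_lit 0) (p (nat_lit 0x160004) (nat_lit 0) (p (nat_lit 0x50612) (nat_lit 0) (p (nat_lit 0x40592) (nat_lit 0) (p (nat_lit 0x40492) (nat_lit 0) (p (nat_lit 0x30412) (nat_lit 0) (p (nat_lit 0x30212) (nat_lit 0) (p (nat_lit 0x20192) (nat_lit 0) (p (nat_lit 0x20092) (nat_lit 0) (p (nat_lit 0x10012) (nat_lit 0) pn))))))))))))))))))))))) :=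
  Cl.node (nat_lit 0x111) (nat_lit 2) (by decide +kernel) (ClAll.succ (ClAll.succ ClAll.zero n98) s60)

def n130 : Cl (O (nat_lit 4)) (R (nat_lit 104465))
    (p (nat_lit 0xc1) (nat_lit 0) (p (nat_lit 0x81) (nat_lit 1) (p (nat_lit 0x101) (nat_lit 1) (p (nat_lit 0x119) (nat_lit 0) (p (nat_lit 0xd1) (nat_lit 0) (p (nat_lit 0x89) (nat_lit 0) (p (nat_lit 0x41) (nat_lit 0) (p (nat_lit 0x108078907089a) (nat_lit 0) (p (nat_lit 0x107870886861a) (nat_lit 0) (p (nat_lit 0x8000000000000070806078a) (nat_lit 0) (p (nat_lit 0x8000000000000068785850a) (nat_lit 0) (p (nat_lit 0x10587050682) (nat_lit 0) (p (nat_lit 0x10506848402) (nat_lit 0) (p (nat_lit 0x16000c) (nat_lit 0) (p (nat_lit 0x160004) (nat_lit 0) (p (nat_lit 0x50612) (nat_lit 0) (p (nat_lit 0x40592) (nat_lit 0) (p (nat_lit 0x40492) (nat_lit 0) (p (nat_lit 0x30412) (nat_lit 0) (p (nat_lit 0x30212) (nat_lit 0) (p (nat_lit 0x20192) (nat_lit 0)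 (p (nat_lit 0x20092) (nat_lit 0) (p (nat_lit 0x10012) (nat_lit 0) pn))))))))))))))))))))))) :=
  Cl.node (nat_lit 0xc9) (nat_lit 2) (by decide +kernel) (ClAll.succ (ClAll.succ ClAll.zero s61) n99)

def n131 : Cl (O (nat_lit 4)) (R (nat_lit 104465))
    (p (nat_lit 0x109) (nat_lit 1) (p (nat_lit 0xc9) (nat_lit 1) (p (nat_lit 0xc1) (nat_lit 0) (p (nat_lit 0x119) (nat_lit 1) (p (nat_lit 0xd1) (nat_lit 0) (p (nat_lit 0x89) (nat_lit 0) (p (nat_lit 0x41) (nat_lit 0) (p (nat_lit 0x108078907089a) (nat_lit 0) (p (nat_lit 0x107870886861a) (nat_lit 0) (p (nat_lit 0x8000000000000070806078a) (nat_lit 0) (p (nat_lit 0x8000000000000068785850a) (nat_lit 0) (p (nat_lit 0x10587050682) (nat_lit 0) (p (nat_lit 0x10506848402) (nat_lit 0) (p (nat_lit 0x16000c) (nat_lit 0) (p (nat_lit 0x160004) (nat_lit 0) (p (nat_lit 0x50612) (nat_lit 0) (p (nat_lit 0x40592) (nat_lit 0) (p (nat_lit 0x40492) (nat_lit 0) (p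 (nat_lit 0x30412) (nat_lit 0) (p (nat_lit 0x30212) (nat_lit 0) (p (nat_lit 0x20192) (nat_lit 0) (p (nat_lit 0x20092) (nat_lit 0) (p (nat_lit 0x10012) (nat_lit 0) pn))))))))))))))))))))))) :=
  Cl.node (nat_lit 0x3cc2a) (nat_lit 12) (by decide +kernel) (ClAll.succ (ClAll.succ (ClAll.succ (ClAll.succ (ClAll.succ (ClAll.succ (ClAll.succ (ClAll.succ (ClAll.succ (ClAll.succ (ClAll.succ (ClAll.succ ClAll.zero s82) s83) n100) s92) s93) s94) s95) s96) s97) s98) s99) s100)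

def n132 : Cl (O (nat_lit 4)) (R (nat_lit 104465))
    (p (nat_lit 0x109) (nat_lit 1) (p (nat_lit 0x81) (nat_lit 0) (p (nat_lit 0xc1) (nat_lit 1) (p (nat_lit 0x119) (nat_lit 1) (p (nat_lit 0xd1) (nat_lit 0) (p (nat_lit 0x89) (nat_lit 0) (p (nat_lit 0x41) (nat_lit 0) (p (nat_lit 0x108078907089a) (nat_lit 0) (p (nat_lit 0x107870886861a) (nat_lit 0) (p (nat_lit 0x8000000000000070806078a) (nat_lit 0) (p (nat_lit 0x8000000000000068785850a) (nat_lit 0) (p (nat_lit 0x10587050682) (nat_lit 0) (p (nat_lit 0x10506848402) (nat_lit 0) (p (nat_lit 0x16000c) (nat_lit 0) (p (nat_lit 0x160004) (nat_lit 0) (p (nat_lit 0x50612) (nat_lit 0) (p (nat_lit 0x40592) (nat_lit 0) (p (nat_lit 0x40492) (nat_lit 0) (p (nat_lit 0x30412) (nat_lit 0) (p (nat_lit 0x30212) (nat_lit 0) (p (nat_lit 0x20192) (nat_lit 0) (p (nat_lit 0x20092) (nat_lit 0) (p (nat_lit 0x10012) (nat_lit 0) pn))))))))))))))))))))))) :=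
  Cl.node (nat_lit 0x3cc2a) (nat_lit 12) (by decide +kernel) (ClAll.succ (ClAll.succ (ClAll.succ (ClAll.succ (ClAll.succ (ClAll.succ (ClAll.succ (ClAll.succ (ClAll.succ (ClAll.succ (ClAll.succ (ClAll.succ ClAll.zero s102) s103) s104) s105) s106) s107) s108) s109) s110) s111) s112) s113)

def n133 : Cl (O (nat_lit 4)) (R (nat_lit 104465))
    (p (nat_lit 0x101) (nat_lit 0) (p (nat_lit 0x81) (nat_lit 1) (p (nat_lit 0xc1) (nat_lit 1) (p (nat_lit 0x119) (nat_lit 1) (p (nat_lit 0xd1) (nat_lit 0) (p (nat_lit 0x89) (nat_lit 0) (p (nat_lit 0x41) (nat_lit 0) (p (nat_lit 0x108078907089a) (nat_lit 0) (p (nat_lit 0x107870886861a) (nat_lit 0) (p (nat_lit 0x8000000000000070806078a) (nat_lit 0) (p (nat_lit 0x8000000000000068785850a) (nat_lit 0) (p (nat_lit 0x10587050682) (nat_lit 0) (p (nat_lit 0x10506848402) (nat_lit 0) (p (nat_lit 0x16000c) (nat_lit 0) (p (nat_lit 0x160004) (nat_lit 0) (p (nat_lit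 0x50612) (nat_lit 0) (p (nat_lit 0x40592) (nat_lit 0) (p (nat_lit 0x40492) (nat_lit 0) (p (nat_lit 0x30412) (nat_lit 0) (p (nat_lit 0x30212) (nat_lit 0) (p (nat_lit 0x20192) (nat_lit 0) (p (nat_lit 0x20092) (nat_lit 0) (p (nat_lit 0x10012) (nat_lit 0) pn))))))))))))))))))))))) :=
  Cl.node (nat_lit 0x109) (nat_lit 2) (by decide +kernel) (ClAll.succ (ClAll.succ ClAll.zero n101) n102)

def n134 : Cl (O (nat_lit 4)) (R (nat_lit 104465))
    (p (nat_lit 0xc1) (nat_lit 1) (p (nat_lit 0x109) (nat_lit 1) (p (nat_lit 0x101) (nat_lit 0) (p (nat_lit 0x111) (nat_lit 0) (p (nat_lit 0xd1) (nat_lit 1) (p (nat_lit 0x89) (nat_lit 0) (p (nat_lit 0x41) (nat_lit 0) (p (nat_lit 0x108078907089a) (nat_lit 0) (p (nat_lit 0x107870886861a) (nat_lit 0) (p (nat_lit 0x8000000000000070806078a) (nat_lit 0) (p (nat_lit 0x8000000000000068785850a) (nat_lit 0) (p (nat_lit 0x10587050682) (nat_lit 0) (p (nat_lit 0x10506848402)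 (nat_lit 0) (p (nat_lit 0x16000c) (nat_lit 0) (p (nat_lit 0x160004) (nat_lit 0) (p (nat_lit 0x50612) (nat_lit 0) (p (nat_lit 0x40592) (nat_lit 0) (p (nat_lit 0x40492) (nat_lit 0) (p (nat_lit 0x30412) (nat_lit 0) (p (nat_lit 0x30212) (nat_lit 0) (p (nat_lit 0x20192) (nat_lit 0) (p (nat_lit 0x20092) (nat_lit 0) (p (nat_lit 0x10012) (nat_lit 0) pn))))))))))))))))))))))) :=
  Cl.node (nat_lit 0x200014) (nat_lit 2) (by decide +kernel) (ClAll.succ (ClAll.succ ClAll.zero s143) s144)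

def n135 : Cl (O (nat_lit 4)) (R (nat_lit 104465))
    (p (nat_lit 0x119) (nat_lit 0) (p (nat_lit 0x81) (nat_lit 0) (p (nat_lit 0x101) (nat_lit 1) (p (nat_lit 0x111) (nat_lit 0) (p (nat_lit 0xd1) (nat_lit 1) (p (nat_lit 0x89) (nat_lit 0) (p (nat_lit 0x41) (nat_lit 0) (p (nat_lit 0x108078907089a) (nat_lit 0) (p (nat_lit 0x107870886861a) (nat_lit 0) (p (nat_lit 0x8000000000000070806078a) (nat_lit 0) (p (nat_lit 0x8000000000000068785850a) (nat_lit 0) (p (nat_lit 0x10587050682) (nat_lit 0) (p (nat_lit 0x10506848402) (nat_lit 0) (p (nat_lit 0x16000c) (nat_lit 0) (p (nat_lit 0x160004) (nat_lit 0) (p (nat_lit 0x50612) (nat_lit 0) (p (nat_lit 0x40592) (nat_lit 0) (p (nat_lit 0x40492) (nat_lit 0) (p (nat_lit 0x30412) (nat_lit 0) (p (nat_lit 0x30212) (nat_lit 0) (p (nat_lit 0x20192) (nat_lit 0) (p (nat_lit 0x20092) (nat_lit 0) (p (nat_lit 0x10012) (nat_lit 0) pn))))))))))))))))))))))) :=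
  Cl.node (nat_lit 0x200014) (nat_lit 2) (by decide +kernel) (ClAll.succ (ClAll.succ ClAll.zero n103) s158)

def n136 : Cl (O (nat_lit 4)) (R (nat_lit 104465))
    (p (nat_lit 0xc1) (nat_lit 0) (p (nat_lit 0x81) (nat_lit 1) (p (nat_lit 0x101) (nat_lit 1) (p (nat_lit 0x111) (nat_lit 0) (p (nat_lit 0xd1) (nat_lit 1) (p (nat_lit 0x89) (nat_lit 0) (p (nat_lit 0x41) (nat_lit 0) (p (nat_lit 0x108078907089a) (nat_lit 0) (p (nat_lit 0x107870886861a) (nat_lit 0) (p (nat_lit 0x8000000000000070806078a) (nat_lit 0) (p (nat_lit 0x8000000000000068785850a) (nat_lit 0) (p (nat_lit 0x10587050682) (nat_lit 0) (p (nat_lit 0x10506848402) (nat_lit 0) (p (nat_lit 0x16000c) (nat_lit 0) (p (nat_lit 0x160004) (nat_lit 0) (p (nat_lit 0x50612) (nat_lit 0) (p (nat_lit 0x40592) (nat_lit 0) (p (nat_lit 0x40492) (nat_lit 0) (p (nat_lit 0x30412) (nat_lit 0) (p (nat_lit 0x30212) (nat_lit 0) (p (nat_lit 0x20192) (nat_lit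 0) (p (nat_lit 0x20092) (nat_lit 0) (p (nat_lit 0x10012) (nat_lit 0) pn))))))))))))))))))))))) :=
  Cl.node (nat_lit 0x119) (nat_lit 2) (by decide +kernel) (ClAll.succ (ClAll.succ ClAll.zero n104) n105)

def n137 : Cl (O (nat_lit 4)) (R (nat_lit 104465))
    (p (nat_lit 0x101) (nat_lit 0) (p (nat_lit 0xc1) (nat_lit 1) (p (nat_lit 0x81) (nat_lit 1) (p (nat_lit 0x111) (nat_lit 1) (p (nat_lit 0xd1) (nat_lit 1) (p (nat_lit 0x89) (nat_lit 0) (p (nat_lit 0x41) (nat_lit 0) (p (nat_lit 0x108078907089a) (nat_lit 0) (p (nat_lit 0x107870886861a) (nat_lit 0) (p (nat_lit 0x8000000000000070806078a) (nat_lit 0) (p (nat_lit 0x8000000000000068785850a) (nat_lit 0) (p (nat_lit 0x10587050682) (nat_lit 0) (p (nat_lit 0x10506848402) (nat_lit 0) (p (nat_lit 0x16000c) (nat_lit 0) (p (nat_lit 0x160004) (nat_lit 0) (p (nat_lit 0x50612) (nat_lit 0) (p (nat_lit 0x40592) (nat_lit 0) (p (nat_lit 0x40492) (nat_lit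 0) (p (nat_lit 0x30412) (nat_lit 0) (p (nat_lit 0x30212) (nat_lit 0) (p (nat_lit 0x20192) (nat_lit 0) (p (nat_lit 0x20092) (nat_lit 0) (p (nat_lit 0x10012) (nat_lit 0) pn))))))))))))))))))))))) :=
  Cl.node (nat_lit 0x3cc2a) (nat_lit 12) (by decide +kernel) (ClAll.succ (ClAll.succ (ClAll.succ (ClAll.succ (ClAll.succ (ClAll.succ (ClAll.succ (ClAll.succ (ClAll.succ (ClAll.succ (ClAll.succ (ClAll.succ ClAll.zero s216) s217) n106) s220) s221) s222) s223) s224) s225) s226) s227) s228)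

def n138 : Cl (O (nat_lit 4)) (R (nat_lit 104465))
    (p (nat_lit 0x111) (nat_lit 1) (p (nat_lit 0x109) (nat_lit 0) (p (nat_lit 0x101) (nat_lit 0) (p (nat_lit 0x119) (nat_lit 0) (p (nat_lit 0xc9) (nat_lit 0) (p (nat_lit 0x89) (nat_lit 1) (p (nat_lit 0x41) (nat_lit 0) (p (nat_lit 0x108078907089a) (nat_lit 0) (p (nat_lit 0x107870886861a) (nat_lit 0) (p (nat_lit 0x8000000000000070806078a) (nat_lit 0) (p (nat_lit 0x8000000000000068785850a) (nat_lit 0) (p (nat_lit 0x10587050682) (nat_lit 0) (p (nat_lit 0x10506848402) (nat_lit 0) (p (nat_lit 0x16000c) (nat_lit 0) (p (nat_lit 0x160004) (nat_lit 0) (p (nat_lit 0x50612) (nat_lit 0) (p (nat_lit 0x40592) (nat_lit 0) (p (nat_lit 0x40492) (nat_lit 0) (p (nat_lit 0x30412) (nat_lit 0) (p (nat_lit 0x30212) (nat_lit 0) (p (nat_lit 0x20192) (nat_lit 0) (p (nat_lit 0x20092) (nat_lit 0) (p (nat_lit 0x10012) (nat_lit 0) pn))))))))))))))))))))))) :=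
  Cl.node (nat_lit 0xd1) (nat_lit 2) (by decide +kernel) (ClAll.succ (ClAll.succ ClAll.zero s231) n107)

def n139 : Cl (O (nat_lit 4)) (R (nat_lit 104465))
    (p (nat_lit 0xd1) (nat_lit 0) (p (nat_lit 0x109) (nat_lit 1) (p (nat_lit 0x101) (nat_lit 0) (p (nat_lit 0x119) (nat_lit 0) (p (nat_lit 0xc9) (nat_lit 0) (p (nat_lit 0x89) (nat_lit 1) (p (nat_lit 0x41) (nat_lit 0) (p (nat_lit 0x108078907089a) (nat_lit 0) (p (nat_lit 0x107870886861a) (nat_lit 0) (p (nat_lit 0x8000000000000070806078a) (nat_lit 0) (p (nat_lit 0x8000000000000068785850a) (nat_lit 0) (p (nat_lit 0x10587050682) (nat_lit 0) (p (nat_lit 0x10506848402) (nat_lit 0) (p (nat_lit 0x16000c) (nat_lit 0) (p (nat_lit 0x160004) (nat_lit 0) (p (nat_lit 0x50612) (nat_lit 0) (p (nat_lit 0x40592) (nat_lit 0) (p (nat_lit 0x40492) (nat_lit 0) (p (nat_lit 0x30412) (nat_lit 0) (p (nat_lit 0x30212) (nat_lit 0) (p (nat_lit 0x20192) (nat_lit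 0) (p (nat_lit 0x20092) (nat_lit 0) (p (nat_lit 0x10012) (nat_lit 0) pn))))))))))))))))))))))) :=
  Cl.node (nat_lit 0x200014) (nat_lit 2) (by decide +kernel) (ClAll.succ (ClAll.succ ClAll.zero n108) s266)

def n140 : Cl (O (nat_lit 4)) (R (nat_lit 104465))
    (p (nat_lit 0xd1) (nat_lit 1) (p (nat_lit 0x109) (nat_lit 1) (p (nat_lit 0x101) (nat_lit 0) (p (nat_lit 0x119) (nat_lit 0) (p (nat_lit 0xc9) (nat_lit 0) (p (nat_lit 0x89) (nat_lit 1) (p (nat_lit 0x41) (nat_lit 0) (p (nat_lit 0x108078907089a) (nat_lit 0) (p (nat_lit 0x107870886861a) (nat_lit 0) (p (nat_lit 0x8000000000000070806078a) (nat_lit 0) (p (nat_lit 0x8000000000000068785850a) (nat_lit 0) (p (nat_lit 0x10587050682) (nat_lit 0) (p (nat_lit 0x10506848402) (nat_lit 0) (p (nat_lit 0x16000c) (nat_lit 0) (p (nat_lit 0x160004) (nat_lit 0) (p (nat_lit 0x50612) (nat_lit 0) (p (nat_lit 0x40592) (nat_lit 0) (p (nat_lit 0x40492) (nat_lit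 0) (p (nat_lit 0x30412) (nat_lit 0) (p (nat_lit 0x30212) (nat_lit 0) (p (nat_lit 0x20192) (nat_lit 0) (p (nat_lit 0x20092) (nat_lit 0) (p (nat_lit 0x10012) (nat_lit 0) pn))))))))))))))))))))))) :=
  Cl.node (nat_lit 0x444aa) (nat_lit 12) (by decide +kernel) (ClAll.succ (ClAll.succ (ClAll.succ (ClAll.succ (ClAll.succ (ClAll.succ (ClAll.succ (ClAll.succ (ClAll.succ (ClAll.succ (ClAll.succ (ClAll.succ ClAll.zero s267) s268) s269) s270) s271) s272) s273) n109) s287) s288) s289) s290)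

def n141 : Cl (O (nat_lit 4)) (R (nat_lit 104465))
    (p (nat_lit 0xd1) (nat_lit 0) (p (nat_lit 0xc1) (nat_lit 0) (p (nat_lit 0x101) (nat_lit 1) (p (nat_lit 0x119) (nat_lit 0) (p (nat_lit 0xc9) (nat_lit 0) (p (nat_lit 0x89) (nat_lit 1) (p (nat_lit 0x41) (nat_lit 0) (p (nat_lit 0x108078907089a) (nat_lit 0) (p (nat_lit 0x107870886861a) (nat_lit 0) (p (nat_lit 0x8000000000000070806078a) (nat_lit 0) (p (nat_lit 0x8000000000000068785850a) (nat_lit 0) (p (nat_lit 0x10587050682) (nat_lit 0) (p (nat_lit 0x10506848402) (nat_lit 0) (p (nat_lit 0x16000c) (nat_lit 0) (p (nat_lit 0x160004) (nat_lit 0) (p (nat_lit 0x50612) (nat_lit 0) (p (nat_lit 0x40592) (nat_lit 0) (p (nat_lit 0x40492) (nat_lit 0) (p (nat_lit 0x30412) (nat_lit 0) (p (nat_lit 0x30212) (nat_lit 0) (p (nat_lit 0x20192) (nat_lit 0) (p (nat_lit 0x20092) (nat_lit 0) (p (nat_lit 0x10012) (nat_lit 0) pn))))))))))))))))))))))) :=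
  Cl.node (nat_lit 0x200014) (nat_lit 2) (by decide +kernel) (ClAll.succ (ClAll.succ ClAll.zero n110) s304)

def n142 : Cl (O (nat_lit 4)) (R (nat_lit 104465))
    (p (nat_lit 0xd1) (nat_lit 1) (p (nat_lit 0xc1) (nat_lit 0) (p (nat_lit 0x101) (nat_lit 1) (p (nat_lit 0x119) (nat_lit 0) (p (nat_lit 0xc9) (nat_lit 0) (p (nat_lit 0x89) (nat_lit 1) (p (nat_lit 0x41) (nat_lit 0) (p (nat_lit 0x108078907089a) (nat_lit 0) (p (nat_lit 0x107870886861a) (nat_lit 0) (p (nat_lit 0x8000000000000070806078a) (nat_lit 0) (p (nat_lit 0x8000000000000068785850a) (nat_lit 0) (p (nat_lit 0x10587050682) (nat_lit 0) (p (nat_lit 0x10506848402) (nat_lit 0) (p (nat_lit 0x16000c) (nat_lit 0) (p (nat_lit 0x160004) (nat_lit 0) (p (nat_lit 0x50612) (nat_lit 0) (p (nat_lit 0x40592) (nat_lit 0) (p (nat_lit 0x40492) (nat_lit 0) (p (nat_lit 0x30412) (nat_lit 0) (p (nat_lit 0x30212) (nat_lit 0) (p (nat_lit 0x20192) (nat_lit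 0) (p (nat_lit 0x20092) (nat_lit 0) (p (nat_lit 0x10012) (nat_lit 0) pn))))))))))))))))))))))) :=
  Cl.node (nat_lit 0x444aa) (nat_lit 12) (by decide +kernel) (ClAll.succ (ClAll.succ (ClAll.succ (ClAll.succ (ClAll.succ (ClAll.succ (ClAll.succ (ClAll.succ (ClAll.succ (ClAll.succ (ClAll.succ (ClAll.succ ClAll.zero s305) s306) s307) s308) s309) s310) s311) n111) s316) s317) s318) s319)

def n143 : Cl (O (nat_lit 4)) (R (nat_lit 104465))
    (p (nat_lit 0x111) (nat_lit 1) (p (nat_lit 0xd1) (nat_lit 1) (p (nat_lit 0xc1) (nat_lit 0) (p (nat_lit 0x119) (nat_lit 1) (p (nat_lit 0xc9) (nat_lit 0) (p (nat_lit 0x89) (nat_lit 1) (p (nat_lit 0x41) (nat_lit 0) (p (nat_lit 0x108078907089a) (nat_lit 0) (p (nat_lit 0x107870886861a) (nat_lit 0) (p (nat_lit 0x8000000000000070806078a) (nat_lit 0) (p (nat_lit 0x8000000000000068785850a) (nat_lit 0) (p (nat_lit 0x10587050682) (nat_lit 0) (p (nat_lit 0x10506848402)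 (nat_lit 0) (p (nat_lit 0x16000c) (nat_lit 0) (p (nat_lit 0x160004) (nat_lit 0) (p (nat_lit 0x50612) (nat_lit 0) (p (nat_lit 0x40592) (nat_lit 0) (p (nat_lit 0x40492) (nat_lit 0) (p (nat_lit 0x30412) (nat_lit 0) (p (nat_lit 0x30212) (nat_lit 0) (p (nat_lit 0x20192) (nat_lit 0) (p (nat_lit 0x20092) (nat_lit 0) (p (nat_lit 0x10012) (nat_lit 0) pn))))))))))))))))))))))) :=
  Cl.node (nat_lit 0x444aa) (nat_lit 12) (by decide +kernel) (ClAll.succ (ClAll.succ (ClAll.succ (ClAll.succ (ClAll.succ (ClAll.succ (ClAll.succ (ClAll.succ (ClAll.succ (ClAll.succ (ClAll.succ (ClAll.succ ClAll.zero s323) s324) s325) s326) s327) s328) s329) n112) s336) s337) s338) s339)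

def n144 : Cl (O (nat_lit 4)) (R (nat_lit 104465))
    (p (nat_lit 0x111) (nat_lit 0) (p (nat_lit 0x101) (nat_lit 0) (p (nat_lit 0xc1) (nat_lit 1) (p (nat_lit 0x119) (nat_lit 1) (p (nat_lit 0xc9) (nat_lit 0) (p (nat_lit 0x89) (nat_lit 1) (p (nat_lit 0x41) (nat_lit 0) (p (nat_lit 0x108078907089a) (nat_lit 0) (p (nat_lit 0x107870886861a) (nat_lit 0) (p (nat_lit 0x8000000000000070806078a) (nat_lit 0) (p (nat_lit 0x8000000000000068785850a) (nat_lit 0) (p (nat_lit 0x10587050682) (nat_lit 0) (p (nat_lit 0x10506848402) (nat_lit 0) (p (nat_lit 0x16000c) (nat_lit 0) (p (nat_lit 0x160004) (nat_lit 0) (p (nat_lit 0x50612) (nat_lit 0) (p (nat_lit 0x40592) (nat_lit 0) (p (nat_lit 0x40492) (nat_lit 0) (p (nat_lit 0x30412) (nat_lit 0) (p (nat_lit 0x30212) (nat_lit 0) (p (nat_lit 0x20192) (nat_lit 0) (p (nat_lit 0x20092) (nat_lit 0) (p (nat_lit 0x10012) (nat_lit 0) pn))))))))))))))))))))))) :=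
  Cl.node (nat_lit 0x44c2a) (nat_lit 12) (by decide +kernel) (ClAll.succ (ClAll.succ (ClAll.succ (ClAll.succ (ClAll.succ (ClAll.succ (ClAll.succ (ClAll.succ (ClAll.succ (ClAll.succ (ClAll.succ (ClAll.succ ClAll.zero s340) s341) s342) s343) s344) s345) s346) s347) s348) s349) s350) s351)

def n145 : Cl (O (nat_lit 4)) (R (nat_lit 104465))
    (p (nat_lit 0x111) (nat_lit 1) (p (nat_lit 0x101) (nat_lit 0) (p (nat_lit 0xc1) (nat_lit 1) (p (nat_lit 0x119) (nat_lit 1) (p (nat_lit 0xc9) (nat_lit 0) (p (nat_lit 0x89) (nat_lit 1) (p (nat_lit 0x41) (nat_lit 0) (p (nat_lit 0x108078907089a) (nat_lit 0) (p (nat_lit 0x107870886861a) (nat_lit 0) (p (nat_lit 0x8000000000000070806078a) (nat_lit 0) (p (nat_lit 0x8000000000000068785850a) (nat_lit 0) (p (nat_lit 0x10587050682) (nat_lit 0) (p (nat_lit 0x10506848402) (nat_lit 0) (p (nat_lit 0x16000c) (nat_lit 0) (p (nat_lit 0x160004) (nat_lit 0) (p (nat_lit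 0x50612) (nat_lit 0) (p (nat_lit 0x40592) (nat_lit 0) (p (nat_lit 0x40492) (nat_lit 0) (p (nat_lit 0x30412) (nat_lit 0) (p (nat_lit 0x30212) (nat_lit 0) (p (nat_lit 0x20192) (nat_lit 0) (p (nat_lit 0x20092) (nat_lit 0) (p (nat_lit 0x10012) (nat_lit 0) pn))))))))))))))))))))))) :=
  Cl.node (nat_lit 0x444aa) (nat_lit 12) (by decide +kernel) (ClAll.succ (ClAll.succ (ClAll.succ (ClAll.succ (ClAll.succ (ClAll.succ (ClAll.succ (ClAll.succ (ClAll.succ (ClAll.succ (ClAll.succ (ClAll.succ ClAll.zero s352) s353) s354) s355) s356) s357) s358) n113) s363) s364) s365) s366)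

def n146 : Cl (O (nat_lit 4)) (R (nat_lit 104465))
    (p (nat_lit 0x119) (nat_lit 1) (p (nat_lit 0x111) (nat_lit 0) (p (nat_lit 0x101) (nat_lit 0) (p (nat_lit 0x109) (nat_lit 0) (p (nat_lit 0xc9) (nat_lit 1) (p (nat_lit 0x89) (nat_lit 1) (p (nat_lit 0x41) (nat_lit 0) (p (nat_lit 0x108078907089a) (nat_lit 0) (p (nat_lit 0x107870886861a) (nat_lit 0) (p (nat_lit 0x8000000000000070806078a) (nat_lit 0) (p (nat_lit 0x8000000000000068785850a) (nat_lit 0) (p (nat_lit 0x10587050682) (nat_lit 0) (p (nat_lit 0x10506848402) (nat_lit 0) (p (nat_lit 0x16000c) (nat_lit 0) (p (nat_lit 0x160004) (nat_lit 0) (p (nat_lit 0x50612) (nat_lit 0) (p (nat_lit 0x40592) (nat_lit 0) (p (nat_lit 0x40492) (nat_lit 0) (p (nat_lit 0x30412) (nat_lit 0) (p (nat_lit 0x30212) (nat_lit 0) (p (nat_lit 0x20192) (nat_lit 0) (p (nat_lit 0x20092) (nat_lit 0) (p (nat_lit 0x10012) (nat_lit 0) pn))))))))))))))))))))))) :=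
  Cl.node (nat_lit 0x444aa) (nat_lit 12) (by decide +kernel) (ClAll.succ (ClAll.succ (ClAll.succ (ClAll.succ (ClAll.succ (ClAll.succ (ClAll.succ (ClAll.succ (ClAll.succ (ClAll.succ (ClAll.succ (ClAll.succ ClAll.zero s369) s370) s371) s372) s373) s374) s375) n114) s378) s379) s380) s381)

def n147 : Cl (O (nat_lit 4)) (R (nat_lit 104465))
    (p (nat_lit 0x89) (nat_lit 0) (p (nat_lit 0x109) (nat_lit 1) (p (nat_lit 0x101) (nat_lit 0) (p (nat_lit 0x119) (nat_lit 0) (p (nat_lit 0xd1) (nat_lit 0) (p (nat_lit 0x81) (nat_lit 0) (p (nat_lit 0x41) (nat_lit 1) (p (nat_lit 0x108078907089a) (nat_lit 0) (p (nat_lit 0x107870886861a) (nat_lit 0) (p (nat_lit 0x8000000000000070806078a) (nat_lit 0) (p (nat_lit 0x8000000000000068785850a) (nat_lit 0) (p (nat_lit 0x10587050682) (nat_lit 0) (p (nat_lit 0x10506848402) (nat_lit 0) (p (nat_lit 0x16000c) (nat_lit 0) (p (nat_lit 0x160004) (nat_lit 0) (p (nat_lit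 0x50612) (nat_lit 0) (p (nat_lit 0x40592) (nat_lit 0) (p (nat_lit 0x40492) (nat_lit 0) (p (nat_lit 0x30412) (nat_lit 0) (p (nat_lit 0x30212) (nat_lit 0) (p (nat_lit 0x20192) (nat_lit 0) (p (nat_lit 0x20092) (nat_lit 0) (p (nat_lit 0x10012) (nat_lit 0) pn))))))))))))))))))))))) :=
  Cl.node (nat_lit 0x111) (nat_lit 2) (by decide +kernel) (ClAll.succ (ClAll.succ ClAll.zero s386) s387)

def n148 : Cl (O (nat_lit 4)) (R (nat_lit 104465))
    (p (nat_lit 0x89) (nat_lit 1) (p (nat_lit 0x109) (nat_lit 1) (p (nat_lit 0x101) (nat_lit 0) (p (nat_lit 0x119) (nat_lit 0) (p (nat_lit 0xd1) (nat_lit 0) (p (nat_lit 0x81) (nat_lit 0) (p (nat_lit 0x41) (nat_lit 1) (p (nat_lit 0x108078907089a) (nat_lit 0) (p (nat_lit 0x107870886861a) (nat_lit 0) (p (nat_lit 0x8000000000000070806078a) (nat_lit 0) (p (nat_lit 0x8000000000000068785850a) (nat_lit 0) (p (nat_lit 0x10587050682) (nat_lit 0) (p (nat_lit 0x10506848402)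 (nat_lit 0) (p (nat_lit 0x16000c) (nat_lit 0) (p (nat_lit 0x160004) (nat_lit 0) (p (nat_lit 0x50612) (nat_lit 0) (p (nat_lit 0x40592) (nat_lit 0) (p (nat_lit 0x40492) (nat_lit 0) (p (nat_lit 0x30412) (nat_lit 0) (p (nat_lit 0x30212) (nat_lit 0) (p (nat_lit 0x20192) (nat_lit 0) (p (nat_lit 0x20092) (nat_lit 0) (p (nat_lit 0x10012) (nat_lit 0) pn))))))))))))))))))))))) :=
  Cl.node (nat_lit 0xc9) (nat_lit 2) (by decide +kernel) (ClAll.succ (ClAll.succ ClAll.zero s388) s389)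

def n149 : Cl (O (nat_lit 4)) (R (nat_lit 104465))
    (p (nat_lit 0x89) (nat_lit 0) (p (nat_lit 0xc1) (nat_lit 0) (p (nat_lit 0x101) (nat_lit 1) (p (nat_lit 0x119) (nat_lit 0) (p (nat_lit 0xd1) (nat_lit 0) (p (nat_lit 0x81) (nat_lit 0) (p (nat_lit 0x41) (nat_lit 1) (p (nat_lit 0x108078907089a) (nat_lit 0) (p (nat_lit 0x107870886861a) (nat_lit 0) (p (nat_lit 0x8000000000000070806078a) (nat_lit 0) (p (nat_lit 0x8000000000000068785850a) (nat_lit 0) (p (nat_lit 0x10587050682) (nat_lit 0) (p (nat_lit 0x10506848402) (nat_lit 0) (p (nat_lit 0x16000c) (nat_lit 0) (p (nat_lit 0x160004) (nat_lit 0) (p (nat_lit 0x50612) (nat_lit 0) (p (nat_lit 0x40592) (nat_lit 0) (p (nat_lit 0x40492) (nat_lit 0) (p (nat_lit 0x30412) (nat_lit 0) (p (nat_lit 0x30212) (nat_lit 0) (p (nat_lit 0x20192) (nat_lit 0) (p (nat_lit 0x20092) (nat_lit 0) (p (nat_lit 0x10012) (nat_lit 0) pn))))))))))))))))))))))) :=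
  Cl.node (nat_lit 0x3cc2a) (nat_lit 12) (by decide +kernel) (ClAll.succ (ClAll.succ (ClAll.succ (ClAll.succ (ClAll.succ (ClAll.succ (ClAll.succ (ClAll.succ (ClAll.succ (ClAll.succ (ClAll.succ (ClAll.succ ClAll.zero s390) s391) s392) s393) s394) s395) s396) s397) s398) s399) s400) s401)

def n150 : Cl (O (nat_lit 4)) (R (nat_lit 104465))
    (p (nat_lit 0x89) (nat_lit 1) (p (nat_lit 0xc1) (nat_lit 0) (p (nat_lit 0x101) (nat_lit 1) (p (nat_lit 0x119) (nat_lit 0) (p (nat_lit 0xd1) (nat_lit 0) (p (nat_lit 0x81) (nat_lit 0) (p (nat_lit 0x41) (nat_lit 1) (p (nat_lit 0x108078907089a) (nat_lit 0) (p (nat_lit 0x107870886861a) (nat_lit 0) (p (nat_lit 0x8000000000000070806078a) (nat_lit 0) (p (nat_lit 0x8000000000000068785850a) (nat_lit 0) (p (nat_lit 0x10587050682) (nat_lit 0) (p (nat_lit 0x10506848402) (nat_lit 0) (p (nat_lit 0x16000c) (nat_lit 0) (p (nat_lit 0x160004) (nat_lit 0) (p (nat_lit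 0x50612) (nat_lit 0) (p (nat_lit 0x40592) (nat_lit 0) (p (nat_lit 0x40492) (nat_lit 0) (p (nat_lit 0x30412) (nat_lit 0) (p (nat_lit 0x30212) (nat_lit 0) (p (nat_lit 0x20192) (nat_lit 0) (p (nat_lit 0x20092) (nat_lit 0) (p (nat_lit 0x10012) (nat_lit 0) pn))))))))))))))))))))))) :=
  Cl.node (nat_lit 0xc9) (nat_lit 2) (by decide +kernel) (ClAll.succ (ClAll.succ ClAll.zero s402) s403)

def n151 : Cl (O (nat_lit 4)) (R (nat_lit 104465))
    (p (nat_lit 0x89) (nat_lit 0) (p (nat_lit 0xc1) (nat_lit 1) (p (nat_lit 0x101) (nat_lit 1) (p (nat_lit 0x119) (nat_lit 0) (p (nat_lit 0xd1) (nat_lit 0) (p (nat_lit 0x81) (nat_lit 0) (p (nat_lit 0x41) (nat_lit 1) (p (nat_lit 0x108078907089a) (nat_lit 0) (p (nat_lit 0x107870886861a) (nat_lit 0) (p (nat_lit 0x8000000000000070806078a) (nat_lit 0) (p (nat_lit 0x8000000000000068785850a) (nat_lit 0) (p (nat_lit 0x10587050682) (nat_lit 0) (p (nat_lit 0x10506848402)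 (nat_lit 0) (p (nat_lit 0x16000c) (nat_lit 0) (p (nat_lit 0x160004) (nat_lit 0) (p (nat_lit 0x50612) (nat_lit 0) (p (nat_lit 0x40592) (nat_lit 0) (p (nat_lit 0x40492) (nat_lit 0) (p (nat_lit 0x30412) (nat_lit 0) (p (nat_lit 0x30212) (nat_lit 0) (p (nat_lit 0x20192) (nat_lit 0) (p (nat_lit 0x20092) (nat_lit 0) (p (nat_lit 0x10012) (nat_lit 0) pn))))))))))))))))))))))) :=
  Cl.node (nat_lit 0x3cc2a) (nat_lit 12) (by decide +kernel) (ClAll.succ (ClAll.succ (ClAll.succ (ClAll.succ (ClAll.succ (ClAll.succ (ClAll.succ (ClAll.succ (ClAll.succ (ClAll.succ (ClAll.succ (ClAll.succ ClAll.zero s404) s405) s406) s407) s408) s409) s410) s411) s412) s413) s414) s415)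

def n152 : Cl (O (nat_lit 4)) (R (nat_lit 104465))
    (p (nat_lit 0x89) (nat_lit 1) (p (nat_lit 0xc1) (nat_lit 1) (p (nat_lit 0x101) (nat_lit 1) (p (nat_lit 0x119) (nat_lit 0) (p (nat_lit 0xd1) (nat_lit 0) (p (nat_lit 0x81) (nat_lit 0) (p (nat_lit 0x41) (nat_lit 1) (p (nat_lit 0x108078907089a) (nat_lit 0) (p (nat_lit 0x107870886861a) (nat_lit 0) (p (nat_lit 0x8000000000000070806078a) (nat_lit 0) (p (nat_lit 0x8000000000000068785850a) (nat_lit 0) (p (nat_lit 0x10587050682) (nat_lit 0) (p (nat_lit 0x10506848402) (nat_lit 0) (p (nat_lit 0x16000c) (nat_lit 0) (p (nat_lit 0x160004) (nat_lit 0) (p (nat_lit 0x50612) (nat_lit 0) (p (nat_lit 0x40592) (nat_lit 0) (p (nat_lit 0x40492) (nat_lit 0) (p (nat_lit 0x30412) (nat_lit 0) (p (nat_lit 0x30212) (nat_lit 0) (p (nat_lit 0x20192) (nat_lit 0) (p (nat_lit 0x20092) (nat_lit 0) (p (nat_lit 0x10012) (nat_lit 0) pn))))))))))))))))))))))) :=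
  Cl.node (nat_lit 0x3c4aa) (nat_lit 12) (by decide +kernel) (ClAll.succ (ClAll.succ (ClAll.succ (ClAll.succ (ClAll.succ (ClAll.succ (ClAll.succ (ClAll.succ (ClAll.succ (ClAll.succ (ClAll.succ (ClAll.succ ClAll.zero s416) s417) s418) s419) s420) s421) s422) s423) n115) s426) s427) s428)

def n153 : Cl (O (nat_lit 4)) (R (nat_lit 104465))
    (p (nat_lit 0x89) (nat_lit 1) (p (nat_lit 0xc9) (nat_lit 1) (p (nat_lit 0xc1) (nat_lit 0) (p (nat_lit 0x119) (nat_lit 1) (p (nat_lit 0xd1) (nat_lit 0) (p (nat_lit 0x81) (nat_lit 0) (p (nat_lit 0x41) (nat_lit 1) (p (nat_lit 0x108078907089a) (nat_lit 0) (p (nat_lit 0x107870886861a) (nat_lit 0) (p (nat_lit 0x8000000000000070806078a) (nat_lit 0) (p (nat_lit 0x8000000000000068785850a) (nat_lit 0) (p (nat_lit 0x10587050682) (nat_lit 0) (p (nat_lit 0x10506848402) (nat_lit 0) (p (nat_lit 0x16000c) (nat_lit 0) (p (nat_lit 0x160004) (nat_lit 0) (p (nat_lit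 0x50612) (nat_lit 0) (p (nat_lit 0x40592) (nat_lit 0) (p (nat_lit 0x40492) (nat_lit 0) (p (nat_lit 0x30412) (nat_lit 0) (p (nat_lit 0x30212) (nat_lit 0) (p (nat_lit 0x20192) (nat_lit 0) (p (nat_lit 0x20092) (nat_lit 0) (p (nat_lit 0x10012) (nat_lit 0) pn))))))))))))))))))))))) :=
  Cl.node (nat_lit 0x109) (nat_lit 2) (by decide +kernel) (ClAll.succ (ClAll.succ ClAll.zero n116) n117)

def n154 : Cl (O (nat_lit 4)) (R (nat_lit 104465))
    (p (nat_lit 0x89) (nat_lit 1) (p (nat_lit 0x101) (nat_lit 0) (p (nat_lit 0xc1) (nat_lit 1) (p (nat_lit 0x119) (nat_lit 1) (p (nat_lit 0xd1) (nat_lit 0) (p (nat_lit 0x81) (nat_lit 0) (p (nat_lit 0x41) (nat_lit 1) (p (nat_lit 0x108078907089a) (nat_lit 0) (p (nat_lit 0x107870886861a) (nat_lit 0) (p (nat_lit 0x8000000000000070806078a) (nat_lit 0) (p (nat_lit 0x8000000000000068785850a) (nat_lit 0) (p (nat_lit 0x10587050682) (nat_lit 0) (p (nat_lit 0x10506848402)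 (nat_lit 0) (p (nat_lit 0x16000c) (nat_lit 0) (p (nat_lit 0x160004) (nat_lit 0) (p (nat_lit 0x50612) (nat_lit 0) (p (nat_lit 0x40592) (nat_lit 0) (p (nat_lit 0x40492) (nat_lit 0) (p (nat_lit 0x30412) (nat_lit 0) (p (nat_lit 0x30212) (nat_lit 0) (p (nat_lit 0x20192) (nat_lit 0) (p (nat_lit 0x20092) (nat_lit 0) (p (nat_lit 0x10012) (nat_lit 0) pn))))))))))))))))))))))) :=
  Cl.node (nat_lit 0x109) (nat_lit 2) (by decide +kernel) (ClAll.succ (ClAll.succ ClAll.zero s457) n118)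

def n155 : Cl (O (nat_lit 4)) (R (nat_lit 104465))
    (p (nat_lit 0x89) (nat_lit 1) (p (nat_lit 0x101) (nat_lit 1) (p (nat_lit 0xc1) (nat_lit 1) (p (nat_lit 0x119) (nat_lit 1) (p (nat_lit 0xd1) (nat_lit 0) (p (nat_lit 0x81) (nat_lit 0) (p (nat_lit 0x41) (nat_lit 1) (p (nat_lit 0x108078907089a) (nat_lit 0) (p (nat_lit 0x107870886861a) (nat_lit 0) (p (nat_lit 0x8000000000000070806078a) (nat_lit 0) (p (nat_lit 0x8000000000000068785850a) (nat_lit 0) (p (nat_lit 0x10587050682) (nat_lit 0) (p (nat_lit 0x10506848402) (nat_lit 0) (p (nat_lit 0x16000c) (nat_lit 0) (p (nat_lit 0x160004) (nat_lit 0) (p (nat_lit 0x50612) (nat_lit 0) (p (nat_lit 0x40592) (nat_lit 0) (p (nat_lit 0x40492) (nat_lit 0) (p (nat_lit 0x30412) (nat_lit 0) (p (nat_lit 0x30212) (nat_lit 0) (p (nat_lit 0x20192) (nat_lit 0) (p (nat_lit 0x20092) (nat_lit 0) (p (nat_lit 0x10012) (nat_lit 0) pn))))))))))))))))))))))) :=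
  Cl.node (nat_lit 0x3c4aa) (nat_lit 12) (by decide +kernel) (ClAll.succ (ClAll.succ (ClAll.succ (ClAll.succ (ClAll.succ (ClAll.succ (ClAll.succ (ClAll.succ (ClAll.succ (ClAll.succ (ClAll.succ (ClAll.succ ClAll.zero s474) s475) s476) s477) s478) s479) s480) s481) n119) s484) s485) s486)

def n156 : Cl (O (nat_lit 4)) (R (nat_lit 104465))
    (p (nat_lit 0x89) (nat_lit 1) (p (nat_lit 0x109) (nat_lit 1) (p (nat_lit 0x101) (nat_lit 0) (p (nat_lit 0x111) (nat_lit 0) (p (nat_lit 0xd1) (nat_lit 1) (p (nat_lit 0x81) (nat_lit 0) (p (nat_lit 0x41) (nat_lit 1) (p (nat_lit 0x108078907089a) (nat_lit 0) (p (nat_lit 0x107870886861a) (nat_lit 0) (p (nat_lit 0x8000000000000070806078a) (nat_lit 0) (p (nat_lit 0x8000000000000068785850a) (nat_lit 0) (p (nat_lit 0x10587050682) (nat_lit 0) (p (nat_lit 0x10506848402) (nat_lit 0) (p (nat_lit 0x16000c) (nat_lit 0) (p (nat_lit 0x160004) (nat_lit 0) (p (nat_lit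 0x50612) (nat_lit 0) (p (nat_lit 0x40592) (nat_lit 0) (p (nat_lit 0x40492) (nat_lit 0) (p (nat_lit 0x30412) (nat_lit 0) (p (nat_lit 0x30212) (nat_lit 0) (p (nat_lit 0x20192) (nat_lit 0) (p (nat_lit 0x20092) (nat_lit 0) (p (nat_lit 0x10012) (nat_lit 0) pn))))))))))))))))))))))) :=
  Cl.node (nat_lit 0xc9) (nat_lit 2) (by decide +kernel) (ClAll.succ (ClAll.succ ClAll.zero n120) s514)

def n157 : Cl (O (nat_lit 4)) (R (nat_lit 104465))
    (p (nat_lit 0xc9) (nat_lit 0) (p (nat_lit 0x89) (nat_lit 1) (p (nat_lit 0x101) (nat_lit 1) (p (nat_lit 0x111) (nat_lit 0) (p (nat_lit 0xd1) (nat_lit 1) (p (nat_lit 0x81) (nat_lit 0) (p (nat_lit 0x41) (nat_lit 1) (p (nat_lit 0x108078907089a) (nat_lit 0) (p (nat_lit 0x107870886861a) (nat_lit 0) (p (nat_lit 0x8000000000000070806078a) (nat_lit 0) (p (nat_lit 0x8000000000000068785850a) (nat_lit 0) (p (nat_lit 0x10587050682) (nat_lit 0) (p (nat_lit 0x10506848402)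 (nat_lit 0) (p (nat_lit 0x16000c) (nat_lit 0) (p (nat_lit 0x160004) (nat_lit 0) (p (nat_lit 0x50612) (nat_lit 0) (p (nat_lit 0x40592) (nat_lit 0) (p (nat_lit 0x40492) (nat_lit 0) (p (nat_lit 0x30412) (nat_lit 0) (p (nat_lit 0x30212) (nat_lit 0) (p (nat_lit 0x20192) (nat_lit 0) (p (nat_lit 0x20092) (nat_lit 0) (p (nat_lit 0x10012) (nat_lit 0) pn))))))))))))))))))))))) :=
  Cl.node (nat_lit 0x3cc2a) (nat_lit 12) (by decide +kernel) (ClAll.succ (ClAll.succ (ClAll.succ (ClAll.succ (ClAll.succ (ClAll.succ (ClAll.succ (ClAll.succ (ClAll.succ (ClAll.succ (ClAll.succ (ClAll.succ ClAll.zero s527) s528) n121) s534) s535) s536) s537) s538) s539) s540) s541) s542)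

def n158 : Cl (O (nat_lit 4)) (R (nat_lit 104465))
    (p (nat_lit 0x109) (nat_lit 0) (p (nat_lit 0xc9) (nat_lit 1) (p (nat_lit 0x89) (nat_lit 1) (p (nat_lit 0x111) (nat_lit 1) (p (nat_lit 0xd1) (nat_lit 1) (p (nat_lit 0x81) (nat_lit 0) (p (nat_lit 0x41) (nat_lit 1) (p (nat_lit 0x108078907089a) (nat_lit 0) (p (nat_lit 0x107870886861a) (nat_lit 0) (p (nat_lit 0x8000000000000070806078a) (nat_lit 0) (p (nat_lit 0x8000000000000068785850a) (nat_lit 0) (p (nat_lit 0x10587050682) (nat_lit 0) (p (nat_lit 0x10506848402) (nat_lit 0) (p (nat_lit 0x16000c) (nat_lit 0) (p (nat_lit 0x160004) (nat_lit 0) (p (nat_lit 0x50612) (nat_lit 0) (p (nat_lit 0x40592) (nat_lit 0) (p (nat_lit 0x40492) (nat_lit 0) (p (nat_lit 0x30412) (nat_lit 0) (p (nat_lit 0x30212) (nat_lit 0) (p (nat_lit 0x20192) (nat_lit 0) (p (nat_lit 0x20092) (nat_lit 0) (p (nat_lit 0x10012) (nat_lit 0) pn))))))))))))))))))))))) :=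
  Cl.node (nat_lit 0x3cc2a) (nat_lit 12) (by decide +kernel) (ClAll.succ (ClAll.succ (ClAll.succ (ClAll.succ (ClAll.succ (ClAll.succ (ClAll.succ (ClAll.succ (ClAll.succ (ClAll.succ (ClAll.succ (ClAll.succ ClAll.zero s546) s547) n122) s550) s551) s552) s553) s554) s555) s556) s557) s558)

def n159 : Cl (O (nat_lit 4)) (R (nat_lit 104465))
    (p (nat_lit 0x111) (nat_lit 1) (p (nat_lit 0x109) (nat_lit 0) (p (nat_lit 0x101) (nat_lit 0) (p (nat_lit 0x119) (nat_lit 0) (p (nat_lit 0xc1) (nat_lit 0) (p (nat_lit 0x81) (nat_lit 1) (p (nat_lit 0x41) (nat_lit 1) (p (nat_lit 0x108078907089a) (nat_lit 0) (p (nat_lit 0x107870886861a) (nat_lit 0) (p (nat_lit 0x8000000000000070806078a) (nat_lit 0) (p (nat_lit 0x8000000000000068785850a) (nat_lit 0) (p (nat_lit 0x10587050682) (nat_lit 0) (p (nat_lit 0x10506848402) (nat_lit 0) (p (nat_lit 0x16000c) (nat_lit 0) (p (nat_lit 0x160004) (nat_lit 0) (p (nat_lit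 0x50612) (nat_lit 0) (p (nat_lit 0x40592) (nat_lit 0) (p (nat_lit 0x40492) (nat_lit 0) (p (nat_lit 0x30412) (nat_lit 0) (p (nat_lit 0x30212) (nat_lit 0) (p (nat_lit 0x20192) (nat_lit 0) (p (nat_lit 0x20092) (nat_lit 0) (p (nat_lit 0x10012) (nat_lit 0) pn))))))))))))))))))))))) :=
  Cl.node (nat_lit 0xd1) (nat_lit 2) (by decide +kernel) (ClAll.succ (ClAll.succ ClAll.zero s561) n123)

def n160 : Cl (O (nat_lit 4)) (R (nat_lit 104465))
    (p (nat_lit 0xc9) (nat_lit 0) (p (nat_lit 0x109) (nat_lit 1) (p (nat_lit 0x101) (nat_lit 0) (p (nat_lit 0x119) (nat_lit 0) (p (nat_lit 0xc1) (nat_lit 0) (p (nat_lit 0x81) (nat_lit 1) (p (nat_lit 0x41) (nat_lit 1) (p (nat_lit 0x108078907089a) (nat_lit 0) (p (nat_lit 0x107870886861a) (nat_lit 0) (p (nat_lit 0x8000000000000070806078a) (nat_lit 0) (p (nat_lit 0x8000000000000068785850a) (nat_lit 0) (p (nat_lit 0x10587050682) (nat_lit 0) (p (nat_lit 0x10506848402)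 (nat_lit 0) (p (nat_lit 0x16000c) (nat_lit 0) (p (nat_lit 0x160004) (nat_lit 0) (p (nat_lit 0x50612) (nat_lit 0) (p (nat_lit 0x40592) (nat_lit 0) (p (nat_lit 0x40492) (nat_lit 0) (p (nat_lit 0x30412) (nat_lit 0) (p (nat_lit 0x30212) (nat_lit 0) (p (nat_lit 0x20192) (nat_lit 0) (p (nat_lit 0x20092) (nat_lit 0) (p (nat_lit 0x10012) (nat_lit 0) pn))))))))))))))))))))))) :=
  Cl.node (nat_lit 0xd1) (nat_lit 2) (by decide +kernel) (ClAll.succ (ClAll.succ ClAll.zero s574) n124)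

def n161 : Cl (O (nat_lit 4)) (R (nat_lit 104465))
    (p (nat_lit 0xd1) (nat_lit 0) (p (nat_lit 0xc9) (nat_lit 0) (p (nat_lit 0x101) (nat_lit 1) (p (nat_lit 0x119) (nat_lit 0) (p (nat_lit 0xc1) (nat_lit 0) (p (nat_lit 0x81) (nat_lit 1) (p (nat_lit 0x41) (nat_lit 1) (p (nat_lit 0x108078907089a) (nat_lit 0) (p (nat_lit 0x107870886861a) (nat_lit 0) (p (nat_lit 0x8000000000000070806078a) (nat_lit 0) (p (nat_lit 0x8000000000000068785850a) (nat_lit 0) (p (nat_lit 0x10587050682) (nat_lit 0) (p (nat_lit 0x10506848402) (nat_lit 0) (p (nat_lit 0x16000c) (nat_lit 0) (p (nat_lit 0x160004) (nat_lit 0) (p (nat_lit 0x50612) (nat_lit 0) (p (nat_lit 0x40592) (nat_lit 0) (p (nat_lit 0x40492) (nat_lit 0) (p (nat_lit 0x30412) (nat_lit 0) (p (nat_lit 0x30212) (nat_lit 0) (p (nat_lit 0x20192) (nat_lit 0) (p (nat_lit 0x20092) (nat_lit 0) (p (nat_lit 0x10012) (nat_lit 0) pn))))))))))))))))))))))) :=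
  Cl.node (nat_lit 0x44c2a) (nat_lit 12) (by decide +kernel) (ClAll.succ (ClAll.succ (ClAll.succ (ClAll.succ (ClAll.succ (ClAll.succ (ClAll.succ (ClAll.succ (ClAll.succ (ClAll.succ (ClAll.succ (ClAll.succ ClAll.zero n125) s594) s595) s596) s597) s598) s599) s600) s601) s602) s603) s604)

def n162 : Cl (O (nat_lit 4)) (R (nat_lit 104465))
    (p (nat_lit 0xd1) (nat_lit 1) (p (nat_lit 0xc9) (nat_lit 0) (p (nat_lit 0x101) (nat_lit 1) (p (nat_lit 0x119) (nat_lit 0) (p (nat_lit 0xc1) (nat_lit 0) (p (nat_lit 0x81) (nat_lit 1) (p (nat_lit 0x41) (nat_lit 1) (p (nat_lit 0x108078907089a) (nat_lit 0) (p (nat_lit 0x107870886861a) (nat_lit 0) (p (nat_lit 0x8000000000000070806078a) (nat_lit 0) (p (nat_lit 0x8000000000000068785850a) (nat_lit 0) (p (nat_lit 0x10587050682) (nat_lit 0) (p (nat_lit 0x10506848402) (nat_lit 0) (p (nat_lit 0x16000c) (nat_lit 0) (p (nat_lit 0x160004) (nat_lit 0) (p (nat_lit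 0x50612) (nat_lit 0) (p (nat_lit 0x40592) (nat_lit 0) (p (nat_lit 0x40492) (nat_lit 0) (p (nat_lit 0x30412) (nat_lit 0) (p (nat_lit 0x30212) (nat_lit 0) (p (nat_lit 0x20192) (nat_lit 0) (p (nat_lit 0x20092) (nat_lit 0) (p (nat_lit 0x10012) (nat_lit 0) pn))))))))))))))))))))))) :=
  Cl.node (nat_lit 0x3c4aa) (nat_lit 12) (by decide +kernel) (ClAll.succ (ClAll.succ (ClAll.succ (ClAll.succ (ClAll.succ (ClAll.succ (ClAll.succ (ClAll.succ (ClAll.succ (ClAll.succ (ClAll.succ (ClAll.succ ClAll.zero s605) s606) s607) s608) s609) s610) s611) s612) n126) s634) s635) s636)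

def n163 : Cl (O (nat_lit 4)) (R (nat_lit 104465))
    (p (nat_lit 0x111) (nat_lit 1) (p (nat_lit 0xd1) (nat_lit 1) (p (nat_lit 0xc9) (nat_lit 0) (p (nat_lit 0x119) (nat_lit 1) (p (nat_lit 0xc1) (nat_lit 0) (p (nat_lit 0x81) (nat_lit 1) (p (nat_lit 0x41) (nat_lit 1) (p (nat_lit 0x108078907089a) (nat_lit 0) (p (nat_lit 0x107870886861a) (nat_lit 0) (p (nat_lit 0x8000000000000070806078a) (nat_lit 0) (p (nat_lit 0x8000000000000068785850a) (nat_lit 0) (p (nat_lit 0x10587050682) (nat_lit 0) (p (nat_lit 0x10506848402) (nat_lit 0) (p (nat_lit 0x16000c) (nat_lit 0) (p (nat_lit 0x160004) (nat_lit 0) (p (nat_lit 0x50612) (nat_lit 0) (p (nat_lit 0x40592) (nat_lit 0) (p (nat_lit 0x40492) (nat_lit 0) (p (nat_lit 0x30412) (nat_lit 0) (p (nat_lit 0x30212) (nat_lit 0) (p (nat_lit 0x20192) (nat_lit 0) (p (nat_lit 0x20092) (nat_lit 0) (p (nat_lit 0x10012) (nat_lit 0) pn))))))))))))))))))))))) :=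
  Cl.node (nat_lit 0x3c4aa) (nat_lit 12) (by decide +kernel) (ClAll.succ (ClAll.succ (ClAll.succ (ClAll.succ (ClAll.succ (ClAll.succ (ClAll.succ (ClAll.succ (ClAll.succ (ClAll.succ (ClAll.succ (ClAll.succ ClAll.zero s640) s641) s642) s643) s644) s645) s646) s647) n127) s650) s651) s652)

def n164 : Cl (O (nat_lit 4)) (R (nat_lit 104465))
    (p (nat_lit 0x111) (nat_lit 0) (p (nat_lit 0x109) (nat_lit 0) (p (nat_lit 0xc9) (nat_lit 1) (p (nat_lit 0x119) (nat_lit 1) (p (nat_lit 0xc1) (nat_lit 0) (p (nat_lit 0x81) (nat_lit 1) (p (nat_lit 0x41) (nat_lit 1) (p (nat_lit 0x108078907089a) (nat_lit 0) (p (nat_lit 0x107870886861a) (nat_lit 0) (p (nat_lit 0x8000000000000070806078a) (nat_lit 0) (p (nat_lit 0x8000000000000068785850a) (nat_lit 0) (p (nat_lit 0x10587050682) (nat_lit 0) (p (nat_lit 0x10506848402) (nat_lit 0) (p (nat_lit 0x16000c) (nat_lit 0) (p (nat_lit 0x160004) (nat_lit 0) (p (nat_lit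 0x50612) (nat_lit 0) (p (nat_lit 0x40592) (nat_lit 0) (p (nat_lit 0x40492) (nat_lit 0) (p (nat_lit 0x30412) (nat_lit 0) (p (nat_lit 0x30212) (nat_lit 0) (p (nat_lit 0x20192) (nat_lit 0) (p (nat_lit 0x20092) (nat_lit 0) (p (nat_lit 0x10012) (nat_lit 0) pn))))))))))))))))))))))) :=
  Cl.node (nat_lit 0x44c2a) (nat_lit 12) (by decide +kernel) (ClAll.succ (ClAll.succ (ClAll.succ (ClAll.succ (ClAll.succ (ClAll.succ (ClAll.succ (ClAll.succ (ClAll.succ (ClAll.succ (ClAll.succ (ClAll.succ ClAll.zero s653) s654) s655) s656) s657) s658) s659) s660) s661) s662) s663) s664)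

def n165 : Cl (O (nat_lit 4)) (R (nat_lit 104465))
    (p (nat_lit 0x111) (nat_lit 1) (p (nat_lit 0x109) (nat_lit 0) (p (nat_lit 0xc9) (nat_lit 1) (p (nat_lit 0x119) (nat_lit 1) (p (nat_lit 0xc1) (nat_lit 0) (p (nat_lit 0x81) (nat_lit 1) (p (nat_lit 0x41) (nat_lit 1) (p (nat_lit 0x108078907089a) (nat_lit 0) (p (nat_lit 0x107870886861a) (nat_lit 0) (p (nat_lit 0x8000000000000070806078a) (nat_lit 0) (p (nat_lit 0x8000000000000068785850a) (nat_lit 0) (p (nat_lit 0x10587050682) (nat_lit 0) (p (nat_lit 0x10506848402) (nat_lit 0) (p (nat_lit 0x16000c) (nat_lit 0) (p (nat_lit 0x160004) (nat_lit 0) (p (nat_lit 0x50612) (nat_lit 0) (p (nat_lit 0x40592) (nat_lit 0) (p (nat_lit 0x40492) (nat_lit 0) (p (nat_lit 0x30412) (nat_lit 0) (p (nat_lit 0x30212) (nat_lit 0) (p (nat_lit 0x20192) (nat_lit 0) (p (nat_lit 0x20092) (nat_lit 0) (p (nat_lit 0x10012) (nat_lit 0) pn))))))))))))))))))))))) :=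
  Cl.node (nat_lit 0x3c4aa) (nat_lit 12) (by decide +kernel) (ClAll.succ (ClAll.succ (ClAll.succ (ClAll.succ (ClAll.succ (ClAll.succ (ClAll.succ (ClAll.succ (ClAll.succ (ClAll.succ (ClAll.succ (ClAll.succ ClAll.zero s665) s666) s667) s668) s669) s670) s671) s672) s673) s674) s675) s676)

def n166 : Cl (O (nat_lit 4)) (R (nat_lit 104465))
    (p (nat_lit 0x109) (nat_lit 1) (p (nat_lit 0x101) (nat_lit 0) (p (nat_lit 0x119) (nat_lit 0) (p (nat_lit 0xd1) (nat_lit 0) (p (nat_lit 0x89) (nat_lit 0) (p (nat_lit 0x41) (nat_lit 0) (p (nat_lit 0x108078907089a) (nat_lit 0) (p (nat_lit 0x107870886861a) (nat_lit 0) (p (nat_lit 0x8000000000000070806078a) (nat_lit 0) (p (nat_lit 0x8000000000000068785850a) (nat_lit 0) (p (nat_lit 0x10587050682) (nat_lit 0) (p (nat_lit 0x10506848402) (nat_lit 0) (p (nat_lit 0x16000c) (nat_lit 0) (p (nat_lit 0x160004) (nat_lit 0) (p (nat_lit 0x50612) (nat_lit 0) (p (nat_lit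 0x40592) (nat_lit 0) (p (nat_lit 0x40492) (nat_lit 0) (p (nat_lit 0x30412) (nat_lit 0) (p (nat_lit 0x30212) (nat_lit 0) (p (nat_lit 0x20192) (nat_lit 0) (p (nat_lit 0x20092) (nat_lit 0) (p (nat_lit 0x10012) (nat_lit 0) pn)))))))))))))))))))))) :=
  Cl.node (nat_lit 0xc9) (nat_lit 2) (by decide +kernel) (ClAll.succ (ClAll.succ ClAll.zero s1) n128)

def n167 : Cl (O (nat_lit 4)) (R (nat_lit 104465))
    (p (nat_lit 0x81) (nat_lit 0) (p (nat_lit 0x101) (nat_lit 1) (p (nat_lit 0x119) (nat_lit 0) (p (nat_lit 0xd1) (nat_lit 0) (p (nat_lit 0x89) (nat_lit 0) (p (nat_lit 0x41) (nat_lit 0) (p (nat_lit 0x108078907089a) (nat_lit 0) (p (nat_lit 0x107870886861a) (nat_lit 0) (p (nat_lit 0x8000000000000070806078a) (nat_lit 0) (p (nat_lit 0x8000000000000068785850a) (nat_lit 0) (p (nat_lit 0x10587050682) (nat_lit 0) (p (nat_lit 0x10506848402) (nat_lit 0) (p (nat_lit 0x16000c) (nat_lit 0) (p (nat_lit 0x160004)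 (nat_lit 0) (p (nat_lit 0x50612) (nat_lit 0) (p (nat_lit 0x40592) (nat_lit 0) (p (nat_lit 0x40492) (nat_lit 0) (p (nat_lit 0x30412) (nat_lit 0) (p (nat_lit 0x30212) (nat_lit 0) (p (nat_lit 0x20192) (nat_lit 0) (p (nat_lit 0x20092) (nat_lit 0) (p (nat_lit 0x10012) (nat_lit 0) pn)))))))))))))))))))))) :=
  Cl.node (nat_lit 0xc9) (nat_lit 2) (by decide +kernel) (ClAll.succ (ClAll.succ ClAll.zero s31) n129)

def n168 : Cl (O (nat_lit 4)) (R (nat_lit 104465))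
    (p (nat_lit 0x81) (nat_lit 1) (p (nat_lit 0x101) (nat_lit 1) (p (nat_lit 0x119) (nat_lit 0) (p (nat_lit 0xd1) (nat_lit 0) (p (nat_lit 0x89) (nat_lit 0) (p (nat_lit 0x41) (nat_lit 0) (p (nat_lit 0x108078907089a) (nat_lit 0) (p (nat_lit 0x107870886861a) (nat_lit 0) (p (nat_lit 0x8000000000000070806078a) (nat_lit 0) (p (nat_lit 0x8000000000000068785850a) (nat_lit 0) (p (nat_lit 0x10587050682) (nat_lit 0) (p (nat_lit 0x10506848402) (nat_lit 0) (p (nat_lit 0x16000c) (nat_lit 0) (p (nat_lit 0x160004) (nat_lit 0) (p (nat_lit 0x50612) (nat_lit 0) (p (nat_lit 0x40592) (nat_lit 0) (p (nat_lit 0x40492) (nat_lit 0) (p (nat_lit 0x30412) (nat_lit 0) (p (nat_lit 0x30212) (nat_lit 0) (p (nat_lit 0x20192) (nat_lit 0) (p (nat_lit 0x20092) (nat_lit 0) (p (nat_lit 0x10012) (nat_lit 0) pn)))))))))))))))))))))) :=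
  Cl.node (nat_lit 0xc1) (nat_lit 2) (by decide +kernel) (ClAll.succ (ClAll.succ ClAll.zero n130) s79)

def n169 : Cl (O (nat_lit 4)) (R (nat_lit 104465))
    (p (nat_lit 0xc9) (nat_lit 1) (p (nat_lit 0xc1) (nat_lit 0) (p (nat_lit 0x119) (nat_lit 1) (p (nat_lit 0xd1) (nat_lit 0) (p (nat_lit 0x89) (nat_lit 0) (p (nat_lit 0x41) (nat_lit 0) (p (nat_lit 0x108078907089a) (nat_lit 0) (p (nat_lit 0x107870886861a) (nat_lit 0) (p (nat_lit 0x8000000000000070806078a) (nat_lit 0) (p (nat_lit 0x8000000000000068785850a) (nat_lit 0) (p (nat_lit 0x10587050682) (nat_lit 0) (p (nat_lit 0x10506848402) (nat_lit 0) (p (nat_lit 0x16000c) (nat_lit 0) (p (nat_lit 0x160004) (nat_lit 0) (p (nat_lit 0x50612) (nat_lit 0) (p (nat_lit 0x40592) (nat_lit 0) (p (nat_lit 0x40492) (nat_lit 0) (p (nat_lit 0x30412) (nat_lit 0) (p (nat_lit 0x30212) (nat_lit 0) (p (nat_lit 0x20192) (nat_lit 0) (p (nat_lit 0x20092) (nat_lit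 0) (p (nat_lit 0x10012) (nat_lit 0) pn)))))))))))))))))))))) :=
  Cl.node (nat_lit 0x109) (nat_lit 2) (by decide +kernel) (ClAll.succ (ClAll.succ ClAll.zero s81) n131)

def n170 : Cl (O (nat_lit 4)) (R (nat_lit 104465))
    (p (nat_lit 0x81) (nat_lit 0) (p (nat_lit 0xc1) (nat_lit 1) (p (nat_lit 0x119) (nat_lit 1) (p (nat_lit 0xd1) (nat_lit 0) (p (nat_lit 0x89) (nat_lit 0) (p (nat_lit 0x41) (nat_lit 0) (p (nat_lit 0x108078907089a) (nat_lit 0) (p (nat_lit 0x107870886861a) (nat_lit 0) (p (nat_lit 0x8000000000000070806078a) (nat_lit 0) (p (nat_lit 0x8000000000000068785850a) (nat_lit 0) (p (nat_lit 0x10587050682) (nat_lit 0) (p (nat_lit 0x10506848402) (nat_lit 0) (p (nat_lit 0x16000c) (nat_lit 0) (p (nat_lit 0x160004) (nat_lit 0) (p (nat_lit 0x50612) (nat_lit 0) (p (nat_lit 0x40592) (nat_lit 0) (p (nat_lit 0x40492) (nat_lit 0) (p (nat_lit 0x30412) (nat_lit 0) (p (nat_lit 0x30212) (nat_lit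 0) (p (nat_lit 0x20192) (nat_lit 0) (p (nat_lit 0x20092) (nat_lit 0) (p (nat_lit 0x10012) (nat_lit 0) pn)))))))))))))))))))))) :=
  Cl.node (nat_lit 0x109) (nat_lit 2) (by decide +kernel) (ClAll.succ (ClAll.succ ClAll.zero s101) n132)

def n171 : Cl (O (nat_lit 4)) (R (nat_lit 104465))
    (p (nat_lit 0x81) (nat_lit 1) (p (nat_lit 0xc1) (nat_lit 1) (p (nat_lit 0x119) (nat_lit 1) (p (nat_lit 0xd1) (nat_lit 0) (p (nat_lit 0x89) (nat_lit 0) (p (nat_lit 0x41) (nat_lit 0) (p (nat_lit 0x108078907089a) (nat_lit 0) (p (nat_lit 0x107870886861a) (nat_lit 0) (p (nat_lit 0x8000000000000070806078a) (nat_lit 0) (p (nat_lit 0x8000000000000068785850a) (nat_lit 0) (p (nat_lit 0x10587050682) (nat_lit 0) (p (nat_lit 0x10506848402) (nat_lit 0) (p (nat_lit 0x16000c) (nat_lit 0) (p (nat_lit 0x160004) (nat_lit 0) (p (nat_lit 0x50612) (nat_lit 0) (p (nat_lit 0x40592) (nat_lit 0) (p (nat_lit 0x40492) (nat_lit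 0) (p (nat_lit 0x30412) (nat_lit 0) (p (nat_lit 0x30212) (nat_lit 0) (p (nat_lit 0x20192) (nat_lit 0) (p (nat_lit 0x20092) (nat_lit 0) (p (nat_lit 0x10012) (nat_lit 0) pn)))))))))))))))))))))) :=
  Cl.node (nat_lit 0x101) (nat_lit 2) (by decide +kernel) (ClAll.succ (ClAll.succ ClAll.zero n133) s140)

def n172 : Cl (O (nat_lit 4)) (R (nat_lit 104465))
    (p (nat_lit 0x109) (nat_lit 1) (p (nat_lit 0x101) (nat_lit 0) (p (nat_lit 0x111) (nat_lit 0) (p (nat_lit 0xd1) (nat_lit 1) (p (nat_lit 0x89) (nat_lit 0) (p (nat_lit 0x41) (nat_lit 0) (p (nat_lit 0x108078907089a) (nat_lit 0) (p (nat_lit 0x107870886861a) (nat_lit 0) (p (nat_lit 0x8000000000000070806078a) (nat_lit 0) (p (nat_lit 0x8000000000000068785850a) (nat_lit 0) (p (nat_lit 0x10587050682) (nat_lit 0) (p (nat_lit 0x10506848402) (nat_lit 0) (p (nat_lit 0x16000c) (nat_lit 0) (p (nat_lit 0x160004) (nat_lit 0) (p (nat_lit 0x50612) (nat_lit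 0) (p (nat_lit 0x40592) (nat_lit 0) (p (nat_lit 0x40492) (nat_lit 0) (p (nat_lit 0x30412) (nat_lit 0) (p (nat_lit 0x30212) (nat_lit 0) (p (nat_lit 0x20192) (nat_lit 0) (p (nat_lit 0x20092) (nat_lit 0) (p (nat_lit 0x10012) (nat_lit 0) pn)))))))))))))))))))))) :=
  Cl.node (nat_lit 0xc1) (nat_lit 2) (by decide +kernel) (ClAll.succ (ClAll.succ ClAll.zero s142) n134)

def n173 : Cl (O (nat_lit 4)) (R (nat_lit 104465))
    (p (nat_lit 0x81) (nat_lit 0) (p (nat_lit 0x101) (nat_lit 1) (p (nat_lit 0x111) (nat_lit 0) (p (nat_lit 0xd1) (nat_lit 1) (p (nat_lit 0x89) (nat_lit 0) (p (nat_lit 0x41) (nat_lit 0) (p (nat_lit 0x108078907089a) (nat_lit 0) (p (nat_lit 0x107870886861a) (nat_lit 0) (p (nat_lit 0x8000000000000070806078a) (nat_lit 0) (p (nat_lit 0x8000000000000068785850a) (nat_lit 0) (p (nat_lit 0x10587050682) (nat_lit 0) (p (nat_lit 0x10506848402) (nat_lit 0) (p (nat_lit 0x16000c) (nat_lit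 0) (p (nat_lit 0x160004) (nat_lit 0) (p (nat_lit 0x50612) (nat_lit 0) (p (nat_lit 0x40592) (nat_lit 0) (p (nat_lit 0x40492) (nat_lit 0) (p (nat_lit 0x30412) (nat_lit 0) (p (nat_lit 0x30212) (nat_lit 0) (p (nat_lit 0x20192) (nat_lit 0) (p (nat_lit 0x20092) (nat_lit 0) (p (nat_lit 0x10012) (nat_lit 0) pn)))))))))))))))))))))) :=
  Cl.node (nat_lit 0x119) (nat_lit 2) (by decide +kernel) (ClAll.succ (ClAll.succ ClAll.zero n135) s159)

def n174 : Cl (O (nat_lit 4)) (R (nat_lit 104465))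
    (p (nat_lit 0x81) (nat_lit 1) (p (nat_lit 0x101) (nat_lit 1) (p (nat_lit 0x111) (nat_lit 0) (p (nat_lit 0xd1) (nat_lit 1) (p (nat_lit 0x89) (nat_lit 0) (p (nat_lit 0x41) (nat_lit 0) (p (nat_lit 0x108078907089a) (nat_lit 0) (p (nat_lit 0x107870886861a) (nat_lit 0) (p (nat_lit 0x8000000000000070806078a) (nat_lit 0) (p (nat_lit 0x8000000000000068785850a) (nat_lit 0) (p (nat_lit 0x10587050682) (nat_lit 0) (p (nat_lit 0x10506848402) (nat_lit 0) (p (nat_lit 0x16000c) (nat_lit 0) (p (nat_lit 0x160004) (nat_lit 0) (p (nat_lit 0x50612) (nat_lit 0) (p (nat_lit 0x40592) (nat_lit 0) (p (nat_lit 0x40492) (nat_lit 0) (p (nat_lit 0x30412) (nat_lit 0) (p (nat_lit 0x30212) (nat_lit 0) (p (nat_lit 0x20192) (nat_lit 0) (p (nat_lit 0x20092) (nat_lit 0) (p (nat_lit 0x10012) (nat_lit 0) pn)))))))))))))))))))))) :=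
  Cl.node (nat_lit 0xc1) (nat_lit 2) (by decide +kernel) (ClAll.succ (ClAll.succ ClAll.zero n136) s213)

def n175 : Cl (O (nat_lit 4)) (R (nat_lit 104465))
    (p (nat_lit 0xc1) (nat_lit 1) (p (nat_lit 0x81) (nat_lit 1) (p (nat_lit 0x111) (nat_lit 1) (p (nat_lit 0xd1) (nat_lit 1) (p (nat_lit 0x89) (nat_lit 0) (p (nat_lit 0x41) (nat_lit 0) (p (nat_lit 0x108078907089a) (nat_lit 0) (p (nat_lit 0x107870886861a) (nat_lit 0) (p (nat_lit 0x8000000000000070806078a) (nat_lit 0) (p (nat_lit 0x8000000000000068785850a) (nat_lit 0) (p (nat_lit 0x10587050682) (nat_lit 0) (p (nat_lit 0x10506848402) (nat_lit 0) (p (nat_lit 0x16000c) (nat_lit 0) (p (nat_lit 0x160004) (nat_lit 0) (p (nat_lit 0x50612) (nat_lit 0) (p (nat_lit 0x40592) (nat_lit 0) (p (nat_lit 0x40492) (nat_lit 0) (p (nat_lit 0x30412) (nat_lit 0) (p (nat_lit 0x30212) (nat_lit 0) (p (nat_lit 0x20192) (nat_lit 0) (p (nat_lit 0x20092) (nat_lit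 0) (p (nat_lit 0x10012) (nat_lit 0) pn)))))))))))))))))))))) :=
  Cl.node (nat_lit 0x101) (nat_lit 2) (by decide +kernel) (ClAll.succ (ClAll.succ ClAll.zero n137) s229)

def n176 : Cl (O (nat_lit 4)) (R (nat_lit 104465))
    (p (nat_lit 0x109) (nat_lit 0) (p (nat_lit 0x101) (nat_lit 0) (p (nat_lit 0x119) (nat_lit 0) (p (nat_lit 0xc9) (nat_lit 0) (p (nat_lit 0x89) (nat_lit 1) (p (nat_lit 0x41) (nat_lit 0) (p (nat_lit 0x108078907089a) (nat_lit 0) (p (nat_lit 0x107870886861a) (nat_lit 0) (p (nat_lit 0x8000000000000070806078a) (nat_lit 0) (p (nat_lit 0x8000000000000068785850a) (nat_lit 0) (p (nat_lit 0x10587050682) (nat_lit 0) (p (nat_lit 0x10506848402) (nat_lit 0) (p (nat_lit 0x16000c) (nat_lit 0) (p (nat_lit 0x160004) (nat_lit 0) (p (nat_lit 0x50612) (nat_lit 0) (p (nat_lit 0x40592) (nat_lit 0) (p (nat_lit 0x40492) (nat_lit 0) (p (nat_lit 0x30412) (nat_lit 0) (p (nat_lit 0x30212) (nat_lit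 0) (p (nat_lit 0x20192) (nat_lit 0) (p (nat_lit 0x20092) (nat_lit 0) (p (nat_lit 0x10012) (nat_lit 0) pn)))))))))))))))))))))) :=
  Cl.node (nat_lit 0x111) (nat_lit 2) (by decide +kernel) (ClAll.succ (ClAll.succ ClAll.zero s230) n138)

def n177 : Cl (O (nat_lit 4)) (R (nat_lit 104465))
    (p (nat_lit 0x109) (nat_lit 1) (p (nat_lit 0x101) (nat_lit 0) (p (nat_lit 0x119) (nat_lit 0) (p (nat_lit 0xc9) (nat_lit 0) (p (nat_lit 0x89) (nat_lit 1) (p (nat_lit 0x41) (nat_lit 0) (p (nat_lit 0x108078907089a) (nat_lit 0) (p (nat_lit 0x107870886861a) (nat_lit 0) (p (nat_lit 0x8000000000000070806078a) (nat_lit 0) (p (nat_lit 0x8000000000000068785850a) (nat_lit 0) (p (nat_lit 0x10587050682) (nat_lit 0) (p (nat_lit 0x10506848402) (nat_lit 0) (p (nat_lit 0x16000c) (nat_lit 0) (p (nat_lit 0x160004) (nat_lit 0) (p (nat_lit 0x50612) (nat_lit 0) (p (nat_lit 0x40592) (nat_lit 0) (p (nat_lit 0x40492) (nat_lit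 0) (p (nat_lit 0x30412) (nat_lit 0) (p (nat_lit 0x30212) (nat_lit 0) (p (nat_lit 0x20192) (nat_lit 0) (p (nat_lit 0x20092) (nat_lit 0) (p (nat_lit 0x10012) (nat_lit 0) pn)))))))))))))))))))))) :=
  Cl.node (nat_lit 0xd1) (nat_lit 2) (by decide +kernel) (ClAll.succ (ClAll.succ ClAll.zero n139) n140)

def n178 : Cl (O (nat_lit 4)) (R (nat_lit 104465))
    (p (nat_lit 0xc1) (nat_lit 0) (p (nat_lit 0x101) (nat_lit 1) (p (nat_lit 0x119) (nat_lit 0) (p (nat_lit 0xc9) (nat_lit 0) (p (nat_lit 0x89) (nat_lit 1) (p (nat_lit 0x41) (nat_lit 0) (p (nat_lit 0x108078907089a) (nat_lit 0) (p (nat_lit 0x107870886861a) (nat_lit 0) (p (nat_lit 0x8000000000000070806078a) (nat_lit 0) (p (nat_lit 0x8000000000000068785850a) (nat_lit 0) (p (nat_lit 0x10587050682) (nat_lit 0) (p (nat_lit 0x10506848402) (nat_lit 0) (p (nat_lit 0x16000c) (nat_lit 0) (p (nat_lit 0x160004) (nat_lit 0) (p (nat_lit 0x50612) (nat_lit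 0) (p (nat_lit 0x40592) (nat_lit 0) (p (nat_lit 0x40492) (nat_lit 0) (p (nat_lit 0x30412) (nat_lit 0) (p (nat_lit 0x30212) (nat_lit 0) (p (nat_lit 0x20192) (nat_lit 0) (p (nat_lit 0x20092) (nat_lit 0) (p (nat_lit 0x10012) (nat_lit 0) pn)))))))))))))))))))))) :=
  Cl.node (nat_lit 0xd1) (nat_lit 2) (by decide +kernel) (ClAll.succ (ClAll.succ ClAll.zero n141) n142)

def n179 : Cl (O (nat_lit 4)) (R (nat_lit 104465))
    (p (nat_lit 0xd1) (nat_lit 1) (p (nat_lit 0xc1) (nat_lit 0) (p (nat_lit 0x119) (nat_lit 1) (p (nat_lit 0xc9) (nat_lit 0) (p (nat_lit 0x89) (nat_lit 1) (p (nat_lit 0x41) (nat_lit 0) (p (nat_lit 0x108078907089a) (nat_lit 0) (p (nat_lit 0x107870886861a) (nat_lit 0) (p (nat_lit 0x8000000000000070806078a) (nat_lit 0) (p (nat_lit 0x8000000000000068785850a) (nat_lit 0) (p (nat_lit 0x10587050682) (nat_lit 0) (p (nat_lit 0x10506848402) (nat_lit 0) (p (nat_lit 0x16000c) (nat_lit 0)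 (p (nat_lit 0x160004) (nat_lit 0) (p (nat_lit 0x50612) (nat_lit 0) (p (nat_lit 0x40592) (nat_lit 0) (p (nat_lit 0x40492) (nat_lit 0) (p (nat_lit 0x30412) (nat_lit 0) (p (nat_lit 0x30212) (nat_lit 0) (p (nat_lit 0x20192) (nat_lit 0) (p (nat_lit 0x20092) (nat_lit 0) (p (nat_lit 0x10012) (nat_lit 0) pn)))))))))))))))))))))) :=
  Cl.node (nat_lit 0x111) (nat_lit 2) (by decide +kernel) (ClAll.succ (ClAll.succ ClAll.zero s322) n143)

def n180 : Cl (O (nat_lit 4)) (R (nat_lit 104465))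
    (p (nat_lit 0x101) (nat_lit 0) (p (nat_lit 0xc1) (nat_lit 1) (p (nat_lit 0x119) (nat_lit 1) (p (nat_lit 0xc9) (nat_lit 0) (p (nat_lit 0x89) (nat_lit 1) (p (nat_lit 0x41) (nat_lit 0) (p (nat_lit 0x108078907089a) (nat_lit 0) (p (nat_lit 0x107870886861a) (nat_lit 0) (p (nat_lit 0x8000000000000070806078a) (nat_lit 0) (p (nat_lit 0x8000000000000068785850a) (nat_lit 0) (p (nat_lit 0x10587050682) (nat_lit 0) (p (nat_lit 0x10506848402) (nat_lit 0) (p (nat_lit 0x16000c) (nat_lit 0) (p (nat_lit 0x160004) (nat_lit 0) (p (nat_lit 0x50612) (nat_lit 0) (p (nat_lit 0x40592) (nat_lit 0) (p (nat_lit 0x40492) (nat_lit 0) (p (nat_lit 0x30412) (nat_lit 0) (p (nat_lit 0x30212) (nat_lit 0) (p (nat_lit 0x20192) (nat_lit 0) (p (nat_lit 0x20092) (nat_lit 0) (p (nat_lit 0x10012) (nat_lit 0) pn)))))))))))))))))))))) :=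
  Cl.node (nat_lit 0x111) (nat_lit 2) (by decide +kernel) (ClAll.succ (ClAll.succ ClAll.zero n144) n145)

def n181 : Cl (O (nat_lit 4)) (R (nat_lit 104465))
    (p (nat_lit 0x111) (nat_lit 0) (p (nat_lit 0x101) (nat_lit 0) (p (nat_lit 0x109) (nat_lit 0) (p (nat_lit 0xc9) (nat_lit 1) (p (nat_lit 0x89) (nat_lit 1) (p (nat_lit 0x41) (nat_lit 0) (p (nat_lit 0x108078907089a) (nat_lit 0) (p (nat_lit 0x107870886861a) (nat_lit 0) (p (nat_lit 0x8000000000000070806078a) (nat_lit 0) (p (nat_lit 0x8000000000000068785850a) (nat_lit 0) (p (nat_lit 0x10587050682) (nat_lit 0) (p (nat_lit 0x10506848402) (nat_lit 0) (p (nat_lit 0x16000c) (nat_lit 0) (p (nat_lit 0x160004) (nat_lit 0) (p (nat_lit 0x50612) (nat_lit 0) (p (nat_lit 0x40592) (nat_lit 0) (p (nat_lit 0x40492) (nat_lit 0) (p (nat_lit 0x30412) (nat_lit 0) (p (nat_lit 0x30212) (nat_lit 0) (p (nat_lit 0x20192) (nat_lit 0) (p (nat_lit 0x20092) (nat_lit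 0) (p (nat_lit 0x10012) (nat_lit 0) pn)))))))))))))))))))))) :=
  Cl.node (nat_lit 0x119) (nat_lit 2) (by decide +kernel) (ClAll.succ (ClAll.succ ClAll.zero s368) n146)

def n182 : Cl (O (nat_lit 4)) (R (nat_lit 104465))
    (p (nat_lit 0x109) (nat_lit 1) (p (nat_lit 0x101) (nat_lit 0) (p (nat_lit 0x119) (nat_lit 0) (p (nat_lit 0xd1) (nat_lit 0) (p (nat_lit 0x81) (nat_lit 0) (p (nat_lit 0x41) (nat_lit 1) (p (nat_lit 0x108078907089a) (nat_lit 0) (p (nat_lit 0x107870886861a) (nat_lit 0) (p (nat_lit 0x8000000000000070806078a) (nat_lit 0) (p (nat_lit 0x8000000000000068785850a) (nat_lit 0) (p (nat_lit 0x10587050682) (nat_lit 0) (p (nat_lit 0x10506848402) (nat_lit 0) (p (nat_lit 0x16000c) (nat_lit 0) (p (nat_lit 0x160004) (nat_lit 0) (p (nat_lit 0x50612) (nat_lit 0) (p (nat_lit 0x40592) (nat_lit 0) (p (nat_lit 0x40492) (nat_lit 0) (p (nat_lit 0x30412) (nat_lit 0) (p (nat_lit 0x30212) (nat_lit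 0) (p (nat_lit 0x20192) (nat_lit 0) (p (nat_lit 0x20092) (nat_lit 0) (p (nat_lit 0x10012) (nat_lit 0) pn)))))))))))))))))))))) :=
  Cl.node (nat_lit 0x89) (nat_lit 2) (by decide +kernel) (ClAll.succ (ClAll.succ ClAll.zero n147) n148)

def n183 : Cl (O (nat_lit 4)) (R (nat_lit 104465))
    (p (nat_lit 0xc1) (nat_lit 0) (p (nat_lit 0x101) (nat_lit 1) (p (nat_lit 0x119) (nat_lit 0) (p (nat_lit 0xd1) (nat_lit 0) (p (nat_lit 0x81) (nat_lit 0) (p (nat_lit 0x41) (nat_lit 1) (p (nat_lit 0x108078907089a) (nat_lit 0) (p (nat_lit 0x107870886861a) (nat_lit 0) (p (nat_lit 0x8000000000000070806078a) (nat_lit 0) (p (nat_lit 0x8000000000000068785850a) (nat_lit 0) (p (nat_lit 0x10587050682) (nat_lit 0) (p (nat_lit 0x10506848402) (nat_lit 0) (p (nat_lit 0x16000c) (nat_lit 0) (p (nat_lit 0x160004) (nat_lit 0) (p (nat_lit 0x50612) (nat_lit 0) (p (nat_lit 0x40592) (nat_lit 0) (p (nat_lit 0x40492) (nat_lit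 0) (p (nat_lit 0x30412) (nat_lit 0) (p (nat_lit 0x30212) (nat_lit 0) (p (nat_lit 0x20192) (nat_lit 0) (p (nat_lit 0x20092) (nat_lit 0) (p (nat_lit 0x10012) (nat_lit 0) pn)))))))))))))))))))))) :=
  Cl.node (nat_lit 0x89) (nat_lit 2) (by decide +kernel) (ClAll.succ (ClAll.succ ClAll.zero n149) n150)

def n184 : Cl (O (nat_lit 4)) (R (nat_lit 104465))
    (p (nat_lit 0xc1) (nat_lit 1) (p (nat_lit 0x101) (nat_lit 1) (p (nat_lit 0x119) (nat_lit 0) (p (nat_lit 0xd1) (nat_lit 0) (p (nat_lit 0x81) (nat_lit 0) (p (nat_lit 0x41) (nat_lit 1) (p (nat_lit 0x108078907089a) (nat_lit 0) (p (nat_lit 0x107870886861a) (nat_lit 0) (p (nat_lit 0x8000000000000070806078a) (nat_lit 0) (p (nat_lit 0x8000000000000068785850a) (nat_lit 0) (p (nat_lit 0x10587050682) (nat_lit 0) (p (nat_lit 0x10506848402) (nat_lit 0) (p (nat_lit 0x16000c) (nat_lit 0) (p (nat_lit 0x160004) (nat_lit 0) (p (nat_lit 0x50612) (nat_lit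 0) (p (nat_lit 0x40592) (nat_lit 0) (p (nat_lit 0x40492) (nat_lit 0) (p (nat_lit 0x30412) (nat_lit 0) (p (nat_lit 0x30212) (nat_lit 0) (p (nat_lit 0x20192) (nat_lit 0) (p (nat_lit 0x20092) (nat_lit 0) (p (nat_lit 0x10012) (nat_lit 0) pn)))))))))))))))))))))) :=
  Cl.node (nat_lit 0x89) (nat_lit 2) (by decide +kernel) (ClAll.succ (ClAll.succ ClAll.zero n151) n152)

def n185 : Cl (O (nat_lit 4)) (R (nat_lit 104465))
    (p (nat_lit 0xc9) (nat_lit 1) (p (nat_lit 0xc1) (nat_lit 0) (p (nat_lit 0x119) (nat_lit 1) (p (nat_lit 0xd1) (nat_lit 0) (p (nat_lit 0x81) (nat_lit 0) (p (nat_lit 0x41) (nat_lit 1) (p (nat_lit 0x108078907089a) (nat_lit 0) (p (nat_lit 0x107870886861a) (nat_lit 0) (p (nat_lit 0x8000000000000070806078a) (nat_lit 0) (p (nat_lit 0x8000000000000068785850a) (nat_lit 0) (p (nat_lit 0x10587050682) (nat_lit 0) (p (nat_lit 0x10506848402) (nat_lit 0) (p (nat_lit 0x16000c) (nat_lit 0)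 (p (nat_lit 0x160004) (nat_lit 0) (p (nat_lit 0x50612) (nat_lit 0) (p (nat_lit 0x40592) (nat_lit 0) (p (nat_lit 0x40492) (nat_lit 0) (p (nat_lit 0x30412) (nat_lit 0) (p (nat_lit 0x30212) (nat_lit 0) (p (nat_lit 0x20192) (nat_lit 0) (p (nat_lit 0x20092) (nat_lit 0) (p (nat_lit 0x10012) (nat_lit 0) pn)))))))))))))))))))))) :=
  Cl.node (nat_lit 0x89) (nat_lit 2) (by decide +kernel) (ClAll.succ (ClAll.succ ClAll.zero s430) n153)

def n186 : Cl (O (nat_lit 4)) (R (nat_lit 104465))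
    (p (nat_lit 0x101) (nat_lit 0) (p (nat_lit 0xc1) (nat_lit 1) (p (nat_lit 0x119) (nat_lit 1) (p (nat_lit 0xd1) (nat_lit 0) (p (nat_lit 0x81) (nat_lit 0) (p (nat_lit 0x41) (nat_lit 1) (p (nat_lit 0x108078907089a) (nat_lit 0) (p (nat_lit 0x107870886861a) (nat_lit 0) (p (nat_lit 0x8000000000000070806078a) (nat_lit 0) (p (nat_lit 0x8000000000000068785850a) (nat_lit 0) (p (nat_lit 0x10587050682) (nat_lit 0) (p (nat_lit 0x10506848402) (nat_lit 0) (p (nat_lit 0x16000c) (nat_lit 0) (p (nat_lit 0x160004) (nat_lit 0) (p (nat_lit 0x50612) (nat_lit 0) (p (nat_lit 0x40592) (nat_lit 0) (p (nat_lit 0x40492) (nat_lit 0) (p (nat_lit 0x30412) (nat_lit 0) (p (nat_lit 0x30212) (nat_lit 0) (p (nat_lit 0x20192) (nat_lit 0) (p (nat_lit 0x20092) (nat_lit 0) (p (nat_lit 0x10012) (nat_lit 0) pn)))))))))))))))))))))) :=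
  Cl.node (nat_lit 0x89) (nat_lit 2) (by decide +kernel) (ClAll.succ (ClAll.succ ClAll.zero s456) n154)

def n187 : Cl (O (nat_lit 4)) (R (nat_lit 104465))
    (p (nat_lit 0x101) (nat_lit 1) (p (nat_lit 0xc1) (nat_lit 1) (p (nat_lit 0x119) (nat_lit 1) (p (nat_lit 0xd1) (nat_lit 0) (p (nat_lit 0x81) (nat_lit 0) (p (nat_lit 0x41) (nat_lit 1) (p (nat_lit 0x108078907089a) (nat_lit 0) (p (nat_lit 0x107870886861a) (nat_lit 0) (p (nat_lit 0x8000000000000070806078a) (nat_lit 0) (p (nat_lit 0x8000000000000068785850a) (nat_lit 0) (p (nat_lit 0x10587050682) (nat_lit 0) (p (nat_lit 0x10506848402) (nat_lit 0) (p (nat_lit 0x16000c) (nat_lit 0) (p (nat_lit 0x160004) (nat_lit 0) (p (nat_lit 0x50612) (nat_lit 0) (p (nat_lit 0x40592) (nat_lit 0) (p (nat_lit 0x40492) (nat_lit 0) (p (nat_lit 0x30412) (nat_lit 0) (p (nat_lit 0x30212) (nat_lit 0) (p (nat_lit 0x20192) (nat_lit 0) (p (nat_lit 0x20092) (nat_lit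 0) (p (nat_lit 0x10012) (nat_lit 0) pn)))))))))))))))))))))) :=
  Cl.node (nat_lit 0x89) (nat_lit 2) (by decide +kernel) (ClAll.succ (ClAll.succ ClAll.zero s473) n155)

def n188 : Cl (O (nat_lit 4)) (R (nat_lit 104465))
    (p (nat_lit 0x109) (nat_lit 1) (p (nat_lit 0x101) (nat_lit 0) (p (nat_lit 0x111) (nat_lit 0) (p (nat_lit 0xd1) (nat_lit 1) (p (nat_lit 0x81) (nat_lit 0) (p (nat_lit 0x41) (nat_lit 1) (p (nat_lit 0x108078907089a) (nat_lit 0) (p (nat_lit 0x107870886861a) (nat_lit 0) (p (nat_lit 0x8000000000000070806078a) (nat_lit 0) (p (nat_lit 0x8000000000000068785850a) (nat_lit 0) (p (nat_lit 0x10587050682) (nat_lit 0) (p (nat_lit 0x10506848402) (nat_lit 0) (p (nat_lit 0x16000c) (nat_lit 0) (p (nat_lit 0x160004) (nat_lit 0) (p (nat_lit 0x50612) (nat_lit 0) (p (nat_lit 0x40592) (nat_lit 0) (p (nat_lit 0x40492) (nat_lit 0) (p (nat_lit 0x30412) (nat_lit 0) (p (nat_lit 0x30212) (nat_lit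 0) (p (nat_lit 0x20192) (nat_lit 0) (p (nat_lit 0x20092) (nat_lit 0) (p (nat_lit 0x10012) (nat_lit 0) pn)))))))))))))))))))))) :=
  Cl.node (nat_lit 0x89) (nat_lit 2) (by decide +kernel) (ClAll.succ (ClAll.succ ClAll.zero s488) n156)

def n189 : Cl (O (nat_lit 4)) (R (nat_lit 104465))
    (p (nat_lit 0x89) (nat_lit 0) (p (nat_lit 0x101) (nat_lit 1) (p (nat_lit 0x111) (nat_lit 0) (p (nat_lit 0xd1) (nat_lit 1) (p (nat_lit 0x81) (nat_lit 0) (p (nat_lit 0x41) (nat_lit 1) (p (nat_lit 0x108078907089a) (nat_lit 0) (p (nat_lit 0x107870886861a) (nat_lit 0) (p (nat_lit 0x8000000000000070806078a) (nat_lit 0) (p (nat_lit 0x8000000000000068785850a) (nat_lit 0) (p (nat_lit 0x10587050682) (nat_lit 0) (p (nat_lit 0x10506848402) (nat_lit 0) (p (nat_lit 0x16000c) (nat_lit 0) (p (nat_lit 0x160004) (nat_lit 0) (p (nat_lit 0x50612) (nat_lit 0) (p (nat_lit 0x40592) (nat_lit 0) (p (nat_lit 0x40492) (nat_lit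 0) (p (nat_lit 0x30412) (nat_lit 0) (p (nat_lit 0x30212) (nat_lit 0) (p (nat_lit 0x20192) (nat_lit 0) (p (nat_lit 0x20092) (nat_lit 0) (p (nat_lit 0x10012) (nat_lit 0) pn)))))))))))))))))))))) :=
  Cl.node (nat_lit 0x3cc2a) (nat_lit 12) (by decide +kernel) (ClAll.succ (ClAll.succ (ClAll.succ (ClAll.succ (ClAll.succ (ClAll.succ (ClAll.succ (ClAll.succ (ClAll.succ (ClAll.succ (ClAll.succ (ClAll.succ ClAll.zero s515) s516) s517) s518) s519) s520) s521) s522) s523) s524) s525) s526)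

def n190 : Cl (O (nat_lit 4)) (R (nat_lit 104465))
    (p (nat_lit 0x89) (nat_lit 1) (p (nat_lit 0x101) (nat_lit 1) (p (nat_lit 0x111) (nat_lit 0) (p (nat_lit 0xd1) (nat_lit 1) (p (nat_lit 0x81) (nat_lit 0) (p (nat_lit 0x41) (nat_lit 1) (p (nat_lit 0x108078907089a) (nat_lit 0) (p (nat_lit 0x107870886861a) (nat_lit 0) (p (nat_lit 0x8000000000000070806078a) (nat_lit 0) (p (nat_lit 0x8000000000000068785850a) (nat_lit 0) (p (nat_lit 0x10587050682) (nat_lit 0) (p (nat_lit 0x10506848402) (nat_lit 0) (p (nat_lit 0x16000c) (nat_lit 0) (p (nat_lit 0x160004) (nat_lit 0) (p (nat_lit 0x50612) (nat_lit 0) (p (nat_lit 0x40592) (nat_lit 0) (p (nat_lit 0x40492) (nat_lit 0) (p (nat_lit 0x30412) (nat_lit 0) (p (nat_lit 0x30212) (nat_lit 0) (p (nat_lit 0x20192) (nat_lit 0) (p (nat_lit 0x20092) (nat_lit 0) (p (nat_lit 0x10012) (nat_lit 0) pn)))))))))))))))))))))) :=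
  Cl.node (nat_lit 0xc9) (nat_lit 2) (by decide +kernel) (ClAll.succ (ClAll.succ ClAll.zero n157) s543)

def n191 : Cl (O (nat_lit 4)) (R (nat_lit 104465))
    (p (nat_lit 0xc9) (nat_lit 1) (p (nat_lit 0x89) (nat_lit 1) (p (nat_lit 0x111) (nat_lit 1) (p (nat_lit 0xd1) (nat_lit 1) (p (nat_lit 0x81) (nat_lit 0) (p (nat_lit 0x41) (nat_lit 1) (p (nat_lit 0x108078907089a) (nat_lit 0) (p (nat_lit 0x107870886861a) (nat_lit 0) (p (nat_lit 0x8000000000000070806078a) (nat_lit 0) (p (nat_lit 0x8000000000000068785850a) (nat_lit 0) (p (nat_lit 0x10587050682) (nat_lit 0) (p (nat_lit 0x10506848402) (nat_lit 0) (p (nat_lit 0x16000c) (nat_lit 0) (p (nat_lit 0x160004) (nat_lit 0) (p (nat_lit 0x50612) (nat_lit 0) (p (nat_lit 0x40592) (nat_lit 0) (p (nat_lit 0x40492) (nat_lit 0) (p (nat_lit 0x30412) (nat_lit 0) (p (nat_lit 0x30212) (nat_lit 0) (p (nat_lit 0x20192) (nat_lit 0) (p (nat_lit 0x20092) (nat_lit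 0) (p (nat_lit 0x10012) (nat_lit 0) pn)))))))))))))))))))))) :=
  Cl.node (nat_lit 0x109) (nat_lit 2) (by decide +kernel) (ClAll.succ (ClAll.succ ClAll.zero n158) s559)

def n192 : Cl (O (nat_lit 4)) (R (nat_lit 104465))
    (p (nat_lit 0x109) (nat_lit 0) (p (nat_lit 0x101) (nat_lit 0) (p (nat_lit 0x119) (nat_lit 0) (p (nat_lit 0xc1) (nat_lit 0) (p (nat_lit 0x81) (nat_lit 1) (p (nat_lit 0x41) (nat_lit 1) (p (nat_lit 0x108078907089a) (nat_lit 0) (p (nat_lit 0x107870886861a) (nat_lit 0) (p (nat_lit 0x8000000000000070806078a) (nat_lit 0) (p (nat_lit 0x8000000000000068785850a) (nat_lit 0) (p (nat_lit 0x10587050682) (nat_lit 0) (p (nat_lit 0x10506848402) (nat_lit 0) (p (nat_lit 0x16000c) (nat_lit 0) (p (nat_lit 0x160004) (nat_lit 0) (p (nat_lit 0x50612) (nat_lit 0) (p (nat_lit 0x40592) (nat_lit 0) (p (nat_lit 0x40492) (nat_lit 0) (p (nat_lit 0x30412) (nat_lit 0) (p (nat_lit 0x30212) (nat_lit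 0) (p (nat_lit 0x20192) (nat_lit 0) (p (nat_lit 0x20092) (nat_lit 0) (p (nat_lit 0x10012) (nat_lit 0) pn)))))))))))))))))))))) :=
  Cl.node (nat_lit 0x111) (nat_lit 2) (by decide +kernel) (ClAll.succ (ClAll.succ ClAll.zero s560) n159)

def n193 : Cl (O (nat_lit 4)) (R (nat_lit 104465))
    (p (nat_lit 0x109) (nat_lit 1) (p (nat_lit 0x101) (nat_lit 0) (p (nat_lit 0x119) (nat_lit 0) (p (nat_lit 0xc1) (nat_lit 0) (p (nat_lit 0x81) (nat_lit 1) (p (nat_lit 0x41) (nat_lit 1) (p (nat_lit 0x108078907089a) (nat_lit 0) (p (nat_lit 0x107870886861a) (nat_lit 0) (p (nat_lit 0x8000000000000070806078a) (nat_lit 0) (p (nat_lit 0x8000000000000068785850a) (nat_lit 0) (p (nat_lit 0x10587050682) (nat_lit 0) (p (nat_lit 0x10506848402) (nat_lit 0) (p (nat_lit 0x16000c) (nat_lit 0) (p (nat_lit 0x160004) (nat_lit 0) (p (nat_lit 0x50612) (nat_lit 0) (p (nat_lit 0x40592) (nat_lit 0) (p (nat_lit 0x40492) (nat_lit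 0) (p (nat_lit 0x30412) (nat_lit 0) (p (nat_lit 0x30212) (nat_lit 0) (p (nat_lit 0x20192) (nat_lit 0) (p (nat_lit 0x20092) (nat_lit 0) (p (nat_lit 0x10012) (nat_lit 0) pn)))))))))))))))))))))) :=
  Cl.node (nat_lit 0xc9) (nat_lit 2) (by decide +kernel) (ClAll.succ (ClAll.succ ClAll.zero n160) s590)

def n194 : Cl (O (nat_lit 4)) (R (nat_lit 104465))
    (p (nat_lit 0xc9) (nat_lit 0) (p (nat_lit 0x101) (nat_lit 1) (p (nat_lit 0x119) (nat_lit 0) (p (nat_lit 0xc1) (nat_lit 0) (p (nat_lit 0x81) (nat_lit 1) (p (nat_lit 0x41) (nat_lit 1) (p (nat_lit 0x108078907089a) (nat_lit 0) (p (nat_lit 0x107870886861a) (nat_lit 0) (p (nat_lit 0x8000000000000070806078a) (nat_lit 0) (p (nat_lit 0x8000000000000068785850a) (nat_lit 0) (p (nat_lit 0x10587050682) (nat_lit 0) (p (nat_lit 0x10506848402) (nat_lit 0) (p (nat_lit 0x16000c) (nat_lit 0) (p (nat_lit 0x160004) (nat_lit 0) (p (nat_lit 0x50612) (nat_lit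 0) (p (nat_lit 0x40592) (nat_lit 0) (p (nat_lit 0x40492) (nat_lit 0) (p (nat_lit 0x30412) (nat_lit 0) (p (nat_lit 0x30212) (nat_lit 0) (p (nat_lit 0x20192) (nat_lit 0) (p (nat_lit 0x20092) (nat_lit 0) (p (nat_lit 0x10012) (nat_lit 0) pn)))))))))))))))))))))) :=
  Cl.node (nat_lit 0xd1) (nat_lit 2) (by decide +kernel) (ClAll.succ (ClAll.succ ClAll.zero n161) n162)

def n195 : Cl (O (nat_lit 4)) (R (nat_lit 104465))
    (p (nat_lit 0xd1) (nat_lit 1) (p (nat_lit 0xc9) (nat_lit 0) (p (nat_lit 0x119) (nat_lit 1) (p (nat_lit 0xc1) (nat_lit 0) (p (nat_lit 0x81) (nat_lit 1) (p (nat_lit 0x41) (nat_lit 1) (p (nat_lit 0x108078907089a) (nat_lit 0) (p (nat_lit 0x107870886861a) (nat_lit 0) (p (nat_lit 0x8000000000000070806078a) (nat_lit 0) (p (nat_lit 0x8000000000000068785850a) (nat_lit 0) (p (nat_lit 0x10587050682) (nat_lit 0) (p (nat_lit 0x10506848402) (nat_lit 0) (p (nat_lit 0x16000c) (nat_lit 0)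 (p (nat_lit 0x160004) (nat_lit 0) (p (nat_lit 0x50612) (nat_lit 0) (p (nat_lit 0x40592) (nat_lit 0) (p (nat_lit 0x40492) (nat_lit 0) (p (nat_lit 0x30412) (nat_lit 0) (p (nat_lit 0x30212) (nat_lit 0) (p (nat_lit 0x20192) (nat_lit 0) (p (nat_lit 0x20092) (nat_lit 0) (p (nat_lit 0x10012) (nat_lit 0) pn)))))))))))))))))))))) :=
  Cl.node (nat_lit 0x111) (nat_lit 2) (by decide +kernel) (ClAll.succ (ClAll.succ ClAll.zero s639) n163)

def n196 : Cl (O (nat_lit 4)) (R (nat_lit 104465))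
    (p (nat_lit 0x109) (nat_lit 0) (p (nat_lit 0xc9) (nat_lit 1) (p (nat_lit 0x119) (nat_lit 1) (p (nat_lit 0xc1) (nat_lit 0) (p (nat_lit 0x81) (nat_lit 1) (p (nat_lit 0x41) (nat_lit 1) (p (nat_lit 0x108078907089a) (nat_lit 0) (p (nat_lit 0x107870886861a) (nat_lit 0) (p (nat_lit 0x8000000000000070806078a) (nat_lit 0) (p (nat_lit 0x8000000000000068785850a) (nat_lit 0) (p (nat_lit 0x10587050682) (nat_lit 0) (p (nat_lit 0x10506848402) (nat_lit 0) (p (nat_lit 0x16000c) (nat_lit 0) (p (nat_lit 0x160004) (nat_lit 0) (p (nat_lit 0x50612) (nat_lit 0) (p (nat_lit 0x40592) (nat_lit 0) (p (nat_lit 0x40492) (nat_lit 0) (p (nat_lit 0x30412) (nat_lit 0) (p (nat_lit 0x30212) (nat_lit 0) (p (nat_lit 0x20192) (nat_lit 0) (p (nat_lit 0x20092) (nat_lit 0) (p (nat_lit 0x10012) (nat_lit 0) pn)))))))))))))))))))))) :=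
  Cl.node (nat_lit 0x111) (nat_lit 2) (by decide +kernel) (ClAll.succ (ClAll.succ ClAll.zero n164) n165)

def n197 : Cl (O (nat_lit 4)) (R (nat_lit 104465))
    (p (nat_lit 0x101) (nat_lit 0) (p (nat_lit 0x119) (nat_lit 0) (p (nat_lit 0xd1) (nat_lit 0) (p (nat_lit 0x89) (nat_lit 0) (p (nat_lit 0x41) (nat_lit 0) (p (nat_lit 0x108078907089a) (nat_lit 0) (p (nat_lit 0x107870886861a) (nat_lit 0) (p (nat_lit 0x8000000000000070806078a) (nat_lit 0) (p (nat_lit 0x8000000000000068785850a) (nat_lit 0) (p (nat_lit 0x10587050682) (nat_lit 0) (p (nat_lit 0x10506848402) (nat_lit 0) (p (nat_lit 0x16000c) (nat_lit 0) (p (nat_lit 0x160004) (nat_lit 0) (p (nat_lit 0x50612) (nat_lit 0) (p (nat_lit 0x40592) (nat_lit 0) (p (nat_lit 0x40492) (nat_lit 0) (p (nat_lit 0x30412) (nat_lit 0) (p (nat_lit 0x30212) (nat_lit 0) (p (nat_lit 0x20192) (nat_lit 0) (p (nat_lit 0x20092) (nat_lit 0) (p (nat_lit 0x10012) (nat_lit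 0) pn))))))))))))))))))))) :=
  Cl.node (nat_lit 0x109) (nat_lit 2) (by decide +kernel) (ClAll.succ (ClAll.succ ClAll.zero s0) n166)

def n198 : Cl (O (nat_lit 4)) (R (nat_lit 104465))
    (p (nat_lit 0x101) (nat_lit 1) (p (nat_lit 0x119) (nat_lit 0) (p (nat_lit 0xd1) (nat_lit 0) (p (nat_lit 0x89) (nat_lit 0) (p (nat_lit 0x41) (nat_lit 0) (p (nat_lit 0x108078907089a) (nat_lit 0) (p (nat_lit 0x107870886861a) (nat_lit 0) (p (nat_lit 0x8000000000000070806078a) (nat_lit 0) (p (nat_lit 0x8000000000000068785850a) (nat_lit 0) (p (nat_lit 0x10587050682) (nat_lit 0) (p (nat_lit 0x10506848402) (nat_lit 0) (p (nat_lit 0x16000c) (nat_lit 0) (p (nat_lit 0x160004) (nat_lit 0) (p (nat_lit 0x50612) (nat_lit 0) (p (nat_lit 0x40592) (nat_lit 0) (p (nat_lit 0x40492) (nat_lit 0) (p (nat_lit 0x30412) (nat_lit 0) (p (nat_lit 0x30212) (nat_lit 0) (p (nat_lit 0x20192) (nat_lit 0) (p (nat_lit 0x20092) (nat_lit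 0) (p (nat_lit 0x10012) (nat_lit 0) pn))))))))))))))))))))) :=
  Cl.node (nat_lit 0x81) (nat_lit 2) (by decide +kernel) (ClAll.succ (ClAll.succ ClAll.zero n167) n168)

def n199 : Cl (O (nat_lit 4)) (R (nat_lit 104465))
    (p (nat_lit 0xc1) (nat_lit 0) (p (nat_lit 0x119) (nat_lit 1) (p (nat_lit 0xd1) (nat_lit 0) (p (nat_lit 0x89) (nat_lit 0) (p (nat_lit 0x41) (nat_lit 0) (p (nat_lit 0x108078907089a) (nat_lit 0) (p (nat_lit 0x107870886861a) (nat_lit 0) (p (nat_lit 0x8000000000000070806078a) (nat_lit 0) (p (nat_lit 0x8000000000000068785850a) (nat_lit 0) (p (nat_lit 0x10587050682) (nat_lit 0) (p (nat_lit 0x10506848402) (nat_lit 0) (p (nat_lit 0x16000c) (nat_lit 0) (p (nat_lit 0x160004) (nat_lit 0) (p (nat_lit 0x50612) (nat_lit 0) (p (nat_lit 0x40592) (nat_lit 0) (p (nat_lit 0x40492) (nat_lit 0) (p (nat_lit 0x30412) (nat_lit 0) (p (nat_lit 0x30212) (nat_lit 0) (p (nat_lit 0x20192) (nat_lit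 0) (p (nat_lit 0x20092) (nat_lit 0) (p (nat_lit 0x10012) (nat_lit 0) pn))))))))))))))))))))) :=
  Cl.node (nat_lit 0xc9) (nat_lit 2) (by decide +kernel) (ClAll.succ (ClAll.succ ClAll.zero s80) n169)

def n200 : Cl (O (nat_lit 4)) (R (nat_lit 104465))
    (p (nat_lit 0xc1) (nat_lit 1) (p (nat_lit 0x119) (nat_lit 1) (p (nat_lit 0xd1) (nat_lit 0) (p (nat_lit 0x89) (nat_lit 0) (p (nat_lit 0x41) (nat_lit 0) (p (nat_lit 0x108078907089a) (nat_lit 0) (p (nat_lit 0x107870886861a) (nat_lit 0) (p (nat_lit 0x8000000000000070806078a) (nat_lit 0) (p (nat_lit 0x8000000000000068785850a) (nat_lit 0) (p (nat_lit 0x10587050682) (nat_lit 0) (p (nat_lit 0x10506848402) (nat_lit 0) (p (nat_lit 0x16000c) (nat_lit 0) (p (nat_lit 0x160004) (nat_lit 0) (p (nat_lit 0x50612) (nat_lit 0) (p (nat_lit 0x40592) (nat_lit 0) (p (nat_lit 0x40492) (nat_lit 0) (p (nat_lit 0x30412) (nat_lit 0) (p (nat_lit 0x30212) (nat_lit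 0) (p (nat_lit 0x20192) (nat_lit 0) (p (nat_lit 0x20092) (nat_lit 0) (p (nat_lit 0x10012) (nat_lit 0) pn))))))))))))))))))))) :=
  Cl.node (nat_lit 0x81) (nat_lit 2) (by decide +kernel) (ClAll.succ (ClAll.succ ClAll.zero n170) n171)

def n201 : Cl (O (nat_lit 4)) (R (nat_lit 104465))
    (p (nat_lit 0x101) (nat_lit 0) (p (nat_lit 0x111) (nat_lit 0) (p (nat_lit 0xd1) (nat_lit 1) (p (nat_lit 0x89) (nat_lit 0) (p (nat_lit 0x41) (nat_lit 0) (p (nat_lit 0x108078907089a) (nat_lit 0) (p (nat_lit 0x107870886861a) (nat_lit 0) (p (nat_lit 0x8000000000000070806078a) (nat_lit 0) (p (nat_lit 0x8000000000000068785850a) (nat_lit 0) (p (nat_lit 0x10587050682) (nat_lit 0) (p (nat_lit 0x10506848402) (nat_lit 0) (p (nat_lit 0x16000c) (nat_lit 0) (p (nat_lit 0x160004) (nat_lit 0) (p (nat_lit 0x50612) (nat_lit 0) (p (nat_lit 0x40592) (nat_lit 0) (p (nat_lit 0x40492) (nat_lit 0) (p (nat_lit 0x30412) (nat_lit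 0) (p (nat_lit 0x30212) (nat_lit 0) (p (nat_lit 0x20192) (nat_lit 0) (p (nat_lit 0x20092) (nat_lit 0) (p (nat_lit 0x10012) (nat_lit 0) pn))))))))))))))))))))) :=
  Cl.node (nat_lit 0x109) (nat_lit 2) (by decide +kernel) (ClAll.succ (ClAll.succ ClAll.zero s141) n172)

def n202 : Cl (O (nat_lit 4)) (R (nat_lit 104465))
    (p (nat_lit 0x101) (nat_lit 1) (p (nat_lit 0x111) (nat_lit 0) (p (nat_lit 0xd1) (nat_lit 1) (p (nat_lit 0x89) (nat_lit 0) (p (nat_lit 0x41) (nat_lit 0) (p (nat_lit 0x108078907089a) (nat_lit 0) (p (nat_lit 0x107870886861a) (nat_lit 0) (p (nat_lit 0x8000000000000070806078a) (nat_lit 0) (p (nat_lit 0x8000000000000068785850a) (nat_lit 0) (p (nat_lit 0x10587050682) (nat_lit 0) (p (nat_lit 0x10506848402) (nat_lit 0) (p (nat_lit 0x16000c) (nat_lit 0) (p (nat_lit 0x160004) (nat_lit 0) (p (nat_lit 0x50612) (nat_lit 0) (p (nat_lit 0x40592) (nat_lit 0) (p (nat_lit 0x40492) (nat_lit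 0) (p (nat_lit 0x30412) (nat_lit 0) (p (nat_lit 0x30212) (nat_lit 0) (p (nat_lit 0x20192) (nat_lit 0) (p (nat_lit 0x20092) (nat_lit 0) (p (nat_lit 0x10012) (nat_lit 0) pn))))))))))))))))))))) :=
  Cl.node (nat_lit 0x81) (nat_lit 2) (by decide +kernel) (ClAll.succ (ClAll.succ ClAll.zero n173) n174)

def n203 : Cl (O (nat_lit 4)) (R (nat_lit 104465))
    (p (nat_lit 0x81) (nat_lit 1) (p (nat_lit 0x111) (nat_lit 1) (p (nat_lit 0xd1) (nat_lit 1) (p (nat_lit 0x89) (nat_lit 0) (p (nat_lit 0x41) (nat_lit 0) (p (nat_lit 0x108078907089a) (nat_lit 0) (p (nat_lit 0x107870886861a) (nat_lit 0) (p (nat_lit 0x8000000000000070806078a) (nat_lit 0) (p (nat_lit 0x8000000000000068785850a) (nat_lit 0) (p (nat_lit 0x10587050682) (nat_lit 0) (p (nat_lit 0x10506848402) (nat_lit 0) (p (nat_lit 0x16000c) (nat_lit 0) (p (nat_lit 0x160004) (nat_lit 0) (p (nat_lit 0x50612) (nat_lit 0) (p (nat_lit 0x40592) (nat_lit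 0) (p (nat_lit 0x40492) (nat_lit 0) (p (nat_lit 0x30412) (nat_lit 0) (p (nat_lit 0x30212) (nat_lit 0) (p (nat_lit 0x20192) (nat_lit 0) (p (nat_lit 0x20092) (nat_lit 0) (p (nat_lit 0x10012) (nat_lit 0) pn))))))))))))))))))))) :=
  Cl.node (nat_lit 0xc1) (nat_lit 2) (by decide +kernel) (ClAll.succ (ClAll.succ ClAll.zero s215) n175)

def n204 : Cl (O (nat_lit 4)) (R (nat_lit 104465))
    (p (nat_lit 0x101) (nat_lit 0) (p (nat_lit 0x119) (nat_lit 0) (p (nat_lit 0xc9) (nat_lit 0) (p (nat_lit 0x89) (nat_lit 1) (p (nat_lit 0x41) (nat_lit 0) (p (nat_lit 0x108078907089a) (nat_lit 0) (p (nat_lit 0x107870886861a) (nat_lit 0) (p (nat_lit 0x8000000000000070806078a) (nat_lit 0) (p (nat_lit 0x8000000000000068785850a) (nat_lit 0) (p (nat_lit 0x10587050682) (nat_lit 0) (p (nat_lit 0x10506848402) (nat_lit 0) (p (nat_lit 0x16000c) (nat_lit 0) (p (nat_lit 0x160004) (nat_lit 0) (p (nat_lit 0x50612) (nat_lit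 0) (p (nat_lit 0x40592) (nat_lit 0) (p (nat_lit 0x40492) (nat_lit 0) (p (nat_lit 0x30412) (nat_lit 0) (p (nat_lit 0x30212) (nat_lit 0) (p (nat_lit 0x20192) (nat_lit 0) (p (nat_lit 0x20092) (nat_lit 0) (p (nat_lit 0x10012) (nat_lit 0) pn))))))))))))))))))))) :=
  Cl.node (nat_lit 0x109) (nat_lit 2) (by decide +kernel) (ClAll.succ (ClAll.succ ClAll.zero n176) n177)

def n205 : Cl (O (nat_lit 4)) (R (nat_lit 104465))
    (p (nat_lit 0x101) (nat_lit 1) (p (nat_lit 0x119) (nat_lit 0) (p (nat_lit 0xc9) (nat_lit 0) (p (nat_lit 0x89) (nat_lit 1) (p (nat_lit 0x41) (nat_lit 0) (p (nat_lit 0x108078907089a) (nat_lit 0) (p (nat_lit 0x107870886861a) (nat_lit 0) (p (nat_lit 0x8000000000000070806078a) (nat_lit 0) (p (nat_lit 0x8000000000000068785850a) (nat_lit 0) (p (nat_lit 0x10587050682) (nat_lit 0) (p (nat_lit 0x10506848402) (nat_lit 0) (p (nat_lit 0x16000c) (nat_lit 0) (p (nat_lit 0x160004) (nat_lit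 0) (p (nat_lit 0x50612) (nat_lit 0) (p (nat_lit 0x40592) (nat_lit 0) (p (nat_lit 0x40492) (nat_lit 0) (p (nat_lit 0x30412) (nat_lit 0) (p (nat_lit 0x30212) (nat_lit 0) (p (nat_lit 0x20192) (nat_lit 0) (p (nat_lit 0x20092) (nat_lit 0) (p (nat_lit 0x10012) (nat_lit 0) pn))))))))))))))))))))) :=
  Cl.node (nat_lit 0xc1) (nat_lit 2) (by decide +kernel) (ClAll.succ (ClAll.succ ClAll.zero n178) s320)

def n206 : Cl (O (nat_lit 4)) (R (nat_lit 104465))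
    (p (nat_lit 0xc1) (nat_lit 0) (p (nat_lit 0x119) (nat_lit 1) (p (nat_lit 0xc9) (nat_lit 0) (p (nat_lit 0x89) (nat_lit 1) (p (nat_lit 0x41) (nat_lit 0) (p (nat_lit 0x108078907089a) (nat_lit 0) (p (nat_lit 0x107870886861a) (nat_lit 0) (p (nat_lit 0x8000000000000070806078a) (nat_lit 0) (p (nat_lit 0x8000000000000068785850a) (nat_lit 0) (p (nat_lit 0x10587050682) (nat_lit 0) (p (nat_lit 0x10506848402) (nat_lit 0) (p (nat_lit 0x16000c) (nat_lit 0) (p (nat_lit 0x160004) (nat_lit 0) (p (nat_lit 0x50612) (nat_lit 0) (p (nat_lit 0x40592) (nat_lit 0) (p (nat_lit 0x40492) (nat_lit 0) (p (nat_lit 0x30412) (nat_lit 0) (p (nat_lit 0x30212) (nat_lit 0) (p (nat_lit 0x20192) (nat_lit 0) (p (nat_lit 0x20092) (nat_lit 0) (p (nat_lit 0x10012) (nat_lit 0) pn))))))))))))))))))))) :=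
  Cl.node (nat_lit 0xd1) (nat_lit 2) (by decide +kernel) (ClAll.succ (ClAll.succ ClAll.zero s321) n179)

def n207 : Cl (O (nat_lit 4)) (R (nat_lit 104465))
    (p (nat_lit 0xc1) (nat_lit 1) (p (nat_lit 0x119) (nat_lit 1) (p (nat_lit 0xc9) (nat_lit 0) (p (nat_lit 0x89) (nat_lit 1) (p (nat_lit 0x41) (nat_lit 0) (p (nat_lit 0x108078907089a) (nat_lit 0) (p (nat_lit 0x107870886861a) (nat_lit 0) (p (nat_lit 0x8000000000000070806078a) (nat_lit 0) (p (nat_lit 0x8000000000000068785850a) (nat_lit 0) (p (nat_lit 0x10587050682) (nat_lit 0) (p (nat_lit 0x10506848402) (nat_lit 0) (p (nat_lit 0x16000c) (nat_lit 0) (p (nat_lit 0x160004) (nat_lit 0) (p (nat_lit 0x50612) (nat_lit 0) (p (nat_lit 0x40592) (nat_lit 0) (p (nat_lit 0x40492) (nat_lit 0) (p (nat_lit 0x30412) (nat_lit 0) (p (nat_lit 0x30212) (nat_lit 0) (p (nat_lit 0x20192) (nat_lit 0) (p (nat_lit 0x20092) (nat_lit 0) (p (nat_lit 0x10012) (nat_lit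 0) pn))))))))))))))))))))) :=
  Cl.node (nat_lit 0x101) (nat_lit 2) (by decide +kernel) (ClAll.succ (ClAll.succ ClAll.zero n180) s367)

def n208 : Cl (O (nat_lit 4)) (R (nat_lit 104465))
    (p (nat_lit 0x101) (nat_lit 0) (p (nat_lit 0x109) (nat_lit 0) (p (nat_lit 0xc9) (nat_lit 1) (p (nat_lit 0x89) (nat_lit 1) (p (nat_lit 0x41) (nat_lit 0) (p (nat_lit 0x108078907089a) (nat_lit 0) (p (nat_lit 0x107870886861a) (nat_lit 0) (p (nat_lit 0x8000000000000070806078a) (nat_lit 0) (p (nat_lit 0x8000000000000068785850a) (nat_lit 0) (p (nat_lit 0x10587050682) (nat_lit 0) (p (nat_lit 0x10506848402) (nat_lit 0) (p (nat_lit 0x16000c) (nat_lit 0) (p (nat_lit 0x160004) (nat_lit 0) (p (nat_lit 0x50612) (nat_lit 0) (p (nat_lit 0x40592) (nat_lit 0) (p (nat_lit 0x40492) (nat_lit 0) (p (nat_lit 0x30412) (nat_lit 0) (p (nat_lit 0x30212) (nat_lit 0) (p (nat_lit 0x20192) (nat_lit 0) (p (nat_lit 0x20092) (nat_lit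 0) (p (nat_lit 0x10012) (nat_lit 0) pn))))))))))))))))))))) :=
  Cl.node (nat_lit 0x111) (nat_lit 2) (by decide +kernel) (ClAll.succ (ClAll.succ ClAll.zero n181) s382)

def n209 : Cl (O (nat_lit 4)) (R (nat_lit 104465))
    (p (nat_lit 0x101) (nat_lit 0) (p (nat_lit 0x119) (nat_lit 0) (p (nat_lit 0xd1) (nat_lit 0) (p (nat_lit 0x81) (nat_lit 0) (p (nat_lit 0x41) (nat_lit 1) (p (nat_lit 0x108078907089a) (nat_lit 0) (p (nat_lit 0x107870886861a) (nat_lit 0) (p (nat_lit 0x8000000000000070806078a) (nat_lit 0) (p (nat_lit 0x8000000000000068785850a) (nat_lit 0) (p (nat_lit 0x10587050682) (nat_lit 0) (p (nat_lit 0x10506848402) (nat_lit 0) (p (nat_lit 0x16000c) (nat_lit 0) (p (nat_lit 0x160004) (nat_lit 0) (p (nat_lit 0x50612) (nat_lit 0) (p (nat_lit 0x40592) (nat_lit 0) (p (nat_lit 0x40492) (nat_lit 0) (p (nat_lit 0x30412) (nat_lit 0) (p (nat_lit 0x30212) (nat_lit 0) (p (nat_lit 0x20192) (nat_lit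 0) (p (nat_lit 0x20092) (nat_lit 0) (p (nat_lit 0x10012) (nat_lit 0) pn))))))))))))))))))))) :=
  Cl.node (nat_lit 0x109) (nat_lit 2) (by decide +kernel) (ClAll.succ (ClAll.succ ClAll.zero s385) n182)

def n210 : Cl (O (nat_lit 4)) (R (nat_lit 104465))
    (p (nat_lit 0x101) (nat_lit 1) (p (nat_lit 0x119) (nat_lit 0) (p (nat_lit 0xd1) (nat_lit 0) (p (nat_lit 0x81) (nat_lit 0) (p (nat_lit 0x41) (nat_lit 1) (p (nat_lit 0x108078907089a) (nat_lit 0) (p (nat_lit 0x107870886861a) (nat_lit 0) (p (nat_lit 0x8000000000000070806078a) (nat_lit 0) (p (nat_lit 0x8000000000000068785850a) (nat_lit 0) (p (nat_lit 0x10587050682) (nat_lit 0) (p (nat_lit 0x10506848402) (nat_lit 0) (p (nat_lit 0x16000c) (nat_lit 0) (p (nat_lit 0x160004) (nat_lit 0) (p (nat_lit 0x50612) (nat_lit 0) (p (nat_lit 0x40592) (nat_lit 0) (p (nat_lit 0x40492) (nat_lit 0) (p (nat_lit 0x30412) (nat_lit 0) (p (nat_lit 0x30212) (nat_lit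 0) (p (nat_lit 0x20192) (nat_lit 0) (p (nat_lit 0x20092) (nat_lit 0) (p (nat_lit 0x10012) (nat_lit 0) pn))))))))))))))))))))) :=
  Cl.node (nat_lit 0xc1) (nat_lit 2) (by decide +kernel) (ClAll.succ (ClAll.succ ClAll.zero n183) n184)

def n211 : Cl (O (nat_lit 4)) (R (nat_lit 104465))
    (p (nat_lit 0xc1) (nat_lit 0) (p (nat_lit 0x119) (nat_lit 1) (p (nat_lit 0xd1) (nat_lit 0) (p (nat_lit 0x81) (nat_lit 0) (p (nat_lit 0x41) (nat_lit 1) (p (nat_lit 0x108078907089a) (nat_lit 0) (p (nat_lit 0x107870886861a) (nat_lit 0) (p (nat_lit 0x8000000000000070806078a) (nat_lit 0) (p (nat_lit 0x8000000000000068785850a) (nat_lit 0) (p (nat_lit 0x10587050682) (nat_lit 0) (p (nat_lit 0x10506848402) (nat_lit 0) (p (nat_lit 0x16000c) (nat_lit 0) (p (nat_lit 0x160004) (nat_lit 0) (p (nat_lit 0x50612) (nat_lit 0) (p (nat_lit 0x40592) (nat_lit 0) (p (nat_lit 0x40492) (nat_lit 0) (p (nat_lit 0x30412) (nat_lit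 0) (p (nat_lit 0x30212) (nat_lit 0) (p (nat_lit 0x20192) (nat_lit 0) (p (nat_lit 0x20092) (nat_lit 0) (p (nat_lit 0x10012) (nat_lit 0) pn))))))))))))))))))))) :=
  Cl.node (nat_lit 0xc9) (nat_lit 2) (by decide +kernel) (ClAll.succ (ClAll.succ ClAll.zero s429) n185)

def n212 : Cl (O (nat_lit 4)) (R (nat_lit 104465))
    (p (nat_lit 0xc1) (nat_lit 1) (p (nat_lit 0x119) (nat_lit 1) (p (nat_lit 0xd1) (nat_lit 0) (p (nat_lit 0x81) (nat_lit 0) (p (nat_lit 0x41) (nat_lit 1) (p (nat_lit 0x108078907089a) (nat_lit 0) (p (nat_lit 0x107870886861a) (nat_lit 0) (p (nat_lit 0x8000000000000070806078a) (nat_lit 0) (p (nat_lit 0x8000000000000068785850a) (nat_lit 0) (p (nat_lit 0x10587050682) (nat_lit 0) (p (nat_lit 0x10506848402) (nat_lit 0) (p (nat_lit 0x16000c) (nat_lit 0) (p (nat_lit 0x160004) (nat_lit 0) (p (nat_lit 0x50612) (nat_lit 0) (p (nat_lit 0x40592) (nat_lit 0) (p (nat_lit 0x40492) (nat_lit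 0) (p (nat_lit 0x30412) (nat_lit 0) (p (nat_lit 0x30212) (nat_lit 0) (p (nat_lit 0x20192) (nat_lit 0) (p (nat_lit 0x20092) (nat_lit 0) (p (nat_lit 0x10012) (nat_lit 0) pn))))))))))))))))))))) :=
  Cl.node (nat_lit 0x101) (nat_lit 2) (by decide +kernel) (ClAll.succ (ClAll.succ ClAll.zero n186) n187)

def n213 : Cl (O (nat_lit 4)) (R (nat_lit 104465))
    (p (nat_lit 0x101) (nat_lit 0) (p (nat_lit 0x111) (nat_lit 0) (p (nat_lit 0xd1) (nat_lit 1) (p (nat_lit 0x81) (nat_lit 0) (p (nat_lit 0x41) (nat_lit 1) (p (nat_lit 0x108078907089a) (nat_lit 0) (p (nat_lit 0x107870886861a) (nat_lit 0) (p (nat_lit 0x8000000000000070806078a) (nat_lit 0) (p (nat_lit 0x8000000000000068785850a) (nat_lit 0) (p (nat_lit 0x10587050682) (nat_lit 0) (p (nat_lit 0x10506848402) (nat_lit 0) (p (nat_lit 0x16000c) (nat_lit 0) (p (nat_lit 0x160004) (nat_lit 0) (p (nat_lit 0x50612) (nat_lit 0) (p (nat_lit 0x40592) (nat_lit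 0) (p (nat_lit 0x40492) (nat_lit 0) (p (nat_lit 0x30412) (nat_lit 0) (p (nat_lit 0x30212) (nat_lit 0) (p (nat_lit 0x20192) (nat_lit 0) (p (nat_lit 0x20092) (nat_lit 0) (p (nat_lit 0x10012) (nat_lit 0) pn))))))))))))))))))))) :=
  Cl.node (nat_lit 0x109) (nat_lit 2) (by decide +kernel) (ClAll.succ (ClAll.succ ClAll.zero s487) n188)

def n214 : Cl (O (nat_lit 4)) (R (nat_lit 104465))
    (p (nat_lit 0x101) (nat_lit 1) (p (nat_lit 0x111) (nat_lit 0) (p (nat_lit 0xd1) (nat_lit 1) (p (nat_lit 0x81) (nat_lit 0) (p (nat_lit 0x41) (nat_lit 1) (p (nat_lit 0x108078907089a) (nat_lit 0) (p (nat_lit 0x107870886861a) (nat_lit 0) (p (nat_lit 0x8000000000000070806078a) (nat_lit 0) (p (nat_lit 0x8000000000000068785850a) (nat_lit 0) (p (nat_lit 0x10587050682) (nat_lit 0) (p (nat_lit 0x10506848402) (nat_lit 0) (p (nat_lit 0x16000c) (nat_lit 0) (p (nat_lit 0x160004) (nat_lit 0) (p (nat_lit 0x50612) (nat_lit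 0) (p (nat_lit 0x40592) (nat_lit 0) (p (nat_lit 0x40492) (nat_lit 0) (p (nat_lit 0x30412) (nat_lit 0) (p (nat_lit 0x30212) (nat_lit 0) (p (nat_lit 0x20192) (nat_lit 0) (p (nat_lit 0x20092) (nat_lit 0) (p (nat_lit 0x10012) (nat_lit 0) pn))))))))))))))))))))) :=
  Cl.node (nat_lit 0x89) (nat_lit 2) (by decide +kernel) (ClAll.succ (ClAll.succ ClAll.zero n189) n190)

def n215 : Cl (O (nat_lit 4)) (R (nat_lit 104465))
    (p (nat_lit 0x89) (nat_lit 1) (p (nat_lit 0x111) (nat_lit 1) (p (nat_lit 0xd1) (nat_lit 1) (p (nat_lit 0x81) (nat_lit 0) (p (nat_lit 0x41) (nat_lit 1) (p (nat_lit 0x108078907089a) (nat_lit 0) (p (nat_lit 0x107870886861a) (nat_lit 0) (p (nat_lit 0x8000000000000070806078a) (nat_lit 0) (p (nat_lit 0x8000000000000068785850a) (nat_lit 0) (p (nat_lit 0x10587050682) (nat_lit 0) (p (nat_lit 0x10506848402) (nat_lit 0) (p (nat_lit 0x16000c) (nat_lit 0) (p (nat_lit 0x160004) (nat_lit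 0) (p (nat_lit 0x50612) (nat_lit 0) (p (nat_lit 0x40592) (nat_lit 0) (p (nat_lit 0x40492) (nat_lit 0) (p (nat_lit 0x30412) (nat_lit 0) (p (nat_lit 0x30212) (nat_lit 0) (p (nat_lit 0x20192) (nat_lit 0) (p (nat_lit 0x20092) (nat_lit 0) (p (nat_lit 0x10012) (nat_lit 0) pn))))))))))))))))))))) :=
  Cl.node (nat_lit 0xc9) (nat_lit 2) (by decide +kernel) (ClAll.succ (ClAll.succ ClAll.zero s545) n191)

def n216 : Cl (O (nat_lit 4)) (R (nat_lit 104465))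
    (p (nat_lit 0x101) (nat_lit 0) (p (nat_lit 0x119) (nat_lit 0) (p (nat_lit 0xc1) (nat_lit 0) (p (nat_lit 0x81) (nat_lit 1) (p (nat_lit 0x41) (nat_lit 1) (p (nat_lit 0x108078907089a) (nat_lit 0) (p (nat_lit 0x107870886861a) (nat_lit 0) (p (nat_lit 0x8000000000000070806078a) (nat_lit 0) (p (nat_lit 0x8000000000000068785850a) (nat_lit 0) (p (nat_lit 0x10587050682) (nat_lit 0) (p (nat_lit 0x10506848402) (nat_lit 0) (p (nat_lit 0x16000c) (nat_lit 0) (p (nat_lit 0x160004) (nat_lit 0) (p (nat_lit 0x50612) (nat_lit 0) (p (nat_lit 0x40592) (nat_lit 0) (p (nat_lit 0x40492) (nat_lit 0) (p (nat_lit 0x30412) (nat_lit 0) (p (nat_lit 0x30212) (nat_lit 0) (p (nat_lit 0x20192) (nat_lit 0) (p (nat_lit 0x20092) (nat_lit 0) (p (nat_lit 0x10012) (nat_lit 0) pn))))))))))))))))))))) :=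
  Cl.node (nat_lit 0x109) (nat_lit 2) (by decide +kernel) (ClAll.succ (ClAll.succ ClAll.zero n192) n193)

def n217 : Cl (O (nat_lit 4)) (R (nat_lit 104465))
    (p (nat_lit 0x101) (nat_lit 1) (p (nat_lit 0x119) (nat_lit 0) (p (nat_lit 0xc1) (nat_lit 0) (p (nat_lit 0x81) (nat_lit 1) (p (nat_lit 0x41) (nat_lit 1) (p (nat_lit 0x108078907089a) (nat_lit 0) (p (nat_lit 0x107870886861a) (nat_lit 0) (p (nat_lit 0x8000000000000070806078a) (nat_lit 0) (p (nat_lit 0x8000000000000068785850a) (nat_lit 0) (p (nat_lit 0x10587050682) (nat_lit 0) (p (nat_lit 0x10506848402) (nat_lit 0) (p (nat_lit 0x16000c) (nat_lit 0) (p (nat_lit 0x160004) (nat_lit 0) (p (nat_lit 0x50612) (nat_lit 0) (p (nat_lit 0x40592) (nat_lit 0) (p (nat_lit 0x40492) (nat_lit 0) (p (nat_lit 0x30412) (nat_lit 0) (p (nat_lit 0x30212) (nat_lit 0) (p (nat_lit 0x20192) (nat_lit 0) (p (nat_lit 0x20092) (nat_lit 0) (p (nat_lit 0x10012) (nat_lit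 0) pn))))))))))))))))))))) :=
  Cl.node (nat_lit 0xc9) (nat_lit 2) (by decide +kernel) (ClAll.succ (ClAll.succ ClAll.zero n194) s637)

def n218 : Cl (O (nat_lit 4)) (R (nat_lit 104465))
    (p (nat_lit 0xc9) (nat_lit 0) (p (nat_lit 0x119) (nat_lit 1) (p (nat_lit 0xc1) (nat_lit 0) (p (nat_lit 0x81) (nat_lit 1) (p (nat_lit 0x41) (nat_lit 1) (p (nat_lit 0x108078907089a) (nat_lit 0) (p (nat_lit 0x107870886861a) (nat_lit 0) (p (nat_lit 0x8000000000000070806078a) (nat_lit 0) (p (nat_lit 0x8000000000000068785850a) (nat_lit 0) (p (nat_lit 0x10587050682) (nat_lit 0) (p (nat_lit 0x10506848402) (nat_lit 0) (p (nat_lit 0x16000c) (nat_lit 0) (p (nat_lit 0x160004) (nat_lit 0) (p (nat_lit 0x50612) (nat_lit 0) (p (nat_lit 0x40592) (nat_lit 0) (p (nat_lit 0x40492) (nat_lit 0) (p (nat_lit 0x30412) (nat_lit 0) (p (nat_lit 0x30212) (nat_lit 0) (p (nat_lit 0x20192) (nat_lit 0) (p (nat_lit 0x20092) (nat_lit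 0) (p (nat_lit 0x10012) (nat_lit 0) pn))))))))))))))))))))) :=
  Cl.node (nat_lit 0xd1) (nat_lit 2) (by decide +kernel) (ClAll.succ (ClAll.succ ClAll.zero s638) n195)

def n219 : Cl (O (nat_lit 4)) (R (nat_lit 104465))
    (p (nat_lit 0xc9) (nat_lit 1) (p (nat_lit 0x119) (nat_lit 1) (p (nat_lit 0xc1) (nat_lit 0) (p (nat_lit 0x81) (nat_lit 1) (p (nat_lit 0x41) (nat_lit 1) (p (nat_lit 0x108078907089a) (nat_lit 0) (p (nat_lit 0x107870886861a) (nat_lit 0) (p (nat_lit 0x8000000000000070806078a) (nat_lit 0) (p (nat_lit 0x8000000000000068785850a) (nat_lit 0) (p (nat_lit 0x10587050682) (nat_lit 0) (p (nat_lit 0x10506848402) (nat_lit 0) (p (nat_lit 0x16000c) (nat_lit 0) (p (nat_lit 0x160004) (nat_lit 0) (p (nat_lit 0x50612) (nat_lit 0) (p (nat_lit 0x40592) (nat_lit 0) (p (nat_lit 0x40492) (nat_lit 0) (p (nat_lit 0x30412) (nat_lit 0) (p (nat_lit 0x30212) (nat_lit 0) (p (nat_lit 0x20192) (nat_lit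 0) (p (nat_lit 0x20092) (nat_lit 0) (p (nat_lit 0x10012) (nat_lit 0) pn))))))))))))))))))))) :=
  Cl.node (nat_lit 0x109) (nat_lit 2) (by decide +kernel) (ClAll.succ (ClAll.succ ClAll.zero n196) s677)

def n220 : Cl (O (nat_lit 4)) (R (nat_lit 104465))
    (p (nat_lit 0x119) (nat_lit 0) (p (nat_lit 0xd1) (nat_lit 0) (p (nat_lit 0x89) (nat_lit 0) (p (nat_lit 0x41) (nat_lit 0) (p (nat_lit 0x108078907089a) (nat_lit 0) (p (nat_lit 0x107870886861a) (nat_lit 0) (p (nat_lit 0x8000000000000070806078a) (nat_lit 0) (p (nat_lit 0x8000000000000068785850a) (nat_lit 0) (p (nat_lit 0x10587050682) (nat_lit 0) (p (nat_lit 0x10506848402) (nat_lit 0) (p (nat_lit 0x16000c) (nat_lit 0) (p (nat_lit 0x160004) (nat_lit 0) (p (nat_lit 0x50612) (nat_lit 0) (p (nat_lit 0x40592) (nat_lit 0) (p (nat_lit 0x40492) (nat_lit 0) (p (nat_lit 0x30412) (nat_lit 0) (p (nat_lit 0x30212) (nat_lit 0) (p (nat_lit 0x20192) (nat_lit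 0) (p (nat_lit 0x20092) (nat_lit 0) (p (nat_lit 0x10012) (nat_lit 0) pn)))))))))))))))))))) :=
  Cl.node (nat_lit 0x101) (nat_lit 2) (by decide +kernel) (ClAll.succ (ClAll.succ ClAll.zero n197) n198)

def n221 : Cl (O (nat_lit 4)) (R (nat_lit 104465))
    (p (nat_lit 0x119) (nat_lit 1) (p (nat_lit 0xd1) (nat_lit 0) (p (nat_lit 0x89) (nat_lit 0) (p (nat_lit 0x41) (nat_lit 0) (p (nat_lit 0x108078907089a) (nat_lit 0) (p (nat_lit 0x107870886861a) (nat_lit 0) (p (nat_lit 0x8000000000000070806078a) (nat_lit 0) (p (nat_lit 0x8000000000000068785850a) (nat_lit 0) (p (nat_lit 0x10587050682) (nat_lit 0) (p (nat_lit 0x10506848402) (nat_lit 0) (p (nat_lit 0x16000c) (nat_lit 0) (p (nat_lit 0x160004) (nat_lit 0) (p (nat_lit 0x50612) (nat_lit 0) (p (nat_lit 0x40592) (nat_lit 0) (p (nat_lit 0x40492) (nat_lit 0) (p (nat_lit 0x30412) (nat_lit 0) (p (nat_lit 0x30212) (nat_lit 0) (p (nat_lit 0x20192) (nat_lit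 0) (p (nat_lit 0x20092) (nat_lit 0) (p (nat_lit 0x10012) (nat_lit 0) pn)))))))))))))))))))) :=
  Cl.node (nat_lit 0xc1) (nat_lit 2) (by decide +kernel) (ClAll.succ (ClAll.succ ClAll.zero n199) n200)

def n222 : Cl (O (nat_lit 4)) (R (nat_lit 104465))
    (p (nat_lit 0x111) (nat_lit 0) (p (nat_lit 0xd1) (nat_lit 1) (p (nat_lit 0x89) (nat_lit 0) (p (nat_lit 0x41) (nat_lit 0) (p (nat_lit 0x108078907089a) (nat_lit 0) (p (nat_lit 0x107870886861a) (nat_lit 0) (p (nat_lit 0x8000000000000070806078a) (nat_lit 0) (p (nat_lit 0x8000000000000068785850a) (nat_lit 0) (p (nat_lit 0x10587050682) (nat_lit 0) (p (nat_lit 0x10506848402) (nat_lit 0) (p (nat_lit 0x16000c) (nat_lit 0) (p (nat_lit 0x160004) (nat_lit 0) (p (nat_lit 0x50612) (nat_lit 0) (p (nat_lit 0x40592) (nat_lit 0) (p (nat_lit 0x40492) (nat_lit 0) (p (nat_lit 0x30412) (nat_lit 0) (p (nat_lit 0x30212) (nat_lit 0) (p (nat_lit 0x20192) (nat_lit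 0) (p (nat_lit 0x20092) (nat_lit 0) (p (nat_lit 0x10012) (nat_lit 0) pn)))))))))))))))))))) :=
  Cl.node (nat_lit 0x101) (nat_lit 2) (by decide +kernel) (ClAll.succ (ClAll.succ ClAll.zero n201) n202)

def n223 : Cl (O (nat_lit 4)) (R (nat_lit 104465))
    (p (nat_lit 0x111) (nat_lit 1) (p (nat_lit 0xd1) (nat_lit 1) (p (nat_lit 0x89) (nat_lit 0) (p (nat_lit 0x41) (nat_lit 0) (p (nat_lit 0x108078907089a) (nat_lit 0) (p (nat_lit 0x107870886861a) (nat_lit 0) (p (nat_lit 0x8000000000000070806078a) (nat_lit 0) (p (nat_lit 0x8000000000000068785850a) (nat_lit 0) (p (nat_lit 0x10587050682) (nat_lit 0) (p (nat_lit 0x10506848402) (nat_lit 0) (p (nat_lit 0x16000c) (nat_lit 0) (p (nat_lit 0x160004) (nat_lit 0) (p (nat_lit 0x50612) (nat_lit 0) (p (nat_lit 0x40592) (nat_lit 0) (p (nat_lit 0x40492) (nat_lit 0) (p (nat_lit 0x30412) (nat_lit 0) (p (nat_lit 0x30212) (nat_lit 0) (p (nat_lit 0x20192) (nat_lit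 0) (p (nat_lit 0x20092) (nat_lit 0) (p (nat_lit 0x10012) (nat_lit 0) pn)))))))))))))))))))) :=
  Cl.node (nat_lit 0x81) (nat_lit 2) (by decide +kernel) (ClAll.succ (ClAll.succ ClAll.zero s214) n203)

def n224 : Cl (O (nat_lit 4)) (R (nat_lit 104465))
    (p (nat_lit 0x119) (nat_lit 0) (p (nat_lit 0xc9) (nat_lit 0) (p (nat_lit 0x89) (nat_lit 1) (p (nat_lit 0x41) (nat_lit 0) (p (nat_lit 0x108078907089a) (nat_lit 0) (p (nat_lit 0x107870886861a) (nat_lit 0) (p (nat_lit 0x8000000000000070806078a) (nat_lit 0) (p (nat_lit 0x8000000000000068785850a) (nat_lit 0) (p (nat_lit 0x10587050682) (nat_lit 0) (p (nat_lit 0x10506848402) (nat_lit 0) (p (nat_lit 0x16000c) (nat_lit 0) (p (nat_lit 0x160004) (nat_lit 0) (p (nat_lit 0x50612) (nat_lit 0) (p (nat_lit 0x40592) (nat_lit 0) (p (nat_lit 0x40492) (nat_lit 0) (p (nat_lit 0x30412) (nat_lit 0) (p (nat_lit 0x30212) (nat_lit 0) (p (nat_lit 0x20192) (nat_lit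 0) (p (nat_lit 0x20092) (nat_lit 0) (p (nat_lit 0x10012) (nat_lit 0) pn)))))))))))))))))))) :=
  Cl.node (nat_lit 0x101) (nat_lit 2) (by decide +kernel) (ClAll.succ (ClAll.succ ClAll.zero n204) n205)

def n225 : Cl (O (nat_lit 4)) (R (nat_lit 104465))
    (p (nat_lit 0x119) (nat_lit 1) (p (nat_lit 0xc9) (nat_lit 0) (p (nat_lit 0x89) (nat_lit 1) (p (nat_lit 0x41) (nat_lit 0) (p (nat_lit 0x108078907089a) (nat_lit 0) (p (nat_lit 0x107870886861a) (nat_lit 0) (p (nat_lit 0x8000000000000070806078a) (nat_lit 0) (p (nat_lit 0x8000000000000068785850a) (nat_lit 0) (p (nat_lit 0x10587050682) (nat_lit 0) (p (nat_lit 0x10506848402) (nat_lit 0) (p (nat_lit 0x16000c) (nat_lit 0) (p (nat_lit 0x160004) (nat_lit 0) (p (nat_lit 0x50612) (nat_lit 0) (p (nat_lit 0x40592) (nat_lit 0) (p (nat_lit 0x40492) (nat_lit 0) (p (nat_lit 0x30412) (nat_lit 0) (p (nat_lit 0x30212) (nat_lit 0) (p (nat_lit 0x20192) (nat_lit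 0) (p (nat_lit 0x20092) (nat_lit 0) (p (nat_lit 0x10012) (nat_lit 0) pn)))))))))))))))))))) :=
  Cl.node (nat_lit 0xc1) (nat_lit 2) (by decide +kernel) (ClAll.succ (ClAll.succ ClAll.zero n206) n207)

def n226 : Cl (O (nat_lit 4)) (R (nat_lit 104465))
    (p (nat_lit 0x109) (nat_lit 0) (p (nat_lit 0xc9) (nat_lit 1) (p (nat_lit 0x89) (nat_lit 1) (p (nat_lit 0x41) (nat_lit 0) (p (nat_lit 0x108078907089a) (nat_lit 0) (p (nat_lit 0x107870886861a) (nat_lit 0) (p (nat_lit 0x8000000000000070806078a) (nat_lit 0) (p (nat_lit 0x8000000000000068785850a) (nat_lit 0) (p (nat_lit 0x10587050682) (nat_lit 0) (p (nat_lit 0x10506848402) (nat_lit 0) (p (nat_lit 0x16000c) (nat_lit 0) (p (nat_lit 0x160004) (nat_lit 0) (p (nat_lit 0x50612) (nat_lit 0) (p (nat_lit 0x40592) (nat_lit 0) (p (nat_lit 0x40492) (nat_lit 0) (p (nat_lit 0x30412) (nat_lit 0) (p (nat_lit 0x30212) (nat_lit 0) (p (nat_lit 0x20192) (nat_lit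 0) (p (nat_lit 0x20092) (nat_lit 0) (p (nat_lit 0x10012) (nat_lit 0) pn)))))))))))))))))))) :=
  Cl.node (nat_lit 0x101) (nat_lit 2) (by decide +kernel) (ClAll.succ (ClAll.succ ClAll.zero n208) s383)

def n227 : Cl (O (nat_lit 4)) (R (nat_lit 104465))
    (p (nat_lit 0x119) (nat_lit 0) (p (nat_lit 0xd1) (nat_lit 0) (p (nat_lit 0x81) (nat_lit 0) (p (nat_lit 0x41) (nat_lit 1) (p (nat_lit 0x108078907089a) (nat_lit 0) (p (nat_lit 0x107870886861a) (nat_lit 0) (p (nat_lit 0x8000000000000070806078a) (nat_lit 0) (p (nat_lit 0x8000000000000068785850a) (nat_lit 0) (p (nat_lit 0x10587050682) (nat_lit 0) (p (nat_lit 0x10506848402) (nat_lit 0) (p (nat_lit 0x16000c) (nat_lit 0) (p (nat_lit 0x160004) (nat_lit 0) (p (nat_lit 0x50612) (nat_lit 0) (p (nat_lit 0x40592) (nat_lit 0) (p (nat_lit 0x40492) (nat_lit 0) (p (nat_lit 0x30412) (nat_lit 0) (p (nat_lit 0x30212) (nat_lit 0) (p (nat_lit 0x20192) (nat_lit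 0) (p (nat_lit 0x20092) (nat_lit 0) (p (nat_lit 0x10012) (nat_lit 0) pn)))))))))))))))))))) :=
  Cl.node (nat_lit 0x101) (nat_lit 2) (by decide +kernel) (ClAll.succ (ClAll.succ ClAll.zero n209) n210)

def n228 : Cl (O (nat_lit 4)) (R (nat_lit 104465))
    (p (nat_lit 0x119) (nat_lit 1) (p (nat_lit 0xd1) (nat_lit 0) (p (nat_lit 0x81) (nat_lit 0) (p (nat_lit 0x41) (nat_lit 1) (p (nat_lit 0x108078907089a) (nat_lit 0) (p (nat_lit 0x107870886861a) (nat_lit 0) (p (nat_lit 0x8000000000000070806078a) (nat_lit 0) (p (nat_lit 0x8000000000000068785850a) (nat_lit 0) (p (nat_lit 0x10587050682) (nat_lit 0) (p (nat_lit 0x10506848402) (nat_lit 0) (p (nat_lit 0x16000c) (nat_lit 0) (p (nat_lit 0x160004) (nat_lit 0) (p (nat_lit 0x50612) (nat_lit 0) (p (nat_lit 0x40592) (nat_lit 0) (p (nat_lit 0x40492) (nat_lit 0) (p (nat_lit 0x30412) (nat_lit 0) (p (nat_lit 0x30212) (nat_lit 0) (p (nat_lit 0x20192) (nat_lit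 0) (p (nat_lit 0x20092) (nat_lit 0) (p (nat_lit 0x10012) (nat_lit 0) pn)))))))))))))))))))) :=
  Cl.node (nat_lit 0xc1) (nat_lit 2) (by decide +kernel) (ClAll.succ (ClAll.succ ClAll.zero n211) n212)

def n229 : Cl (O (nat_lit 4)) (R (nat_lit 104465))
    (p (nat_lit 0x111) (nat_lit 0) (p (nat_lit 0xd1) (nat_lit 1) (p (nat_lit 0x81) (nat_lit 0) (p (nat_lit 0x41) (nat_lit 1) (p (nat_lit 0x108078907089a) (nat_lit 0) (p (nat_lit 0x107870886861a) (nat_lit 0) (p (nat_lit 0x8000000000000070806078a) (nat_lit 0) (p (nat_lit 0x8000000000000068785850a) (nat_lit 0) (p (nat_lit 0x10587050682) (nat_lit 0) (p (nat_lit 0x10506848402) (nat_lit 0) (p (nat_lit 0x16000c) (nat_lit 0) (p (nat_lit 0x160004) (nat_lit 0) (p (nat_lit 0x50612) (nat_lit 0) (p (nat_lit 0x40592) (nat_lit 0) (p (nat_lit 0x40492) (nat_lit 0) (p (nat_lit 0x30412) (nat_lit 0) (p (nat_lit 0x30212) (nat_lit 0) (p (nat_lit 0x20192) (nat_lit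 0) (p (nat_lit 0x20092) (nat_lit 0) (p (nat_lit 0x10012) (nat_lit 0) pn)))))))))))))))))))) :=
  Cl.node (nat_lit 0x101) (nat_lit 2) (by decide +kernel) (ClAll.succ (ClAll.succ ClAll.zero n213) n214)

def n230 : Cl (O (nat_lit 4)) (R (nat_lit 104465))
    (p (nat_lit 0x111) (nat_lit 1) (p (nat_lit 0xd1) (nat_lit 1) (p (nat_lit 0x81) (nat_lit 0) (p (nat_lit 0x41) (nat_lit 1) (p (nat_lit 0x108078907089a) (nat_lit 0) (p (nat_lit 0x107870886861a) (nat_lit 0) (p (nat_lit 0x8000000000000070806078a) (nat_lit 0) (p (nat_lit 0x8000000000000068785850a) (nat_lit 0) (p (nat_lit 0x10587050682) (nat_lit 0) (p (nat_lit 0x10506848402) (nat_lit 0) (p (nat_lit 0x16000c) (nat_lit 0) (p (nat_lit 0x160004) (nat_lit 0) (p (nat_lit 0x50612) (nat_lit 0) (p (nat_lit 0x40592) (nat_lit 0) (p (nat_lit 0x40492) (nat_lit 0) (p (nat_lit 0x30412) (nat_lit 0) (p (nat_lit 0x30212) (nat_lit 0) (p (nat_lit 0x20192) (nat_lit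 0) (p (nat_lit 0x20092) (nat_lit 0) (p (nat_lit 0x10012) (nat_lit 0) pn)))))))))))))))))))) :=
  Cl.node (nat_lit 0x89) (nat_lit 2) (by decide +kernel) (ClAll.succ (ClAll.succ ClAll.zero s544) n215)

def n231 : Cl (O (nat_lit 4)) (R (nat_lit 104465))
    (p (nat_lit 0x119) (nat_lit 0) (p (nat_lit 0xc1) (nat_lit 0) (p (nat_lit 0x81) (nat_lit 1) (p (nat_lit 0x41) (nat_lit 1) (p (nat_lit 0x108078907089a) (nat_lit 0) (p (nat_lit 0x107870886861a) (nat_lit 0) (p (nat_lit 0x8000000000000070806078a) (nat_lit 0) (p (nat_lit 0x8000000000000068785850a) (nat_lit 0) (p (nat_lit 0x10587050682) (nat_lit 0) (p (nat_lit 0x10506848402) (nat_lit 0) (p (nat_lit 0x16000c) (nat_lit 0) (p (nat_lit 0x160004) (nat_lit 0) (p (nat_lit 0x50612) (nat_lit 0) (p (nat_lit 0x40592) (nat_lit 0) (p (nat_lit 0x40492) (nat_lit 0) (p (nat_lit 0x30412) (nat_lit 0) (p (nat_lit 0x30212) (nat_lit 0) (p (nat_lit 0x20192) (nat_lit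 0) (p (nat_lit 0x20092) (nat_lit 0) (p (nat_lit 0x10012) (nat_lit 0) pn)))))))))))))))))))) :=
  Cl.node (nat_lit 0x101) (nat_lit 2) (by decide +kernel) (ClAll.succ (ClAll.succ ClAll.zero n216) n217)

def n232 : Cl (O (nat_lit 4)) (R (nat_lit 104465))
    (p (nat_lit 0x119) (nat_lit 1) (p (nat_lit 0xc1) (nat_lit 0) (p (nat_lit 0x81) (nat_lit 1) (p (nat_lit 0x41) (nat_lit 1) (p (nat_lit 0x108078907089a) (nat_lit 0) (p (nat_lit 0x107870886861a) (nat_lit 0) (p (nat_lit 0x8000000000000070806078a) (nat_lit 0) (p (nat_lit 0x8000000000000068785850a) (nat_lit 0) (p (nat_lit 0x10587050682) (nat_lit 0) (p (nat_lit 0x10506848402) (nat_lit 0) (p (nat_lit 0x16000c) (nat_lit 0) (p (nat_lit 0x160004) (nat_lit 0) (p (nat_lit 0x50612) (nat_lit 0) (p (nat_lit 0x40592) (nat_lit 0) (p (nat_lit 0x40492) (nat_lit 0) (p (nat_lit 0x30412) (nat_lit 0) (p (nat_lit 0x30212) (nat_lit 0) (p (nat_lit 0x20192) (nat_lit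 0) (p (nat_lit 0x20092) (nat_lit 0) (p (nat_lit 0x10012) (nat_lit 0) pn)))))))))))))))))))) :=
  Cl.node (nat_lit 0xc9) (nat_lit 2) (by decide +kernel) (ClAll.succ (ClAll.succ ClAll.zero n218) n219)

def n233 : Cl (O (nat_lit 4)) (R (nat_lit 104465))
    (p (nat_lit 0xd1) (nat_lit 0) (p (nat_lit 0x89) (nat_lit 0) (p (nat_lit 0x41) (nat_lit 0) (p (nat_lit 0x108078907089a) (nat_lit 0) (p (nat_lit 0x107870886861a) (nat_lit 0) (p (nat_lit 0x8000000000000070806078a) (nat_lit 0) (p (nat_lit 0x8000000000000068785850a) (nat_lit 0) (p (nat_lit 0x10587050682) (nat_lit 0) (p (nat_lit 0x10506848402) (nat_lit 0) (p (nat_lit 0x16000c) (nat_lit 0) (p (nat_lit 0x160004) (nat_lit 0) (p (nat_lit 0x50612) (nat_lit 0) (p (nat_lit 0x40592) (nat_lit 0) (p (nat_lit 0x40492) (nat_lit 0) (p (nat_lit 0x30412) (nat_lit 0) (p (nat_lit 0x30212) (nat_lit 0) (p (nat_lit 0x20192) (nat_lit 0) (p (nat_lit 0x20092) (nat_lit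 0) (p (nat_lit 0x10012) (nat_lit 0) pn))))))))))))))))))) :=
  Cl.node (nat_lit 0x119) (nat_lit 2) (by decide +kernel) (ClAll.succ (ClAll.succ ClAll.zero n220) n221)

def n234 : Cl (O (nat_lit 4)) (R (nat_lit 104465))
    (p (nat_lit 0xd1) (nat_lit 1) (p (nat_lit 0x89) (nat_lit 0) (p (nat_lit 0x41) (nat_lit 0) (p (nat_lit 0x108078907089a) (nat_lit 0) (p (nat_lit 0x107870886861a) (nat_lit 0) (p (nat_lit 0x8000000000000070806078a) (nat_lit 0) (p (nat_lit 0x8000000000000068785850a) (nat_lit 0) (p (nat_lit 0x10587050682) (nat_lit 0) (p (nat_lit 0x10506848402) (nat_lit 0) (p (nat_lit 0x16000c) (nat_lit 0) (p (nat_lit 0x160004) (nat_lit 0) (p (nat_lit 0x50612) (nat_lit 0) (p (nat_lit 0x40592) (nat_lit 0) (p (nat_lit 0x40492) (nat_lit 0) (p (nat_lit 0x30412) (nat_lit 0) (p (nat_lit 0x30212) (nat_lit 0) (p (nat_lit 0x20192) (nat_lit 0) (p (nat_lit 0x20092) (nat_lit 0) (p (nat_lit 0x10012) (nat_lit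 0) pn))))))))))))))))))) :=
  Cl.node (nat_lit 0x111) (nat_lit 2) (by decide +kernel) (ClAll.succ (ClAll.succ ClAll.zero n222) n223)

def n235 : Cl (O (nat_lit 4)) (R (nat_lit 104465))
    (p (nat_lit 0xc9) (nat_lit 0) (p (nat_lit 0x89) (nat_lit 1) (p (nat_lit 0x41) (nat_lit 0) (p (nat_lit 0x108078907089a) (nat_lit 0) (p (nat_lit 0x107870886861a) (nat_lit 0) (p (nat_lit 0x8000000000000070806078a) (nat_lit 0) (p (nat_lit 0x8000000000000068785850a) (nat_lit 0) (p (nat_lit 0x10587050682) (nat_lit 0) (p (nat_lit 0x10506848402) (nat_lit 0) (p (nat_lit 0x16000c) (nat_lit 0) (p (nat_lit 0x160004) (nat_lit 0) (p (nat_lit 0x50612) (nat_lit 0) (p (nat_lit 0x40592) (nat_lit 0) (p (nat_lit 0x40492) (nat_lit 0) (p (nat_lit 0x30412) (nat_lit 0) (p (nat_lit 0x30212) (nat_lit 0) (p (nat_lit 0x20192) (nat_lit 0) (p (nat_lit 0x20092) (nat_lit 0) (p (nat_lit 0x10012) (nat_lit 0) pn))))))))))))))))))) :=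
  Cl.node (nat_lit 0x119) (nat_lit 2) (by decide +kernel) (ClAll.succ (ClAll.succ ClAll.zero n224) n225)

def n236 : Cl (O (nat_lit 4)) (R (nat_lit 104465))
    (p (nat_lit 0xc9) (nat_lit 1) (p (nat_lit 0x89) (nat_lit 1) (p (nat_lit 0x41) (nat_lit 0) (p (nat_lit 0x108078907089a) (nat_lit 0) (p (nat_lit 0x107870886861a) (nat_lit 0) (p (nat_lit 0x8000000000000070806078a) (nat_lit 0) (p (nat_lit 0x8000000000000068785850a) (nat_lit 0) (p (nat_lit 0x10587050682) (nat_lit 0) (p (nat_lit 0x10506848402) (nat_lit 0) (p (nat_lit 0x16000c) (nat_lit 0) (p (nat_lit 0x160004) (nat_lit 0) (p (nat_lit 0x50612) (nat_lit 0) (p (nat_lit 0x40592) (nat_lit 0) (p (nat_lit 0x40492) (nat_lit 0) (p (nat_lit 0x30412) (nat_lit 0) (p (nat_lit 0x30212) (nat_lit 0) (p (nat_lit 0x20192) (nat_lit 0) (p (nat_lit 0x20092) (nat_lit 0) (p (nat_lit 0x10012) (nat_lit 0) pn))))))))))))))))))) :=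
  Cl.node (nat_lit 0x109) (nat_lit 2) (by decide +kernel) (ClAll.succ (ClAll.succ ClAll.zero n226) s384)

def n237 : Cl (O (nat_lit 4)) (R (nat_lit 104465))
    (p (nat_lit 0xd1) (nat_lit 0) (p (nat_lit 0x81) (nat_lit 0) (p (nat_lit 0x41) (nat_lit 1) (p (nat_lit 0x108078907089a) (nat_lit 0) (p (nat_lit 0x107870886861a) (nat_lit 0) (p (nat_lit 0x8000000000000070806078a) (nat_lit 0) (p (nat_lit 0x8000000000000068785850a) (nat_lit 0) (p (nat_lit 0x10587050682) (nat_lit 0) (p (nat_lit 0x10506848402) (nat_lit 0) (p (nat_lit 0x16000c) (nat_lit 0) (p (nat_lit 0x160004) (nat_lit 0) (p (nat_lit 0x50612) (nat_lit 0) (p (nat_lit 0x40592) (nat_lit 0) (p (nat_lit 0x40492) (nat_lit 0) (p (nat_lit 0x30412) (nat_lit 0) (p (nat_lit 0x30212) (nat_lit 0) (p (nat_lit 0x20192) (nat_lit 0) (p (nat_lit 0x20092) (nat_lit 0) (p (nat_lit 0x10012) (nat_lit 0) pn))))))))))))))))))) :=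
  Cl.node (nat_lit 0x119) (nat_lit 2) (by decide +kernel) (ClAll.succ (ClAll.succ ClAll.zero n227) n228)

def n238 : Cl (O (nat_lit 4)) (R (nat_lit 104465))
    (p (nat_lit 0xd1) (nat_lit 1) (p (nat_lit 0x81) (nat_lit 0) (p (nat_lit 0x41) (nat_lit 1) (p (nat_lit 0x108078907089a) (nat_lit 0) (p (nat_lit 0x107870886861a) (nat_lit 0) (p (nat_lit 0x8000000000000070806078a) (nat_lit 0) (p (nat_lit 0x8000000000000068785850a) (nat_lit 0) (p (nat_lit 0x10587050682) (nat_lit 0) (p (nat_lit 0x10506848402) (nat_lit 0) (p (nat_lit 0x16000c) (nat_lit 0) (p (nat_lit 0x160004) (nat_lit 0) (p (nat_lit 0x50612) (nat_lit 0) (p (nat_lit 0x40592) (nat_lit 0) (p (nat_lit 0x40492) (nat_lit 0) (p (nat_lit 0x30412) (nat_lit 0) (p (nat_lit 0x30212) (nat_lit 0) (p (nat_lit 0x20192) (nat_lit 0) (p (nat_lit 0x20092) (nat_lit 0) (p (nat_lit 0x10012) (nat_lit 0) pn))))))))))))))))))) :=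
  Cl.node (nat_lit 0x111) (nat_lit 2) (by decide +kernel) (ClAll.succ (ClAll.succ ClAll.zero n229) n230)

def n239 : Cl (O (nat_lit 4)) (R (nat_lit 104465))
    (p (nat_lit 0xc1) (nat_lit 0) (p (nat_lit 0x81) (nat_lit 1) (p (nat_lit 0x41) (nat_lit 1) (p (nat_lit 0x108078907089a) (nat_lit 0) (p (nat_lit 0x107870886861a) (nat_lit 0) (p (nat_lit 0x8000000000000070806078a) (nat_lit 0) (p (nat_lit 0x8000000000000068785850a) (nat_lit 0) (p (nat_lit 0x10587050682) (nat_lit 0) (p (nat_lit 0x10506848402) (nat_lit 0) (p (nat_lit 0x16000c) (nat_lit 0) (p (nat_lit 0x160004) (nat_lit 0) (p (nat_lit 0x50612) (nat_lit 0) (p (nat_lit 0x40592) (nat_lit 0) (p (nat_lit 0x40492) (nat_lit 0) (p (nat_lit 0x30412) (nat_lit 0) (p (nat_lit 0x30212) (nat_lit 0) (p (nat_lit 0x20192) (nat_lit 0) (p (nat_lit 0x20092) (nat_lit 0) (p (nat_lit 0x10012) (nat_lit 0) pn))))))))))))))))))) :=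
  Cl.node (nat_lit 0x119) (nat_lit 2) (by decide +kernel) (ClAll.succ (ClAll.succ ClAll.zero n231) n232)

def n240 : Cl (O (nat_lit 4)) (R (nat_lit 104465))
    (p (nat_lit 0x89) (nat_lit 0) (p (nat_lit 0x41) (nat_lit 0) (p (nat_lit 0x108078907089a) (nat_lit 0) (p (nat_lit 0x107870886861a) (nat_lit 0) (p (nat_lit 0x8000000000000070806078a) (nat_lit 0) (p (nat_lit 0x8000000000000068785850a) (nat_lit 0) (p (nat_lit 0x10587050682) (nat_lit 0) (p (nat_lit 0x10506848402) (nat_lit 0) (p (nat_lit 0x16000c) (nat_lit 0) (p (nat_lit 0x160004) (nat_lit 0) (p (nat_lit 0x50612) (nat_lit 0) (p (nat_lit 0x40592) (nat_lit 0) (p (nat_lit 0x40492) (nat_lit 0) (p (nat_lit 0x30412) (nat_lit 0) (p (nat_lit 0x30212) (nat_lit 0) (p (nat_lit 0x20192) (nat_lit 0) (p (nat_lit 0x20092) (nat_lit 0) (p (nat_lit 0x10012) (nat_lit 0) pn)))))))))))))))))) :=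
  Cl.node (nat_lit 0xd1) (nat_lit 2) (by decide +kernel) (ClAll.succ (ClAll.succ ClAll.zero n233) n234)

def n241 : Cl (O (nat_lit 4)) (R (nat_lit 104465))
    (p (nat_lit 0x89) (nat_lit 1) (p (nat_lit 0x41) (nat_lit 0) (p (nat_lit 0x108078907089a) (nat_lit 0) (p (nat_lit 0x107870886861a) (nat_lit 0) (p (nat_lit 0x8000000000000070806078a) (nat_lit 0) (p (nat_lit 0x8000000000000068785850a) (nat_lit 0) (p (nat_lit 0x10587050682) (nat_lit 0) (p (nat_lit 0x10506848402) (nat_lit 0) (p (nat_lit 0x16000c) (nat_lit 0) (p (nat_lit 0x160004) (nat_lit 0) (p (nat_lit 0x50612) (nat_lit 0) (p (nat_lit 0x40592) (nat_lit 0) (p (nat_lit 0x40492) (nat_lit 0) (p (nat_lit 0x30412) (nat_lit 0) (p (nat_lit 0x30212) (nat_lit 0) (p (nat_lit 0x20192) (nat_lit 0) (p (nat_lit 0x20092) (nat_lit 0) (p (nat_lit 0x10012) (nat_lit 0) pn)))))))))))))))))) :=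
  Cl.node (nat_lit 0xc9) (nat_lit 2) (by decide +kernel) (ClAll.succ (ClAll.succ ClAll.zero n235) n236)

def n242 : Cl (O (nat_lit 4)) (R (nat_lit 104465))
    (p (nat_lit 0x81) (nat_lit 0) (p (nat_lit 0x41) (nat_lit 1) (p (nat_lit 0x108078907089a) (nat_lit 0) (p (nat_lit 0x107870886861a) (nat_lit 0) (p (nat_lit 0x8000000000000070806078a) (nat_lit 0) (p (nat_lit 0x8000000000000068785850a) (nat_lit 0) (p (nat_lit 0x10587050682) (nat_lit 0) (p (nat_lit 0x10506848402) (nat_lit 0) (p (nat_lit 0x16000c) (nat_lit 0) (p (nat_lit 0x160004) (nat_lit 0) (p (nat_lit 0x50612) (nat_lit 0) (p (nat_lit 0x40592) (nat_lit 0) (p (nat_lit 0x40492) (nat_lit 0) (p (nat_lit 0x30412) (nat_lit 0) (p (nat_lit 0x30212) (nat_lit 0) (p (nat_lit 0x20192) (nat_lit 0) (p (nat_lit 0x20092) (nat_lit 0) (p (nat_lit 0x10012) (nat_lit 0) pn)))))))))))))))))) :=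
  Cl.node (nat_lit 0xd1) (nat_lit 2) (by decide +kernel) (ClAll.succ (ClAll.succ ClAll.zero n237) n238)

def n243 : Cl (O (nat_lit 4)) (R (nat_lit 104465))
    (p (nat_lit 0x81) (nat_lit 1) (p (nat_lit 0x41) (nat_lit 1) (p (nat_lit 0x108078907089a) (nat_lit 0) (p (nat_lit 0x107870886861a) (nat_lit 0) (p (nat_lit 0x8000000000000070806078a) (nat_lit 0) (p (nat_lit 0x8000000000000068785850a) (nat_lit 0) (p (nat_lit 0x10587050682) (nat_lit 0) (p (nat_lit 0x10506848402) (nat_lit 0) (p (nat_lit 0x16000c) (nat_lit 0) (p (nat_lit 0x160004) (nat_lit 0) (p (nat_lit 0x50612) (nat_lit 0) (p (nat_lit 0x40592) (nat_lit 0) (p (nat_lit 0x40492) (nat_lit 0) (p (nat_lit 0x30412) (nat_lit 0) (p (nat_lit 0x30212) (nat_lit 0) (p (nat_lit 0x20192) (nat_lit 0) (p (nat_lit 0x20092) (nat_lit 0) (p (nat_lit 0x10012) (nat_lit 0) pn)))))))))))))))))) :=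
  Cl.node (nat_lit 0xc1) (nat_lit 2) (by decide +kernel) (ClAll.succ (ClAll.succ ClAll.zero n239) s678)

def n244 : Cl (O (nat_lit 4)) (R (nat_lit 104465))
    (p (nat_lit 0x41) (nat_lit 0) (p (nat_lit 0x108078907089a) (nat_lit 0) (p (nat_lit 0x107870886861a) (nat_lit 0) (p (nat_lit 0x8000000000000070806078a) (nat_lit 0) (p (nat_lit 0x8000000000000068785850a) (nat_lit 0) (p (nat_lit 0x10587050682) (nat_lit 0) (p (nat_lit 0x10506848402) (nat_lit 0) (p (nat_lit 0x16000c) (nat_lit 0) (p (nat_lit 0x160004) (nat_lit 0) (p (nat_lit 0x50612) (nat_lit 0) (p (nat_lit 0x40592) (nat_lit 0) (p (nat_lit 0x40492) (nat_lit 0) (p (nat_lit 0x30412) (nat_lit 0) (p (nat_lit 0x30212) (nat_lit 0) (p (nat_lit 0x20192) (nat_lit 0) (p (nat_lit 0x20092) (nat_lit 0) (p (nat_lit 0x10012) (nat_lit 0) pn))))))))))))))))) :=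
  Cl.node (nat_lit 0x89) (nat_lit 2) (by decide +kernel) (ClAll.succ (ClAll.succ ClAll.zero n240) n241)

def n245 : Cl (O (nat_lit 4)) (R (nat_lit 104465))
    (p (nat_lit 0x41) (nat_lit 1) (p (nat_lit 0x108078907089a) (nat_lit 0) (p (nat_lit 0x107870886861a) (nat_lit 0) (p (nat_lit 0x8000000000000070806078a) (nat_lit 0) (p (nat_lit 0x8000000000000068785850a) (nat_lit 0) (p (nat_lit 0x10587050682) (nat_lit 0) (p (nat_lit 0x10506848402) (nat_lit 0) (p (nat_lit 0x16000c) (nat_lit 0) (p (nat_lit 0x160004) (nat_lit 0) (p (nat_lit 0x50612) (nat_lit 0) (p (nat_lit 0x40592) (nat_lit 0) (p (nat_lit 0x40492) (nat_lit 0) (p (nat_lit 0x30412) (nat_lit 0) (p (nat_lit 0x30212) (nat_lit 0) (p (nat_lit 0x20192) (nat_lit 0) (p (nat_lit 0x20092) (nat_lit 0) (p (nat_lit 0x10012) (nat_lit 0) pn))))))))))))))))) :=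
  Cl.node (nat_lit 0x81) (nat_lit 2) (by decide +kernel) (ClAll.succ (ClAll.succ ClAll.zero n242) n243)

def n246 : Cl (O (nat_lit 4)) (R (nat_lit 104465))
    (p (nat_lit 0x108078907089a) (nat_lit 0) (p (nat_lit 0x107870886861a) (nat_lit 0) (p (nat_lit 0x8000000000000070806078a) (nat_lit 0) (p (nat_lit 0x8000000000000068785850a) (nat_lit 0) (p (nat_lit 0x10587050682) (nat_lit 0) (p (nat_lit 0x10506848402) (nat_lit 0) (p (nat_lit 0x16000c) (nat_lit 0) (p (nat_lit 0x160004) (nat_lit 0) (p (nat_lit 0x50612) (nat_lit 0) (p (nat_lit 0x40592) (nat_lit 0) (p (nat_lit 0x40492) (nat_lit 0) (p (nat_lit 0x30412) (nat_lit 0) (p (nat_lit 0x30212) (nat_lit 0) (p (nat_lit 0x20192) (nat_lit 0) (p (nat_lit 0x20092) (nat_lit 0) (p (nat_lit 0x10012) (nat_lit 0) pn)))))))))))))))) :=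
  Cl.node (nat_lit 0x41) (nat_lit 2) (by decide +kernel) (ClAll.succ (ClAll.succ ClAll.zero n244) n245)

def n247 : Cl (O (nat_lit 4)) (R (nat_lit 104465))
    (p (nat_lit 0x107870886861a) (nat_lit 0) (p (nat_lit 0x8000000000000070806078a) (nat_lit 0) (p (nat_lit 0x8000000000000068785850a) (nat_lit 0) (p (nat_lit 0x10587050682) (nat_lit 0) (p (nat_lit 0x10506848402) (nat_lit 0) (p (nat_lit 0x16000c) (nat_lit 0) (p (nat_lit 0x160004) (nat_lit 0) (p (nat_lit 0x50612) (nat_lit 0) (p (nat_lit 0x40592) (nat_lit 0) (p (nat_lit 0x40492) (nat_lit 0) (p (nat_lit 0x30412) (nat_lit 0) (p (nat_lit 0x30212) (nat_lit 0) (p (nat_lit 0x20192) (nat_lit 0) (p (nat_lit 0x20092) (nat_lit 0) (p (nat_lit 0x10012) (nat_lit 0) pn))))))))))))))) :=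
  Cl.node (nat_lit 0x108078907089a) (nat_lit 1) (by decide +kernel) (ClAll.succ ClAll.zero n246)

def n248 : Cl (O (nat_lit 4)) (R (nat_lit 104465))
    (p (nat_lit 0x8000000000000070806078a) (nat_lit 0) (p (nat_lit 0x8000000000000068785850a) (nat_lit 0) (p (nat_lit 0x10587050682) (nat_lit 0) (p (nat_lit 0x10506848402) (nat_lit 0) (p (nat_lit 0x16000c) (nat_lit 0) (p (nat_lit 0x160004) (nat_lit 0) (p (nat_lit 0x50612) (nat_lit 0) (p (nat_lit 0x40592) (nat_lit 0) (p (nat_lit 0x40492) (nat_lit 0) (p (nat_lit 0x30412) (nat_lit 0) (p (nat_lit 0x30212) (nat_lit 0) (p (nat_lit 0x20192) (nat_lit 0) (p (nat_lit 0x20092) (nat_lit 0) (p (nat_lit 0x10012) (nat_lit 0) pn)))))))))))))) :=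
  Cl.node (nat_lit 0x107870886861a) (nat_lit 1) (by decide +kernel) (ClAll.succ ClAll.zero n247)

def n249 : Cl (O (nat_lit 4)) (R (nat_lit 104465))
    (p (nat_lit 0x8000000000000068785850a) (nat_lit 0) (p (nat_lit 0x10587050682) (nat_lit 0) (p (nat_lit 0x10506848402) (nat_lit 0) (p (nat_lit 0x16000c) (nat_lit 0) (p (nat_lit 0x160004) (nat_lit 0) (p (nat_lit 0x50612) (nat_lit 0) (p (nat_lit 0x40592) (nat_lit 0) (p (nat_lit 0x40492) (nat_lit 0) (p (nat_lit 0x30412) (nat_lit 0) (p (nat_lit 0x30212) (nat_lit 0) (p (nat_lit 0x20192) (nat_lit 0) (p (nat_lit 0x20092) (nat_lit 0) (p (nat_lit 0x10012) (nat_lit 0) pn))))))))))))) :=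
  Cl.node (nat_lit 0x8000000000000070806078a) (nat_lit 1) (by decide +kernel) (ClAll.succ ClAll.zero n248)

def n250 : Cl (O (nat_lit 4)) (R (nat_lit 104465))
    (p (nat_lit 0x10587050682) (nat_lit 0) (p (nat_lit 0x10506848402) (nat_lit 0) (p (nat_lit 0x16000c) (nat_lit 0) (p (nat_lit 0x160004) (nat_lit 0) (p (nat_lit 0x50612) (nat_lit 0) (p (nat_lit 0x40592) (nat_lit 0) (p (nat_lit 0x40492) (nat_lit 0) (p (nat_lit 0x30412) (nat_lit 0) (p (nat_lit 0x30212) (nat_lit 0) (p (nat_lit 0x20192) (nat_lit 0) (p (nat_lit 0x20092) (nat_lit 0) (p (nat_lit 0x10012) (nat_lit 0) pn)))))))))))) :=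
  Cl.node (nat_lit 0x8000000000000068785850a) (nat_lit 1) (by decide +kernel) (ClAll.succ ClAll.zero n249)

def n251 : Cl (O (nat_lit 4)) (R (nat_lit 104465))
    (p (nat_lit 0x10506848402) (nat_lit 0) (p (nat_lit 0x16000c) (nat_lit 0) (p (nat_lit 0x160004) (nat_lit 0) (p (nat_lit 0x50612) (nat_lit 0) (p (nat_lit 0x40592) (nat_lit 0) (p (nat_lit 0x40492) (nat_lit 0) (p (nat_lit 0x30412) (nat_lit 0) (p (nat_lit 0x30212) (nat_lit 0) (p (nat_lit 0x20192) (nat_lit 0) (p (nat_lit 0x20092) (nat_lit 0) (p (nat_lit 0x10012) (nat_lit 0) pn))))))))))) :=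
  Cl.node (nat_lit 0x10587050682) (nat_lit 1) (by decide +kernel) (ClAll.succ ClAll.zero n250)

def n252 : Cl (O (nat_lit 4)) (R (nat_lit 104465))
    (p (nat_lit 0x16000c) (nat_lit 0) (p (nat_lit 0x160004) (nat_lit 0) (p (nat_lit 0x50612) (nat_lit 0) (p (nat_lit 0x40592) (nat_lit 0) (p (nat_lit 0x40492) (nat_lit 0) (p (nat_lit 0x30412) (nat_lit 0) (p (nat_lit 0x30212) (nat_lit 0) (p (nat_lit 0x20192) (nat_lit 0) (p (nat_lit 0x20092) (nat_lit 0) (p (nat_lit 0x10012) (nat_lit 0) pn)))))))))) :=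
  Cl.node (nat_lit 0x10506848402) (nat_lit 1) (by decide +kernel) (ClAll.succ ClAll.zero n251)

def n253 : Cl (O (nat_lit 4)) (R (nat_lit 104465))
    (p (nat_lit 0x160004) (nat_lit 0) (p (nat_lit 0x50612) (nat_lit 0) (p (nat_lit 0x40592) (nat_lit 0) (p (nat_lit 0x40492) (nat_lit 0) (p (nat_lit 0x30412) (nat_lit 0) (p (nat_lit 0x30212) (nat_lit 0) (p (nat_lit 0x20192) (nat_lit 0) (p (nat_lit 0x20092) (nat_lit 0) (p (nat_lit 0x10012) (nat_lit 0) pn))))))))) :=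
  Cl.node (nat_lit 0x16000c) (nat_lit 2) (by decide +kernel) (ClAll.succ (ClAll.succ ClAll.zero n252) s679)

def n254 : Cl (O (nat_lit 4)) (R (nat_lit 104465))
    (p (nat_lit 0x50612) (nat_lit 0) (p (nat_lit 0x40592) (nat_lit 0) (p (nat_lit 0x40492) (nat_lit 0) (p (nat_lit 0x30412) (nat_lit 0) (p (nat_lit 0x30212) (nat_lit 0) (p (nat_lit 0x20192) (nat_lit 0) (p (nat_lit 0x20092) (nat_lit 0) (p (nat_lit 0x10012) (nat_lit 0) pn)))))))) :=
  Cl.node (nat_lit 0x160004) (nat_lit 2) (by decide +kernel) (ClAll.succ (ClAll.succ ClAll.zero n253) s680)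

def n255 : Cl (O (nat_lit 4)) (R (nat_lit 104465))
    (p (nat_lit 0x40592) (nat_lit 0) (p (nat_lit 0x40492) (nat_lit 0) (p (nat_lit 0x30412) (nat_lit 0) (p (nat_lit 0x30212) (nat_lit 0) (p (nat_lit 0x20192) (nat_lit 0) (p (nat_lit 0x20092) (nat_lit 0) (p (nat_lit 0x10012) (nat_lit 0) pn))))))) :=
  Cl.node (nat_lit 0x50612) (nat_lit 1) (by decide +kernel) (ClAll.succ ClAll.zero n254)

def n256 : Cl (O (nat_lit 4)) (R (nat_lit 104465))
    (p (nat_lit 0x40492) (nat_lit 0) (p (nat_lit 0x30412) (nat_lit 0) (p (nat_lit 0x30212) (nat_lit 0) (p (nat_lit 0x20192) (nat_lit 0) (p (nat_lit 0x20092) (nat_lit 0) (p (nat_lit 0x10012) (nat_lit 0) pn)))))) :=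
  Cl.node (nat_lit 0x40592) (nat_lit 1) (by decide +kernel) (ClAll.succ ClAll.zero n255)

def n257 : Cl (O (nat_lit 4)) (R (nat_lit 104465))
    (p (nat_lit 0x30412) (nat_lit 0) (p (nat_lit 0x30212) (nat_lit 0) (p (nat_lit 0x20192) (nat_lit 0) (p (nat_lit 0x20092) (nat_lit 0) (p (nat_lit 0x10012) (nat_lit 0) pn))))) :=
  Cl.node (nat_lit 0x40492) (nat_lit 1) (by decide +kernel) (ClAll.succ ClAll.zero n256)

def n258 : Cl (O (nat_lit 4)) (R (nat_lit 104465))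
    (p (nat_lit 0x30212) (nat_lit 0) (p (nat_lit 0x20192) (nat_lit 0) (p (nat_lit 0x20092) (nat_lit 0) (p (nat_lit 0x10012) (nat_lit 0) pn)))) :=
  Cl.node (nat_lit 0x30412) (nat_lit 1) (by decide +kernel) (ClAll.succ ClAll.zero n257)

def n259 : Cl (O (nat_lit 4)) (R (nat_lit 104465))
    (p (nat_lit 0x20192) (nat_lit 0) (p (nat_lit 0x20092) (nat_lit 0) (p (nat_lit 0x10012) (nat_lit 0) pn))) :=
  Cl.node (nat_lit 0x30212) (nat_lit 1) (by decide +kernel) (ClAll.succ ClAll.zero n258)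

def n260 : Cl (O (nat_lit 4)) (R (nat_lit 104465))
    (p (nat_lit 0x20092) (nat_lit 0) (p (nat_lit 0x10012) (nat_lit 0) pn)) :=
  Cl.node (nat_lit 0x20192) (nat_lit 1) (by decide +kernel) (ClAll.succ ClAll.zero n259)

def n261 : Cl (O (nat_lit 4)) (R (nat_lit 104465))
    (p (nat_lit 0x10012) (nat_lit 0) pn) :=
  Cl.node (nat_lit 0x20092) (nat_lit 1) (by decide +kernel) (ClAll.succ ClAll.zero n260)

def n262 : Cl (O (nat_lit 4)) (R (nat_lit 104465))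
    pn :=
  Cl.node (nat_lit 0x10012) (nat_lit 1) (by decide +kernel) (ClAll.succ ClAll.zero n261)

theorem top : Cl (O (nat_lit 4)) (R (nat_lit 104465)) pn := n262

end Pool.Agent.Gen.F5.X12CD13m4
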